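import Pool.Agent.Helper86.LH.AGau

/-!
Cases Ia and IIb2.

Ia (`a2 ≥ 1/100`, `a1 ≥ 1/10^4`, so `a_i = u_i`): `N ≥ (u1u2)² - 90 q ≥ 10^(-12)/2`, `c ≤ 28`, so
`u3 u4 = N / c ≥ 10^(-14)`; `ρ τ ≤ 1`, `ρ τ ≥ a1² ≥ 10^(-8)`, `a3 a4 ≤ 1`.
IIb2: both `a_i ≤ 10^4 √q`; `(u1u2)² ≤ 10^16 q² ≤ q/9`; `N ≥ q/5`; `S, D ≤ 4 10^8 q`, so
`c ≤ 1.6 10^9 q`, `u3 u4 ≥ 10^(-10)`; `10^(-10) ≤ ρ τ ≤ 1`.
-/

namespace Pool.Agent.Helper86.LH

variable {q u1 z1 u2 z2 u3 z3 u4 z4 c N S D : ℝ}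

theorem ACI_R {q a1 a2 : ℝ} (h1 : 0 < a1) (h2 : 0 < a2) :
    a1 / a2 * max (a1 * a2) (q / (a1 * a2)) = max (a1 ^ 2) (q / a2 ^ 2) := by
  rw [mul_max_of_nonneg _ _ (by positivity)]
  have e1 : a1 / a2 * (a1 * a2) = a1 ^ 2 := by field_simp
  have e2 : a1 / a2 * (q / (a1 * a2)) = q / a2 ^ 2 := by field_simp
  rw [e1, e2]

theorem ACI_con (d : Dat q u1 z1 u2 z2 u3 z3 u4 z4 c N S D)
    (hR : 1 / 10 ^ 8 ≤ max ((max u1 (Real.sqrt q)) ^ 2) (q / (max u2 (Real.sqrt q)) ^ 2))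
    (hU : 1 / 10 ^ 14 ≤ u3 * u4) : Con q u1 u2 u3 u4 := by
  have hs : 0 < Real.sqrt q := Real.sqrt_pos.2 d.q0
  have hsq : Real.sqrt q ^ 2 = q := Real.sq_sqrt d.q0.le
  have hq1 : q ≤ 1 := d.qs.trans (by norm_num)
  have hs1 : Real.sqrt q ≤ 1 := by
    by_contra h
    have h' : 1 < Real.sqrt q := not_le.1 h
    nlinarith
  have b1 : u1 ≤ 1 := (le_max_left _ _).trans d.m1.le
  have b3 : u3 ≤ 1 := (le_max_left _ _).trans d.m3.le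
  have b4 : u4 ≤ 1 := (le_max_left _ _).trans d.m4.le
  have n3 := d.u3n
  have n4 := d.u4n
  set a1 := max u1 (Real.sqrt q) with ha1
  set a2 := max u2 (Real.sqrt q) with ha2
  set a3 := max u3 (Real.sqrt q) with ha3
  set a4 := max u4 (Real.sqrt q) with ha4
  have p1 : 0 < a1 := hs.trans_le (le_max_right _ _)
  have p2 : 0 < a2 := hs.trans_le (le_max_right _ _)
  have p3 : 0 < a3 := hs.trans_le (le_max_right _ _)
  have p4 : 0 < a4 := hs.trans_le (le_max_right _ _)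
  have l1 : a1 ≤ 1 := max_le b1 hs1
  have l3 : a3 ≤ 1 := max_le b3 hs1
  have l4 : a4 ≤ 1 := max_le b4 hs1
  have hR1 : max (a1 ^ 2) (q / a2 ^ 2) ≤ 1 := by
    refine max_le (pow_le_one₀ p1.le l1) ?_
    rw [div_le_one (by positivity)]
    calc q = Real.sqrt q ^ 2 := hsq.symm
      _ ≤ a2 ^ 2 := by
        have : Real.sqrt q ≤ a2 := le_max_right _ _
        gcongr
  have h34 : u3 * u4 ≤ a3 * a4 :=
    mul_le_mul (le_max_left _ _) (le_max_left _ _) n4 p3.le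
  have h34' : a3 * a4 ≤ 1 := mul_le_one₀ l3 p4.le l4
  unfold Con
  rw [← ha1, ← ha2, ← ha3, ← ha4, ACI_R p1 p2]
  constructor
  · calc a3 * a4 ≤ 1 := h34'
      _ ≤ 10 ^ 30 * (1 / 10 ^ 8) := by norm_num
      _ ≤ 10 ^ 30 * max (a1 ^ 2) (q / a2 ^ 2) := by gcongr
  · calc max (a1 ^ 2) (q / a2 ^ 2) ≤ 1 := hR1
      _ ≤ 10 ^ 30 * (1 / 10 ^ 14) := by norm_num
      _ ≤ 10 ^ 30 * (a3 * a4) := by
        have := hU.trans h34
        gcongr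

theorem case_Ia (d : Dat q u1 z1 u2 z2 u3 z3 u4 z4 c N S D)
    (h12 : max u1 (Real.sqrt q) ≤ max u2 (Real.sqrt q))
    (h2 : 1 / 100 ≤ max u2 (Real.sqrt q)) (h1 : 1 / 10 ^ 4 ≤ max u1 (Real.sqrt q)) :
    Con q u1 u2 u3 u4 := by
  have hs : 0 < Real.sqrt q := Real.sqrt_pos.2 d.q0
  have hsq : Real.sqrt q ^ 2 = q := Real.sq_sqrt d.q0.le
  have hqs := d.qs
  have hs1 : Real.sqrt q ≤ 1 / 10 ^ 10 := by
    by_contra h
    have h' : 1 / 10 ^ 10 < Real.sqrt q := not_le.1 h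
    nlinarith
  have e1 : 1 / 10 ^ 4 ≤ u1 := by
    rcases le_max_iff.1 h1 with h | h
    · exact h
    · exfalso
      have : (1 : ℝ) / 10 ^ 4 ≤ 1 / 10 ^ 10 := h.trans hs1
      norm_num at this
  have e2 : 1 / 100 ≤ u2 := by
    rcases le_max_iff.1 h2 with h | h
    · exact h
    · exfalso
      have : (1 : ℝ) / 100 ≤ 1 / 10 ^ 10 := h.trans hs1
      norm_num at this
  obtain ⟨-, t1, -, -, -, -, -, t2⟩ := d.triv
  refine ACI_con d ?_ ?_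
  · refine le_max_of_le_left ?_
    calc (1 : ℝ) / 10 ^ 8 = (1 / 10 ^ 4) ^ 2 := by norm_num
      _ ≤ (max u1 (Real.sqrt q)) ^ 2 := by gcongr
  · have h3 : (1 : ℝ) / 10 ^ 6 ≤ u1 * u2 := by
      calc (1 : ℝ) / 10 ^ 6 = 1 / 10 ^ 4 * (1 / 100) := by norm_num
        _ ≤ u1 * u2 := by gcongr
    have h4 : (1 : ℝ) / 10 ^ 12 ≤ (u1 * u2) ^ 2 := by
      calc (1 : ℝ) / 10 ^ 12 = (1 / 10 ^ 6) ^ 2 := by norm_num
        _ ≤ (u1 * u2) ^ 2 := by gcongr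
    have h5 : (1 : ℝ) / (2 * 10 ^ 12) ≤ N := by
      have : (90 : ℝ) * q ≤ 90 * (1 / 10 ^ 20) := by gcongr
      have e : (1 : ℝ) / 10 ^ 12 - 90 * (1 / 10 ^ 20) ≥ 1 / (2 * 10 ^ 12) := by norm_num
      linarith
    rw [d.Ne] at h5
    have h6 : c * (u3 * u4) ≤ 28 * (u3 * u4) := by
      have := mul_nonneg d.u3n d.u4n
      gcongr
    have h7 : (1 : ℝ) / (2 * 10 ^ 12) ≤ 28 * (u3 * u4) := h5.trans h6
    have e : (28 : ℝ) * (1 / 10 ^ 14) ≤ 1 / (2 * 10 ^ 12) := by norm_num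
    linarith

theorem case_IIb2 (d : Dat q u1 z1 u2 z2 u3 z3 u4 z4 c N S D)
    (h12 : max u1 (Real.sqrt q) ≤ max u2 (Real.sqrt q))
    (h2 : max u2 (Real.sqrt q) < 1 / 100)
    (h3 : max u2 (Real.sqrt q) < 100 * max u1 (Real.sqrt q))
    (h4 : u1 < 100 * Real.sqrt q ∨ u2 < 100 * Real.sqrt q) :
    Con q u1 u2 u3 u4 := by
  have hs : 0 < Real.sqrt q := Real.sqrt_pos.2 d.q0
  have hsq : Real.sqrt q ^ 2 = q := Real.sq_sqrt d.q0.le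
  have hqs := d.qs
  have hq0 := d.q0
  have ha2 : max u2 (Real.sqrt q) ≤ 10 ^ 4 * Real.sqrt q := by
    rcases h4 with h | h
    · have h5 : max u1 (Real.sqrt q) ≤ 100 * Real.sqrt q := max_le h.le (by linarith)
      linarith
    · exact max_le (by linarith) (by linarith)
  have g1 : u1 ≤ max u2 (Real.sqrt q) := (le_max_left _ _).trans h12
  have g2 : u2 ≤ max u2 (Real.sqrt q) := le_max_left _ _
  have f1 : u1 ≤ 10 ^ 4 * Real.sqrt q := g1.trans ha2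
  have f2 : u2 ≤ 10 ^ 4 * Real.sqrt q := g2.trans ha2
  have n1 := d.u1n
  have n2 := d.u2n
  obtain ⟨-, -, k1, -, k2, k3, -, k4, -⟩ := d.near (g1.trans_lt h2) (g2.trans_lt h2)
  have hp : u1 * u2 ≤ 10 ^ 8 * q := by
    calc u1 * u2 ≤ (10 ^ 4 * Real.sqrt q) * (10 ^ 4 * Real.sqrt q) := by gcongr
      _ = 10 ^ 8 * Real.sqrt q ^ 2 := by ring
      _ = 10 ^ 8 * q := by rw [hsq]
  have hp0 : 0 ≤ u1 * u2 := mul_nonneg n1 n2
  have hpp : (u1 * u2) ^ 2 ≤ 1 / 10 ^ 4 * q := by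
    calc (u1 * u2) ^ 2 ≤ (10 ^ 8 * q) ^ 2 := by gcongr
      _ = 10 ^ 16 * q * q := by ring
      _ ≤ 10 ^ 16 * (1 / 10 ^ 20) * q := by gcongr
      _ = 1 / 10 ^ 4 * q := by norm_num
  have hD : D ≤ 4 * 10 ^ 8 * q := by
    calc D ≤ (u1 + u2) ^ 2 := k4
      _ ≤ (10 ^ 4 * Real.sqrt q + 10 ^ 4 * Real.sqrt q) ^ 2 := by gcongr
      _ = 4 * 10 ^ 8 * Real.sqrt q ^ 2 := by ring
      _ = 4 * 10 ^ 8 * q := by rw [hsq]
  have hc : c ≤ 4 * (4 * 10 ^ 8 * q) := by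
    refine d.gauss.trans ?_
    have : max N (max S D) ≤ 4 * 10 ^ 8 * q := by
      refine max_le ?_ (max_le ?_ hD)
      · linarith
      · linarith
    linarith
  have hN : 3 / 10 * q ≤ N := by linarith
  refine ACI_con d ?_ ?_
  · refine le_max_of_le_right ?_
    have hpos : 0 < max u2 (Real.sqrt q) := hs.trans_le (le_max_right _ _)
    rw [le_div_iff₀ (by positivity)]
    calc 1 / 10 ^ 8 * (max u2 (Real.sqrt q)) ^ 2 ≤ 1 / 10 ^ 8 * (10 ^ 4 * Real.sqrt q) ^ 2 := by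
          gcongr
      _ = Real.sqrt q ^ 2 := by ring
      _ = q := hsq
  · rw [d.Ne] at hN
    have h6 : c * (u3 * u4) ≤ 4 * (4 * 10 ^ 8 * q) * (u3 * u4) := by
      have := mul_nonneg d.u3n d.u4n
      gcongr
    have h7 : q * (3 / 10) ≤ q * (16 * 10 ^ 8 * (u3 * u4)) := by linarith
    have h8 : (3 : ℝ) / 10 ≤ 16 * 10 ^ 8 * (u3 * u4) := le_of_mul_le_mul_left h7 hq0
    have e : (16 : ℝ) * 10 ^ 8 * (1 / 10 ^ 14) ≤ 3 / 10 := by norm_num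
    linarith

end Pool.Agent.Helper86.LH
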