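import Pool.Agent.Helper86.LH.AGau

/-!
Case IIa: `a2 < 1/100`, `100 a1 ≤ a2` (so `a2 = u2 ≥ 100 √q`, `u1 ≤ u2/100`, `z1 = z2 = 1`).

PROOF.  `0.98 a2² ≤ D ≤ 1.03 a2²`, `S ≤ 0.03 a2²`, `N ≤ 0.001 a2²`, so `0.98 a2² ≤ D ≤ c ≤ 4.2 a2²`
(`gauss`), `z3 z4 = D/c ≥ 0.23`.  `ρ τ = max a1² (q/a2²)`, `τ ≤ ρ`.
Upper: `u3 u4 = N/c ≤ 3.3 ρ τ`, `|u3 z4 - z3 u4| ≤ S/c ≤ 2.2 ρ`; `small_pair` (with `B² = 3.3 ρ²`)
gives `u3, u4 ≤ 50 ρ`; `a3 a4 = max of u3u4, √q u3, √q u4, q` and `√q ≤ τ`, `q ≤ ρ τ`.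
Lower: if `(u1u2)² ≥ 9 q` or `(u1u2)² ≤ q/9`: `N ≥ 0.2 max (a1a2)² q`, `u3 u4 = N/c ≥ 0.04 ρ τ`.
Otherwise `u1 u2` is between `√q/3` and `3 √q`, `a1 = u1`, `τ ≤ 3 √q`, `S ≥ 0.4 u1u2`,
`u3 z4 + z3 u4 ≥ S/c ≥ 0.09 ρ`, so `max u3 u4 ≥ 0.04 ρ`, `a3 a4 ≥ √q 0.04 ρ`.
-/

namespace Pool.Agent.Helper86.LH

variable {q u1 z1 u2 z2 u3 z3 u4 z4 c N S D : ℝ}

theorem ACIIa_R {q a1 a2 : ℝ} (h1 : 0 < a1) (h2 : 0 < a2) :
    a1 / a2 * max (a1 * a2) (q / (a1 * a2)) = max (a1 ^ 2) (q / a2 ^ 2) := by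
  rw [mul_max_of_nonneg _ _ (by positivity)]
  have e1 : a1 / a2 * (a1 * a2) = a1 ^ 2 := by field_simp
  have e2 : a1 / a2 * (q / (a1 * a2)) = q / a2 ^ 2 := by field_simp
  rw [e1, e2]

/-- The upper bound. -/
theorem ACIIa_up {q s a1 u1 u2 u3 z3 u4 z4 c N S D : ℝ} (hs : 0 < s) (hsq : s ^ 2 = q)
    (ha1 : s ≤ a1) (hu1 : u1 ≤ a1) (hu1n : 0 ≤ u1) (h100 : 100 * a1 ≤ u2) (hu2 : u2 < 1 / 100)
    (hu3n : 0 ≤ u3) (hu4n : 0 ≤ u4) (hz3n : 0 ≤ z3) (hz4n : 0 ≤ z4) (hz3 : z3 ≤ 1) (hz4 : z4 ≤ 1)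
    (hc1 : 98 / 100 * u2 ^ 2 ≤ c) (hc2 : c ≤ 42 / 10 * u2 ^ 2)
    (hN : N ≤ (u1 * u2) ^ 2 + 22 / 10 * q) (hS : S ≤ 204 / 100 * (u1 * u2) + 10 * q)
    (hD : (u1 - u2) ^ 2 ≤ D) (Ne : N = c * (u3 * u4)) (De : D = c * (z3 * z4))
    (Se : c * |u3 * z4 - z3 * u4| ≤ S) :
    max u3 s * max u4 s ≤ 10 ^ 30 * max (a1 ^ 2) (q / u2 ^ 2) := by
  have hu2p : 0 < u2 := by linarith
  have hu22 : 0 < u2 ^ 2 := by positivity
  have hcp : 0 < c := by nlinarith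
  have ha1p : 0 < a1 := by linarith
  obtain ⟨R, hR⟩ : ∃ R, R = max (a1 ^ 2) (q / u2 ^ 2) := ⟨_, rfl⟩
  have hR1 : a1 ^ 2 ≤ R := hR ▸ le_max_left _ _
  have hR2 : q / u2 ^ 2 ≤ R := hR ▸ le_max_right _ _
  have hR2' : q ≤ R * u2 ^ 2 := by
    rw [div_le_iff₀ hu22] at hR2
    exact hR2
  have hR0 : 0 < R := lt_of_lt_of_le (by positivity) hR1
  rw [← hR]
  -- the ratio
  obtain ⟨r, hr⟩ : ∃ r, r = a1 / u2 := ⟨_, rfl⟩
  have hr' : r * u2 = a1 := by rw [hr]; field_simp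
  have hr0 : 0 < r := by rw [hr]; positivity
  have hu21 : u2 ≤ 1 := by linarith
  -- `R ≤ r²`
  have hRr : R ≤ r ^ 2 := by
    rw [hR]
    refine max_le ?_ ?_
    · rw [← hr', mul_pow]
      have : u2 ^ 2 ≤ 1 := by nlinarith
      nlinarith [sq_nonneg r]
    · rw [div_le_iff₀ hu22, ← mul_pow, hr', ← hsq]
      exact pow_le_pow_left₀ hs.le ha1 2
  -- `s r ≤ R`
  have hsr : s * r ≤ R := by
    have h1 : (s * r) ^ 2 ≤ R * R := by
      calc (s * r) ^ 2 = q / u2 ^ 2 * a1 ^ 2 := by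
            rw [hr, mul_pow, div_pow, hsq]
            ring
        _ ≤ R * R := mul_le_mul hR2 hR1 (by positivity) hR0.le
    have h2 : 0 ≤ s * r := by positivity
    nlinarith
  -- `N / c`
  have hp : u3 * u4 ≤ 33 / 10 * R := by
    have h1 : (u1 * u2) ^ 2 ≤ R * u2 ^ 2 := by
      rw [mul_pow]
      refine mul_le_mul_of_nonneg_right ?_ hu22.le
      exact (pow_le_pow_left₀ hu1n hu1 2).trans hR1
    have h2 : N ≤ 32 / 10 * (R * u2 ^ 2) := by linarith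
    have h3 : 32 / 10 * (R * u2 ^ 2) ≤ c * (33 / 10 * R) := by
      have h4 : 98 / 100 * u2 ^ 2 * (33 / 10 * R) ≤ c * (33 / 10 * R) :=
        mul_le_mul_of_nonneg_right hc1 (by positivity)
      have h5 : 0 < R * u2 ^ 2 := by positivity
      nlinarith
    rw [Ne] at h2
    exact le_of_mul_le_mul_left (h2.trans h3) hcp
  -- `S / c`
  have hq1 : q ≤ a1 * u2 / 100 := by
    rw [← hsq]
    have h1 : s * s ≤ a1 * (u2 / 100) := mul_le_mul ha1 (by linarith) hs.le ha1p.le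
    nlinarith
  have hd : |u3 * z4 - z3 * u4| ≤ 22 / 10 * r := by
    have h1 : u1 * u2 ≤ a1 * u2 := mul_le_mul_of_nonneg_right hu1 hu2p.le
    have h0 : 0 < a1 * u2 := by positivity
    have h2 : S ≤ 215 / 100 * (a1 * u2) := by linarith
    have h3 : a1 * u2 = r * u2 ^ 2 := by rw [← hr']; ring
    have h4 : 98 / 100 * u2 ^ 2 * (22 / 10 * r) ≤ c * (22 / 10 * r) :=
      mul_le_mul_of_nonneg_right hc1 (by positivity)
    have h5 : 0 < r * u2 ^ 2 := by positivity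
    have h6 : c * |u3 * z4 - z3 * u4| ≤ c * (22 / 10 * r) := by
      refine Se.trans (h2.trans ?_)
      rw [h3]
      nlinarith
    exact le_of_mul_le_mul_left h6 hcp
  -- `z3 z4`
  have hzz : 23 / 100 ≤ z3 * z4 := by
    have h1 : (99 / 100 * u2) ^ 2 ≤ (u1 - u2) ^ 2 := by
      have : (u1 - u2) ^ 2 = (u2 - u1) ^ 2 := by ring
      rw [this]
      exact pow_le_pow_left₀ (by positivity) (by linarith) 2
    have h2 : c * (23 / 100) ≤ c * (z3 * z4) := by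
      rw [← De]
      nlinarith
    exact le_of_mul_le_mul_left h2 hcp
  have hz3' : 23 / 100 ≤ z3 := hzz.trans (by nlinarith)
  have hz4' : 23 / 100 ≤ z4 := hzz.trans (by nlinarith)
  obtain ⟨h3, h4⟩ := small_pair (A := 22 / 10 * r) (B := 2 * r) (k := 23 / 100) hu3n hu4n hz3 hz4
    (by norm_num) hz3' hz4' (by positivity) (by positivity) hd (by nlinarith)
  have h3' : u3 ≤ 50 * r := h3.trans (by
    rw [div_le_iff₀ (by norm_num)]
    linarith)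
  have h4' : u4 ≤ 50 * r := h4.trans (by
    rw [div_le_iff₀ (by norm_num)]
    linarith)
  have hm3 : max u3 s ≤ u3 + s := max_le (by linarith) (by linarith)
  have hm4 : max u4 s ≤ u4 + s := max_le (by linarith) (by linarith)
  have hqR : q ≤ R := by
    refine hR2'.trans ?_
    have : u2 ^ 2 ≤ 1 := by nlinarith
    nlinarith
  have k3 : s * u3 ≤ s * (50 * r) := mul_le_mul_of_nonneg_left h3' hs.le
  have k4 : s * u4 ≤ s * (50 * r) := mul_le_mul_of_nonneg_left h4' hs.le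
  calc max u3 s * max u4 s ≤ (u3 + s) * (u4 + s) :=
        mul_le_mul hm3 hm4 (le_max_of_le_left hu4n) (by positivity)
    _ = u3 * u4 + s * u3 + s * u4 + s ^ 2 := by ring
    _ ≤ 33 / 10 * R + 50 * R + 50 * R + R := by
        rw [hsq]
        linarith
    _ ≤ 10 ^ 30 * R := by
        have : (33 / 10 + 50 + 50 + 1 : ℝ) ≤ 10 ^ 30 := by norm_num
        nlinarith

/-- The lower bound. -/
theorem ACIIa_lo {q s u1 u2 u3 z3 u4 z4 c N S : ℝ} (hs : 0 < s) (hsq : s ^ 2 = q)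
    (hs1 : s ≤ 1 / 10 ^ 10)
    (hu1n : 0 ≤ u1) (h100 : 100 * max u1 s ≤ u2) (hu2 : u2 < 1 / 100)
    (hu3n : 0 ≤ u3) (hu4n : 0 ≤ u4) (hz3n : 0 ≤ z3) (hz4n : 0 ≤ z4) (hz3 : z3 ≤ 1) (hz4 : z4 ≤ 1)
    (hcp : 0 < c) (hc2 : c ≤ 42 / 10 * u2 ^ 2)
    (hN1 : (u1 * u2) ^ 2 - 22 / 10 * q ≤ N) (hN2 : 33 / 100 * q - (u1 * u2) ^ 2 ≤ N)
    (hS : 46 / 100 * (u1 * u2) - 10 * q ≤ S) (Ne : N = c * (u3 * u4))
    (Se : S ≤ c * (u3 * z4 + z3 * u4)) :
    max ((max u1 s) ^ 2) (q / u2 ^ 2) ≤ 10 ^ 30 * (max u3 s * max u4 s) := by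
  have hsm : s ≤ max u1 s := le_max_right _ _
  have hu2p : 0 < u2 := by linarith
  have hu22 : 0 < u2 ^ 2 := by positivity
  have hq0 : 0 < q := by rw [← hsq]; positivity
  have hp0 : 0 ≤ u1 * u2 := by positivity
  have h34 : u3 * u4 ≤ max u3 s * max u4 s :=
    mul_le_mul (le_max_left _ _) (le_max_left _ _) hu4n (le_max_of_le_left hu3n)
  have h340 : 0 ≤ u3 * u4 := by positivity
  rcases le_or_gt (9 * q) ((u1 * u2) ^ 2) with h | h
  · -- `u1 u2 ≥ 3 s`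
    have h1 : 3 * s ≤ u1 * u2 := by
      by_contra hc
      push Not at hc
      have h5 : (u1 * u2) ^ 2 < (3 * s) ^ 2 := pow_lt_pow_left₀ hc hp0 (by norm_num)
      have h6 : (3 * s) ^ 2 = 9 * q := by rw [← hsq]; ring
      linarith
    have h2 : s ≤ u1 := by
      by_contra hc
      push Not at hc
      have : u1 * u2 ≤ s * 1 := mul_le_mul hc.le (by linarith) hu2p.le hs.le
      linarith
    have hm : max u1 s = u1 := max_eq_left h2
    rw [hm]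
    have h3 : 75 / 100 * (u1 * u2) ^ 2 ≤ c * (u3 * u4) := by
      rw [← Ne]
      linarith
    have h4 : c * (u3 * u4) ≤ 42 / 10 * u2 ^ 2 * (u3 * u4) := mul_le_mul_of_nonneg_right hc2 h340
    have h5 : u1 ^ 2 ≤ 10 * (u3 * u4) := by
      have h6 : u2 ^ 2 * (75 / 100 * u1 ^ 2) ≤ u2 ^ 2 * (42 / 10 * (u3 * u4)) := by nlinarith
      have h7 := le_of_mul_le_mul_left h6 hu22
      linarith
    have h8 : max (u1 ^ 2) (q / u2 ^ 2) ≤ u1 ^ 2 := by
      refine max_le le_rfl ?_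
      rw [div_le_iff₀ hu22, ← mul_pow]
      linarith
    calc max (u1 ^ 2) (q / u2 ^ 2) ≤ u1 ^ 2 := h8
      _ ≤ 10 * (u3 * u4) := h5
      _ ≤ 10 ^ 30 * (u3 * u4) := by
          refine mul_le_mul_of_nonneg_right (by norm_num) h340
      _ ≤ 10 ^ 30 * (max u3 s * max u4 s) := by gcongr
  rcases le_or_gt ((u1 * u2) ^ 2) (q / 9) with h' | h'
  · have h1 : u1 * u2 ≤ s := by
      by_contra hc
      push Not at hc
      have : s ^ 2 < (u1 * u2) ^ 2 := pow_lt_pow_left₀ hc hs.le (by norm_num)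
      rw [hsq] at this
      linarith
    have h2 : max u1 s * u2 ≤ s := by
      rcases max_choice u1 s with hm | hm
      · rw [hm]; exact h1
      · rw [hm]
        nlinarith
    have h3 : (max u1 s) ^ 2 ≤ q / u2 ^ 2 := by
      rw [le_div_iff₀ hu22, ← mul_pow, ← hsq]
      exact pow_le_pow_left₀ (by positivity) h2 2
    have h4 : 2 / 10 * q ≤ c * (u3 * u4) := by
      rw [← Ne]
      linarith
    have h5 : c * (u3 * u4) ≤ 42 / 10 * u2 ^ 2 * (u3 * u4) := mul_le_mul_of_nonneg_right hc2 h340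
    have h6 : q / u2 ^ 2 ≤ 21 * (u3 * u4) := by
      rw [div_le_iff₀ hu22]
      nlinarith
    calc max ((max u1 s) ^ 2) (q / u2 ^ 2) ≤ q / u2 ^ 2 := max_le h3 le_rfl
      _ ≤ 21 * (u3 * u4) := h6
      _ ≤ 10 ^ 30 * (u3 * u4) := by
          refine mul_le_mul_of_nonneg_right (by norm_num) h340
      _ ≤ 10 ^ 30 * (max u3 s * max u4 s) := by gcongr
  · -- the middle case
    have h1 : s / 3 < u1 * u2 := by
      by_contra hc
      push Not at hc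
      have : (u1 * u2) ^ 2 ≤ (s / 3) ^ 2 := pow_le_pow_left₀ hp0 hc 2
      rw [div_pow, hsq] at this
      linarith
    have h2 : s ≤ u1 := by
      by_contra hc
      push Not at hc
      have : u1 * u2 ≤ s * (1 / 100) := mul_le_mul hc.le hu2.le hu2p.le hs.le
      linarith
    have hm : max u1 s = u1 := max_eq_left h2
    rw [hm]
    have h3 : max (u1 ^ 2) (q / u2 ^ 2) ≤ 9 * (q / u2 ^ 2) := by
      have h4 : 0 < q / u2 ^ 2 := by positivity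
      refine max_le ?_ (by linarith)
      rw [← mul_div_assoc, le_div_iff₀ hu22, ← mul_pow]
      exact h.le
    have h5 : 4 / 10 * (u1 * u2) ≤ S := by
      have h6 : q ≤ 1 / 10 ^ 10 * s := by
        rw [← hsq, pow_two]
        exact mul_le_mul_of_nonneg_right hs1 hs.le
      have h7 : (1 : ℝ) / 10 ^ 10 * s ≤ s / 1000 := by
        have : (1 : ℝ) / 10 ^ 10 ≤ 1 / 1000 := by norm_num
        nlinarith
      linarith
    have h8 : u3 * z4 + z3 * u4 ≤ u3 + u4 := by nlinarith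
    have h9 : 4 / 10 * (u1 * u2) ≤ 42 / 10 * u2 ^ 2 * (u3 + u4) := by
      have h10 : c * (u3 * z4 + z3 * u4) ≤ c * (u3 + u4) := mul_le_mul_of_nonneg_left h8 hcp.le
      have h11 : c * (u3 + u4) ≤ 42 / 10 * u2 ^ 2 * (u3 + u4) :=
        mul_le_mul_of_nonneg_right hc2 (by positivity)
      linarith
    -- `s ≤ 32 u2² (u3 + u4)`
    have h12 : s ≤ 32 * u2 ^ 2 * (u3 + u4) := by linarith
    have h13 : u3 + u4 ≤ 2 * max u3 u4 := by
      have := le_max_left u3 u4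
      have := le_max_right u3 u4
      linarith
    have h14 : s * max u3 u4 ≤ max u3 s * max u4 s := by
      rcases max_choice u3 u4 with hm | hm
      · rw [hm, mul_comm]
        exact mul_le_mul (le_max_left _ _) (le_max_right _ _) hs.le (le_max_of_le_left hu3n)
      · rw [hm]
        exact mul_le_mul (le_max_right _ _) (le_max_left _ _) hu4n (le_max_of_le_left hu3n)
    have h15 : q / u2 ^ 2 ≤ 64 * (s * max u3 u4) := by
      rw [div_le_iff₀ hu22, ← hsq]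
      have h16 : 32 * u2 ^ 2 * (u3 + u4) ≤ 32 * u2 ^ 2 * (2 * max u3 u4) :=
        mul_le_mul_of_nonneg_left h13 (by positivity)
      have h17 : s * s ≤ s * (32 * u2 ^ 2 * (2 * max u3 u4)) :=
        mul_le_mul_of_nonneg_left (h12.trans h16) hs.le
      nlinarith
    have h18 : 0 ≤ max u3 s * max u4 s := h340.trans h34
    calc max (u1 ^ 2) (q / u2 ^ 2) ≤ 9 * (q / u2 ^ 2) := h3
      _ ≤ 9 * (64 * (max u3 s * max u4 s)) := by linarith
      _ ≤ 10 ^ 30 * (max u3 s * max u4 s) := by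
          rw [← mul_assoc]
          exact mul_le_mul_of_nonneg_right (by norm_num) h18

theorem case_IIa (d : Dat q u1 z1 u2 z2 u3 z3 u4 z4 c N S D)
    (h12 : max u1 (Real.sqrt q) ≤ max u2 (Real.sqrt q))
    (h2 : max u2 (Real.sqrt q) < 1 / 100)
    (h3 : 100 * max u1 (Real.sqrt q) ≤ max u2 (Real.sqrt q)) :
    Con q u1 u2 u3 u4 := by
  have hs : 0 < Real.sqrt q := Real.sqrt_pos.2 d.q0
  have hsq : Real.sqrt q ^ 2 = q := Real.sq_sqrt d.q0.le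
  have hs1 : Real.sqrt q ≤ 1 / 10 ^ 10 := by
    by_contra h
    have h' : 1 / 10 ^ 10 < Real.sqrt q := not_le.1 h
    have h4 : (1 / 10 ^ 10 : ℝ) ^ 2 < Real.sqrt q ^ 2 := pow_lt_pow_left₀ h' (by norm_num)
      (by norm_num)
    rw [hsq] at h4
    have h5 := d.qs
    have h6 : (1 / 10 ^ 10 : ℝ) ^ 2 = 1 / 10 ^ 20 := by norm_num
    linarith
  have hsm : Real.sqrt q ≤ max u1 (Real.sqrt q) := le_max_right _ _
  have hm2 : max u2 (Real.sqrt q) = u2 := by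
    rcases max_choice u2 (Real.sqrt q) with h | h
    · exact h
    · rw [h] at h3
      linarith
  have hu1m : u1 ≤ max u1 (Real.sqrt q) := le_max_left _ _
  have hu1n := d.u1n
  have hu3n := d.u3n
  have hu4n := d.u4n
  have hz3n := d.z3n
  have hz4n := d.z4n
  obtain ⟨_, _, hz3⟩ := AGau_max d.m3
  obtain ⟨_, _, hz4⟩ := AGau_max d.m4
  rw [hm2] at h2 h3
  have hu2p : 0 < u2 := by linarith
  have hu22 : 0 < u2 ^ 2 := by positivity
  obtain ⟨_, _, n1, n2, n3, s1, s2, d1, d2⟩ := d.near (by linarith) h2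
  obtain ⟨_, _, _, _, _, hDc, _, _⟩ := d.triv
  have hu1u2 : u1 ≤ u2 / 100 := by linarith
  -- bounds of `D`, `S`, `N`, `c`
  have hc1 : 98 / 100 * u2 ^ 2 ≤ c := by
    refine le_trans ?_ hDc
    refine le_trans ?_ d2
    nlinarith
  have hq2 : q ≤ u2 ^ 2 / 10000 := by
    have h4 : Real.sqrt q ≤ u2 / 100 := by linarith
    have h5 : Real.sqrt q ^ 2 ≤ (u2 / 100) ^ 2 := pow_le_pow_left₀ hs.le h4 2
    rw [hsq] at h5
    linarith [h5, (by ring : (u2 / 100) ^ 2 = u2 ^ 2 / 10000)]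
  have hp1 : u1 * u2 ≤ u2 ^ 2 / 100 := by nlinarith
  have hc2 : c ≤ 42 / 10 * u2 ^ 2 := by
    refine d.gauss.trans ?_
    have h4 : max N (max S D) ≤ 105 / 100 * u2 ^ 2 := by
      refine max_le ?_ (max_le ?_ ?_)
      · have h5 : (u1 * u2) ^ 2 ≤ (u2 ^ 2 / 100) ^ 2 :=
          pow_le_pow_left₀ (by positivity) hp1 2
        have h6 : (u2 ^ 2 / 100) ^ 2 ≤ u2 ^ 2 / 10000 := by
          have : u2 ^ 2 ≤ 1 := by nlinarith
          nlinarith
        linarith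
      · linarith
      · refine d1.trans ?_
        have h5 : (u1 + u2) ^ 2 ≤ (101 / 100 * u2) ^ 2 :=
          pow_le_pow_left₀ (by positivity) (by linarith) 2
        nlinarith
    linarith
  have p1 : 0 < max u1 (Real.sqrt q) := hs.trans_le hsm
  unfold Con
  rw [hm2, ACIIa_R p1 hu2p]
  exact ⟨ACIIa_up hs hsq hsm hu1m hu1n h3 h2 hu3n hu4n hz3n hz4n hz3 hz4 hc1 hc2 n1 s1 d2 d.Ne d.De
      d.Se',
    ACIIa_lo hs hsq hs1 hu1n h3 h2 hu3n hu4n hz3n hz4n hz3 hz4 d.c0 hc2 n2 n3 s2 d.Ne d.Se⟩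

end Pool.Agent.Helper86.LH
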