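import Pool.Agent.Helper86.LH.AGau

/-!
Case IIb1: `a2 < 1/100`, `a2 < 100 a1`, `u1, u2 ≥ 100 √q` (so `a_i = u_i`, `1/100 ≤ ρ ≤ 1`).

PROOF.  `S ≥ 0.45 u1u2`, `S ≤ 2.1 u1u2`, `D ≤ (u1+u2)² ≤ 4 u2² ≤ 400 u1u2`, `N ≤ u1u2`, so
`c ≤ 1600 u1u2` (`gauss`) and `c ≥ S/2 ≥ 0.22 u1u2`.
Upper: `u3u4 = N/c ≤ 15 τ`, `a3 a4 ≤ max (15 τ) √q ≤ 15 τ ≤ 1500 ρ τ` (`u3, u4 ≤ 1`, `√q ≤ τ`).
Lower: if `(u1u2)² ≥ 9q` or `≤ q/9` then `N ≥ 0.2 max (u1u2)² q`, `u3 u4 ≥ τ/8000`.  Otherwise
`τ ≤ 3 √q`, `u3 z4 + z3 u4 ≥ S/c ≥ 0.45/1600`, so `max u3 u4 ≥ 10^(-4)`, `a3 a4 ≥ √q 10^(-4)`.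
-/

namespace Pool.Agent.Helper86.LH

variable {q u1 z1 u2 z2 u3 z3 u4 z4 c N S D : ℝ}

theorem case_IIb1 (d : Dat q u1 z1 u2 z2 u3 z3 u4 z4 c N S D)
    (h12 : max u1 (Real.sqrt q) ≤ max u2 (Real.sqrt q))
    (h2 : max u2 (Real.sqrt q) < 1 / 100)
    (h3 : max u2 (Real.sqrt q) < 100 * max u1 (Real.sqrt q))
    (h4 : 100 * Real.sqrt q ≤ u1) (h5 : 100 * Real.sqrt q ≤ u2) :
    Con q u1 u2 u3 u4 := by
  have hq0 := d.q0
  have hqs := d.qs
  have hs2 : Real.sqrt q ^ 2 = q := Real.sq_sqrt hq0.le
  have hs0 : 0 < Real.sqrt q := Real.sqrt_pos.2 hq0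
  unfold Con
  generalize Real.sqrt q = s at *
  have e1 : max u1 s = u1 := max_eq_left (by linarith)
  have e2 : max u2 s = u2 := max_eq_left (by linarith)
  rw [e1, e2] at h12 h3
  rw [e2] at h2
  rw [e1, e2]
  have hu1 : 0 < u1 := by linarith
  have hu2 : 0 < u2 := by linarith
  have hP0 : 0 < u1 * u2 := mul_pos hu1 hu2
  have hPq : 10000 * q ≤ u1 * u2 := by
    have := mul_le_mul h4 h5 (by positivity) hu1.le
    linarith only [this, hs2]
  have hPs : u1 * u2 ≤ 1 / 10000 := by
    have := mul_le_mul (by linarith : u1 ≤ 1 / 100) (by linarith : u2 ≤ 1 / 100) hu2.le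
      (by norm_num)
    linarith only [this]
  obtain ⟨-, -, hN1, hN2, hN3, hS1, hS2, hD1, -⟩ := d.near (by linarith) h2
  have hD2 : D ≤ 400 * (u1 * u2) := by
    have e1 := mul_le_mul_of_nonneg_right h3.le hu2.le
    have e2 := mul_le_mul_of_nonneg_right h12 hu1.le
    linarith only [e1, e2, hD1, hP0]
  have hgauss := d.gauss
  have hSe := d.Se
  have hNe := d.Ne
  have hc0 := d.c0
  have hu3 := d.u3n
  have hu4 := d.u4n
  have hz3 := d.z3n
  have hz4 := d.z4n
  have hu31 : u3 ≤ 1 := by have := d.m3; exact this ▸ le_max_left _ _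
  have hz31 : z3 ≤ 1 := by have := d.m3; exact this ▸ le_max_right _ _
  have hu41 : u4 ≤ 1 := by have := d.m4; exact this ▸ le_max_left _ _
  have hz41 : z4 ≤ 1 := by have := d.m4; exact this ▸ le_max_right _ _
  clear d
  generalize hP : u1 * u2 = P at *
  have hNP : N ≤ P := by
    have := mul_le_mul_of_nonneg_left hPs hP0.le
    linarith only [this, hN1, hPq, hP0]
  have hc1 : c ≤ 1600 * P := by
    have : max N (max S D) ≤ 400 * P := by
      refine max_le (by linarith) (max_le (by linarith) hD2)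
    linarith
  have hsum : u3 * z4 + z3 * u4 ≤ u3 + u4 := by
    have e1 := mul_le_mul_of_nonneg_left hz41 hu3
    have e2 := mul_le_mul_of_nonneg_right hz31 hu4
    linarith only [e1, e2]
  have hsum2 : u3 + u4 ≤ 2 := by linarith
  have hc2 : 22 / 100 * P ≤ c := by
    have e1 := mul_le_mul_of_nonneg_left (hsum.trans hsum2) hc0.le
    linarith only [e1, hSe, hS2, hPq, hP0]
  -- τ
  have hτ1 : P ≤ max P (q / P) := le_max_left _ _
  have hτ2 : q / P ≤ max P (q / P) := le_max_right _ _
  have hqP : q / P * P = q := div_mul_cancel₀ q hP0.ne'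
  have hqP0 : 0 < q / P := div_pos hq0 hP0
  have hτs : s ≤ max P (q / P) := by
    by_contra hcon
    rw [not_le] at hcon
    have h1 : P < s := lt_of_le_of_lt hτ1 hcon
    have h2 : q / P < s := lt_of_le_of_lt hτ2 hcon
    have e1 := mul_lt_mul h2 h1.le hP0 hs0.le
    rw [hqP] at e1
    linarith only [e1, hs2]
  have hρ1 : 1 / 100 ≤ u1 / u2 := by
    rw [le_div_iff₀ hu2]
    linarith
  have hρ2 : u1 / u2 ≤ 1 := by
    rw [div_le_one hu2]
    exact h12
  have hU : u3 * u4 ≤ 15 * max P (q / P) := by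
    have h1 : c * (u3 * u4) ≤ P ^ 2 + 22 / 10 * q := by rw [← hNe]; exact hN1
    have h2 : 22 / 100 * P * (u3 * u4) ≤ P ^ 2 + 22 / 10 * q :=
      le_trans (mul_le_mul_of_nonneg_right hc2 (mul_nonneg hu3 hu4)) h1
    have h3 : 22 / 100 * (u3 * u4) ≤ P + 22 / 10 * (q / P) := by
      by_contra hcon
      rw [not_le] at hcon
      have := mul_lt_mul_of_pos_right hcon hP0
      linarith only [this, h2, hqP]
    linarith
  have hL : max P (q / P) ≤ 10 ^ 5 * (max u3 s * max u4 s) := by
    have g3 : u3 ≤ max u3 s := le_max_left _ _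
    have g3' : s ≤ max u3 s := le_max_right _ _
    have g4 : u4 ≤ max u4 s := le_max_left _ _
    have g4' : s ≤ max u4 s := le_max_right _ _
    have hprod : u3 * u4 ≤ max u3 s * max u4 s :=
      mul_le_mul g3 g4 hu4 (le_trans hu3 g3)
    have hcU : c * (u3 * u4) ≤ 1600 * P * (u3 * u4) :=
      mul_le_mul_of_nonneg_right hc1 (mul_nonneg hu3 hu4)
    rcases le_or_gt (9 * q) (P ^ 2) with hA | hA
    · -- P large
      have h1 : 3 / 4 * P ^ 2 ≤ N := by linarith
      have h2 : 3 / 4 * P ^ 2 ≤ 1600 * P * (u3 * u4) := by rw [hNe] at h1; linarith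
      have h3 : 3 / 4 * P ≤ 1600 * (u3 * u4) := by
        by_contra hcon
        rw [not_le] at hcon
        have := mul_lt_mul_of_pos_right hcon hP0
        linarith only [this, h2]
      have h4 : q / P ≤ P := by
        rw [div_le_iff₀ hP0]
        linarith only [hA, hq0]
      rw [max_eq_left h4]
      linarith
    · rcases le_or_gt (P ^ 2) (q / 9) with hB | hB
      · have h1 : 2 / 10 * q ≤ N := by linarith
        have h2 : 2 / 10 * q ≤ 1600 * P * (u3 * u4) := by rw [hNe] at h1; linarith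
        have h3 : 2 / 10 * (q / P) ≤ 1600 * (u3 * u4) := by
          by_contra hcon
          rw [not_le] at hcon
          have := mul_lt_mul_of_pos_right hcon hP0
          linarith only [this, h2, hqP]
        have h4 : P ≤ q / P := by
          rw [le_div_iff₀ hP0]
          linarith only [hB, hq0]
        rw [max_eq_right h4]
        linarith
      · -- middle
        have h1 : P ≤ 3 * s :=
          (pow_le_pow_iff_left₀ hP0.le (by positivity) two_ne_zero).1
            (by rw [mul_pow, hs2]; linarith only [hA])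
        have h2 : s ≤ 3 * P :=
          (pow_le_pow_iff_left₀ hs0.le (by positivity) two_ne_zero).1
            (by rw [mul_pow, hs2]; linarith only [hB])
        have h3 : q / P ≤ 3 * s := by
          rw [div_le_iff₀ hP0]
          have := mul_le_mul_of_nonneg_left h2 hs0.le
          linarith only [this, hs2]
        have hτ : max P (q / P) ≤ 3 * s := max_le h1 h3
        have h5 : 45 / 100 * P ≤ c * (u3 + u4) := by
          have : c * (u3 * z4 + z3 * u4) ≤ c * (u3 + u4) := mul_le_mul_of_nonneg_left hsum hc0.le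
          linarith
        have h6 : c * (u3 + u4) ≤ 1600 * P * (u3 + u4) :=
          mul_le_mul_of_nonneg_right hc1 (by linarith)
        have h7 : 45 / 100 ≤ 1600 * (u3 + u4) := by
          by_contra hcon
          rw [not_le] at hcon
          have := mul_lt_mul_of_pos_right hcon hP0
          linarith only [this, h5, h6]
        have h8 : 1 / 10000 * s ≤ max u3 s * max u4 s := by
          rcases le_total u3 u4 with h | h
          · have h9 : 1 / 10000 ≤ max u4 s := by linarith
            calc 1 / 10000 * s ≤ max u4 s * s := mul_le_mul_of_nonneg_right h9 hs0.le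
              _ = s * max u4 s := mul_comm _ _
              _ ≤ max u3 s * max u4 s := mul_le_mul_of_nonneg_right g3' (by linarith)
          · have h9 : 1 / 10000 ≤ max u3 s := by linarith
            calc 1 / 10000 * s ≤ max u3 s * s := mul_le_mul_of_nonneg_right h9 hs0.le
              _ ≤ max u3 s * max u4 s := mul_le_mul_of_nonneg_left g4' (by linarith)
        linarith
  have hτ0 : 0 < max P (q / P) := lt_of_lt_of_le hP0 hτ1
  have hV : max u3 s * max u4 s ≤ 15 * max P (q / P) := by
    have hs1 : s ≤ 1 := by linarith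
    rcases le_total u3 s with h | h <;> rcases le_total u4 s with h' | h'
    · rw [max_eq_right h, max_eq_right h']
      have := mul_le_mul_of_nonneg_left hs1 hs0.le
      linarith only [this, hτs, hτ0]
    · rw [max_eq_right h, max_eq_left h']
      have := mul_le_mul_of_nonneg_left hu41 hs0.le
      linarith only [this, hτs, hτ0]
    · rw [max_eq_left h, max_eq_right h']
      have := mul_le_mul_of_nonneg_right hu31 hs0.le
      linarith only [this, hτs, hτ0]
    · rw [max_eq_left h, max_eq_left h']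
      exact hU
  generalize max P (q / P) = τ at *
  generalize u1 / u2 = ρ at *
  generalize max u3 s * max u4 s = A at *
  have k1 := mul_le_mul_of_nonneg_right hρ1 hτ0.le
  have k2 := mul_le_mul_of_nonneg_right hρ2 hτ0.le
  have hA0 : 0 < A := by linarith only [hL, hτ0]
  constructor
  · linarith only [k1, hV, hτ0]
  · linarith only [k2, hL, hA0]

end Pool.Agent.Helper86.LH
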