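import Pool.Agent.Helper86.LH.AGau

/-!
Case Ib: `a2 ≥ 1/100` (so `a2 = u2`), `a1 < 1/10^4` (so `z1 = 1`).

PROOF.  `√D ≥ u2 - u1 ≥ 0.0099`, `c ≥ D ≥ 9.8e-5`, `c ≤ 28`, so `z3 z4 = D/c ≥ 3.5e-6`, both
`z3, z4 ≥ 3.5e-6`.  `S ≤ 7 a1`, `N ≤ 91 a1²` (`q ≤ a1²`).  `small_pair`: `u3, u4 ≤ 10^12 a1`, so
`a3 a4 ≤ 10^24 a1² ≤ 10^24 ρ τ`.  `ρ τ = max a1² (q/a2²) ≤ 10^4 a1²`.  If `a1² ≤ 10^8 q` use
`a3 a4 ≥ q`; otherwise `a1 = u1`, `N ≥ (u1u2)² - 90 q ≥ (u1u2)²/2 ≥ a1²/(2 10^4)` and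
`u3 u4 = N/c`.
-/

namespace Pool.Agent.Helper86.LH

variable {q u1 z1 u2 z2 u3 z3 u4 z4 c N S D : ℝ}

theorem case_Ib (d : Dat q u1 z1 u2 z2 u3 z3 u4 z4 c N S D)
    (h12 : max u1 (Real.sqrt q) ≤ max u2 (Real.sqrt q))
    (h2 : 1 / 100 ≤ max u2 (Real.sqrt q)) (h1 : max u1 (Real.sqrt q) < 1 / 10 ^ 4) :
    Con q u1 u2 u3 u4 := by
  have hq0 := d.q0
  obtain ⟨hN1, hN2, hS1, -, -, hDc, -, hc28⟩ := d.triv
  unfold Con
  set s : ℝ := Real.sqrt q with hsdef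
  have hss : s * s = q := Real.mul_self_sqrt hq0.le
  have hs0 : 0 < s := Real.sqrt_pos.2 hq0
  have hs10 : s ≤ 1 / 10 ^ 10 := by
    rw [hsdef]
    refine Real.sqrt_le_iff.2 ⟨by positivity, d.qs.trans (le_of_eq ?_)⟩
    norm_num
  have hu2s : s ≤ u2 := by
    by_contra h
    push Not at h
    rw [max_eq_right h.le] at h2
    have h3 : (1 : ℝ) / 10 ^ 10 < 1 / 100 := by norm_num
    linarith
  have hA2 : max u2 s = u2 := max_eq_left hu2s
  rw [hA2] at h2 h12 ⊢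
  set A : ℝ := max u1 s with hAdef
  have hu1A : u1 ≤ A := le_max_left _ _
  have hsA : s ≤ A := le_max_right _ _
  have hA0 : 0 < A := lt_of_lt_of_le hs0 hsA
  have hu1n := d.u1n
  have hu2le : u2 ≤ 1 := d.m2 ▸ le_max_left _ _
  have hz2le : z2 ≤ 1 := d.m2 ▸ le_max_right _ _
  have hz3le : z3 ≤ 1 := d.m3 ▸ le_max_right _ _
  have hz4le : z4 ≤ 1 := d.m4 ▸ le_max_right _ _
  have hz1 : z1 = 1 := by
    have h3 := d.m1
    rcases le_total u1 z1 with h | h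
    · rwa [max_eq_right h] at h3
    · rw [max_eq_left h] at h3
      exfalso
      have h4 : (1 : ℝ) / 10 ^ 4 < 1 := by norm_num
      linarith
  have hqA : q ≤ A ^ 2 := by
    rw [← hss, pow_two]
    exact mul_le_mul hsA hsA hs0.le hA0.le
  have hqA' : q ≤ A * (1 / 10 ^ 10) := by
    rw [← hss]
    exact mul_le_mul hsA hs10 hs0.le hA0.le
  have hu12 : u1 * u2 ≤ A := by
    calc u1 * u2 ≤ u1 * 1 := mul_le_mul_of_nonneg_left hu2le hu1n
      _ ≤ A := by rw [mul_one]; exact hu1A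
  have hu12n : 0 ≤ u1 * u2 := mul_nonneg hu1n d.u2n
  have hu2pos : 0 < u2 := lt_of_lt_of_le hs0 hu2s
  -- the lower bound for D
  have hD : 98 / 10 ^ 6 ≤ D := by
    have h3 := d.Dge
    rw [hz1, one_mul] at h3
    have h4 : u1 * z2 ≤ 1 / 10 ^ 4 := by
      calc u1 * z2 ≤ u1 * 1 := mul_le_mul_of_nonneg_left hz2le hu1n
        _ ≤ 1 / 10 ^ 4 := by rw [mul_one]; exact hu1A.trans h1.le
    have h5 : 99 / 10 ^ 4 ≤ u2 - u1 * z2 := by
      have h6 : (99 : ℝ) / 10 ^ 4 = 1 / 100 - 1 / 10 ^ 4 := by norm_num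
      rw [h6]
      linarith
    have h6 : ((99 : ℝ) / 10 ^ 4) ^ 2 ≤ (u2 - u1 * z2) ^ 2 :=
      pow_le_pow_left₀ (by norm_num) h5 2
    have h7 : (u1 * z2 - u2) ^ 2 = (u2 - u1 * z2) ^ 2 := by ring
    rw [h7] at h3
    have h8 : (98 : ℝ) / 10 ^ 6 ≤ (99 / 10 ^ 4) ^ 2 := by norm_num
    linarith
  have hc : 98 / 10 ^ 6 ≤ c := hD.trans hDc
  have hz34 : 35 / 10 ^ 7 ≤ z3 * z4 := by
    have h3 : D ≤ 28 * (z3 * z4) := by
      rw [d.De]
      exact mul_le_mul_of_nonneg_right hc28 (mul_nonneg d.z3n d.z4n)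
    norm_num at hD h3 ⊢
    linarith
  have hz3 : 35 / 10 ^ 7 ≤ z3 := hz34.trans (by
    calc z3 * z4 ≤ z3 * 1 := mul_le_mul_of_nonneg_left hz4le d.z3n
      _ = z3 := mul_one _)
  have hz4 : 35 / 10 ^ 7 ≤ z4 := hz34.trans (by
    calc z3 * z4 ≤ 1 * z4 := mul_le_mul_of_nonneg_right hz3le d.z4n
      _ = z4 := one_mul _)
  -- upper bounds
  have hS : S ≤ 7 * A := by
    norm_num at hqA'
    linarith
  have hSc : |u3 * z4 - z3 * u4| ≤ 10 ^ 5 * A := by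
    have h3 : 98 / 10 ^ 6 * |u3 * z4 - z3 * u4| ≤ c * |u3 * z4 - z3 * u4| :=
      mul_le_mul_of_nonneg_right hc (abs_nonneg _)
    have h4 := h3.trans (d.Se'.trans hS)
    norm_num at h4 ⊢
    linarith
  have hN : N ≤ 91 * A ^ 2 := by
    have h3 : (u1 * u2) ^ 2 ≤ A ^ 2 := pow_le_pow_left₀ hu12n hu12 2
    linarith
  have hu34n : 0 ≤ u3 * u4 := mul_nonneg d.u3n d.u4n
  have hNc : u3 * u4 ≤ (10 ^ 3 * A) ^ 2 := by
    have h3 : 98 / 10 ^ 6 * (u3 * u4) ≤ c * (u3 * u4) := mul_le_mul_of_nonneg_right hc hu34n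
    rw [← d.Ne] at h3
    have h4 := h3.trans hN
    rw [mul_pow]
    norm_num at h4 ⊢
    have h5 := sq_nonneg A
    linarith
  obtain ⟨h3a, h4a⟩ := small_pair d.u3n d.u4n hz3le hz4le (by norm_num : (0 : ℝ) < 35 / 10 ^ 7)
    hz3 hz4 (by positivity : (0 : ℝ) ≤ 10 ^ 5 * A) (by positivity : (0 : ℝ) ≤ 10 ^ 3 * A) hSc hNc
  have hk : (2 * (10 ^ 5 * A) + 2 * (10 ^ 3 * A)) / (35 / 10 ^ 7) ≤ 10 ^ 11 * A := by
    rw [div_le_iff₀ (by norm_num)]
    norm_num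
    linarith
  have ha3 : max u3 s ≤ 10 ^ 11 * A := max_le (h3a.trans hk) (by norm_num; linarith)
  have ha4 : max u4 s ≤ 10 ^ 11 * A := max_le (h4a.trans hk) (by norm_num; linarith)
  have ha3n : 0 ≤ max u3 s := hs0.le.trans (le_max_right _ _)
  have ha4n : 0 ≤ max u4 s := hs0.le.trans (le_max_right _ _)
  have hAu : 0 < A * u2 := mul_pos hA0 hu2pos
  constructor
  · have h3 : max u3 s * max u4 s ≤ (10 ^ 11 * A) * (10 ^ 11 * A) :=
      mul_le_mul ha3 ha4 ha4n (by positivity)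
    have h4 : A ^ 2 ≤ A / u2 * max (A * u2) (q / (A * u2)) := by
      calc A ^ 2 = A / u2 * (A * u2) := by field_simp
        _ ≤ A / u2 * max (A * u2) (q / (A * u2)) :=
          mul_le_mul_of_nonneg_left (le_max_left _ _) (by positivity)
    have h5 : (10 ^ 11 * A) * (10 ^ 11 * A) ≤ 10 ^ 30 * A ^ 2 := by
      have h6 := sq_nonneg A
      have h7 : (10 ^ 11 * A) * (10 ^ 11 * A) = 10 ^ 22 * A ^ 2 := by ring
      rw [h7]
      exact mul_le_mul_of_nonneg_right (by norm_num) h6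
    exact h3.trans (h5.trans (mul_le_mul_of_nonneg_left h4 (by positivity)))
  · have hrt : A / u2 * max (A * u2) (q / (A * u2)) ≤ 10 ^ 4 * A ^ 2 := by
      rw [mul_max_of_nonneg _ _ (by positivity : (0 : ℝ) ≤ A / u2)]
      refine max_le ?_ ?_
      · have h3 : A / u2 * (A * u2) = A ^ 2 := by field_simp
        rw [h3]
        have := sq_nonneg A
        linarith
      · have h3 : A / u2 * (q / (A * u2)) = q / u2 ^ 2 := by
          field_simp
        rw [h3, div_le_iff₀ (by positivity)]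
        have h4 : (1 / 100 : ℝ) ^ 2 ≤ u2 ^ 2 := pow_le_pow_left₀ (by norm_num) h2 2
        calc q ≤ A ^ 2 := hqA
          _ = 10 ^ 4 * A ^ 2 * (1 / 100) ^ 2 := by ring
          _ ≤ 10 ^ 4 * A ^ 2 * u2 ^ 2 := mul_le_mul_of_nonneg_left h4 (by positivity)
    refine hrt.trans ?_
    by_cases hcase : A ^ 2 ≤ 10 ^ 8 * q
    · have h3 : q ≤ max u3 s * max u4 s := by
        rw [← hss]
        exact mul_le_mul (le_max_right _ _) (le_max_right _ _) hs0.le ha3n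
      calc 10 ^ 4 * A ^ 2 ≤ 10 ^ 4 * (10 ^ 8 * q) :=
            mul_le_mul_of_nonneg_left hcase (by positivity)
        _ ≤ 10 ^ 30 * q := by
            have h4 : (10 : ℝ) ^ 4 * (10 ^ 8 * q) = 10 ^ 12 * q := by ring
            rw [h4]
            exact mul_le_mul_of_nonneg_right (by norm_num) hq0.le
        _ ≤ 10 ^ 30 * (max u3 s * max u4 s) := mul_le_mul_of_nonneg_left h3 (by positivity)
    · push Not at hcase
      have hAu1 : A = u1 := by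
        rw [hAdef]
        refine max_eq_left ?_
        by_contra h
        push Not at h
        have h3 : A = s := max_eq_right h.le
        rw [h3, pow_two, hss] at hcase
        norm_num at hcase
        linarith
      have h4 : (1 / 100 : ℝ) ^ 2 ≤ u2 ^ 2 := pow_le_pow_left₀ (by norm_num) h2 2
      have h5 : 1 / 10 ^ 4 * A ^ 2 ≤ (u1 * u2) ^ 2 := by
        rw [← hAu1, mul_pow]
        calc 1 / 10 ^ 4 * A ^ 2 = A ^ 2 * (1 / 100) ^ 2 := by ring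
          _ ≤ A ^ 2 * u2 ^ 2 := mul_le_mul_of_nonneg_left h4 (sq_nonneg A)
      have h6 : 1 / 10 ^ 5 * A ^ 2 ≤ N := by
        norm_num at hcase h5 ⊢
        linarith
      have h7 : N ≤ 28 * (u3 * u4) := by
        rw [d.Ne]
        exact mul_le_mul_of_nonneg_right hc28 hu34n
      have h8 : u3 * u4 ≤ max u3 s * max u4 s :=
        mul_le_mul (le_max_left _ _) (le_max_left _ _) d.u4n ha3n
      have h9 : A ^ 2 ≤ 10 ^ 7 * (max u3 s * max u4 s) := by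
        norm_num at h6 ⊢
        linarith
      calc 10 ^ 4 * A ^ 2 ≤ 10 ^ 4 * (10 ^ 7 * (max u3 s * max u4 s)) :=
            mul_le_mul_of_nonneg_left h9 (by positivity)
        _ = 10 ^ 11 * (max u3 s * max u4 s) := by ring
        _ ≤ 10 ^ 30 * (max u3 s * max u4 s) :=
            mul_le_mul_of_nonneg_right (by norm_num) (mul_nonneg ha3n ha4n)

end Pool.Agent.Helper86.LH
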