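import Pool.Agent.Helper86.LH.Defs

/-!
Size of the duplication forms at an archimedean place, node coordinate.

PROOF.  Normalise `nm = 1`, `u = |X|`, `z = l |Z|`.  `u ≥ 1/100`: `|F| ≥ u⁴ - 90 q ≥ u⁴/2 ≥ 10^(-9)`.
`u < 1/100` (`z = 1`): `l |G| ≥ u² (1/2 - 4 u) - 144 q u - 8 q ≥ u²/4 - 10 q`; if `u² ≥ 80 q` this is
`≥ u²/8`; if `u² < 80 q`: `|F| ≥ q/2 - u⁴ - 72 q u² - 16 q u ≥ q/4` and `al² ≤ 80 q`.
-/

namespace Pool.Agent.Helper86.LH

variable {K : Type*} [Field K]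

theorem ADbl_real {q u z F G : ℝ} (hq0 : 0 < q) (hq1 : q ≤ 1 / 10 ^ 20) (hu : 0 ≤ u) (hz : 0 ≤ z)
    (hm : max u z = 1)
    (hF1 : u ^ 4 - 72 * q * u ^ 2 * z ^ 2 - 16 * q * u * z ^ 3 - 2 * q * z ^ 4 ≤ F)
    (hF2 : q / 2 * z ^ 4 - u ^ 4 - 72 * q * u ^ 2 * z ^ 2 - 16 * q * u * z ^ 3 ≤ F)
    (hG : u ^ 2 * z ^ 2 / 2 - 4 * u ^ 3 * z - 144 * q * u * z ^ 3 - 8 * q * z ^ 4 ≤ G) :
    max u (Real.sqrt q) ^ 2 ≤ 10 ^ 30 * max F G := by
  have hu1 : u ≤ 1 := hm ▸ le_max_left u z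
  have hz1 : z ≤ 1 := hm ▸ le_max_right u z
  have hsq : Real.sqrt q ^ 2 = q := Real.sq_sqrt hq0.le
  have hs0 : 0 ≤ Real.sqrt q := Real.sqrt_nonneg q
  have hal : max u (Real.sqrt q) ^ 2 ≤ max (u ^ 2) q := by
    rcases max_choice u (Real.sqrt q) with h | h
    · rw [h]
      exact le_max_left _ _
    · rw [h, hsq]
      exact le_max_right _ _
  refine hal.trans ?_
  have hFm : F ≤ max F G := le_max_left _ _
  have hGm : G ≤ max F G := le_max_right _ _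
  have hz2 : z ^ 2 ≤ 1 := pow_le_one₀ hz hz1
  have hz3 : z ^ 3 ≤ 1 := pow_le_one₀ hz hz1
  have hz4 : z ^ 4 ≤ 1 := pow_le_one₀ hz hz1
  have hz2' : 0 ≤ z ^ 2 := by positivity
  have hz3' : 0 ≤ z ^ 3 := by positivity
  have hu2 : u ^ 2 ≤ 1 := pow_le_one₀ hu hu1
  have hq1' : q ≤ 1 := hq1.trans (by norm_num)
  rcases le_or_gt (1 / 100) u with h | h
  · -- `u ≥ 1/100`
    have h4 : (1 / 100 : ℝ) ^ 4 ≤ u ^ 4 := pow_le_pow_left₀ (by norm_num) h 4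
    have e1 : u ^ 2 * z ^ 2 ≤ 1 := mul_le_one₀ hu2 hz2' hz2
    have e2 : u * z ^ 3 ≤ 1 := mul_le_one₀ hu1 hz3' hz3
    have e3 : q * (u ^ 2 * z ^ 2) ≤ q * 1 := mul_le_mul_of_nonneg_left e1 hq0.le
    have e4 : q * (u * z ^ 3) ≤ q * 1 := mul_le_mul_of_nonneg_left e2 hq0.le
    have e5 : q * z ^ 4 ≤ q * 1 := mul_le_mul_of_nonneg_left hz4 hq0.le
    have hF : 1 / 10 ^ 9 ≤ F := by
      have e6 : 72 * q * u ^ 2 * z ^ 2 = 72 * (q * (u ^ 2 * z ^ 2)) := by ring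
      have e7 : 16 * q * u * z ^ 3 = 16 * (q * (u * z ^ 3)) := by ring
      have e8 : 2 * q * z ^ 4 = 2 * (q * z ^ 4) := by ring
      rw [e6, e7, e8] at hF1
      norm_num at h4 hq1 ⊢
      linarith
    have h1 : max (u ^ 2) q ≤ 1 := max_le hu2 hq1'
    have h2 : (1 : ℝ) ≤ 10 ^ 30 * max F G := by
      have h3 : 1 / 10 ^ 9 ≤ max F G := hF.trans hFm
      calc (1 : ℝ) ≤ 10 ^ 30 * (1 / 10 ^ 9) := by norm_num
        _ ≤ 10 ^ 30 * max F G := by gcongr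
    exact h1.trans h2
  · -- `u < 1/100`, `z = 1`
    have hz' : z = 1 := by
      rcases max_choice u z with h5 | h5
      · rw [h5] at hm
        linarith
      · rw [h5] at hm
        exact hm
    subst hz'
    have e0 : q * u ≤ q * (1 / 100) := mul_le_mul_of_nonneg_left h.le hq0.le
    have e1 : u ^ 3 ≤ u ^ 2 * (1 / 100) := by
      have : u ^ 3 = u ^ 2 * u := by ring
      rw [this]
      exact mul_le_mul_of_nonneg_left h.le (by positivity)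
    rcases le_or_gt (80 * q) (u ^ 2) with h5 | h5
    · have hG' : u ^ 2 / 8 ≤ G := by
        norm_num at hG
        nlinarith
      have h1 : max (u ^ 2) q = u ^ 2 := max_eq_left (by linarith)
      rw [h1]
      have h6 : u ^ 2 / 8 ≤ max F G := hG'.trans hGm
      nlinarith [sq_nonneg u]
    · have hu9 : u ≤ 1 / 10 ^ 9 := by
        by_contra h7
        push Not at h7
        have h8 : (1 / 10 ^ 9 : ℝ) ^ 2 < u ^ 2 := pow_lt_pow_left₀ h7 (by norm_num) (by norm_num)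
        norm_num at h8 hq1
        linarith
      have e2 : q * u ≤ q * (1 / 10 ^ 9) := mul_le_mul_of_nonneg_left hu9 hq0.le
      have e3 : u ^ 4 ≤ q * (1 / 10 ^ 9) := by
        have h9 : u ^ 4 = u ^ 2 * u ^ 2 := by ring
        have h10 : u ^ 2 ≤ (1 / 10 ^ 9) ^ 2 := pow_le_pow_left₀ hu hu9 2
        have h11 : u ^ 2 * u ^ 2 ≤ (80 * q) * (1 / 10 ^ 9) ^ 2 :=
          mul_le_mul h5.le h10 (by positivity) (by positivity)
        rw [h9]
        norm_num at h11 ⊢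
        linarith
      have e4 : q * u ^ 2 ≤ q * (1 / 10 ^ 9) := by
        have h12 : u ^ 2 ≤ (1 / 10 ^ 9) ^ 2 := pow_le_pow_left₀ hu hu9 2
        refine mul_le_mul_of_nonneg_left (h12.trans (by norm_num)) hq0.le
      have hF' : q / 4 ≤ F := by
        norm_num at hF2 e2 e3 e4
        linarith
      have h1 : max (u ^ 2) q ≤ 80 * q := max_le h5.le (by linarith)
      have h6 : q / 4 ≤ max F G := hF'.trans hFm
      linarith

theorem adbl_size (v : AbsoluteValue K ℝ) (v2 : v 2 = 2) {b2 b4 b6 b8 : K} {q l : ℝ}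
    (hq0 : 0 < q) (hq1 : q ≤ 1 / 10 ^ 20) (hl : 0 < l) (h2' : l / 2 ≤ v b2)
    (h4 : v b4 ≤ 72 * q * l ^ 2) (h6 : v b6 ≤ 8 * q * l ^ 3) (h8 : v b8 ≤ 2 * q * l ^ 4)
    (h8' : q * l ^ 4 / 2 ≤ v b8) {X Z : K} (n : X ≠ 0 ∨ Z ≠ 0) :
    al v l q X Z ^ 2 * nm v l X Z ^ 4 ≤
      10 ^ 30 * nm v l (dF b4 b6 b8 X Z) (dG b2 b4 b6 X Z) := by
  have hM : 0 < nm v l X Z := by
    unfold nm
    rcases n with h | h
    · exact lt_max_of_lt_left (v.pos h)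
    · exact lt_max_of_lt_right (mul_pos hl (v.pos h))
  have v4 : v 4 = 4 := by
    have : (4 : K) = 2 * 2 := by norm_num
    rw [this, map_mul, v2]
    norm_num
  set M := nm v l X Z with hMdef
  obtain ⟨x, hx⟩ : ∃ x, x = v X := ⟨_, rfl⟩
  obtain ⟨w, hw⟩ : ∃ w, w = v Z := ⟨_, rfl⟩
  have hx0 : 0 ≤ x := hx ▸ v.nonneg X
  have hw0 : 0 ≤ w := hw ▸ v.nonneg Z
  have hM' : M = max x (l * w) := by rw [hMdef, hx, hw]; rfl
  -- triangle inequalities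
  have tri : ∀ a b c d : K, v a - v b - v c - v d ≤ v (a - b - c - d) := by
    intro a b c d
    have t1 := v.le_sub (a - b - c) d
    have t2 := v.le_sub (a - b) c
    have t3 := v.le_sub a b
    linarith
  have F1 : x ^ 4 - 72 * q * l ^ 2 * x ^ 2 * w ^ 2 - 16 * q * l ^ 3 * x * w ^ 3 -
      2 * q * l ^ 4 * w ^ 4 ≤ v (dF b4 b6 b8 X Z) := by
    have t := tri (X ^ 4) (b4 * X ^ 2 * Z ^ 2) (2 * b6 * X * Z ^ 3) (b8 * Z ^ 4)
    simp only [map_mul, map_pow, v2, ← hx, ← hw] at t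
    have s1 : v b4 * x ^ 2 * w ^ 2 ≤ 72 * q * l ^ 2 * x ^ 2 * w ^ 2 := by gcongr
    have s2 : 2 * v b6 * x * w ^ 3 ≤ 2 * (8 * q * l ^ 3) * x * w ^ 3 := by gcongr
    have s3 : v b8 * w ^ 4 ≤ 2 * q * l ^ 4 * w ^ 4 := by gcongr
    unfold dF
    linarith
  have F2 : q * l ^ 4 / 2 * w ^ 4 - x ^ 4 - 72 * q * l ^ 2 * x ^ 2 * w ^ 2 -
      16 * q * l ^ 3 * x * w ^ 3 ≤ v (dF b4 b6 b8 X Z) := by
    have t := tri (b8 * Z ^ 4) (X ^ 4) (-(b4 * X ^ 2 * Z ^ 2)) (-(2 * b6 * X * Z ^ 3))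
    have e : b8 * Z ^ 4 - X ^ 4 - -(b4 * X ^ 2 * Z ^ 2) - -(2 * b6 * X * Z ^ 3) =
        -dF b4 b6 b8 X Z := by
      unfold dF
      ring
    rw [e, v.map_neg] at t
    simp only [v.map_neg, map_mul, map_pow, v2, ← hx, ← hw] at t
    have s1 : v b4 * x ^ 2 * w ^ 2 ≤ 72 * q * l ^ 2 * x ^ 2 * w ^ 2 := by gcongr
    have s2 : 2 * v b6 * x * w ^ 3 ≤ 2 * (8 * q * l ^ 3) * x * w ^ 3 := by gcongr
    have s3 : q * l ^ 4 / 2 * w ^ 4 ≤ v b8 * w ^ 4 := by gcongr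
    linarith
  have G1 : l / 2 * x ^ 2 * w ^ 2 - 4 * x ^ 3 * w - 144 * q * l ^ 2 * x * w ^ 3 -
      8 * q * l ^ 3 * w ^ 4 ≤ v (dG b2 b4 b6 X Z) := by
    have t := tri (b2 * X ^ 2 * Z ^ 2) (-(4 * X ^ 3 * Z)) (-(2 * b4 * X * Z ^ 3)) (-(b6 * Z ^ 4))
    have e : b2 * X ^ 2 * Z ^ 2 - -(4 * X ^ 3 * Z) - -(2 * b4 * X * Z ^ 3) - -(b6 * Z ^ 4) =
        dG b2 b4 b6 X Z := by
      unfold dG
      ring
    rw [e] at t
    simp only [v.map_neg, map_mul, map_pow, v2, v4, ← hx, ← hw] at t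
    have s1 : 2 * v b4 * x * w ^ 3 ≤ 2 * (72 * q * l ^ 2) * x * w ^ 3 := by gcongr
    have s2 : v b6 * w ^ 4 ≤ 8 * q * l ^ 3 * w ^ 4 := by gcongr
    have s3 : l / 2 * x ^ 2 * w ^ 2 ≤ v b2 * x ^ 2 * w ^ 2 := by gcongr
    linarith
  -- normalisation
  have hMne : M ≠ 0 := hM.ne'
  have key := ADbl_real (q := q) (u := x / M) (z := l * w / M)
    (F := v (dF b4 b6 b8 X Z) / M ^ 4) (G := l * v (dG b2 b4 b6 X Z) / M ^ 4) hq0 hq1
    (by positivity) (by positivity)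
    (by
      rw [max_div_div_right hM.le, ← hM', div_self hMne])
    (by
      rw [le_div_iff₀ (by positivity)]
      refine le_trans (le_of_eq ?_) F1
      field_simp)
    (by
      rw [le_div_iff₀ (by positivity)]
      refine le_trans (le_of_eq ?_) F2
      field_simp)
    (by
      rw [le_div_iff₀ (by positivity)]
      refine le_trans (le_of_eq ?_) (mul_le_mul_of_nonneg_left G1 hl.le)
      field_simp)
  have hal : al v l q X Z = max (x / M) (Real.sqrt q) := by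
    unfold al
    rw [← hx]
  have hnm : nm v l (dF b4 b6 b8 X Z) (dG b2 b4 b6 X Z) =
      max (v (dF b4 b6 b8 X Z) / M ^ 4) (l * v (dG b2 b4 b6 X Z) / M ^ 4) * M ^ 4 := by
    rw [max_div_div_right (by positivity), div_mul_cancel₀ _ (by positivity)]
    rfl
  rw [hal, hnm, ← mul_assoc]
  exact mul_le_mul_of_nonneg_right key (by positivity)

end Pool.Agent.Helper86.LH
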