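import Pool.Agent.Helper86.LH.Defs

/-!
Archimedean local law: the real data.  `u_i = |X_i| / nm_i`, `z_i = l |Z_i| / nm_i`,
`N = |N| / (nm1² nm2²)`, `S = l |S| / (nm1² nm2²)`, `D = l² |D| / (nm1² nm2²)`,
`c = |c| nm3 nm4 / (nm1² nm2²)`.

The law (to be proved for `q ≤ 10^(-20)`, `a_i = max u_i √q`, `a1 ≤ a2`, `ρ = a1/a2`,
`τ = max (a1 a2) (q / (a1 a2))`): `a3 a4 ≤ 10^30 ρ τ` and `ρ τ ≤ 10^30 a3 a4`.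
Cases: Ia `a2 ≥ 1/100, a1 ≥ 1/10^4`; Ib `a2 ≥ 1/100, a1 < 1/10^4`; IIa `a2 < 1/100, 100 a1 ≤ a2`;
IIb1 `a2 < 1/100, a2 < 100 a1, u1, u2 ≥ 100 √q`; IIb2 `a2 < 1/100, a2 < 100 a1` and
`u1 < 100 √q ∨ u2 < 100 √q`.
-/

namespace Pool.Agent.Helper86.LH

structure Dat (q u1 z1 u2 z2 u3 z3 u4 z4 c N S D : ℝ) : Prop where
  q0 : 0 < q
  qs : q ≤ 1 / 10 ^ 20
  u1n : 0 ≤ u1
  z1n : 0 ≤ z1
  m1 : max u1 z1 = 1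
  u2n : 0 ≤ u2
  z2n : 0 ≤ z2
  m2 : max u2 z2 = 1
  u3n : 0 ≤ u3
  z3n : 0 ≤ z3
  m3 : max u3 z3 = 1
  u4n : 0 ≤ u4
  z4n : 0 ≤ z4
  m4 : max u4 z4 = 1
  c0 : 0 < c
  Nle : N ≤ (u1 * u2) ^ 2 + 72 * q * (u1 * u2) * (z1 * z2) +
    8 * q * (u1 * z2 + z1 * u2) * (z1 * z2) + 2 * q * (z1 * z2) ^ 2
  Nge : (u1 * u2) ^ 2 - 72 * q * (u1 * u2) * (z1 * z2) -
    8 * q * (u1 * z2 + z1 * u2) * (z1 * z2) - 2 * q * (z1 * z2) ^ 2 ≤ N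
  Nge' : q / 2 * (z1 * z2) ^ 2 - (u1 * u2) ^ 2 - 72 * q * (u1 * u2) * (z1 * z2) -
    8 * q * (u1 * z2 + z1 * u2) * (z1 * z2) ≤ N
  Sle : S ≤ 2 * (u1 * z2 + z1 * u2) * (u1 * u2) + 2 * (u1 * u2) * (z1 * z2) +
    72 * q * (u1 * z2 + z1 * u2) * (z1 * z2) + 8 * q * (z1 * z2) ^ 2
  Sge : (u1 * u2) * (z1 * z2) / 2 - 2 * (u1 * z2 + z1 * u2) * (u1 * u2) -
    72 * q * (u1 * z2 + z1 * u2) * (z1 * z2) - 8 * q * (z1 * z2) ^ 2 ≤ S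
  Dle : D ≤ (u1 * z2 + z1 * u2) ^ 2
  Dge : (u1 * z2 - z1 * u2) ^ 2 ≤ D
  Ne : N = c * (u3 * u4)
  De : D = c * (z3 * z4)
  Se : S ≤ c * (u3 * z4 + z3 * u4)
  Se' : c * |u3 * z4 - z3 * u4| ≤ S

/-- The conclusion of the law. -/
def Con (q u1 u2 u3 u4 : ℝ) : Prop :=
  max u3 (Real.sqrt q) * max u4 (Real.sqrt q) ≤ 10 ^ 30 *
    (max u1 (Real.sqrt q) / max u2 (Real.sqrt q) *
      max (max u1 (Real.sqrt q) * max u2 (Real.sqrt q))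
        (q / (max u1 (Real.sqrt q) * max u2 (Real.sqrt q)))) ∧
  max u1 (Real.sqrt q) / max u2 (Real.sqrt q) *
      max (max u1 (Real.sqrt q) * max u2 (Real.sqrt q))
        (q / (max u1 (Real.sqrt q) * max u2 (Real.sqrt q))) ≤ 10 ^ 30 *
    (max u3 (Real.sqrt q) * max u4 (Real.sqrt q))

end Pool.Agent.Helper86.LH
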