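import Pool.Agent.Helper86.LH.AMain

/-!
The theorem for number fields.
-/

open Height AdmissibleAbsValues Filter Topology

namespace Pool.Agent.Helper86.LH

open WeierstrassCurve WeierstrassCurve.Affine WeierstrassCurve.Affine.Point NumberField

variable {K : Type*} [Field K] [NumberField K]

theorem arch_two_three : ∀ v ∈ (archAbsVal : Multiset (AbsoluteValue K ℝ)), v 2 = 2 ∧ v 3 = 3 := by
  intro v hv
  have hv' : IsInfinitePlace v := mem_multisetInfinitePlace.mp hv
  obtain ⟨w, rfl⟩ := (isInfinitePlace_iff v).mp hv'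
  obtain ⟨φ, hφ⟩ := w.2
  have e : ∀ x : K, w.val x = ‖φ x‖ := by
    intro x
    rw [← hφ]
    rfl
  constructor
  · rw [e, map_ofNat]; simp
  · rw [e, map_ofNat]; simp

theorem asum_eq (f : AbsoluteValue K ℝ → ℝ) :
    asum K f = ∑ v : InfinitePlace K, (v.mult : ℝ) * f v.val := by
  have := NumberField.sum_archAbsVal_eq (K := K) f
  rw [asum, this]
  exact Finset.sum_congr rfl fun v _ => nsmul_eq_mul _ _

variable [DecidableEq K] (W : WeierstrassCurve.Affine K) [W.IsElliptic]

open Classical in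
/-- Weights of the places. -/
noncomputable def TT : InfinitePlace K ⊕ NV K → ℝ
  | Sum.inl v => v.mult * (if IsAM W v.val then nj W v.val else 0)
  | Sum.inr v => if IsMul W v.val then nj W v.val else 0

/-- Component coordinates. -/
noncomputable def TH (P : W.Point) : InfinitePlace K ⊕ NV K → ℝ
  | Sum.inl v => tv W v.val P
  | Sum.inr v => tv W v.val P

omit [DecidableEq K] in
theorem TT_nonneg (x : InfinitePlace K ⊕ NV K) : 0 ≤ TT W x := by
  classical
  rcases x with v | v
  · unfold TT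
    dsimp only
    split_ifs with hm
    · exact mul_nonneg (Nat.cast_nonneg _) (nj_pos hm.mul).le
    · simp
  · unfold TT
    dsimp only
    split_ifs with hm
    · exact (nj_pos hm).le
    · exact le_rfl

omit [DecidableEq K] in
theorem TT_sum {S : Finset (NV K)} (hS : Big W S) :
    logHeight₁ W.j - 47 * totalWeight K ≤
      ∑ x ∈ (Finset.univ : Finset (InfinitePlace K)).disjSum S, TT W x ∧
    ∑ x ∈ (Finset.univ : Finset (InfinitePlace K)).disjSum S, TT W x ≤ logHeight₁ W.j := by
  classical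
  have hΔ : W.Δ ≠ 0 := W.isUnit_Δ.ne_zero
  have e1 : ∑ x ∈ (Finset.univ : Finset (InfinitePlace K)).disjSum S, TT W x =
      asum K (fun v => if IsAM W v then nj W v else 0) + hfin W := by
    rw [Finset.sum_disjSum, asum_eq, hfin_eq W hS]
    rfl
  have e2 : logHeight₁ W.j = hinf W + hfin W := Height.logHeight₁_eq W.j
  have h10 := log_ten_lt
  have hL0 : 0 < Real.log 10 := Real.log_pos (by norm_num)
  have a1 : hinf W ≤ asum K (fun v => (if IsAM W v then nj W v else 0) + 47) := by
    unfold hinf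
    apply asum_le
    intro v _
    split_ifs with hm
    · rw [nj_eq, Real.posLog_eq_log_max_one (v.nonneg _),
        max_eq_right ((isMul_iff W v).mp hm.mul).le]
      linarith
    · have h1 := not_isAM hΔ hm
      rw [← max_j W v]
      have h3 : Real.log (max 1 (v W.c₄ ^ 3 / v W.Δ)) ≤ 20 * Real.log 10 := by
        have e : 20 * Real.log 10 = Real.log (10 ^ 20) := by
          rw [Real.log_pow]; norm_num
        rw [e]
        apply Real.log_le_log (lt_of_lt_of_le one_pos (le_max_left _ _))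
        exact max_le (by norm_num) h1
      linarith
  have a2 : asum K (fun v => if IsAM W v then nj W v else 0) ≤ hinf W := by
    unfold hinf
    apply asum_le
    intro v _
    split_ifs with hm
    · rw [nj_eq, Real.posLog_eq_log_max_one (v.nonneg _),
        max_eq_right ((isMul_iff W v).mp hm.mul).le]
    · exact Real.posLog_nonneg
  rw [asum_add, asum_const] at a1
  constructor <;> linarith

/-- The inequality for the multiples of a point. -/
theorem mult_ineq {S : Finset (NV K)} (hS : Big W S) (P : W.Point)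
    (hP : ∀ n : ℕ, 0 < n → n • P ≠ 0) {H : W.Point → ℝ}
    (hH : ∀ P : W.Point, Tendsto (fun k : ℕ => logHeight ((2 ^ k • P).xRep) / 4 ^ k)
        atTop (𝓝 (H P))) (hHm : ∀ (P : W.Point) (m : ℕ), H (m • P) = m ^ 2 * H P)
    {M : ℕ} {m : ℕ} (hm : m ∈ Finset.Icc 1 M) :
    ∑ x ∈ (Finset.univ : Finset (InfinitePlace K)).disjSum S, TT W x * B2 (m * TH W P x) -
      135 * 4 ^ M * totalWeight K ≤ (m : ℝ) ^ 2 * H P := by
  classical
  have hm1 := (Finset.mem_Icc.mp hm).1
  have hmM := (Finset.mem_Icc.mp hm).2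
  have h6 : (6 : K) ≠ 0 := by norm_num
  have h1 := aheight_lower h6 arch_two_three hS (m • P) (hP m hm1) (hH (m • P))
  rw [hHm P m] at h1
  have hL : Real.log (10 ^ 30) ≤ 70 := by
    have := log_ten_lt
    rw [Real.log_pow]
    push_cast
    linarith
  have hL0 : 0 ≤ Real.log (10 ^ 30) := Real.log_nonneg (by norm_num)
  have h2 : asum K (fun v => (if IsAM W v then nj W v else 0) * B2 (m * tv W v P) -
      4 ^ M * 70) ≤ asum K (fun v => if IsAM W v then
        nj W v * (1 / 6 - tv W v (m • P) * (1 - tv W v (m • P))) else 0) := by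
    apply asum_le
    intro v hv
    have h23 := arch_two_three v hv
    have h4 : (4 : ℝ) ^ m ≤ 4 ^ M := pow_le_pow_right₀ (by norm_num) hmM
    have h4' : (0 : ℝ) < 4 ^ M := by positivity
    split_ifs with hmv
    · have h3 := tv_amul_B2 h23.1 h23.2 hmv P m
      have h5 : (4 : ℝ) ^ m * Real.log (10 ^ 30) ≤ 4 ^ M * 70 :=
        mul_le_mul h4 hL hL0 h4'.le
      exact le_trans (sub_le_sub_left h5 _) h3
    · rw [zero_mul]
      linarith
  rw [asum_sub, asum_const] at h2
  have h3 : ∑ x ∈ (Finset.univ : Finset (InfinitePlace K)).disjSum S,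
      TT W x * B2 (m * TH W P x) =
      asum K (fun v => (if IsAM W v then nj W v else 0) * B2 (m * tv W v P)) +
      ∑ v ∈ S, (if IsMul W v.val then
        nj W v.val * (1 / 6 - tv W v.val (m • P) * (1 - tv W v.val (m • P))) else 0) := by
    rw [Finset.sum_disjSum, asum_eq]
    congr 1
    · apply Finset.sum_congr rfl
      intro v _
      unfold TT TH
      dsimp only
      rw [mul_assoc]
    · apply Finset.sum_congr rfl
      intro v _
      unfold TT TH
      dsimp only
      split_ifs with hmv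
      · rw [tv_mul (isNonarchimedean v.val v.2) hmv P m, dn_B2]
      · ring
  have h4 : (1 : ℝ) ≤ 4 ^ M := one_le_pow₀ (by norm_num)
  have h5 : (0 : ℝ) ≤ totalWeight K := Nat.cast_nonneg _
  have h6' : 65 * (totalWeight K : ℝ) ≤ 65 * (4 ^ M * totalWeight K) := by nlinarith
  rw [h3]
  nlinarith

/-- The theorem with a set `I` of places carrying the share. -/
theorem all_main {δ : ℝ} (hδ0 : 0 < δ) (hδ1 : δ ≤ 1) {S : Finset (NV K)} (hS : Big W S)
    (P : W.Point) (hP : ∀ n : ℕ, 0 < n → n • P ≠ 0) {H : W.Point → ℝ}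
    (hH : ∀ P : W.Point, Tendsto (fun k : ℕ => logHeight ((2 ^ k • P).xRep) / 4 ^ k)
        atTop (𝓝 (H P))) (hHm : ∀ (P : W.Point) (m : ℕ), H (m • P) = m ^ 2 * H P)
    (hH0 : ∀ P : W.Point, 0 ≤ H P) (x : InfinitePlace K ⊕ NV K)
    (hx : x ∈ (Finset.univ : Finset (InfinitePlace K)).disjSum S)
    (hw : δ * logHeight₁ W.j ≤ TT W x) :
    δ ^ 3 * logHeight₁ W.j / 4000 - 5 * (4 : ℝ) ^ (15 / δ) * totalWeight K ≤ H P := by
  obtain ⟨M, hM, hM1, hM2⟩ := exists_M hδ0 hδ1
  have hT := TT_sum W hS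
  have h5 : (0 : ℝ) ≤ totalWeight K := Nat.cast_nonneg _
  have h4M : (4 : ℝ) ^ M ≤ (4 : ℝ) ^ (15 / δ) := by
    rw [← Real.rpow_natCast]
    exact Real.rpow_le_rpow_of_exponent_le (by norm_num) hM2
  set T := ∑ x ∈ (Finset.univ : Finset (InfinitePlace K)).disjSum S, TT W x with hTdef
  set E := 135 * (4 : ℝ) ^ M * totalWeight K with hE
  have hE0 : 0 ≤ E := by positivity
  have hT0 : 0 ≤ T := Finset.sum_nonneg fun y _ => TT_nonneg W y
  have key := weighted ((Finset.univ : Finset (InfinitePlace K)).disjSum S) (TT W) (TH W P)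
    (fun y _ => TT_nonneg W y) {x} (Finset.singleton_subset_iff.mpr hx) (TH W P x)
    (fun y hy => by rw [Finset.mem_singleton.mp hy]) (H P) E (hH0 P) hE0 M hM
    (fun m hm => mult_ineq W hS P hP hH hHm hm)
  rw [Finset.sum_singleton, ← hTdef] at key
  have hw' : δ * T ≤ TT W x := le_trans (mul_le_mul_of_nonneg_left hT.2 hδ0.le) hw
  have fin := optimize hδ0 hδ1 hT0 hw' hE0 hM1 hM2 key
  have hd2 : δ ^ 2 ≤ 1 := pow_le_one₀ hδ0.le hδ1
  have hd3 : δ ^ 3 ≤ 1 := pow_le_one₀ hδ0.le hδ1
  have hd3' : 0 < δ ^ 3 := by positivity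
  have a1 : δ ^ 3 * logHeight₁ W.j ≤ δ ^ 3 * T + 47 * totalWeight K := by
    have b1 : logHeight₁ W.j ≤ T + 47 * totalWeight K := by linarith [hT.1]
    have b2 := mul_le_mul_of_nonneg_left b1 hd3'.le
    have b3 : δ ^ 3 * (47 * (totalWeight K : ℝ)) ≤ 1 * (47 * totalWeight K) :=
      mul_le_mul_of_nonneg_right hd3 (by positivity)
    linarith
  have a2 : δ ^ 2 * (6 / 196 * E) ≤ 1 * (6 / 196 * E) :=
    mul_le_mul_of_nonneg_right hd2 (by positivity)
  have a3 : 6 / 196 * E ≤ 6 / 196 * (135 * (4 : ℝ) ^ (15 / δ) * totalWeight K) := by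
    apply mul_le_mul_of_nonneg_left _ (by norm_num)
    rw [hE]
    apply mul_le_mul_of_nonneg_right _ h5
    linarith
  have a4 : (1 : ℝ) ≤ (4 : ℝ) ^ (15 / δ) := by
    apply Real.one_le_rpow (by norm_num)
    positivity
  have a5 : (totalWeight K : ℝ) ≤ (4 : ℝ) ^ (15 / δ) * totalWeight K := by nlinarith
  have a6 : δ ^ 3 * logHeight₁ W.j / 4000 ≤ δ ^ 3 * T / 4000 + 47 / 4000 * totalWeight K := by
    linarith
  nlinarith

end Pool.Agent.Helper86.LH
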