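import Pool.Agent.Helper86.LH.ADefs

/-!
Common consequences of `Dat` (used by the case files).

PROOF of `Dat.gauss` (`c ≤ 4 max N S D`): `u3 = 1`: if `u4 ≥ 1/4` then `N = c u4`; else `z4 = 1`
and `S ≥ c |z4 - z3 u4| ≥ (3/4) c`.  `z3 = 1`: the same with `D`.
-/

namespace Pool.Agent.Helper86.LH

variable {q u1 z1 u2 z2 u3 z3 u4 z4 c N S D : ℝ}

theorem AGau_max {u z : ℝ} (h : max u z = 1) : (u = 1 ∨ z = 1) ∧ u ≤ 1 ∧ z ≤ 1 := by
  refine ⟨?_, h ▸ le_max_left _ _, h ▸ le_max_right _ _⟩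
  rcases max_choice u z with h1 | h1
  · left; rw [← h1, h]
  · right; rw [← h1, h]

theorem Dat.gauss (d : Dat q u1 z1 u2 z2 u3 z3 u4 z4 c N S D) :
    c ≤ 4 * max N (max S D) := by
  have hN : N ≤ max N (max S D) := le_max_left _ _
  have hS : S ≤ max N (max S D) := (le_max_left _ _).trans (le_max_right _ _)
  have hD : D ≤ max N (max S D) := (le_max_right _ _).trans (le_max_right _ _)
  have hc := d.c0
  have hu3 := d.u3n
  have hz3 := d.z3n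
  have hu4 := d.u4n
  have hz4 := d.z4n
  obtain ⟨h3, hu3', hz3'⟩ := AGau_max d.m3
  obtain ⟨h4, hu4', hz4'⟩ := AGau_max d.m4
  have key : c ≤ 4 * N ∨ c ≤ 4 * S ∨ c ≤ 4 * D := by
    rcases h3 with h3 | h3
    · rcases le_or_gt (1 / 4) u4 with h | h
      · left
        rw [d.Ne, h3, one_mul]
        nlinarith
      · right; left
        have hz : z4 = 1 := by
          rcases h4 with h4 | h4
          · linarith
          · exact h4
        have h5 := d.Se'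
        rw [h3, hz, one_mul] at h5
        have h6 : 3 / 4 ≤ |1 - z3 * u4| := by
          refine le_trans ?_ (le_abs_self _)
          have : z3 * u4 ≤ 1 * (1 / 4) := mul_le_mul hz3' h.le hu4 (by norm_num)
          linarith
        have h7 : c * (3 / 4) ≤ c * |1 - z3 * u4| := mul_le_mul_of_nonneg_left h6 hc.le
        linarith
    · rcases le_or_gt (1 / 4) z4 with h | h
      · right; right
        rw [d.De, h3, one_mul]
        nlinarith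
      · right; left
        have hu : u4 = 1 := by
          rcases h4 with h4 | h4
          · exact h4
          · linarith
        have h5 := d.Se'
        rw [h3, hu, one_mul] at h5
        have h6 : 3 / 4 ≤ |u3 * z4 - 1| := by
          refine le_trans ?_ (neg_le_abs _)
          have : u3 * z4 ≤ 1 * (1 / 4) := mul_le_mul hu3' h.le hz4 (by norm_num)
          linarith
        have h7 : c * (3 / 4) ≤ c * |u3 * z4 - 1| := mul_le_mul_of_nonneg_left h6 hc.le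
        linarith
  rcases key with h | h | h <;> linarith

/-- Trivial upper bounds. -/
theorem Dat.triv (d : Dat q u1 z1 u2 z2 u3 z3 u4 z4 c N S D) :
    N ≤ (u1 * u2) ^ 2 + 90 * q ∧ (u1 * u2) ^ 2 - 90 * q ≤ N ∧ S ≤ 6 * (u1 * u2) + 152 * q ∧
      D ≤ (u1 + u2) ^ 2 ∧ N ≤ c ∧ D ≤ c ∧ S ≤ 2 * c ∧ c ≤ 28 := by
  have hc := d.c0
  have hq := d.q0
  have hqs := d.qs
  have hu1 := d.u1n
  have hz1 := d.z1n
  have hu2 := d.u2n
  have hz2 := d.z2n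
  have hu3 := d.u3n
  have hz3 := d.z3n
  have hu4 := d.u4n
  have hz4 := d.z4n
  obtain ⟨_, hu1', hz1'⟩ := AGau_max d.m1
  obtain ⟨_, hu2', hz2'⟩ := AGau_max d.m2
  obtain ⟨_, hu3', hz3'⟩ := AGau_max d.m3
  obtain ⟨_, hu4', hz4'⟩ := AGau_max d.m4
  have hm : ∀ x y : ℝ, 0 ≤ x → x ≤ 1 → 0 ≤ y → y ≤ 1 → 0 ≤ x * y ∧ x * y ≤ 1 :=
    fun x y hx hx' hy hy' => ⟨mul_nonneg hx hy, by nlinarith⟩
  obtain ⟨a0, a1⟩ := hm u1 u2 hu1 hu1' hu2 hu2'
  obtain ⟨b0, b1⟩ := hm z1 z2 hz1 hz1' hz2 hz2'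
  obtain ⟨e0, e1⟩ := hm u1 z2 hu1 hu1' hz2 hz2'
  obtain ⟨f0, f1⟩ := hm z1 u2 hz1 hz1' hu2 hu2'
  -- `(u1 z2 + z1 u2) ≤ 2`, products with `z1 z2`
  obtain ⟨g0, g1⟩ := hm (u1 * u2) (z1 * z2) a0 a1 b0 b1
  have k0 : 0 ≤ (u1 * z2 + z1 * u2) * (z1 * z2) := mul_nonneg (by linarith) b0
  have k1 : (u1 * z2 + z1 * u2) * (z1 * z2) ≤ 2 := by
    calc (u1 * z2 + z1 * u2) * (z1 * z2) ≤ 2 * 1 :=
          mul_le_mul (by linarith) b1 b0 (by norm_num)
      _ = 2 := by norm_num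
  have l1 : (z1 * z2) ^ 2 ≤ 1 := pow_le_one₀ b0 b1
  have p1 : q * ((u1 * u2) * (z1 * z2)) ≤ q * 1 := mul_le_mul_of_nonneg_left g1 hq.le
  have p2 : q * ((u1 * z2 + z1 * u2) * (z1 * z2)) ≤ q * 2 := mul_le_mul_of_nonneg_left k1 hq.le
  have p3 : q * (z1 * z2) ^ 2 ≤ q * 1 := mul_le_mul_of_nonneg_left l1 hq.le
  have hN1 : N ≤ (u1 * u2) ^ 2 + 90 * q := by
    have h := d.Nle
    have e : (u1 * u2) ^ 2 + 72 * q * (u1 * u2) * (z1 * z2) +
        8 * q * (u1 * z2 + z1 * u2) * (z1 * z2) + 2 * q * (z1 * z2) ^ 2 =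
        (u1 * u2) ^ 2 + 72 * (q * ((u1 * u2) * (z1 * z2))) +
        8 * (q * ((u1 * z2 + z1 * u2) * (z1 * z2))) + 2 * (q * (z1 * z2) ^ 2) := by ring
    rw [e] at h
    linarith
  have hN2 : (u1 * u2) ^ 2 - 90 * q ≤ N := by
    have h := d.Nge
    have e : (u1 * u2) ^ 2 - 72 * q * (u1 * u2) * (z1 * z2) -
        8 * q * (u1 * z2 + z1 * u2) * (z1 * z2) - 2 * q * (z1 * z2) ^ 2 =
        (u1 * u2) ^ 2 - 72 * (q * ((u1 * u2) * (z1 * z2))) -
        8 * (q * ((u1 * z2 + z1 * u2) * (z1 * z2))) - 2 * (q * (z1 * z2) ^ 2) := by ring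
    rw [e] at h
    linarith
  have hS1 : S ≤ 6 * (u1 * u2) + 152 * q := by
    have h := d.Sle
    have e : 2 * (u1 * z2 + z1 * u2) * (u1 * u2) + 2 * (u1 * u2) * (z1 * z2) +
        72 * q * (u1 * z2 + z1 * u2) * (z1 * z2) + 8 * q * (z1 * z2) ^ 2 =
        2 * ((u1 * z2 + z1 * u2) * (u1 * u2)) + 2 * ((u1 * u2) * (z1 * z2)) +
        72 * (q * ((u1 * z2 + z1 * u2) * (z1 * z2))) + 8 * (q * (z1 * z2) ^ 2) := by ring
    rw [e] at h
    have h1 : (u1 * z2 + z1 * u2) * (u1 * u2) ≤ 2 * (u1 * u2) :=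
      mul_le_mul_of_nonneg_right (by linarith) a0
    have h2 : (u1 * u2) * (z1 * z2) ≤ (u1 * u2) * 1 := mul_le_mul_of_nonneg_left b1 a0
    linarith
  have hD1 : D ≤ (u1 + u2) ^ 2 := by
    refine d.Dle.trans (pow_le_pow_left₀ (by linarith) ?_ 2)
    have h1 : u1 * z2 ≤ u1 * 1 := mul_le_mul_of_nonneg_left hz2' hu1
    have h2 : z1 * u2 ≤ 1 * u2 := mul_le_mul_of_nonneg_right hz1' hu2
    linarith
  obtain ⟨_, r1⟩ := hm u3 u4 hu3 hu3' hu4 hu4'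
  obtain ⟨_, r2⟩ := hm z3 z4 hz3 hz3' hz4 hz4'
  obtain ⟨_, r3⟩ := hm u3 z4 hu3 hu3' hz4 hz4'
  obtain ⟨_, r4⟩ := hm z3 u4 hz3 hz3' hu4 hu4'
  have hN3 : N ≤ c := by
    rw [d.Ne]
    nlinarith
  have hD3 : D ≤ c := by
    rw [d.De]
    nlinarith
  have hS3 : S ≤ 2 * c := by
    refine d.Se.trans ?_
    nlinarith
  refine ⟨hN1, hN2, hS1, hD1, hN3, hD3, hS3, ?_⟩
  have hq7 : 152 * q ≤ 1 := by
    have : (152 : ℝ) * (1 / 10 ^ 20) ≤ 1 := by norm_num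
    linarith
  have h1 : N ≤ 7 := by
    have : (u1 * u2) ^ 2 ≤ 1 := pow_le_one₀ a0 a1
    linarith
  have h2 : S ≤ 7 := by linarith
  have h3 : D ≤ 7 := by
    have : (u1 + u2) ^ 2 ≤ 2 ^ 2 := pow_le_pow_left₀ (by linarith) (by linarith) 2
    linarith
  have h4 := d.gauss
  have h5 : max N (max S D) ≤ 7 := max_le h1 (max_le h2 h3)
  linarith

/-- Bounds when both points are near the node. -/
theorem Dat.near (d : Dat q u1 z1 u2 z2 u3 z3 u4 z4 c N S D) (h1 : u1 < 1 / 100)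
    (h2 : u2 < 1 / 100) :
    z1 = 1 ∧ z2 = 1 ∧ N ≤ (u1 * u2) ^ 2 + 22 / 10 * q ∧ (u1 * u2) ^ 2 - 22 / 10 * q ≤ N ∧
      33 / 100 * q - (u1 * u2) ^ 2 ≤ N ∧ S ≤ 204 / 100 * (u1 * u2) + 10 * q ∧
      46 / 100 * (u1 * u2) - 10 * q ≤ S ∧ D ≤ (u1 + u2) ^ 2 ∧ (u1 - u2) ^ 2 ≤ D := by
  have hq := d.q0
  have hu1 := d.u1n
  have hu2 := d.u2n
  obtain ⟨m1, _, _⟩ := AGau_max d.m1
  obtain ⟨m2, _, _⟩ := AGau_max d.m2
  have hz1 : z1 = 1 := by
    rcases m1 with h | h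
    · linarith
    · exact h
  have hz2 : z2 = 1 := by
    rcases m2 with h | h
    · linarith
    · exact h
  have a0 : 0 ≤ u1 * u2 := mul_nonneg hu1 hu2
  have a1 : u1 * u2 ≤ 1 / 10000 := by
    calc u1 * u2 ≤ 1 / 100 * (1 / 100) := mul_le_mul h1.le h2.le hu2 (by norm_num)
      _ = 1 / 10000 := by norm_num
  have p1 : q * (u1 * u2) ≤ q * (1 / 10000) := mul_le_mul_of_nonneg_left a1 hq.le
  have p2 : q * (u1 + u2) ≤ q * (2 / 100) := mul_le_mul_of_nonneg_left (by linarith) hq.le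
  have p3 : (u1 + u2) * (u1 * u2) ≤ 2 / 100 * (u1 * u2) :=
    mul_le_mul_of_nonneg_right (by linarith) a0
  have e1 := d.Nle
  have e2 := d.Nge
  have e3 := d.Nge'
  have e4 := d.Sle
  have e5 := d.Sge
  have e6 := d.Dle
  have e7 := d.Dge
  rw [hz1, hz2] at e1 e2 e3 e4 e5 e6 e7
  simp only [mul_one, one_mul, one_pow] at e1 e2 e3 e4 e5 e6 e7
  refine ⟨hz1, hz2, ?_, ?_, ?_, ?_, ?_, e6, e7⟩
  · have e : (u1 * u2) ^ 2 + 72 * q * (u1 * u2) + 8 * q * (u1 + u2) + 2 * q =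
        (u1 * u2) ^ 2 + 72 * (q * (u1 * u2)) + 8 * (q * (u1 + u2)) + 2 * q := by ring
    rw [e] at e1
    linarith
  · have e : (u1 * u2) ^ 2 - 72 * q * (u1 * u2) - 8 * q * (u1 + u2) - 2 * q =
        (u1 * u2) ^ 2 - 72 * (q * (u1 * u2)) - 8 * (q * (u1 + u2)) - 2 * q := by ring
    rw [e] at e2
    linarith
  · have e : q / 2 - (u1 * u2) ^ 2 - 72 * q * (u1 * u2) - 8 * q * (u1 + u2) =
        q / 2 - (u1 * u2) ^ 2 - 72 * (q * (u1 * u2)) - 8 * (q * (u1 + u2)) := by ring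
    rw [e] at e3
    linarith
  · have e : 2 * (u1 + u2) * (u1 * u2) + 2 * (u1 * u2) + 72 * q * (u1 + u2) + 8 * q =
        2 * ((u1 + u2) * (u1 * u2)) + 2 * (u1 * u2) + 72 * (q * (u1 + u2)) + 8 * q := by ring
    rw [e] at e4
    linarith
  · have e : u1 * u2 / 2 - 2 * (u1 + u2) * (u1 * u2) - 72 * q * (u1 + u2) - 8 * q =
        u1 * u2 / 2 - 2 * ((u1 + u2) * (u1 * u2)) - 72 * (q * (u1 + u2)) - 8 * q := by ring
    rw [e] at e5
    linarith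

/-- Two numbers with small sum and small product are small. -/
theorem small_pair {u3 z3 u4 z4 A B k : ℝ} (hu3 : 0 ≤ u3) (hu4 : 0 ≤ u4) (hz3 : z3 ≤ 1)
    (hz4 : z4 ≤ 1) (hk : 0 < k) (h3 : k ≤ z3) (h4 : k ≤ z4) (hA : 0 ≤ A) (hB : 0 ≤ B)
    (hs : |u3 * z4 - z3 * u4| ≤ A) (hp : u3 * u4 ≤ B ^ 2) :
    u3 ≤ (2 * A + 2 * B) / k ∧ u4 ≤ (2 * A + 2 * B) / k := by
  obtain ⟨hs1, hs2⟩ := abs_le.mp hs
  have hk1 : k ≤ 1 := h3.trans hz3
  have a1 : u3 * k ≤ u3 * z4 := mul_le_mul_of_nonneg_left h4 hu3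
  have a2 : z3 * u4 ≤ 1 * u4 := mul_le_mul_of_nonneg_right hz3 hu4
  have a3 : k * u4 ≤ z3 * u4 := mul_le_mul_of_nonneg_right h3 hu4
  have a4 : u3 * z4 ≤ u3 * 1 := mul_le_mul_of_nonneg_left hz4 hu3
  have a5 : u3 * k ≤ u3 * 1 := mul_le_mul_of_nonneg_left hk1 hu3
  have a6 : k * u4 ≤ 1 * u4 := mul_le_mul_of_nonneg_right hk1 hu4
  constructor
  · rw [le_div_iff₀ hk]
    by_contra hc
    push Not at hc
    have b1 : 2 * B < u3 := by linarith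
    have b2 : 2 * B < u4 := by linarith
    have b3 : 2 * B * (2 * B) < u3 * u4 := mul_lt_mul'' b1 b2 (by linarith) (by linarith)
    have b4 := sq_nonneg B
    nlinarith
  · rw [le_div_iff₀ hk]
    by_contra hc
    push Not at hc
    have b1 : 2 * B < u3 := by linarith
    have b2 : 2 * B < u4 := by linarith
    have b3 : 2 * B * (2 * B) < u3 * u4 := mul_lt_mul'' b1 b2 (by linarith) (by linarith)
    have b4 := sq_nonneg B
    nlinarith

end Pool.Agent.Helper86.LH
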