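import Pool.Agent.Helper86.LH.Inv

/-!
Sizes of the translated invariants at an archimedean place with `|j| ≥ 10^20`.

PROOF.  `q = |Δ| / |c₄|³ ≤ 10^(-20)`, `l = √|c₄|`, `c₆² = c₄³ - 1728 Δ`, so
`|c₆|² = |c₄|³ |1 - 1728 Δ/c₄³|` is between `(1 - 1728 q) |c₄|³` and `(1 + 1728 q) |c₄|³`.  Use
`tr_b2, tr_b4, tr_b6, tr_b8`.
-/

namespace Pool.Agent.Helper86.LH

open WeierstrassCurve

variable {K : Type*} [Field K] (W : WeierstrassCurve K)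

theorem AInv_v72 (v : AbsoluteValue K ℝ) (v2 : v 2 = 2) (v3 : v 3 = 3) :
    v 4 = 4 ∧ v 72 = 72 ∧ v 432 = 432 ∧ v 1728 = 1728 := by
  have e4 : (4 : K) = 2 * 2 := by norm_num
  have e72 : (72 : K) = 2 * 2 * 2 * (3 * 3) := by norm_num
  have e432 : (432 : K) = 2 * 2 * 2 * 2 * (3 * 3 * 3) := by norm_num
  have e1728 : (1728 : K) = 2 * 2 * 2 * 2 * 2 * 2 * (3 * 3 * 3) := by norm_num
  refine ⟨?_, ?_, ?_, ?_⟩
  · rw [e4]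
    simp only [map_mul, v2]
    norm_num
  · rw [e72]
    simp only [map_mul, v2, v3]
    norm_num
  · rw [e432]
    simp only [map_mul, v2, v3]
    norm_num
  · rw [e1728]
    simp only [map_mul, v2, v3]
    norm_num

theorem AInv_tri (v : AbsoluteValue K ℝ) (x y : K) :
    v (x - y) ≤ v x + v y ∧ v x - v y ≤ v (x - y) := by
  constructor
  · have h := v.add_le x (-y)
    rw [v.map_neg, ← sub_eq_add_neg] at h
    exact h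
  · have h := v.add_le (x - y) y
    rw [sub_add_cancel] at h
    linarith

theorem atr_sizes (v : AbsoluteValue K ℝ) (v2 : v 2 = 2) (v3 : v 3 = 3) (hΔ : W.Δ ≠ 0)
    (h4 : W.c₄ ≠ 0) (hj : v W.Δ / v W.c₄ ^ 3 ≤ 1 / 10 ^ 20) :
    v (W.b₂ + 12 * rr W) ≤ 2 * Real.sqrt (v W.c₄) ∧
    Real.sqrt (v W.c₄) / 2 ≤ v (W.b₂ + 12 * rr W) ∧
    v (W.b₄ + rr W * W.b₂ + 6 * rr W ^ 2) ≤
      72 * (v W.Δ / v W.c₄ ^ 3) * Real.sqrt (v W.c₄) ^ 2 ∧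
    v (W.b₆ + 2 * rr W * W.b₄ + rr W ^ 2 * W.b₂ + 4 * rr W ^ 3) ≤
      8 * (v W.Δ / v W.c₄ ^ 3) * Real.sqrt (v W.c₄) ^ 3 ∧
    v (W.b₈ + 3 * rr W * W.b₆ + 3 * rr W ^ 2 * W.b₄ + rr W ^ 3 * W.b₂ + 3 * rr W ^ 4) ≤
      2 * (v W.Δ / v W.c₄ ^ 3) * Real.sqrt (v W.c₄) ^ 4 ∧
    (v W.Δ / v W.c₄ ^ 3) * Real.sqrt (v W.c₄) ^ 4 / 2 ≤
      v (W.b₈ + 3 * rr W * W.b₆ + 3 * rr W ^ 2 * W.b₄ + rr W ^ 3 * W.b₂ + 3 * rr W ^ 4) := by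
  obtain ⟨n4, n72, n432, n1728⟩ := AInv_v72 v v2 v3
  have hcpos : 0 < v W.c₄ := v.pos h4
  obtain ⟨l, hl⟩ : ∃ l, l = Real.sqrt (v W.c₄) := ⟨_, rfl⟩
  have hl2 : l ^ 2 = v W.c₄ := by rw [hl]; exact Real.sq_sqrt hcpos.le
  have hlpos : 0 < l := by rw [hl]; exact Real.sqrt_pos.mpr hcpos
  rw [← hl, ← hl2]
  rw [← hl2] at hj
  obtain ⟨q, hq⟩ : ∃ q, q = v W.Δ / (l ^ 2) ^ 3 := ⟨_, rfl⟩
  rw [← hq] at hj ⊢
  have hD : v W.Δ = q * l ^ 6 := by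
    rw [hq]
    field_simp
  have hq0 : 0 < q := by
    rw [hq]
    have := v.pos hΔ
    positivity
  have l6 : 0 < l ^ 6 := by positivity
  -- the size of `c₆`
  have hc6 : v W.c₆ ^ 2 = v (W.c₄ ^ 3 - 1728 * W.Δ) := by
    rw [W.c_relation, ← map_pow]
    congr 1
    ring
  obtain ⟨t1, t2⟩ := AInv_tri v (W.c₄ ^ 3) (1728 * W.Δ)
  rw [← hc6, map_pow, map_mul, n1728, ← hl2, hD] at t1 t2
  have hsmall : q * l ^ 6 ≤ 1 / 10 ^ 20 * l ^ 6 := mul_le_mul_of_nonneg_right hj l6.le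
  have up : v W.c₆ ≤ 2 * l ^ 3 := by
    refine le_of_sq_le_sq ?_ (by positivity)
    have e : (2 * l ^ 3) ^ 2 = 4 * l ^ 6 := by ring
    rw [e]
    have e1 : (l ^ 2) ^ 3 = l ^ 6 := by ring
    rw [e1] at t1
    have : 1 / 10 ^ 20 * l ^ 6 ≤ l ^ 6 / 10000 := by
      have h : (1 : ℝ) / 10 ^ 20 ≤ 1 / 10000 := by norm_num
      have := mul_le_mul_of_nonneg_right h l6.le
      linarith
    linarith
  have lo : l ^ 3 / 2 ≤ v W.c₆ := by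
    refine le_of_sq_le_sq ?_ (v.nonneg _)
    have e : (l ^ 3 / 2) ^ 2 = l ^ 6 / 4 := by ring
    rw [e]
    have e1 : (l ^ 2) ^ 3 = l ^ 6 := by ring
    rw [e1] at t2
    have : 1 / 10 ^ 20 * l ^ 6 ≤ l ^ 6 / 10000 := by
      have h : (1 : ℝ) / 10 ^ 20 ≤ 1 / 10000 := by norm_num
      have := mul_le_mul_of_nonneg_right h l6.le
      linarith
    linarith
  obtain ⟨s1, s2⟩ := AInv_tri v (W.c₄ ^ 3) (432 * W.Δ)
  rw [map_pow, map_mul, n432, ← hl2, hD] at s1 s2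
  have hs1 : v (W.c₄ ^ 3 - 432 * W.Δ) ≤ 2 * l ^ 6 := by
    have e1 : (l ^ 2) ^ 3 = l ^ 6 := by ring
    rw [e1] at s1
    have : 1 / 10 ^ 20 * l ^ 6 ≤ l ^ 6 / 10000 := by
      have h : (1 : ℝ) / 10 ^ 20 ≤ 1 / 10000 := by norm_num
      have := mul_le_mul_of_nonneg_right h l6.le
      linarith
    linarith
  have hs2 : l ^ 6 / 2 ≤ v (W.c₄ ^ 3 - 432 * W.Δ) := by
    have e1 : (l ^ 2) ^ 3 = l ^ 6 := by ring
    rw [e1] at s2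
    have : 1 / 10 ^ 20 * l ^ 6 ≤ l ^ 6 / 10000 := by
      have h : (1 : ℝ) / 10 ^ 20 ≤ 1 / 10000 := by norm_num
      have := mul_le_mul_of_nonneg_right h l6.le
      linarith
    linarith
  have hb2 : v (W.b₂ + 12 * rr W) = v W.c₆ / l ^ 2 := by
    rw [tr_b2 W h4, map_div₀, v.map_neg, ← hl2]
  have hb8 : v (W.b₈ + 3 * rr W * W.b₆ + 3 * rr W ^ 2 * W.b₄ + rr W ^ 3 * W.b₂ + 3 * rr W ^ 4) =
      q * l ^ 6 * v (W.c₄ ^ 3 - 432 * W.Δ) / (l ^ 2) ^ 4 := by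
    rw [tr_b8 W h4, map_div₀, map_mul, v.map_neg, map_pow, ← hl2, hD]
  refine ⟨?_, ?_, ?_, ?_, ?_, ?_⟩
  · rw [hb2, div_le_iff₀ (by positivity)]
    calc v W.c₆ ≤ 2 * l ^ 3 := up
      _ = 2 * l * l ^ 2 := by ring
  · rw [hb2, le_div_iff₀ (by positivity)]
    calc l / 2 * l ^ 2 = l ^ 3 / 2 := by ring
      _ ≤ v W.c₆ := lo
  · rw [tr_b4 W h4, map_div₀, map_pow, ← hl2, neg_mul, v.map_neg, map_mul, n72, hD]
    apply le_of_eq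
    field_simp
  · rw [tr_b6 W h4, map_div₀, map_pow, ← hl2, map_mul, map_mul, n4, hD,
      div_le_iff₀ (by positivity)]
    have h1 : v W.c₆ * (q * l ^ 6) ≤ 2 * l ^ 3 * (q * l ^ 6) :=
      mul_le_mul_of_nonneg_right up (by positivity)
    calc 4 * v W.c₆ * (q * l ^ 6) = 4 * (v W.c₆ * (q * l ^ 6)) := by ring
      _ ≤ 4 * (2 * l ^ 3 * (q * l ^ 6)) := by linarith
      _ = 8 * q * l ^ 3 * (l ^ 2) ^ 3 := by ring
  · rw [hb8, div_le_iff₀ (by positivity)]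
    calc q * l ^ 6 * v (W.c₄ ^ 3 - 432 * W.Δ) ≤ q * l ^ 6 * (2 * l ^ 6) :=
          mul_le_mul_of_nonneg_left hs1 (by positivity)
      _ = 2 * q * l ^ 4 * (l ^ 2) ^ 4 := by ring
  · rw [hb8, le_div_iff₀ (by positivity)]
    calc q * l ^ 4 / 2 * (l ^ 2) ^ 4 = q * l ^ 6 * (l ^ 6 / 2) := by ring
      _ ≤ q * l ^ 6 * v (W.c₄ ^ 3 - 432 * W.Δ) :=
          mul_le_mul_of_nonneg_left hs2 (by positivity)

end Pool.Agent.Helper86.LH
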