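import Pool.Agent.Helper86.LH.ACI
import Pool.Agent.Helper86.LH.ACIb
import Pool.Agent.Helper86.LH.ACIIa
import Pool.Agent.Helper86.LH.ACIIb

/-!
The archimedean law for vectors: reduction to the real data, then the five cases, symmetry in
`(1, 2)`, and logarithms.

PROOF.  `dat` : triangle inequality for every absolute value `v` (`v 2 = 2`), divide by
`nm1² nm2²` (multiply `S` by `l`, `D` by `l²`).  `alaw`: if `al1 ≤ al2` use the cases, otherwise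
exchange the two points (all equations are symmetric, `D` too).  `alaw_t`: logarithms of both
inequalities, `log q < 0`, `n = - log q`.
-/

namespace Pool.Agent.Helper86.LH

variable {K : Type*} [Field K]

theorem ARed_nm_pos (v : AbsoluteValue K ℝ) {l : ℝ} (hl : 0 < l) {X Z : K} (n : X ≠ 0 ∨ Z ≠ 0) :
    0 < nm v l X Z := by
  unfold nm
  rcases n with h | h
  · exact lt_max_of_lt_left (v.pos h)
  · exact lt_max_of_lt_right (mul_pos hl (v.pos h))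

theorem ARed_max_one {x y m : ℝ} (hm : 0 < m) (h : m = max x y) : max (x / m) (y / m) = 1 := by
  rw [max_div_div_right hm.le, ← h, div_self hm.ne']

theorem ARed_rev (v : AbsoluteValue K ℝ) (a b : K) : |v a - v b| ≤ v (a + b) := by
  have h := v.abs_abv_sub_le_abv_sub a (-b)
  rwa [v.map_neg, sub_neg_eq_add] at h

theorem ARed_sub (v : AbsoluteValue K ℝ) (a b : K) : v (a - b) ≤ v a + v b := by
  have h := v.add_le a (-b)
  rwa [v.map_neg, ← sub_eq_add_neg] at h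

/-- triangle inequalities for a sum of four terms -/
theorem ARed_four (v : AbsoluteValue K ℝ) (a b c d : K) :
    v (a - b - c - d) ≤ v a + v b + v c + v d ∧ v a - v b - v c - v d ≤ v (a - b - c - d) ∧
      v d - v a - v b - v c ≤ v (a - b - c - d) := by
  refine ⟨?_, ?_, ?_⟩
  · have h1 := ARed_sub v (a - b - c) d
    have h2 := ARed_sub v (a - b) c
    have h3 := ARed_sub v a b
    linarith
  · have h1 := v.le_sub (a - b - c) d
    have h2 := v.le_sub (a - b) c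
    have h3 := v.le_sub a b
    linarith
  · have h1 := v.le_sub d (a - b - c)
    have h2 := ARed_sub v (a - b) c
    have h3 := ARed_sub v a b
    rw [v.map_sub d (a - b - c)] at h1
    linarith

theorem ARed_four' (v : AbsoluteValue K ℝ) (a b c d : K) :
    v (a + b + c + d) ≤ v a + v b + v c + v d ∧ v b - v a - v c - v d ≤ v (a + b + c + d) := by
  refine ⟨?_, ?_⟩
  · have h1 := v.add_le (a + b + c) d
    have h2 := v.add_le (a + b) c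
    have h3 := v.add_le a b
    linarith
  · have h := (ARed_four v b (-a) (-c) (-d)).2.1
    have e : b - -a - -c - -d = a + b + c + d := by ring
    rw [e, v.map_neg, v.map_neg, v.map_neg] at h
    exact h

/-- the bounds for `N`, in terms of `v X_i` and `l * v Z_i` -/
theorem ARed_N (v : AbsoluteValue K ℝ) {b4 b6 b8 : K} {q l : ℝ} (hl : 0 < l)
    (h4 : v b4 ≤ 72 * q * l ^ 2) (h6 : v b6 ≤ 8 * q * l ^ 3) (h8 : v b8 ≤ 2 * q * l ^ 4)
    (h8' : q * l ^ 4 / 2 ≤ v b8) (hq0 : 0 < q) (X1 Z1 X2 Z2 : K) :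
    v ((X1 * X2) ^ 2 - b4 * (X1 * X2) * (Z1 * Z2) - b6 * (X1 * Z2 + Z1 * X2) * (Z1 * Z2)
      - b8 * (Z1 * Z2) ^ 2) ≤ (v X1 * v X2) ^ 2 +
        72 * q * (v X1 * v X2) * ((l * v Z1) * (l * v Z2)) +
        8 * q * (v X1 * (l * v Z2) + (l * v Z1) * v X2) * ((l * v Z1) * (l * v Z2)) +
        2 * q * ((l * v Z1) * (l * v Z2)) ^ 2 ∧
    (v X1 * v X2) ^ 2 - 72 * q * (v X1 * v X2) * ((l * v Z1) * (l * v Z2)) -
        8 * q * (v X1 * (l * v Z2) + (l * v Z1) * v X2) * ((l * v Z1) * (l * v Z2)) -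
        2 * q * ((l * v Z1) * (l * v Z2)) ^ 2 ≤
      v ((X1 * X2) ^ 2 - b4 * (X1 * X2) * (Z1 * Z2) - b6 * (X1 * Z2 + Z1 * X2) * (Z1 * Z2)
        - b8 * (Z1 * Z2) ^ 2) ∧
    q / 2 * ((l * v Z1) * (l * v Z2)) ^ 2 - (v X1 * v X2) ^ 2 -
        72 * q * (v X1 * v X2) * ((l * v Z1) * (l * v Z2)) -
        8 * q * (v X1 * (l * v Z2) + (l * v Z1) * v X2) * ((l * v Z1) * (l * v Z2)) ≤
      v ((X1 * X2) ^ 2 - b4 * (X1 * X2) * (Z1 * Z2) - b6 * (X1 * Z2 + Z1 * X2) * (Z1 * Z2)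
        - b8 * (Z1 * Z2) ^ 2) := by
  have a1 := v.nonneg X1
  have a2 := v.nonneg X2
  have c1 := v.nonneg Z1
  have c2 := v.nonneg Z2
  obtain ⟨t1, t2, t3⟩ := ARed_four v ((X1 * X2) ^ 2) (b4 * (X1 * X2) * (Z1 * Z2))
    (b6 * (X1 * Z2 + Z1 * X2) * (Z1 * Z2)) (b8 * (Z1 * Z2) ^ 2)
  have e1 : v ((X1 * X2) ^ 2) = (v X1 * v X2) ^ 2 := by rw [map_pow, map_mul]
  have e2 : v (b4 * (X1 * X2) * (Z1 * Z2)) ≤
      72 * q * (v X1 * v X2) * ((l * v Z1) * (l * v Z2)) := by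
    rw [map_mul, map_mul, map_mul, map_mul]
    have h := mul_le_mul_of_nonneg_right h4 (mul_nonneg (mul_nonneg a1 a2) (mul_nonneg c1 c2))
    linarith
  have e3 : v (b6 * (X1 * Z2 + Z1 * X2) * (Z1 * Z2)) ≤
      8 * q * (v X1 * (l * v Z2) + (l * v Z1) * v X2) * ((l * v Z1) * (l * v Z2)) := by
    rw [map_mul, map_mul, map_mul]
    have hs : v (X1 * Z2 + Z1 * X2) ≤ v X1 * v Z2 + v Z1 * v X2 := by
      have := v.add_le (X1 * Z2) (Z1 * X2)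
      rwa [map_mul, map_mul] at this
    have h1 : v b6 * v (X1 * Z2 + Z1 * X2) ≤ (8 * q * l ^ 3) * (v X1 * v Z2 + v Z1 * v X2) :=
      mul_le_mul h6 hs (v.nonneg _) (by positivity)
    have h := mul_le_mul_of_nonneg_right h1 (mul_nonneg c1 c2)
    linarith
  have e4 : v (b8 * (Z1 * Z2) ^ 2) ≤ 2 * q * ((l * v Z1) * (l * v Z2)) ^ 2 := by
    rw [map_mul, map_pow, map_mul]
    have h := mul_le_mul_of_nonneg_right h8 (sq_nonneg (v Z1 * v Z2))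
    linarith
  have e5 : q / 2 * ((l * v Z1) * (l * v Z2)) ^ 2 ≤ v (b8 * (Z1 * Z2) ^ 2) := by
    rw [map_mul, map_pow, map_mul]
    have h := mul_le_mul_of_nonneg_right h8' (sq_nonneg (v Z1 * v Z2))
    linarith
  rw [e1] at t1 t2 t3
  refine ⟨by linarith, by linarith, by linarith⟩

/-- the bounds for `S` -/
theorem ARed_S (v : AbsoluteValue K ℝ) (v2 : v 2 = 2) {b2 b4 b6 : K} {q l : ℝ} (hl : 0 < l)
    (h2 : v b2 ≤ 2 * l) (h2' : l / 2 ≤ v b2)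
    (h4 : v b4 ≤ 72 * q * l ^ 2) (h6 : v b6 ≤ 8 * q * l ^ 3) (hq0 : 0 < q) (X1 Z1 X2 Z2 : K) :
    l * v (2 * (X1 * Z2 + Z1 * X2) * (X1 * X2) + b2 * (X1 * X2) * (Z1 * Z2)
      + b4 * (X1 * Z2 + Z1 * X2) * (Z1 * Z2) + b6 * (Z1 * Z2) ^ 2) ≤
      2 * (v X1 * (l * v Z2) + (l * v Z1) * v X2) * (v X1 * v X2) +
        2 * (v X1 * v X2) * ((l * v Z1) * (l * v Z2)) +
        72 * q * (v X1 * (l * v Z2) + (l * v Z1) * v X2) * ((l * v Z1) * (l * v Z2)) +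
        8 * q * ((l * v Z1) * (l * v Z2)) ^ 2 ∧
    (v X1 * v X2) * ((l * v Z1) * (l * v Z2)) / 2 -
      2 * (v X1 * (l * v Z2) + (l * v Z1) * v X2) * (v X1 * v X2) -
        72 * q * (v X1 * (l * v Z2) + (l * v Z1) * v X2) * ((l * v Z1) * (l * v Z2)) -
        8 * q * ((l * v Z1) * (l * v Z2)) ^ 2 ≤
      l * v (2 * (X1 * Z2 + Z1 * X2) * (X1 * X2) + b2 * (X1 * X2) * (Z1 * Z2)
      + b4 * (X1 * Z2 + Z1 * X2) * (Z1 * Z2) + b6 * (Z1 * Z2) ^ 2) := by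
  have a1 := v.nonneg X1
  have a2 := v.nonneg X2
  have c1 := v.nonneg Z1
  have c2 := v.nonneg Z2
  obtain ⟨t1, t2⟩ := ARed_four' v (2 * (X1 * Z2 + Z1 * X2) * (X1 * X2))
    (b2 * (X1 * X2) * (Z1 * Z2)) (b4 * (X1 * Z2 + Z1 * X2) * (Z1 * Z2)) (b6 * (Z1 * Z2) ^ 2)
  have hs : v (X1 * Z2 + Z1 * X2) ≤ v X1 * v Z2 + v Z1 * v X2 := by
    have := v.add_le (X1 * Z2) (Z1 * X2)
    rwa [map_mul, map_mul] at this
  have e1 : l * v (2 * (X1 * Z2 + Z1 * X2) * (X1 * X2)) ≤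
      2 * (v X1 * (l * v Z2) + (l * v Z1) * v X2) * (v X1 * v X2) := by
    rw [map_mul, map_mul, map_mul, v2]
    have h := mul_le_mul_of_nonneg_right hs (mul_nonneg hl.le (mul_nonneg a1 a2))
    linarith
  have e2 : l * v (b2 * (X1 * X2) * (Z1 * Z2)) ≤
      2 * (v X1 * v X2) * ((l * v Z1) * (l * v Z2)) := by
    rw [map_mul, map_mul, map_mul, map_mul]
    have h := mul_le_mul_of_nonneg_right h2 (mul_nonneg hl.le
      (mul_nonneg (mul_nonneg a1 a2) (mul_nonneg c1 c2)))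
    linarith
  have e2' : (v X1 * v X2) * ((l * v Z1) * (l * v Z2)) / 2 ≤
      l * v (b2 * (X1 * X2) * (Z1 * Z2)) := by
    rw [map_mul, map_mul, map_mul, map_mul]
    have h := mul_le_mul_of_nonneg_right h2' (mul_nonneg hl.le
      (mul_nonneg (mul_nonneg a1 a2) (mul_nonneg c1 c2)))
    linarith
  have e3 : l * v (b4 * (X1 * Z2 + Z1 * X2) * (Z1 * Z2)) ≤
      72 * q * (v X1 * (l * v Z2) + (l * v Z1) * v X2) * ((l * v Z1) * (l * v Z2)) := by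
    rw [map_mul, map_mul, map_mul]
    have h1 : v b4 * v (X1 * Z2 + Z1 * X2) ≤ (72 * q * l ^ 2) * (v X1 * v Z2 + v Z1 * v X2) :=
      mul_le_mul h4 hs (v.nonneg _) (by positivity)
    have h := mul_le_mul_of_nonneg_right h1 (mul_nonneg hl.le (mul_nonneg c1 c2))
    linarith
  have e4 : l * v (b6 * (Z1 * Z2) ^ 2) ≤ 8 * q * ((l * v Z1) * (l * v Z2)) ^ 2 := by
    rw [map_mul, map_pow, map_mul]
    have h := mul_le_mul_of_nonneg_right h6 (mul_nonneg hl.le (sq_nonneg (v Z1 * v Z2)))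
    linarith
  have t1' := mul_le_mul_of_nonneg_left t1 hl.le
  have t2' := mul_le_mul_of_nonneg_left t2 hl.le
  exact ⟨by linarith, by linarith⟩

/-- the bounds for `D` -/
theorem ARed_D (v : AbsoluteValue K ℝ) {l : ℝ} (hl : 0 < l) (X1 Z1 X2 Z2 : K) :
    l ^ 2 * v ((X1 * Z2 - Z1 * X2) ^ 2) ≤ (v X1 * (l * v Z2) + (l * v Z1) * v X2) ^ 2 ∧
    (v X1 * (l * v Z2) - (l * v Z1) * v X2) ^ 2 ≤ l ^ 2 * v ((X1 * Z2 - Z1 * X2) ^ 2) := by
  have a1 := v.nonneg X1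
  have a2 := v.nonneg X2
  have c1 := v.nonneg Z1
  have c2 := v.nonneg Z2
  have h1 := ARed_sub v (X1 * Z2) (Z1 * X2)
  have h2 := v.abs_abv_sub_le_abv_sub (X1 * Z2) (Z1 * X2)
  rw [map_mul, map_mul] at h1 h2
  have h3 : l ^ 2 * v ((X1 * Z2 - Z1 * X2) ^ 2) = (l * v (X1 * Z2 - Z1 * X2)) ^ 2 := by
    rw [map_pow, mul_pow]
  rw [h3]
  constructor
  · apply pow_le_pow_left₀ (mul_nonneg hl.le (v.nonneg _))
    have := mul_le_mul_of_nonneg_left h1 hl.le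
    linarith
  · apply sq_le_sq'
    · have := mul_le_mul_of_nonneg_left (abs_le.1 h2).1 hl.le
      have h5 := mul_le_mul_of_nonneg_left (neg_le_of_neg_le (abs_le.1 h2).1) hl.le
      have h6 := mul_le_mul_of_nonneg_left (neg_le_abs (v X1 * v Z2 - v Z1 * v X2)) hl.le
      have h7 := mul_le_mul_of_nonneg_left h2 hl.le
      linarith
    · have h6 := mul_le_mul_of_nonneg_left (le_abs_self (v X1 * v Z2 - v Z1 * v X2)) hl.le
      have h7 := mul_le_mul_of_nonneg_left h2 hl.le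
      linarith

theorem dat (v : AbsoluteValue K ℝ) (v2 : v 2 = 2) {b2 b4 b6 b8 : K} {q l : ℝ}
    (hq0 : 0 < q) (hq1 : q ≤ 1 / 10 ^ 20) (hl : 0 < l) (h2 : v b2 ≤ 2 * l) (h2' : l / 2 ≤ v b2)
    (h4 : v b4 ≤ 72 * q * l ^ 2) (h6 : v b6 ≤ 8 * q * l ^ 3) (h8 : v b8 ≤ 2 * q * l ^ 4)
    (h8' : q * l ^ 4 / 2 ≤ v b8)
    {X1 Z1 X2 Z2 X3 Z3 X4 Z4 c : K} (n1 : X1 ≠ 0 ∨ Z1 ≠ 0) (n2 : X2 ≠ 0 ∨ Z2 ≠ 0)
    (n3 : X3 ≠ 0 ∨ Z3 ≠ 0) (n4 : X4 ≠ 0 ∨ Z4 ≠ 0) (hc : c ≠ 0)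
    (hN : (X1 * X2) ^ 2 - b4 * (X1 * X2) * (Z1 * Z2) - b6 * (X1 * Z2 + Z1 * X2) * (Z1 * Z2)
      - b8 * (Z1 * Z2) ^ 2 = c * (X3 * X4))
    (hS : 2 * (X1 * Z2 + Z1 * X2) * (X1 * X2) + b2 * (X1 * X2) * (Z1 * Z2)
      + b4 * (X1 * Z2 + Z1 * X2) * (Z1 * Z2) + b6 * (Z1 * Z2) ^ 2 = c * (X3 * Z4 + Z3 * X4))
    (hD : (X1 * Z2 - Z1 * X2) ^ 2 = c * (Z3 * Z4)) :
    ∃ c' N S D : ℝ, Dat q (v X1 / nm v l X1 Z1) (l * v Z1 / nm v l X1 Z1)
      (v X2 / nm v l X2 Z2) (l * v Z2 / nm v l X2 Z2)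
      (v X3 / nm v l X3 Z3) (l * v Z3 / nm v l X3 Z3)
      (v X4 / nm v l X4 Z4) (l * v Z4 / nm v l X4 Z4) c' N S D := by
  obtain ⟨m1, hm1⟩ : ∃ m, m = nm v l X1 Z1 := ⟨_, rfl⟩
  obtain ⟨m2, hm2⟩ : ∃ m, m = nm v l X2 Z2 := ⟨_, rfl⟩
  obtain ⟨m3, hm3⟩ : ∃ m, m = nm v l X3 Z3 := ⟨_, rfl⟩
  obtain ⟨m4, hm4⟩ : ∃ m, m = nm v l X4 Z4 := ⟨_, rfl⟩
  have p1 : 0 < m1 := by rw [hm1]; exact ARed_nm_pos v hl n1
  have p2 : 0 < m2 := by rw [hm2]; exact ARed_nm_pos v hl n2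
  have p3 : 0 < m3 := by rw [hm3]; exact ARed_nm_pos v hl n3
  have p4 : 0 < m4 := by rw [hm4]; exact ARed_nm_pos v hl n4
  have o1 := ARed_max_one p1 hm1
  have o2 := ARed_max_one p2 hm2
  have o3 := ARed_max_one p3 hm3
  have o4 := ARed_max_one p4 hm4
  rw [← hm1, ← hm2, ← hm3, ← hm4]
  have hlZ : ∀ Z : K, 0 ≤ l * v Z := fun Z => mul_nonneg hl.le (v.nonneg Z)
  have u1n : 0 ≤ v X1 / m1 := div_nonneg (v.nonneg _) p1.le
  have z1n : 0 ≤ l * v Z1 / m1 := div_nonneg (hlZ _) p1.le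
  have u2n : 0 ≤ v X2 / m2 := div_nonneg (v.nonneg _) p2.le
  have z2n : 0 ≤ l * v Z2 / m2 := div_nonneg (hlZ _) p2.le
  have u3n : 0 ≤ v X3 / m3 := div_nonneg (v.nonneg _) p3.le
  have z3n : 0 ≤ l * v Z3 / m3 := div_nonneg (hlZ _) p3.le
  have u4n : 0 ≤ v X4 / m4 := div_nonneg (v.nonneg _) p4.le
  have z4n : 0 ≤ l * v Z4 / m4 := div_nonneg (hlZ _) p4.le
  have x1 : v X1 = v X1 / m1 * m1 := (div_mul_cancel₀ _ p1.ne').symm
  have y1 : l * v Z1 = l * v Z1 / m1 * m1 := (div_mul_cancel₀ _ p1.ne').symm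
  have x2 : v X2 = v X2 / m2 * m2 := (div_mul_cancel₀ _ p2.ne').symm
  have y2 : l * v Z2 = l * v Z2 / m2 * m2 := (div_mul_cancel₀ _ p2.ne').symm
  have x3 : v X3 = v X3 / m3 * m3 := (div_mul_cancel₀ _ p3.ne').symm
  have y3 : l * v Z3 = l * v Z3 / m3 * m3 := (div_mul_cancel₀ _ p3.ne').symm
  have x4 : v X4 = v X4 / m4 * m4 := (div_mul_cancel₀ _ p4.ne').symm
  have y4 : l * v Z4 = l * v Z4 / m4 * m4 := (div_mul_cancel₀ _ p4.ne').symm
  obtain ⟨N1, N2, N3⟩ := ARed_N v hl h4 h6 h8 h8' hq0 X1 Z1 X2 Z2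
  obtain ⟨S1, S2⟩ := ARed_S v v2 hl h2 h2' h4 h6 hq0 X1 Z1 X2 Z2
  obtain ⟨D1, D2⟩ := ARed_D v hl X1 Z1 X2 Z2
  -- the right hand sides
  have hNv : v ((X1 * X2) ^ 2 - b4 * (X1 * X2) * (Z1 * Z2) - b6 * (X1 * Z2 + Z1 * X2) * (Z1 * Z2)
      - b8 * (Z1 * Z2) ^ 2) = v c * (v X3 * v X4) := by
    rw [hN, map_mul, map_mul]
  have hDv : l ^ 2 * v ((X1 * Z2 - Z1 * X2) ^ 2) = v c * ((l * v Z3) * (l * v Z4)) := by
    rw [hD, map_mul, map_mul]
    ring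
  have hSv1 : l * v (2 * (X1 * Z2 + Z1 * X2) * (X1 * X2) + b2 * (X1 * X2) * (Z1 * Z2)
      + b4 * (X1 * Z2 + Z1 * X2) * (Z1 * Z2) + b6 * (Z1 * Z2) ^ 2) ≤
      v c * (v X3 * (l * v Z4) + (l * v Z3) * v X4) := by
    rw [hS, map_mul]
    have h := v.add_le (X3 * Z4) (Z3 * X4)
    rw [map_mul, map_mul] at h
    have := mul_le_mul_of_nonneg_left h (mul_nonneg hl.le (v.nonneg c))
    linarith
  have hSv2 : v c * |v X3 * (l * v Z4) - (l * v Z3) * v X4| ≤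
      l * v (2 * (X1 * Z2 + Z1 * X2) * (X1 * X2) + b2 * (X1 * X2) * (Z1 * Z2)
      + b4 * (X1 * Z2 + Z1 * X2) * (Z1 * Z2) + b6 * (Z1 * Z2) ^ 2) := by
    rw [hS, map_mul]
    have h := ARed_rev v (X3 * Z4) (Z3 * X4)
    rw [map_mul, map_mul] at h
    have h' := mul_le_mul_of_nonneg_left h (mul_nonneg hl.le (v.nonneg c))
    have e : |v X3 * (l * v Z4) - (l * v Z3) * v X4| = l * |v X3 * v Z4 - v Z3 * v X4| := by
      rw [← abs_of_pos hl, ← abs_mul, abs_of_pos hl]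
      congr 1
      ring
    rw [e]
    linarith
  rw [x1, x2, y1, y2] at N1 N2 N3 S1 S2 D1 D2
  rw [x3, x4] at hNv
  rw [y3, y4] at hDv
  rw [x3, x4, y3, y4] at hSv1 hSv2
  obtain ⟨vN, hvN⟩ : ∃ vN, vN = v ((X1 * X2) ^ 2 - b4 * (X1 * X2) * (Z1 * Z2) -
    b6 * (X1 * Z2 + Z1 * X2) * (Z1 * Z2) - b8 * (Z1 * Z2) ^ 2) := ⟨_, rfl⟩
  obtain ⟨vS, hvS⟩ : ∃ vS, vS = l * v (2 * (X1 * Z2 + Z1 * X2) * (X1 * X2) +
    b2 * (X1 * X2) * (Z1 * Z2) + b4 * (X1 * Z2 + Z1 * X2) * (Z1 * Z2) + b6 * (Z1 * Z2) ^ 2) :=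
    ⟨_, rfl⟩
  obtain ⟨vD, hvD⟩ : ∃ vD, vD = l ^ 2 * v ((X1 * Z2 - Z1 * X2) ^ 2) := ⟨_, rfl⟩
  rw [← hvN] at N1 N2 N3 hNv
  rw [← hvS] at S1 S2 hSv1 hSv2
  rw [← hvD] at D1 D2 hDv
  clear hvN hvS hvD hN hS hD hm1 hm2 hm3 hm4 x1 x2 x3 x4 y1 y2 y3 y4 hlZ
  have hvc : 0 < v c := v.pos hc
  generalize v X1 / m1 = u1 at *
  generalize l * v Z1 / m1 = z1 at *
  generalize v X2 / m2 = u2 at *
  generalize l * v Z2 / m2 = z2 at *
  generalize v X3 / m3 = u3 at *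
  generalize l * v Z3 / m3 = z3 at *
  generalize v X4 / m4 = u4 at *
  generalize l * v Z4 / m4 = z4 at *
  generalize v c = w at *
  have hM : 0 < (m1 * m2) ^ 2 := by positivity
  refine ⟨w * (m3 * m4) / (m1 * m2) ^ 2, vN / (m1 * m2) ^ 2, vS / (m1 * m2) ^ 2,
    vD / (m1 * m2) ^ 2, ?_⟩
  have hM3 : 0 < m3 * m4 := mul_pos p3 p4
  exact
    { q0 := hq0
      qs := hq1
      u1n := u1n
      z1n := z1n
      m1 := o1
      u2n := u2n
      z2n := z2n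
      m2 := o2
      u3n := u3n
      z3n := z3n
      m3 := o3
      u4n := u4n
      z4n := z4n
      m4 := o4
      c0 := by positivity
      Nle := by
        rw [div_le_iff₀ hM]
        linarith
      Nge := by
        rw [le_div_iff₀ hM]
        linarith
      Nge' := by
        rw [le_div_iff₀ hM]
        linarith
      Sle := by
        rw [div_le_iff₀ hM]
        linarith
      Sge := by
        rw [le_div_iff₀ hM]
        linarith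
      Dle := by
        rw [div_le_iff₀ hM]
        linarith
      Dge := by
        rw [le_div_iff₀ hM]
        linarith
      Ne := by
        rw [hNv]
        ring
      De := by
        rw [hDv]
        ring
      Se := by
        have e : w * (m3 * m4) / (m1 * m2) ^ 2 * (u3 * z4 + z3 * u4) =
            w * (u3 * m3 * (z4 * m4) + z3 * m3 * (u4 * m4)) / (m1 * m2) ^ 2 := by ring
        rw [e]
        exact div_le_div_of_nonneg_right hSv1 hM.le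
      Se' := by
        have e1 : u3 * m3 * (z4 * m4) - z3 * m3 * (u4 * m4) =
            (m3 * m4) * (u3 * z4 - z3 * u4) := by ring
        rw [e1, abs_mul, abs_of_pos hM3] at hSv2
        have e : w * (m3 * m4) / (m1 * m2) ^ 2 * |u3 * z4 - z3 * u4| =
            w * (m3 * m4 * |u3 * z4 - z3 * u4|) / (m1 * m2) ^ 2 := by ring
        rw [e]
        exact div_le_div_of_nonneg_right hSv2 hM.le }

/-- the five cases -/
theorem ARed_con {q u1 z1 u2 z2 u3 z3 u4 z4 c N S D : ℝ}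
    (d : Dat q u1 z1 u2 z2 u3 z3 u4 z4 c N S D)
    (h12 : max u1 (Real.sqrt q) ≤ max u2 (Real.sqrt q)) : Con q u1 u2 u3 u4 := by
  by_cases h2 : 1 / 100 ≤ max u2 (Real.sqrt q)
  · by_cases h1 : 1 / 10 ^ 4 ≤ max u1 (Real.sqrt q)
    · exact case_Ia d h12 h2 h1
    · exact case_Ib d h12 h2 (not_le.1 h1)
  · have h2' := not_le.1 h2
    by_cases h3 : 100 * max u1 (Real.sqrt q) ≤ max u2 (Real.sqrt q)
    · exact case_IIa d h12 h2' h3
    · have h3' := not_le.1 h3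
      by_cases h4 : u1 < 100 * Real.sqrt q ∨ u2 < 100 * Real.sqrt q
      · exact case_IIb2 d h12 h2' h3' h4
      · push Not at h4
        exact case_IIb1 d h12 h2' h3' h4.1 h4.2

/-- logarithms of the two inequalities -/
theorem ARed_log {q a1 a2 a3 a4 : ℝ} (hq0 : 0 < q) (hq1 : q < 1) (h1 : 0 < a1) (h2 : 0 < a2)
    (h3 : 0 < a3) (h4 : 0 < a4) (h12 : a1 ≤ a2)
    (hA : a3 * a4 ≤ 10 ^ 30 * (a1 / a2 * max (a1 * a2) (q / (a1 * a2))))
    (hB : a1 / a2 * max (a1 * a2) (q / (a1 * a2)) ≤ 10 ^ 30 * (a3 * a4)) :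
    |Real.log a3 / Real.log q + Real.log a4 / Real.log q -
      (|Real.log a1 / Real.log q - Real.log a2 / Real.log q| +
      min (Real.log a1 / Real.log q + Real.log a2 / Real.log q)
        (1 - (Real.log a1 / Real.log q + Real.log a2 / Real.log q)))| ≤
      Real.log (10 ^ 30) / -Real.log q := by
  have hL : Real.log q < 0 := Real.log_neg hq0 hq1
  obtain ⟨t1, ht1⟩ : ∃ t, t = Real.log a1 / Real.log q := ⟨_, rfl⟩
  obtain ⟨t2, ht2⟩ : ∃ t, t = Real.log a2 / Real.log q := ⟨_, rfl⟩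
  obtain ⟨t3, ht3⟩ : ∃ t, t = Real.log a3 / Real.log q := ⟨_, rfl⟩
  obtain ⟨t4, ht4⟩ : ∃ t, t = Real.log a4 / Real.log q := ⟨_, rfl⟩
  have g1 : Real.log a1 = t1 * Real.log q := by rw [ht1, div_mul_cancel₀ _ hL.ne]
  have g2 : Real.log a2 = t2 * Real.log q := by rw [ht2, div_mul_cancel₀ _ hL.ne]
  have g3 : Real.log a3 = t3 * Real.log q := by rw [ht3, div_mul_cancel₀ _ hL.ne]
  have g4 : Real.log a4 = t4 * Real.log q := by rw [ht4, div_mul_cancel₀ _ hL.ne]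
  rw [← ht1, ← ht2, ← ht3, ← ht4]
  have h21 : t2 ≤ t1 := by
    have h := Real.log_le_log h1 h12
    rw [g1, g2] at h
    exact (mul_le_mul_right_of_neg hL).1 h
  have hp12 : 0 < a1 * a2 := mul_pos h1 h2
  have hpq : 0 < q / (a1 * a2) := div_pos hq0 hp12
  have hl12 : Real.log (a1 * a2) = (t1 + t2) * Real.log q := by
    rw [Real.log_mul h1.ne' h2.ne', g1, g2]
    ring
  have hlq : Real.log (q / (a1 * a2)) = (1 - (t1 + t2)) * Real.log q := by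
    rw [Real.log_div hq0.ne' hp12.ne', hl12]
    ring
  have hmax : Real.log (max (a1 * a2) (q / (a1 * a2))) =
      min (t1 + t2) (1 - (t1 + t2)) * Real.log q := by
    rcases le_total (t1 + t2) (1 - (t1 + t2)) with h | h
    · have h5 : q / (a1 * a2) ≤ a1 * a2 := by
        rw [← Real.log_le_log_iff hpq hp12, hl12, hlq]
        exact mul_le_mul_of_nonpos_right h hL.le
      rw [max_eq_left h5, min_eq_left h, hl12]
    · have h5 : a1 * a2 ≤ q / (a1 * a2) := by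
        rw [← Real.log_le_log_iff hp12 hpq, hl12, hlq]
        exact mul_le_mul_of_nonpos_right h hL.le
      rw [max_eq_right h5, min_eq_right h, hlq]
  have hmp : 0 < max (a1 * a2) (q / (a1 * a2)) := lt_max_of_lt_left hp12
  have hR : Real.log (a1 / a2 * max (a1 * a2) (q / (a1 * a2))) =
      ((t1 - t2) + min (t1 + t2) (1 - (t1 + t2))) * Real.log q := by
    rw [Real.log_mul (div_pos h1 h2).ne' hmp.ne', hmax, Real.log_div h1.ne' h2.ne', g1, g2]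
    ring
  have hR34 : Real.log (a3 * a4) = (t3 + t4) * Real.log q := by
    rw [Real.log_mul h3.ne' h4.ne', g3, g4]
    ring
  have hrp : 0 < a1 / a2 * max (a1 * a2) (q / (a1 * a2)) := mul_pos (div_pos h1 h2) hmp
  have h10 : (0 : ℝ) < 10 ^ 30 := by positivity
  have lA := Real.log_le_log (mul_pos h3 h4) hA
  have lB := Real.log_le_log hrp hB
  rw [Real.log_mul h10.ne' hrp.ne', hR, hR34] at lA
  rw [Real.log_mul h10.ne' (mul_pos h3 h4).ne', hR, hR34] at lB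
  rw [abs_of_nonneg (sub_nonneg.2 h21), abs_le]
  constructor
  · rw [neg_le, le_div_iff₀ (neg_pos.2 hL)]
    linarith
  · rw [le_div_iff₀ (neg_pos.2 hL)]
    linarith

theorem alaw_t (v : AbsoluteValue K ℝ) (v2 : v 2 = 2) {b2 b4 b6 b8 : K} {q l : ℝ}
    (hq0 : 0 < q) (hq1 : q ≤ 1 / 10 ^ 20) (hl : 0 < l) (h2 : v b2 ≤ 2 * l) (h2' : l / 2 ≤ v b2)
    (h4 : v b4 ≤ 72 * q * l ^ 2) (h6 : v b6 ≤ 8 * q * l ^ 3) (h8 : v b8 ≤ 2 * q * l ^ 4)
    (h8' : q * l ^ 4 / 2 ≤ v b8)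
    {X1 Z1 X2 Z2 X3 Z3 X4 Z4 c : K} (n1 : X1 ≠ 0 ∨ Z1 ≠ 0) (n2 : X2 ≠ 0 ∨ Z2 ≠ 0)
    (n3 : X3 ≠ 0 ∨ Z3 ≠ 0) (n4 : X4 ≠ 0 ∨ Z4 ≠ 0) (hc : c ≠ 0)
    (hN : (X1 * X2) ^ 2 - b4 * (X1 * X2) * (Z1 * Z2) - b6 * (X1 * Z2 + Z1 * X2) * (Z1 * Z2)
      - b8 * (Z1 * Z2) ^ 2 = c * (X3 * X4))
    (hS : 2 * (X1 * Z2 + Z1 * X2) * (X1 * X2) + b2 * (X1 * X2) * (Z1 * Z2)
      + b4 * (X1 * Z2 + Z1 * X2) * (Z1 * Z2) + b6 * (Z1 * Z2) ^ 2 = c * (X3 * Z4 + Z3 * X4))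
    (hD : (X1 * Z2 - Z1 * X2) ^ 2 = c * (Z3 * Z4)) :
    |tt v l q X3 Z3 + tt v l q X4 Z4 - (|tt v l q X1 Z1 - tt v l q X2 Z2| +
      min (tt v l q X1 Z1 + tt v l q X2 Z2) (1 - (tt v l q X1 Z1 + tt v l q X2 Z2)))| ≤
      Real.log (10 ^ 30) / -Real.log q := by
  have hq1' : q < 1 := lt_of_le_of_lt hq1 (by norm_num)
  have hsq : 0 < Real.sqrt q := Real.sqrt_pos.2 hq0
  have hp : ∀ u : ℝ, 0 < max u (Real.sqrt q) := fun u => lt_max_of_lt_right hsq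
  unfold tt al
  rcases le_total (max (v X1 / nm v l X1 Z1) (Real.sqrt q))
    (max (v X2 / nm v l X2 Z2) (Real.sqrt q)) with h12 | h12
  · obtain ⟨c', N, S, D, d⟩ := dat v v2 hq0 hq1 hl h2 h2' h4 h6 h8 h8' n1 n2 n3 n4 hc hN hS hD
    obtain ⟨hA, hB⟩ := ARed_con d h12
    exact ARed_log hq0 hq1' (hp _) (hp _) (hp _) (hp _) h12 hA hB
  · obtain ⟨c', N, S, D, d⟩ := dat v v2 hq0 hq1 hl h2 h2' h4 h6 h8 h8' n2 n1 n3 n4 hc
      (X1 := X2) (Z1 := Z2) (X2 := X1) (Z2 := Z1)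
      (by linear_combination hN) (by linear_combination hS) (by linear_combination hD)
    obtain ⟨hA, hB⟩ := ARed_con d h12
    have h := ARed_log hq0 hq1' (hp _) (hp _) (hp _) (hp _) h12 hA hB
    rw [abs_sub_comm (Real.log (max (v X1 / nm v l X1 Z1) (Real.sqrt q)) / Real.log q),
      add_comm (Real.log (max (v X1 / nm v l X1 Z1) (Real.sqrt q)) / Real.log q)
        (Real.log (max (v X2 / nm v l X2 Z2) (Real.sqrt q)) / Real.log q)]
    exact h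

end Pool.Agent.Helper86.LH
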