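import Pool.Agent.Helper86.LH.Loc
import Pool.Agent.Helper86.LH.ARed
import Pool.Agent.Helper86.LH.ADbl
import Pool.Agent.Helper86.LH.AInv

/-!
Archimedean places with `|j| ≥ 10^20`: the law and the doubling inequality for points.
-/

namespace Pool.Agent.Helper86.LH

open WeierstrassCurve WeierstrassCurve.Affine WeierstrassCurve.Affine.Point
open Pool.Agent.Helper51.Par

variable {K : Type*} [Field K] (W : WeierstrassCurve.Affine K)

/-- `|j| ≥ 10^20`. -/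
def IsAM (v : AbsoluteValue K ℝ) : Prop := W.c₄ ≠ 0 ∧ qv W v ≤ 1 / 10 ^ 20

variable {W}

theorem IsAM.mul {v : AbsoluteValue K ℝ} (h : IsAM W v) : IsMul W v := by
  have hc : 0 < v W.c₄ ^ 3 := pow_pos (v.pos h.1) 3
  have h1 : qv W v < 1 := lt_of_le_of_lt h.2 (by norm_num)
  rw [qv, div_lt_one hc] at h1
  exact h1

theorem not_isAM {v : AbsoluteValue K ℝ} (hΔ : W.Δ ≠ 0) (h : ¬ IsAM W v) :
    v W.c₄ ^ 3 / v W.Δ ≤ 10 ^ 20 := by
  have hd := v.pos hΔ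
  by_cases hc : W.c₄ = 0
  · rw [hc, v.map_zero]
    norm_num
  · have hc' : 0 < v W.c₄ ^ 3 := pow_pos (v.pos hc) 3
    have h1 : 1 / 10 ^ 20 < qv W v := by
      by_contra h2
      exact h ⟨hc, not_lt.mp h2⟩
    rw [qv, div_lt_div_iff₀ (by norm_num) hc', one_mul] at h1
    rw [div_le_iff₀ hd]
    linarith

theorem tv_alaw [DecidableEq K] [W.IsElliptic] {v : AbsoluteValue K ℝ} (v2 : v 2 = 2)
    (v3 : v 3 = 3) (h : IsAM W v) (P Q : W.Point) :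
    |tv W v (P + Q) + tv W v (P - Q) - (|tv W v P - tv W v Q| +
      min (tv W v P + tv W v Q) (1 - (tv W v P + tv W v Q)))| ≤
      Real.log (10 ^ 30) / -Real.log (qv W v) := by
  have hΔ : W.Δ ≠ 0 := W.isUnit_Δ.ne_zero
  obtain ⟨c, hc, he⟩ := addSubMap_sym2x W P Q
  rw [addSubMap_eval] at he
  have e0 := congrFun he 0
  have e1 := congrFun he 1
  have e2 := congrFun he 2
  simp only [sym2x, Matrix.cons_val_zero, Matrix.cons_val_one, Matrix.cons_val, Pi.smul_apply,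
    smul_eq_mul] at e0 e1 e2
  obtain ⟨s2, s2', s4, s6, s8, s8'⟩ := atr_sizes W v v2 v3 hΔ h.1 h.2
  refine alaw_t v v2 (h.mul.qv_pos hΔ) h.2 h.mul.lv_pos s2 s2' s4 s6 s8 s8' (xRep_or P)
    (xRep_or Q) (xRep_or (P + Q)) (xRep_or (P - Q)) hc ?_ ?_ ?_
  · rw [tr_N]
    linear_combination e0 - rr W * e1 + rr W ^ 2 * e2
  · rw [tr_S]
    linear_combination e1 - 2 * rr W * e2
  · linear_combination e2

/-- Doubling at an archimedean place with `|j| ≥ 10^20`. -/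
theorem locM_dbl_arch (hΔ : W.Δ ≠ 0) {v : AbsoluteValue K ℝ} (v2 : v 2 = 2)
    (v3 : v 3 = 3) (hm : IsAM W v) {X Z : K} (h : X ≠ 0 ∨ Z ≠ 0)
    (h' : dF W.b₄ W.b₆ W.b₈ X Z ≠ 0 ∨ dG W.b₂ W.b₄ W.b₆ X Z ≠ 0) :
    4 * locM W v X Z + 2 * (tt v (lv W v) (qv W v) (X - rr W * Z) Z * Real.log (qv W v)) -
      Real.log (10 ^ 30) ≤
    locM W v (dF W.b₄ W.b₆ W.b₈ X Z) (dG W.b₂ W.b₄ W.b₆ X Z) := by
  obtain ⟨s2, s2', s4, s6, s8, s8'⟩ := atr_sizes W v v2 v3 hΔ hm.1 hm.2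
  have h1 := or_sub h (rr W)
  have h2 := or_sub h' (rr W)
  have key := adbl_size v v2 (hm.mul.qv_pos hΔ) hm.2 hm.mul.lv_pos s2' s4 s6 s8 s8' h1
  rw [tr_dF, tr_dG] at key
  have hal : 0 < al v (lv W v) (qv W v) (X - rr W * Z) Z :=
    lt_of_lt_of_le (Real.sqrt_pos.mpr (hm.mul.qv_pos hΔ)) (le_max_right _ _)
  have hn := nm_pos v hm.mul.lv_pos h1
  have hn' := nm_pos v hm.mul.lv_pos h2
  have hlq : Real.log (qv W v) ≠ 0 := (Real.log_neg (hm.mul.qv_pos hΔ) hm.mul.qv_lt).ne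
  have hl := Real.log_le_log (mul_pos (pow_pos hal 2) (pow_pos hn 4)) key
  rw [Real.log_mul (pow_pos hal 2).ne' (pow_pos hn 4).ne', Real.log_pow, Real.log_pow,
    Real.log_mul (by norm_num) hn'.ne'] at hl
  rw [locM, locM, tt, div_mul_cancel₀ _ hlq]
  push_cast at hl
  linarith

end Pool.Agent.Helper86.LH
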