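import Pool.Agent.Helper86.LH.APhi

/-!
The main inequality with all places.
-/

open Height AdmissibleAbsValues Filter Topology

namespace Pool.Agent.Helper86.LH

open WeierstrassCurve WeierstrassCurve.Affine WeierstrassCurve.Affine.Point

variable {K : Type*} [Field K] [AdmissibleAbsValues K] [DecidableEq K]
  (W : WeierstrassCurve.Affine K) [W.IsElliptic]

open Classical in
/-- The quadratic part. -/
noncomputable def qa (v : AbsoluteValue K ℝ) (P : W.Point) : ℝ :=
  if IsAM W v then nj W v * (tv W v P * (1 - tv W v P)) else 0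

open Classical in
/-- Modified height of a point. -/
noncomputable def AWt (S : Finset (NV K)) (P : W.Point) : ℝ :=
  APh W S (P.xRep 0) (P.xRep 1) - (totalWeight K * (60 * Real.log 10) + cb W S) / 3 -
    asum K (fun v => qa W v P) -
    ∑ v ∈ S, (if IsMul W v.val then nj W v.val * (tv W v.val P * (1 - tv W v.val P)) else 0)

variable {W}

omit [AdmissibleAbsValues K] [DecidableEq K] in
theorem nj_pos {v : AbsoluteValue K ℝ} (h : IsMul W v) : 0 < nj W v := by
  have hΔ : W.Δ ≠ 0 := W.isUnit_Δ.ne_zero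
  rw [nj, neg_pos]
  exact Real.log_neg (h.qv_pos hΔ) h.qv_lt

omit [AdmissibleAbsValues K] in
theorem tv_atwo {v : AbsoluteValue K ℝ} (v2 : v 2 = 2) (v3 : v 3 = 3) (h : IsAM W v)
    (P : W.Point) :
    |tv W v (2 • P) - min (2 * tv W v P) (1 - 2 * tv W v P)| ≤ Real.log (10 ^ 30) / nj W v := by
  have hΔ : W.Δ ≠ 0 := W.isUnit_Δ.ne_zero
  have := tv_alaw v2 v3 h P P
  rw [sub_self, tv_zero h.mul hΔ, ← two_nsmul, sub_self, abs_zero] at this
  rw [add_zero, zero_add, ← two_mul] at this
  exact this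

theorem quad_lip {a b : ℝ} (a0 : 0 ≤ a) (a1 : a ≤ 1 / 2) (b0 : 0 ≤ b) (b1 : b ≤ 1 / 2) :
    a * (1 - a) - b * (1 - b) ≤ |a - b| := by
  have e : a * (1 - a) - b * (1 - b) = (a - b) * (1 - a - b) := by ring
  rw [e]
  have h1 : |1 - a - b| ≤ 1 := by
    rw [abs_le]
    constructor <;> linarith
  calc (a - b) * (1 - a - b) ≤ |(a - b) * (1 - a - b)| := le_abs_self _
    _ = |a - b| * |1 - a - b| := abs_mul _ _
    _ ≤ |a - b| * 1 := mul_le_mul_of_nonneg_left h1 (abs_nonneg _)
    _ = |a - b| := mul_one _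

omit [AdmissibleAbsValues K] in
theorem quad_atwo {v : AbsoluteValue K ℝ} (v2 : v 2 = 2) (v3 : v 3 = 3) (h : IsAM W v)
    (P : W.Point) :
    nj W v * (2 * tv W v P) + nj W v * (tv W v (2 • P) * (1 - tv W v (2 • P))) ≤
      4 * (nj W v * (tv W v P * (1 - tv W v P))) + Real.log (10 ^ 30) := by
  have hΔ : W.Δ ≠ 0 := W.isUnit_Δ.ne_zero
  have hn := nj_pos h.mul
  have hb := tv_bounds h.mul hΔ P
  have hb2 := tv_bounds h.mul hΔ (2 • P)
  have h1 := tv_atwo v2 v3 h P
  set t := tv W v P with ht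
  set t2 := tv W v (2 • P) with ht2
  set s := min (2 * t) (1 - 2 * t) with hs
  have hs0 : 0 ≤ s := le_min (by linarith [hb.1]) (by linarith [hb.2])
  have hs1 : s ≤ 1 / 2 := by
    rcases le_total (2 * t) (1 - 2 * t) with hh | hh
    · rw [hs, min_eq_left hh]; linarith
    · rw [hs, min_eq_right hh]; linarith
  have h2 := quad_lip hb2.1 hb2.2 hs0 hs1
  have h3 : 2 * t + s * (1 - s) = 4 * (t * (1 - t)) := by
    rcases le_total (2 * t) (1 - 2 * t) with hh | hh
    · rw [hs, min_eq_left hh]; ring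
    · rw [hs, min_eq_right hh]; ring
  have h4 : nj W v * |t2 - s| ≤ Real.log (10 ^ 30) := by
    have := mul_le_mul_of_nonneg_left h1 hn.le
    rwa [mul_div_cancel₀ _ hn.ne'] at this
  have h5 := mul_le_mul_of_nonneg_left h2 hn.le
  have h6 : nj W v * (2 * t) + nj W v * (s * (1 - s)) = 4 * (nj W v * (t * (1 - t))) := by
    linear_combination nj W v * h3
  rw [mul_sub] at h5
  linarith

theorem AWt_two (h6 : (6 : K) ≠ 0)
    (harch : ∀ v ∈ (archAbsVal : Multiset (AbsoluteValue K ℝ)), v 2 = 2 ∧ v 3 = 3)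
    {S : Finset (NV K)} (hS : Big W S) (P : W.Point) :
    4 * AWt W S P ≤ AWt W S (2 • P) := by
  classical
  have hΔ : W.Δ ≠ 0 := W.isUnit_Δ.ne_zero
  obtain ⟨c, hc, e0, e1⟩ := dbl_point W P
  have h := xRep_or' P
  have h2 := xRep_or' (2 • P)
  have h' : dF W.b₄ W.b₆ W.b₈ (P.xRep 0) (P.xRep 1) ≠ 0 ∨
      dG W.b₂ W.b₄ W.b₆ (P.xRep 0) (P.xRep 1) ≠ 0 := by
    rw [e0, e1]
    rcases h2 with h2 | h2
    · exact Or.inl (mul_ne_zero hc h2)
    · exact Or.inr (mul_ne_zero hc h2)
  have key := APh_dbl hΔ h6 harch hS h h'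
  rw [e0, e1, APh_scale hΔ S hc h2] at key
  have hsum : ∑ v ∈ S, (4 * (if IsMul W v.val then
        nj W v.val * (tv W v.val P * (1 - tv W v.val P)) else 0) +
      er W v.val (P.xRep 0) (P.xRep 1)) =
      ∑ v ∈ S, ((if IsMul W v.val then
        nj W v.val * (tv W v.val (2 • P) * (1 - tv W v.val (2 • P))) else 0) -
      (if IsMul W v.val then 0 else -(24 * Real.log (v.val 6)))) := by
    apply Finset.sum_congr rfl
    intro v _
    unfold er
    split_ifs with hm
    · have hq := quad_two (isNonarchimedean v.val v.2) hm P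
      have e : tt v.val (lv W v.val) (qv W v.val) (P.xRep 0 - rr W * P.xRep 1) (P.xRep 1) =
        tv W v.val P := rfl
      rw [e, nj]
      linear_combination Real.log (qv W v.val) * hq
    · ring
  have hA : asum K (fun v => qa W v (2 • P) - 60 * Real.log 10) ≤
      asum K (fun v => 4 * qa W v P + aer W v (P.xRep 0) (P.xRep 1)) := by
    apply asum_le
    intro v hv
    have hL : Real.log (10 ^ 30) = 30 * Real.log 10 := by
      rw [Real.log_pow]; norm_num
    have hL0 : 0 < Real.log 10 := Real.log_pos (by norm_num)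
    unfold qa aer
    split_ifs with hm
    · have hq := quad_atwo (harch v hv).1 (harch v hv).2 hm P
      have e : tt v (lv W v) (qv W v) (P.xRep 0 - rr W * P.xRep 1) (P.xRep 1) = tv W v P := rfl
      have e3 : 2 * (tv W v P * Real.log (qv W v)) = -(nj W v * (2 * tv W v P)) := by
        rw [nj]; ring
      rw [e, e3]
      linarith
    · linarith
  rw [Finset.sum_add_distrib, ← Finset.mul_sum, Finset.sum_sub_distrib] at hsum
  rw [asum_sub, asum_const, asum_add, asum_mul] at hA
  unfold AWt cb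
  linarith

theorem AWt_iter (h6 : (6 : K) ≠ 0)
    (harch : ∀ v ∈ (archAbsVal : Multiset (AbsoluteValue K ℝ)), v 2 = 2 ∧ v 3 = 3)
    {S : Finset (NV K)} (hS : Big W S) (P : W.Point) (k : ℕ) :
    4 ^ k * AWt W S P ≤ AWt W S (2 ^ k • P) := by
  induction k with
  | zero => simp
  | succ k ih =>
    have h1 := AWt_two h6 harch hS (2 ^ k • P)
    have e : (2 : ℕ) • (2 ^ k • P) = 2 ^ (k + 1) • P := by
      rw [← mul_nsmul, pow_succ]
    rw [e] at h1
    have e2 : (4 : ℝ) ^ (k + 1) * AWt W S P = 4 * (4 ^ k * AWt W S P) := by ring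
    rw [e2]
    linarith

theorem AWt_le_height (h6 : (6 : K) ≠ 0)
    (harch : ∀ v ∈ (archAbsVal : Multiset (AbsoluteValue K ℝ)), v 2 = 2 ∧ v 3 = 3)
    {S : Finset (NV K)} (hS : Big W S) (P : W.Point) {H : ℝ}
    (hH : Tendsto (fun k : ℕ => logHeight ((2 ^ k • P).xRep) / 4 ^ k) atTop (𝓝 H)) :
    AWt W S P ≤ H := by
  classical
  have hΔ : W.Δ ≠ 0 := W.isUnit_Δ.ne_zero
  obtain ⟨B, hB⟩ := APh_le hΔ S
  set C := B + |(totalWeight K * (60 * Real.log 10) + cb W S) / 3| with hC
  have hup : ∀ Q : W.Point, AWt W S Q ≤ logHeight Q.xRep + C := by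
    intro Q
    have h1 := hB (Q.xRep 0) (Q.xRep 1) (xRep_or' Q)
    have e : ![Q.xRep 0, Q.xRep 1] = Q.xRep := by
      ext i; fin_cases i <;> rfl
    rw [e] at h1
    have h2 : 0 ≤ ∑ v ∈ S, (if IsMul W v.val then
        nj W v.val * (tv W v.val Q * (1 - tv W v.val Q)) else 0) := by
      apply Finset.sum_nonneg
      intro v _
      split_ifs with hm
      · have hb := tv_bounds hm hΔ Q
        exact mul_nonneg (nj_pos hm).le (mul_nonneg hb.1 (by linarith [hb.2]))
      · exact le_rfl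
    have h2' : 0 ≤ asum K (fun v => qa W v Q) := by
      have := asum_le (K := K) (f := fun _ => (0 : ℝ)) (g := fun v => qa W v Q) (fun v _ => by
        unfold qa
        split_ifs with hm
        · have hb := tv_bounds hm.mul hΔ Q
          exact mul_nonneg (nj_pos hm.mul).le (mul_nonneg hb.1 (by linarith [hb.2]))
        · exact le_rfl)
      rw [asum_const, mul_zero] at this
      exact this
    have h3 := neg_abs_le ((totalWeight K * (60 * Real.log 10) + cb W S) / 3)
    unfold AWt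
    linarith
  have hk : ∀ k : ℕ, AWt W S P - C / 4 ^ k ≤ logHeight ((2 ^ k • P).xRep) / 4 ^ k := by
    intro k
    have h1 := AWt_iter h6 harch hS P k
    have h2 := hup (2 ^ k • P)
    have h4 : (0 : ℝ) < 4 ^ k := by positivity
    rw [le_div_iff₀ h4, sub_mul, div_mul_cancel₀ _ h4.ne']
    linarith
  have hlim : Tendsto (fun k : ℕ => AWt W S P - C / 4 ^ k) atTop (𝓝 (AWt W S P - 0)) := by
    apply Tendsto.sub tendsto_const_nhds
    exact tendsto_const_nhds.div_atTop (tendsto_pow_atTop_atTop_of_one_lt (by norm_num))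
  rw [sub_zero] at hlim
  exact le_of_tendsto_of_tendsto' hlim hH hk

theorem log_ten_lt : Real.log 10 < 2.303 := by
  rw [Real.log_lt_iff_lt_exp (by norm_num)]
  have h2 : (10 : ℝ) < (2.7182818283 : ℝ) ^ (2 : ℕ) * (1 + 0.303 + 0.303 ^ 2 / 2 + 0.303 ^ 3 / 6) := by
    norm_num
  have h3 : (2.7182818283 : ℝ) ≤ Real.exp 1 := Real.exp_one_gt_d9.le
  have h4 : (2.7182818283 : ℝ) ^ (2 : ℕ) ≤ Real.exp 2 := by
    calc (2.7182818283 : ℝ) ^ 2 ≤ Real.exp 1 ^ 2 := pow_le_pow_left₀ (by norm_num) h3 2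
      _ = Real.exp 2 := by rw [← Real.exp_nat_mul]; norm_num
  have h5 : 1 + 0.303 + 0.303 ^ 2 / 2 + 0.303 ^ 3 / 6 ≤ Real.exp (0.303 : ℝ) := by
    have := Real.sum_le_exp_of_nonneg (x := (0.303 : ℝ)) (by norm_num) 4
    simp only [Finset.sum_range_succ, Finset.sum_range_zero, Nat.factorial] at this
    norm_num at this ⊢
    linarith
  calc (10 : ℝ) < (2.7182818283 : ℝ) ^ (2 : ℕ) * (1 + 0.303 + 0.303 ^ 2 / 2 + 0.303 ^ 3 / 6) := h2
    _ ≤ Real.exp 2 * Real.exp 0.303 := mul_le_mul h4 h5 (by norm_num) (Real.exp_pos _).le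
    _ = Real.exp 2.303 := by rw [← Real.exp_add]; norm_num

/-- Bound for the constants. -/
theorem aconst_le (h6 : (6 : K) ≠ 0)
    (harch : ∀ v ∈ (archAbsVal : Multiset (AbsoluteValue K ℝ)), v 2 = 2 ∧ v 3 = 3)
    {S : Finset (NV K)} (hS : Big W S) :
    (totalWeight K * (60 * Real.log 10) + cb W S) / 3 ≤ 65 * totalWeight K := by
  classical
  have hp := log_prod_formula h6 S (fun v hv => hS.six v hv)
  have hA : asum K (fun v => Real.log (v 6)) = totalWeight K * Real.log 6 := by
    rw [← asum_const]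
    apply asum_congr
    intro v hv
    have h1 := harch v hv
    rw [show (6 : K) = 2 * 3 by norm_num, map_mul, h1.1, h1.2]
    norm_num
  have hcb : cb W S ≤ 24 * (totalWeight K * Real.log 6) := by
    have h1 : cb W S ≤ ∑ v ∈ S, -(24 * Real.log (v.val 6)) := by
      unfold cb
      apply Finset.sum_le_sum
      intro v _
      split_ifs with hm
      · have hle : v.val 6 ≤ 1 := by
          have h6' : v.val ((6 : ℕ) : K) ≤ 1 :=
            IsNonarchimedean.apply_natCast_le_one (isNonarchimedean v.val v.2)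
          simpa using h6'
        have := Real.log_nonpos (v.val.nonneg 6) hle
        linarith
      · exact le_rfl
    have h2 : ∑ v ∈ S, -(24 * Real.log (v.val 6)) = -(24 * ∑ v ∈ S, Real.log (v.val 6)) := by
      rw [Finset.sum_neg_distrib, ← Finset.mul_sum]
    rw [h2] at h1
    unfold asum at hA
    linarith
  have hl6 : Real.log 6 ≤ Real.log 10 := Real.log_le_log (by norm_num) (by norm_num)
  have hd : (0 : ℝ) ≤ totalWeight K := Nat.cast_nonneg _
  have h10 := log_ten_lt
  have h7 : 60 * Real.log 10 + 24 * Real.log 6 ≤ 195 := by linarith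
  have := mul_le_mul_of_nonneg_left h7 hd
  linarith

open Classical in
/-- Lower bound for the canonical height of a nonzero point. -/
theorem aheight_lower (h6 : (6 : K) ≠ 0)
    (harch : ∀ v ∈ (archAbsVal : Multiset (AbsoluteValue K ℝ)), v 2 = 2 ∧ v 3 = 3)
    {S : Finset (NV K)} (hS : Big W S) (P : W.Point) (hP : P ≠ 0) {H : ℝ}
    (hH : Tendsto (fun k : ℕ => logHeight ((2 ^ k • P).xRep) / 4 ^ k) atTop (𝓝 H)) :
    asum K (fun v => if IsAM W v then
        nj W v * (1 / 6 - tv W v P * (1 - tv W v P)) else 0) +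
    ∑ v ∈ S, (if IsMul W v.val then
        nj W v.val * (1 / 6 - tv W v.val P * (1 - tv W v.val P)) else 0) -
      65 * totalWeight K ≤ H := by
  have hΔ : W.Δ ≠ 0 := W.isUnit_Δ.ne_zero
  have h1 := AWt_le_height h6 harch hS P hH
  have h2 := aconst_le h6 harch hS (W := W)
  have h3 : 1 / 6 * asum K (fun v => if IsAM W v then -Real.log (qv W v) else 0) +
      1 / 6 * ∑ v ∈ S, (if IsMul W v.val then -Real.log (qv W v.val) else 0) ≤
      APh W S (P.xRep 0) (P.xRep 1) := by
    match P, hP with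
    | Point.some x y hxy, _ =>
      exact APh_ge hΔ hS x
    | 0, hP => exact absurd rfl hP
  have h4 : ∑ v ∈ S, (if IsMul W v.val then
        nj W v.val * (1 / 6 - tv W v.val P * (1 - tv W v.val P)) else 0) =
      1 / 6 * ∑ v ∈ S, (if IsMul W v.val then -Real.log (qv W v.val) else 0) -
      ∑ v ∈ S, (if IsMul W v.val then
        nj W v.val * (tv W v.val P * (1 - tv W v.val P)) else 0) := by
    rw [Finset.mul_sum, ← Finset.sum_sub_distrib]
    apply Finset.sum_congr rfl
    intro v _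
    split_ifs with hm
    · rw [nj]; ring
    · ring
  have h5 : asum K (fun v => if IsAM W v then
        nj W v * (1 / 6 - tv W v P * (1 - tv W v P)) else 0) =
      1 / 6 * asum K (fun v => if IsAM W v then -Real.log (qv W v) else 0) -
      asum K (fun v => qa W v P) := by
    rw [← asum_mul, ← asum_sub]
    apply asum_congr
    intro v _
    unfold qa
    split_ifs with hm
    · rw [nj]; ring
    · ring
  rw [h4, h5]
  unfold AWt at h1
  linarith

omit [AdmissibleAbsValues K] in
/-- Component coordinates of the multiples, archimedean. -/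
theorem tv_amul {v : AbsoluteValue K ℝ} (v2 : v 2 = 2) (v3 : v 3 = 3) (h : IsAM W v)
    (P : W.Point) (m : ℕ) :
    |tv W v (m • P) - dn (m * tv W v P)| ≤ 4 ^ m * (Real.log (10 ^ 30) / nj W v) := by
  have hΔ : W.Δ ≠ 0 := W.isUnit_Δ.ne_zero
  have hb := tv_bounds h.mul hΔ P
  have hL : 0 ≤ Real.log (10 ^ 30) := Real.log_nonneg (by norm_num)
  have key := dn_seq (fun m : ℕ => tv W v (m • P)) (Real.log (10 ^ 30) / nj W v)
    (div_nonneg hL (nj_pos h.mul).le)
    (by simp only [zero_nsmul]; exact tv_zero h.mul hΔ)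
    (by simpa only [one_nsmul] using hb.1) (by simpa only [one_nsmul] using hb.2)
    (fun m => by
      have e1 : (m + 1) • P + P = (m + 2) • P := by rw [← succ_nsmul]
      have e2 : (m + 1) • P - P = m • P := by rw [succ_nsmul, add_sub_cancel_right]
      have := tv_alaw v2 v3 h ((m + 1) • P) P
      rw [e1, e2] at this
      simp only [one_nsmul]
      exact this) m
  simpa only [one_nsmul] using key

omit [AdmissibleAbsValues K] in
theorem tv_amul_B2 {v : AbsoluteValue K ℝ} (v2 : v 2 = 2) (v3 : v 3 = 3) (h : IsAM W v)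
    (P : W.Point) (m : ℕ) :
    nj W v * B2 (m * tv W v P) - 4 ^ m * Real.log (10 ^ 30) ≤
      nj W v * (1 / 6 - tv W v (m • P) * (1 - tv W v (m • P))) := by
  have hΔ : W.Δ ≠ 0 := W.isUnit_Δ.ne_zero
  have hn := nj_pos h.mul
  have h1 := tv_amul v2 v3 h P m
  have hb := tv_bounds h.mul hΔ (m • P)
  have hd0 : 0 ≤ dn (m * tv W v P) := abs_nonneg _
  have hd1 : dn (m * tv W v P) ≤ 1 / 2 := abs_sub_round _
  have h2 := quad_lip hb.1 hb.2 hd0 hd1
  have h3 := mul_le_mul_of_nonneg_left h1 hn.le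
  have h4 : nj W v * (4 ^ m * (Real.log (10 ^ 30) / nj W v)) = 4 ^ m * Real.log (10 ^ 30) := by
    field_simp
  rw [h4] at h3
  have h5 := mul_le_mul_of_nonneg_left h2 hn.le
  rw [dn_B2]
  rw [mul_sub] at h5
  have e1 := mul_sub (nj W v) (1 / 6) (dn (m * tv W v P) * (1 - dn (m * tv W v P)))
  have e2 := mul_sub (nj W v) (1 / 6) (tv W v (m • P) * (1 - tv W v (m • P)))
  rw [e1, e2]
  generalize nj W v * (tv W v (m • P) * (1 - tv W v (m • P))) = x1 at *
  generalize nj W v * (dn (m * tv W v P) * (1 - dn (m * tv W v P))) = x2 at *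
  generalize nj W v * |tv W v (m • P) - dn (m * tv W v P)| = x3 at *
  generalize (4 : ℝ) ^ m * Real.log (10 ^ 30) = x4 at *
  generalize nj W v * (1 / 6) = x5 at *
  linarith

end Pool.Agent.Helper86.LH
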