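import Pool.Agent.Helper86.LH.Fej

/-!
Weighted sum over the multiples and choice of `M`.
-/

namespace Pool.Agent.Helper86.LH

/-- Weighted sum.  `I` is the set of places which carry the share. -/
theorem weighted {ι : Type*} (S : Finset ι) (T θ : ι → ℝ) (hT : ∀ v ∈ S, 0 ≤ T v)
    (I : Finset ι) (hI : I ⊆ S) (ψ : ℝ) (hψ : ∀ v ∈ I, θ v = ψ) (H E : ℝ) (hH : 0 ≤ H)
    (hE : 0 ≤ E) (M : ℕ) (hM : 1 ≤ M)
    (h : ∀ m ∈ Finset.Icc 1 M, ∑ v ∈ S, T v * B2 (m * θ v) - E ≤ (m : ℝ) ^ 2 * H) :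
    M / (2 * Real.pi ^ 2) * ∑ v ∈ I, T v - 1 / 3 * ∑ v ∈ S, T v - 2 * M * E ≤
      H * (M : ℝ) ^ 3 / 3 := by
  classical
  obtain ⟨c, c0, c1, c2, c3, c4⟩ := weights M hM ψ
  have e1 : ∑ m ∈ Finset.Icc 1 M, c m * (∑ v ∈ S, T v * B2 (m * θ v) - E) ≤
      ∑ m ∈ Finset.Icc 1 M, c m * ((m : ℝ) ^ 2 * H) :=
    Finset.sum_le_sum fun m hm => mul_le_mul_of_nonneg_left (h m hm) (c0 m hm)
  have e2 : ∑ m ∈ Finset.Icc 1 M, c m * ((m : ℝ) ^ 2 * H) =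
      (∑ m ∈ Finset.Icc 1 M, c m * (m : ℝ) ^ 2) * H := by
    rw [Finset.sum_mul]
    exact Finset.sum_congr rfl fun m _ => by ring
  have e3 : (∑ m ∈ Finset.Icc 1 M, c m * (m : ℝ) ^ 2) * H ≤ (M : ℝ) ^ 3 / 3 * H :=
    mul_le_mul_of_nonneg_right c2 hH
  have e4 : ∑ m ∈ Finset.Icc 1 M, c m * (∑ v ∈ S, T v * B2 (m * θ v) - E) =
      ∑ v ∈ S, T v * (∑ m ∈ Finset.Icc 1 M, c m * B2 (m * θ v)) -
        E * ∑ m ∈ Finset.Icc 1 M, c m := by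
    simp only [mul_sub, Finset.sum_sub_distrib, Finset.mul_sum]
    congr 1
    · rw [Finset.sum_comm]
      refine Finset.sum_congr rfl fun v _ => Finset.sum_congr rfl fun m _ => by ring
    · exact Finset.sum_congr rfl fun m _ => by ring
  have e5 : E * ∑ m ∈ Finset.Icc 1 M, c m ≤ E * (2 * M) := mul_le_mul_of_nonneg_left c1 hE
  have e6 : ∑ v ∈ S, (T v * (-(1 / 3)) + (if v ∈ I then T v * (M / (2 * Real.pi ^ 2)) else 0)) ≤
      ∑ v ∈ S, T v * (∑ m ∈ Finset.Icc 1 M, c m * B2 (m * θ v)) := by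
    apply Finset.sum_le_sum
    intro v hv
    split_ifs with hvI
    · rw [hψ v hvI]
      have := mul_le_mul_of_nonneg_left c4 (hT v hv)
      linarith
    · have := mul_le_mul_of_nonneg_left (c3 (θ v)) (hT v hv)
      linarith
  rw [Finset.sum_add_distrib, ← Finset.sum_mul, ← Finset.sum_filter] at e6
  have e7 : S.filter (fun v => v ∈ I) = I := by
    ext v
    simp only [Finset.mem_filter]
    exact ⟨fun h => h.2, fun h => ⟨hI h, h⟩⟩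
  rw [e7, ← Finset.sum_mul] at e6
  rw [e4, e2] at e1
  have e8 : M / (2 * Real.pi ^ 2) * ∑ v ∈ I, T v = (∑ v ∈ I, T v) * (M / (2 * Real.pi ^ 2)) :=
    mul_comm _ _
  rw [e8]
  linarith

/-- Choice of `M`. -/
theorem optimize {δ T Tw E H : ℝ} (hδ0 : 0 < δ) (hδ1 : δ ≤ 1) (hT : 0 ≤ T) (hw : δ * T ≤ Tw)
    (hE : 0 ≤ E) {M : ℕ} (hM1 : 14 / δ ≤ M) (hM2 : (M : ℝ) ≤ 15 / δ)
    (h : M / (2 * Real.pi ^ 2) * Tw - 1 / 3 * T - 2 * M * E ≤ H * (M : ℝ) ^ 3 / 3) :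
    δ ^ 3 * T / 4000 - δ ^ 2 * (6 / 196 * E) ≤ H := by
  have hMpos : (0 : ℝ) < M := lt_of_lt_of_le (by positivity) hM1
  have hpi : Real.pi ^ 2 < 9.87 := by
    have h1 := Real.pi_lt_d4
    have h2 := Real.pi_pos
    nlinarith
  have hpi0 : 0 < Real.pi ^ 2 := by positivity
  -- main term
  have a1 : 0.7 * T ≤ M / (2 * Real.pi ^ 2) * Tw := by
    have b1 : M / (2 * Real.pi ^ 2) * (δ * T) ≤ M / (2 * Real.pi ^ 2) * Tw :=
      mul_le_mul_of_nonneg_left hw (by positivity)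
    have b2 : 14 ≤ M * δ := by
      have := mul_le_mul_of_nonneg_right hM1 hδ0.le
      rwa [div_mul_cancel₀ _ hδ0.ne'] at this
    have b3 : 0.7 ≤ M * δ / (2 * Real.pi ^ 2) := by
      rw [le_div_iff₀ (by positivity)]
      nlinarith
    have b4 : M / (2 * Real.pi ^ 2) * (δ * T) = M * δ / (2 * Real.pi ^ 2) * T := by ring
    rw [b4] at b1
    have b5 := mul_le_mul_of_nonneg_right b3 hT
    linarith
  have a2 : 11 / 30 * T - 2 * M * E ≤ H * (M : ℝ) ^ 3 / 3 := by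
    norm_num at a1
    linarith
  have a3 : (M : ℝ) ^ 3 ≤ 3375 / δ ^ 3 := by
    have := pow_le_pow_left₀ hMpos.le hM2 3
    rw [div_pow] at this
    norm_num at this
    exact this
  have a4 : 196 / δ ^ 2 ≤ (M : ℝ) ^ 2 := by
    have := pow_le_pow_left₀ (by positivity) hM1 2
    rw [div_pow] at this
    norm_num at this
    exact this
  have a5 : δ ^ 3 * (M : ℝ) ^ 3 ≤ 3375 := by
    have := mul_le_mul_of_nonneg_left a3 (by positivity : 0 ≤ δ ^ 3)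
    rwa [mul_div_cancel₀ _ (by positivity)] at this
  have a6 : 196 ≤ δ ^ 2 * (M : ℝ) ^ 2 := by
    have := mul_le_mul_of_nonneg_left a4 (by positivity : 0 ≤ δ ^ 2)
    rwa [mul_div_cancel₀ _ (by positivity)] at this
  -- multiply the claim by `M³/3`
  have hM3 : (0 : ℝ) < (M : ℝ) ^ 3 := by positivity
  have b1 : δ ^ 3 * T / 4000 * (M : ℝ) ^ 3 ≤ 11 / 10 * T := by
    have := mul_le_mul_of_nonneg_right a5 hT
    nlinarith
  have b2 : 6 * M * E ≤ δ ^ 2 * (6 / 196 * E) * (M : ℝ) ^ 3 := by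
    have c1 : 0 ≤ 6 / 196 * E * M := by positivity
    have := mul_le_mul_of_nonneg_right a6 c1
    calc 6 * M * E = 196 * (6 / 196 * E * M) := by ring
      _ ≤ δ ^ 2 * (M : ℝ) ^ 2 * (6 / 196 * E * M) := this
      _ = δ ^ 2 * (6 / 196 * E) * (M : ℝ) ^ 3 := by ring
  have b3 : (δ ^ 3 * T / 4000 - δ ^ 2 * (6 / 196 * E)) * (M : ℝ) ^ 3 ≤ H * (M : ℝ) ^ 3 := by
    rw [sub_mul]
    linarith
  exact le_of_mul_le_mul_right b3 hM3

theorem exists_M {δ : ℝ} (hδ0 : 0 < δ) (hδ1 : δ ≤ 1) :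
    ∃ M : ℕ, 1 ≤ M ∧ 14 / δ ≤ M ∧ (M : ℝ) ≤ 15 / δ := by
  have h14 : 0 < 14 / δ := by positivity
  refine ⟨⌈14 / δ⌉₊, Nat.one_le_ceil_iff.mpr h14, Nat.le_ceil _, ?_⟩
  have h1 := (Nat.ceil_lt_add_one h14.le).le
  have h2 : 1 ≤ 1 / δ := by
    rw [le_div_iff₀ hδ0]
    linarith
  have h3 : 15 / δ = 14 / δ + 1 / δ := by ring
  rw [h3]
  linarith

end Pool.Agent.Helper86.LH
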