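import Pool.Agent.Helper86.LH.Main
import Pool.Agent.Helper86.LH.Opt

/-!
The explicit theorem for a finite place (general field with a product formula).
-/

open Height AdmissibleAbsValues Filter Topology

namespace Pool.Agent.Helper86.LH

open WeierstrassCurve WeierstrassCurve.Affine WeierstrassCurve.Affine.Point

variable {K : Type*} [Field K] [AdmissibleAbsValues K] [DecidableEq K]
  (W : WeierstrassCurve.Affine K) [W.IsElliptic]

omit [AdmissibleAbsValues K] [DecidableEq K] in
theorem j_eq : W.j = W.c₄ ^ 3 / W.Δ := by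
  rw [WeierstrassCurve.j, div_eq_mul_inv, mul_comm]
  congr 1
  rw [← coe_Δ' (W := W)]
  exact Units.val_inv_eq_inv_val _

omit [AdmissibleAbsValues K] [DecidableEq K] in
theorem isMul_iff (v : AbsoluteValue K ℝ) : IsMul W v ↔ 1 < v W.j := by
  have hΔ : W.Δ ≠ 0 := W.isUnit_Δ.ne_zero
  rw [j_eq, map_div₀, map_pow, one_lt_div (v.pos hΔ)]
  rfl

omit [AdmissibleAbsValues K] [DecidableEq K] in
theorem nj_eq (v : AbsoluteValue K ℝ) : nj W v = Real.log (v W.j) := by
  rw [nj, qv, ← Real.log_inv, inv_div, j_eq, map_div₀, map_pow]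

omit [AdmissibleAbsValues K] [DecidableEq K] in
theorem max_j (v : AbsoluteValue K ℝ) :
    Real.log (max 1 (v W.c₄ ^ 3 / v W.Δ)) = Real.posLog (v W.j) := by
  rw [Real.posLog_eq_log_max_one (v.nonneg _), j_eq, map_div₀, map_pow]

/-- Contribution of the finite places to the height of `j`. -/
noncomputable def hfin : ℝ := ∑ᶠ v : NV K, Real.posLog (v.val W.j)

/-- Contribution of the archimedean places to the height of `j`. -/
noncomputable def hinf : ℝ := asum K (fun v => Real.posLog (v W.j))

open Classical in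
omit [DecidableEq K] in
theorem hfin_eq {S : Finset (NV K)} (hS : Big W S) :
    hfin W = ∑ v ∈ S, (if IsMul W v.val then nj W v.val else 0) := by
  have h1 : ∀ v : NV K, Real.posLog (v.val W.j) = if IsMul W v.val then nj W v.val else 0 := by
    intro v
    split_ifs with hm
    · rw [nj_eq, Real.posLog_eq_log_max_one (v.val.nonneg _),
        max_eq_right ((isMul_iff W v.val).mp hm).le]
    · rw [isMul_iff, not_lt] at hm
      rw [Real.posLog_eq_log_max_one (v.val.nonneg _), max_eq_left hm, Real.log_one]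
  unfold hfin
  rw [finsum_eq_sum_of_support_subset (s := S)]
  · exact Finset.sum_congr rfl fun v _ => h1 v
  · intro v hv
    by_contra hc
    apply hv
    simp only [h1 v]
    rw [if_neg (hS.not_mul (fun h => hc (Finset.mem_coe.mpr h)))]

/-- The explicit theorem. -/
theorem fin_main (h6 : (6 : K) ≠ 0)
    (harch : ∀ v ∈ (archAbsVal : Multiset (AbsoluteValue K ℝ)), v 2 = 2 ∧ v 3 = 3)
    {δ : ℝ} (hδ0 : 0 < δ) (hδ1 : δ ≤ 1) (w : NV K)
    (hw : δ * hfin W ≤ Real.posLog (w.val W.j)) (P : W.Point)
    (hP : ∀ n : ℕ, 0 < n → n • P ≠ 0) :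
    ∃ H : ℝ, Tendsto (fun k : ℕ => logHeight ((2 ^ k • P).xRep) / 4 ^ k) atTop (𝓝 H) ∧
      δ ^ 3 * hfin W / 4000 - δ ^ 2 * (totalWeight K + hinf W) ≤ H := by
  classical
  have hΔ : W.Δ ≠ 0 := W.isUnit_Δ.ne_zero
  obtain ⟨H, hH, hHm, hH0⟩ := canon W
  refine ⟨H P, hH P, ?_⟩
  obtain ⟨S, hS⟩ := exists_big (W := W) hΔ h6
  have hfe := hfin_eq W hS
  have hTn : ∀ v : AbsoluteValue K ℝ, IsMul W v → 0 ≤ nj W v := by
    intro v hm
    rw [nj_eq]
    exact Real.log_nonneg ((isMul_iff W v).mp hm).le
  have hf0 : 0 ≤ hfin W := by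
    rw [hfe]
    apply Finset.sum_nonneg
    intro v _
    split_ifs with hm
    · exact hTn v.val hm
    · exact le_rfl
  have hi0 : 0 ≤ hinf W := by
    have := asum_le (K := K) (f := fun _ => (0 : ℝ)) (g := fun v => Real.posLog (v W.j))
      (fun v _ => Real.posLog_nonneg)
    rw [asum_const, mul_zero] at this
    exact this
  have hd0 : (0 : ℝ) ≤ totalWeight K := Nat.cast_nonneg _
  -- the place `w` may be taken in `S`
  by_cases hwm : IsMul W w.val
  swap
  · have h1 : Real.posLog (w.val W.j) = 0 := by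
      rw [isMul_iff, not_lt] at hwm
      rw [Real.posLog_eq_log_max_one (w.val.nonneg _), max_eq_left hwm, Real.log_one]
    rw [h1] at hw
    have h2 : hfin W = 0 := by nlinarith
    rw [h2, mul_zero, zero_div, zero_sub]
    have h3 : 0 ≤ δ ^ 2 * (totalWeight K + hinf W) := by positivity
    linarith [hH0 P]
  have hwS : w ∈ S := by
    by_contra hc
    exact hS.not_mul hc hwm
  obtain ⟨M, hM, hM1, hM2⟩ := exists_M hδ0 hδ1
  set E := 17 * totalWeight K + hinf W with hE
  have hE0 : 0 ≤ E := by positivity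
  have hineq : ∀ m ∈ Finset.Icc 1 M, ∑ v ∈ S, (if IsMul W v.val then nj W v.val else 0) *
      B2 (m * tv W v.val P) - E ≤ (m : ℝ) ^ 2 * H P := by
    intro m hm
    have hm1 := (Finset.mem_Icc.mp hm).1
    have h1 := height_lower h6 harch hS (m • P) (hP m hm1) (hH (m • P))
    rw [hHm P m] at h1
    have h2 : asum K (fun v => Real.log (max 1 (v W.c₄ ^ 3 / v W.Δ))) = hinf W := by
      unfold hinf
      exact asum_congr fun v _ => max_j W v
    rw [h2] at h1
    have h3 : ∑ v ∈ S, (if IsMul W v.val then nj W v.val else 0) * B2 (m * tv W v.val P) =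
        ∑ v ∈ S, (if IsMul W v.val then
          nj W v.val * (1 / 6 - tv W v.val (m • P) * (1 - tv W v.val (m • P))) else 0) := by
      apply Finset.sum_congr rfl
      intro v _
      split_ifs with hmv
      · rw [tv_mul (isNonarchimedean v.val v.2) hmv P m, dn_B2]
      · ring
    rw [h3]
    exact h1
  have key := weighted S (fun v => if IsMul W v.val then nj W v.val else 0)
    (fun v => tv W v.val P) (fun v _ => by split_ifs with hm <;> [exact hTn v.val hm; exact le_rfl])
    {w} (Finset.singleton_subset_iff.mpr hwS) (tv W w.val P)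
    (fun v hv => by rw [Finset.mem_singleton.mp hv]) (H P) E (hH0 P) hE0 M hM hineq
  rw [Finset.sum_singleton, ← hfe, if_pos hwm] at key
  have hw' : δ * hfin W ≤ nj W w.val := by
    refine hw.trans (le_of_eq ?_)
    rw [nj_eq, Real.posLog_eq_log_max_one (w.val.nonneg _),
      max_eq_right ((isMul_iff W w.val).mp hwm).le]
  have fin := optimize hδ0 hδ1 hf0 hw' hE0 hM1 hM2 key
  have hle : δ ^ 2 * (6 / 196 * E) ≤ δ ^ 2 * (totalWeight K + hinf W) := by
    apply mul_le_mul_of_nonneg_left _ (by positivity)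
    rw [hE]
    nlinarith
  linarith

end Pool.Agent.Helper86.LH
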