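import Pool.Agent.Helper86.LH.ALoc
import Pool.Agent.Helper86.LH.Fin1

/-!
The modified height with the node coordinate also at the archimedean places with `|j| ≥ 10^20`.
-/

open Height AdmissibleAbsValues Filter Topology

namespace Pool.Agent.Helper86.LH

open WeierstrassCurve WeierstrassCurve.Affine WeierstrassCurve.Affine.Point

variable {K : Type*} [Field K] [AdmissibleAbsValues K] (W : WeierstrassCurve.Affine K)

open Classical in
/-- Local norm at an archimedean place. -/
noncomputable def aloc (v : AbsoluteValue K ℝ) (X Z : K) : ℝ :=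
  if IsAM W v then locM W v X Z else locA W v X Z

/-- The modified height of a pair. -/
noncomputable def APh (S : Finset (NV K)) (X Z : K) : ℝ :=
  logHeight ![X, Z] + asum K (fun v => aloc W v X Z - Real.log (nm v 1 X Z)) +
    ∑ v ∈ S, (loc W v.val X Z - Real.log (nm v.val 1 X Z))

variable {W}

omit [AdmissibleAbsValues K] in
theorem aloc_scale (hΔ : W.Δ ≠ 0) (v : AbsoluteValue K ℝ) {c X Z : K} (hc : c ≠ 0)
    (h : X ≠ 0 ∨ Z ≠ 0) : aloc W v (c * X) (c * Z) = Real.log (v c) + aloc W v X Z := by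
  unfold aloc
  split_ifs with hm
  · exact locM_scale hm.mul hc h
  · exact locA_scale hΔ v hc h

theorem APh_scale (hΔ : W.Δ ≠ 0) (S : Finset (NV K)) {c X Z : K} (hc : c ≠ 0)
    (h : X ≠ 0 ∨ Z ≠ 0) : APh W S (c * X) (c * Z) = APh W S X Z := by
  have e : ![c * X, c * Z] = c • ![X, Z] := by
    ext i
    fin_cases i <;> simp
  unfold APh
  rw [e, logHeight_smul_eq_logHeight _ hc]
  congr 1
  · congr 1
    apply asum_congr
    intro v _
    rw [aloc_scale hΔ v hc h, lognm_scale v hc h]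
    ring
  · apply Finset.sum_congr rfl
    intro v _
    rw [loc_scale hΔ v.val hc h, lognm_scale v.val hc h]
    ring

open Classical in
/-- The error term at an archimedean place. -/
noncomputable def aer (W : WeierstrassCurve.Affine K) (v : AbsoluteValue K ℝ) (X Z : K) : ℝ :=
  if IsAM W v then
    2 * (tt v (lv W v) (qv W v) (X - rr W * Z) Z * Real.log (qv W v)) - Real.log (10 ^ 30)
  else -(60 * Real.log 10)

omit [AdmissibleAbsValues K] in
theorem aloc_dbl (hΔ : W.Δ ≠ 0) (h6 : (6 : K) ≠ 0) {v : AbsoluteValue K ℝ} (v2 : v 2 = 2)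
    (v3 : v 3 = 3) {X Z : K} (h : X ≠ 0 ∨ Z ≠ 0)
    (h' : dF W.b₄ W.b₆ W.b₈ X Z ≠ 0 ∨ dG W.b₂ W.b₄ W.b₆ X Z ≠ 0) :
    4 * aloc W v X Z + aer W v X Z ≤
      aloc W v (dF W.b₄ W.b₆ W.b₈ X Z) (dG W.b₂ W.b₄ W.b₆ X Z) := by
  unfold aloc aer
  split_ifs with hm
  · have := locM_dbl_arch hΔ v2 v3 hm h h'
    linarith
  · have h1 := locA_dbl_arch hΔ h6 v2 v3 h h'
    have h2 := not_isAM hΔ hm
    have h3 : Real.log (max 1 (v W.c₄ ^ 3 / v W.Δ)) ≤ 20 * Real.log 10 := by
      have e : 20 * Real.log 10 = Real.log (10 ^ 20) := by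
        rw [Real.log_pow]; norm_num
      rw [e]
      apply Real.log_le_log (lt_of_lt_of_le one_pos (le_max_left _ _))
      exact max_le (by norm_num) h2
    have h4 : Real.log 1000 = 3 * Real.log 10 := by
      rw [show (1000 : ℝ) = 10 ^ 3 by norm_num, Real.log_pow]
      norm_num
    have h5 : 0 < Real.log 10 := Real.log_pos (by norm_num)
    linarith

/-- Doubling. -/
theorem APh_dbl (hΔ : W.Δ ≠ 0) (h6 : (6 : K) ≠ 0)
    (harch : ∀ v ∈ (archAbsVal : Multiset (AbsoluteValue K ℝ)), v 2 = 2 ∧ v 3 = 3)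
    {S : Finset (NV K)} (hS : Big W S) {X Z : K} (h : X ≠ 0 ∨ Z ≠ 0)
    (h' : dF W.b₄ W.b₆ W.b₈ X Z ≠ 0 ∨ dG W.b₂ W.b₄ W.b₆ X Z ≠ 0) :
    4 * APh W S X Z + asum K (fun v => aer W v X Z) + ∑ v ∈ S, er W v.val X Z ≤
    APh W S (dF W.b₄ W.b₆ W.b₈ X Z) (dG W.b₂ W.b₄ W.b₆ X Z) := by
  have key := height_compare h h' S (fun v hv => out_dbl hΔ h6 (isNonarchimedean v.val v.2)
    (hS.six v hv) (hS.disc v hv) (hS.b2 v hv) (hS.c4 v hv) h h')
  have hA : asum K (fun v => 4 * aloc W v X Z + aer W v X Z) ≤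
      asum K (fun v => aloc W v (dF W.b₄ W.b₆ W.b₈ X Z) (dG W.b₂ W.b₄ W.b₆ X Z)) :=
    asum_le fun v hv => aloc_dbl hΔ h6 (harch v hv).1 (harch v hv).2 h h'
  have hB : ∑ v ∈ S, (4 * loc W v.val X Z + er W v.val X Z) ≤
      ∑ v ∈ S, loc W v.val (dF W.b₄ W.b₆ W.b₈ X Z) (dG W.b₂ W.b₄ W.b₆ X Z) := by
    apply Finset.sum_le_sum
    intro v _
    unfold loc er
    split_ifs with hm
    · exact (locM_dbl hΔ (isNonarchimedean v.val v.2) hm h).ge
    · have := locA_dbl_good hΔ h6 (isNonarchimedean v.val v.2) hm h h'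
      linarith
  rw [asum_add, asum_mul] at hA
  rw [Finset.sum_add_distrib, ← Finset.mul_sum] at hB
  unfold APh
  rw [asum_sub, asum_sub, Finset.sum_sub_distrib, Finset.sum_sub_distrib]
  unfold asum at *
  linarith

/-- `Φ` is bounded above by the height. -/
theorem APh_le (hΔ : W.Δ ≠ 0) (S : Finset (NV K)) : ∃ B : ℝ, ∀ X Z : K, (X ≠ 0 ∨ Z ≠ 0) →
    APh W S X Z ≤ logHeight ![X, Z] + B := by
  refine ⟨asum K (fun v => |Real.log (1 + v (W.b₂ / 12) + Dv W v)| +
      |Real.log (1 + v (rr W) + lv W v)|) +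
    ∑ v ∈ S, (|Real.log (1 + v.val (W.b₂ / 12) + Dv W v.val)| +
      |Real.log (1 + v.val (rr W) + lv W v.val)|), fun X Z h => ?_⟩
  have h1 : asum K (fun v => aloc W v X Z - Real.log (nm v 1 X Z)) ≤
      asum K (fun v => |Real.log (1 + v (W.b₂ / 12) + Dv W v)| +
      |Real.log (1 + v (rr W) + lv W v)|) := by
    apply asum_le
    intro v _
    unfold aloc
    split_ifs with hm
    · have := locM_le hm.mul h
      have a := le_abs_self (Real.log (1 + v (rr W) + lv W v))
      have b := abs_nonneg (Real.log (1 + v (W.b₂ / 12) + Dv W v))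
      linarith
    · have := locA_le hΔ v h
      have a := abs_nonneg (Real.log (1 + v (rr W) + lv W v))
      have b := le_abs_self (Real.log (1 + v (W.b₂ / 12) + Dv W v))
      linarith
  have h2 : ∑ v ∈ S, (loc W v.val X Z - Real.log (nm v.val 1 X Z)) ≤
      ∑ v ∈ S, (|Real.log (1 + v.val (W.b₂ / 12) + Dv W v.val)| +
      |Real.log (1 + v.val (rr W) + lv W v.val)|) := by
    apply Finset.sum_le_sum
    intro v _
    unfold loc
    split_ifs with hm
    · have := locM_le hm h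
      have a := le_abs_self (Real.log (1 + v.val (rr W) + lv W v.val))
      have b := abs_nonneg (Real.log (1 + v.val (W.b₂ / 12) + Dv W v.val))
      linarith
    · have := locA_le hΔ v.val h
      have a := abs_nonneg (Real.log (1 + v.val (rr W) + lv W v.val))
      have b := le_abs_self (Real.log (1 + v.val (W.b₂ / 12) + Dv W v.val))
      linarith
  unfold APh
  linarith

omit [AdmissibleAbsValues K] in
theorem log_lv (hΔ : W.Δ ≠ 0) {v : AbsoluteValue K ℝ} (hm : IsMul W v) :
    1 / 6 * Real.log (v W.Δ) + 1 / 6 * -Real.log (qv W v) = Real.log (lv W v) := by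
  have hc := hm.c4
  rw [qv, Real.log_div (v.pos hΔ).ne' (pow_pos hc 3).ne', Real.log_pow, lv,
    Real.log_sqrt hc.le]
  push_cast
  ring

omit [AdmissibleAbsValues K] in
theorem locM_ge {v : AbsoluteValue K ℝ} (hm : IsMul W v) (X : K) :
    Real.log (lv W v) ≤ locM W v X 1 := by
  rw [locM]
  apply Real.log_le_log hm.lv_pos
  refine le_trans ?_ (le_max_right _ _)
  rw [map_one, mul_one]

omit [AdmissibleAbsValues K] in
theorem locA_ge (hΔ : W.Δ ≠ 0) (v : AbsoluteValue K ℝ) (X : K) :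
    1 / 6 * Real.log (v W.Δ) ≤ locA W v X 1 := by
  rw [← log_Dv v hΔ, locA]
  apply Real.log_le_log (Dv_pos hΔ v)
  refine le_trans ?_ (le_max_right _ _)
  rw [map_one, mul_one]

open Classical in
/-- `Φ` of an affine point. -/
theorem APh_ge (hΔ : W.Δ ≠ 0) {S : Finset (NV K)} (hS : Big W S) (X : K) :
    1 / 6 * asum K (fun v => if IsAM W v then -Real.log (qv W v) else 0) +
    1 / 6 * ∑ v ∈ S, (if IsMul W v.val then -Real.log (qv W v.val) else 0) ≤ APh W S X 1 := by
  have h : X ≠ 0 ∨ (1 : K) ≠ 0 := Or.inr one_ne_zero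
  have h0 := height_ge (X := X) S
  have hp := log_prod_formula hΔ S (fun v hv => hS.disc v hv)
  have hA : asum K (fun v => 1 / 6 * Real.log (v W.Δ) +
      1 / 6 * (if IsAM W v then -Real.log (qv W v) else 0)) ≤
      asum K (fun v => aloc W v X 1) := by
    apply asum_le
    intro v _
    unfold aloc
    split_ifs with hm
    · rw [log_lv hΔ hm.mul]
      exact locM_ge hm.mul X
    · rw [mul_zero, add_zero]
      exact locA_ge hΔ v X
  have hB : ∑ v ∈ S, (1 / 6 * Real.log (v.val W.Δ) +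
      1 / 6 * (if IsMul W v.val then -Real.log (qv W v.val) else 0)) ≤
      ∑ v ∈ S, loc W v.val X 1 := by
    apply Finset.sum_le_sum
    intro v _
    unfold loc
    split_ifs with hm
    · rw [log_lv hΔ hm]
      exact locM_ge hm X
    · rw [mul_zero, add_zero]
      exact locA_ge hΔ v.val X
  rw [asum_add, asum_mul, asum_mul] at hA
  rw [Finset.sum_add_distrib, ← Finset.mul_sum, ← Finset.mul_sum] at hB
  unfold APh
  rw [asum_sub, Finset.sum_sub_distrib]
  unfold asum at *
  linarith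

end Pool.Agent.Helper86.LH
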