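import Pool.Agent.Helper86.LH.Defs

/-!
Archimedean places.

PROOF.  Put `x = v ξ`, `ζ = D * v Z`, `a = v A / D²`, `b = v B / D³`, `Δ₀ = 4A³ + 27B²`,
`μ = max x ζ`.  `16 v Δ₀ = D⁶`, `(48 a)³ ≤ J`, so `a ≤ J^(1/3)/48` and
`27 b² ≤ 1/16 + 4 a³`, `b ≤ J^(1/2)/20`.  Identities (ring), `f` and `g = 4 g₀` as below:
`4 Δ₀ Z⁷ = (12 ξ² Z + 16 A Z³) f - (3 ξ³ - 5 A ξ Z² - 27 B Z³) g` and
`4 Δ₀ ξ⁷ = (4 Δ₀ ξ³ - 4 A²B ξ²Z + 4A(3A³+22B²) ξZ² + 12B(A³+8B²) Z³) f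
  + (A²B ξ³ + A(5A³+32B²) ξ²Z + 2B(13A³+96B²) ξZ² - 3A²(A³+8B²) Z³) g`.
Take absolute values (multiply the first by `D`): `(1/4) ζ⁷ ≤ 17 J^(1/2) μ³ max (v f) (D v g)`
and `(1/4) x⁷ ≤ 3 J² μ³ max (v f) (D v g)`.  There is a lot of room in the constant.
-/

namespace Pool.Agent.Helper86.LH

variable {K : Type*} [Field K]

private theorem arch_nat (v : AbsoluteValue K ℝ) (n : ℕ) : v (n : K) ≤ n := by
  induction n with
  | zero => simp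
  | succ k ih =>
    rw [Nat.cast_add, Nat.cast_one, Nat.cast_add, Nat.cast_one]
    refine (v.add_le _ _).trans ?_
    rw [map_one]
    linarith

/-- monomials in the reduced coefficients and coordinates -/
private theorem arch_mono {α β x ζ s μ : ℝ} (hα0 : 0 ≤ α) (hβ0 : 0 ≤ β) (hx0 : 0 ≤ x) (hζ0 : 0 ≤ ζ)
    (hs : 1 ≤ s) (hα : α ≤ s ^ 2 / 48) (hβ : β ≤ s ^ 3 / 20) (hx : x ≤ μ) (hζ : ζ ≤ μ)
    (i j k l : ℕ) (h : 2 * i + 3 * j ≤ 12) (hkl : k + l = 3) :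
    α ^ i * β ^ j * (x ^ k * ζ ^ l) ≤ s ^ 12 * μ ^ 3 / (48 ^ i * 20 ^ j) := by
  have hμ : 0 ≤ μ := hx0.trans hx
  have hs0 : 0 ≤ s := by linarith
  calc α ^ i * β ^ j * (x ^ k * ζ ^ l) ≤
      (s ^ 2 / 48) ^ i * (s ^ 3 / 20) ^ j * (μ ^ k * μ ^ l) := by gcongr
    _ = s ^ (2 * i + 3 * j) * μ ^ 3 / (48 ^ i * 20 ^ j) := by
        rw [div_pow, div_pow, ← pow_mul, ← pow_mul, ← pow_add, hkl, pow_add]
        field_simp
    _ ≤ s ^ 12 * μ ^ 3 / (48 ^ i * 20 ^ j) := by gcongr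

theorem arch_ineq (v : AbsoluteValue K ℝ) (v2 : v 2 = 2) (v3 : v 3 = 3) {A B : K} {D J : ℝ}
    (hD0 : 0 < D) (hD : D ^ 6 = v (16 * (4 * A ^ 3 + 27 * B ^ 2))) (hJ1 : 1 ≤ J)
    (hJ : v (48 * A) ^ 3 ≤ J * D ^ 6) (X Z : K) :
    nm v D X Z ^ 4 ≤ 1000 * J ^ 2 *
      nm v D (X ^ 4 - 2 * A * X ^ 2 * Z ^ 2 - 8 * B * X * Z ^ 3 + A ^ 2 * Z ^ 4)
        (4 * (X ^ 3 * Z + A * X * Z ^ 3 + B * Z ^ 4)) := by
  obtain ⟨s, hs1, hsJ⟩ : ∃ s : ℝ, 1 ≤ s ∧ s ^ 6 = J :=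
    ⟨J ^ (((6 : ℕ) : ℝ)⁻¹), Real.one_le_rpow hJ1 (by positivity),
      Real.rpow_inv_natCast_pow (by linarith) (by norm_num)⟩
  have hs0 : 0 < s := by linarith
  have v48 : v 48 = 48 := by
    rw [show (48 : K) = 2 ^ 4 * 3 by norm_num, map_mul, map_pow, v2, v3]
    norm_num
  have v16 : v 16 = 16 := by
    rw [show (16 : K) = 2 ^ 4 by norm_num, map_pow, v2]
    norm_num
  have v4 : v 4 = 4 := by
    rw [show (4 : K) = 2 ^ 2 by norm_num, map_pow, v2]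
    norm_num
  have v27 : v 27 = 27 := by
    rw [show (27 : K) = 3 ^ 3 by norm_num, map_pow, v3]
    norm_num
  have v12 : v 12 = 12 := by
    rw [show (12 : K) = 2 ^ 2 * 3 by norm_num, map_mul, map_pow, v2, v3]
    norm_num
  have v8 : v 8 = 8 := by
    rw [show (8 : K) = 2 ^ 3 by norm_num, map_pow, v2]
    norm_num
  have v32 : v 32 = 32 := by
    rw [show (32 : K) = 2 ^ 5 by norm_num, map_pow, v2]
    norm_num
  have v96 : v 96 = 96 := by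
    rw [show (96 : K) = 2 ^ 5 * 3 by norm_num, map_mul, map_pow, v2, v3]
    norm_num
  have v5 : v 5 ≤ 5 := by simpa using arch_nat v 5
  have v22 : v 22 ≤ 22 := by simpa using arch_nat v 22
  have v13 : v 13 ≤ 13 := by simpa using arch_nat v 13
  obtain ⟨x, hx⟩ : ∃ x : ℝ, x = v X := ⟨_, rfl⟩
  obtain ⟨z, hz⟩ : ∃ z : ℝ, z = v Z := ⟨_, rfl⟩
  obtain ⟨a, ha⟩ : ∃ a : ℝ, a = v A := ⟨_, rfl⟩
  obtain ⟨b, hb⟩ : ∃ b : ℝ, b = v B := ⟨_, rfl⟩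
  have hx0 : 0 ≤ x := hx ▸ v.nonneg _
  have hz0 : 0 ≤ z := hz ▸ v.nonneg _
  have ha0 : 0 ≤ a := ha ▸ v.nonneg _
  have hb0 : 0 ≤ b := hb ▸ v.nonneg _
  have hΔ : v (4 * A ^ 3 + 27 * B ^ 2) = D ^ 6 / 16 := by
    rw [map_mul, v16] at hD
    linarith
  -- the reduced coefficients
  obtain ⟨α, hα⟩ : ∃ α : ℝ, α = a / D ^ 2 := ⟨_, rfl⟩
  obtain ⟨β, hβ⟩ : ∃ β : ℝ, β = b / D ^ 3 := ⟨_, rfl⟩
  obtain ⟨ζ, hζ⟩ : ∃ ζ : ℝ, ζ = D * z := ⟨_, rfl⟩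
  have haα : a = α * D ^ 2 := by
    rw [hα]
    field_simp
  have hbβ : b = β * D ^ 3 := by
    rw [hβ]
    field_simp
  have hzζ : z = ζ / D := by
    rw [hζ]
    field_simp
  have hα0 : 0 ≤ α := by rw [hα]; positivity
  have hβ0 : 0 ≤ β := by rw [hβ]; positivity
  have hζ0 : 0 ≤ ζ := by rw [hζ]; positivity
  have hD6 : 0 < D ^ 6 := by positivity
  have hα3 : (48 * α) ^ 3 ≤ (s ^ 2) ^ 3 := by
    rw [map_mul, v48, ← ha, haα, ← hsJ] at hJ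
    have h1 : (48 * (α * D ^ 2)) ^ 3 = (48 * α) ^ 3 * D ^ 6 := by ring
    rw [h1] at hJ
    have h2 := le_of_mul_le_mul_right hJ hD6
    calc (48 * α) ^ 3 ≤ s ^ 6 := h2
      _ = (s ^ 2) ^ 3 := by ring
  have hα1 : α ≤ s ^ 2 / 48 := by
    have := le_of_pow_le_pow_left₀ (by norm_num) (by positivity) hα3
    linarith
  have hβ2 : (20 * β) ^ 2 ≤ (s ^ 3) ^ 2 := by
    have h1 : v (27 * B ^ 2) ≤ v (4 * A ^ 3 + 27 * B ^ 2) + v (4 * A ^ 3) := by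
      have h2 := v.sub_le (4 * A ^ 3 + 27 * B ^ 2) 0 (4 * A ^ 3)
      have h3 : (4 * A ^ 3 + 27 * B ^ 2) - (4 * A ^ 3) = 27 * B ^ 2 := by ring
      rw [h3, sub_zero, zero_sub, v.map_neg] at h2
      exact h2
    rw [hΔ, map_mul, map_mul, map_pow, map_pow, v27, v4, ← ha, ← hb, haα, hbβ] at h1
    have h4 : 27 * β ^ 2 ≤ 1 / 16 + 4 * α ^ 3 := by
      have h5 : 27 * (β * D ^ 3) ^ 2 = 27 * β ^ 2 * D ^ 6 := by ring
      have h6 : D ^ 6 / 16 + 4 * (α * D ^ 2) ^ 3 = (1 / 16 + 4 * α ^ 3) * D ^ 6 := by ring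
      rw [h5, h6] at h1
      exact le_of_mul_le_mul_right h1 hD6
    have h7 : 1 ≤ s ^ 6 := one_le_pow₀ hs1
    have h8 : (48 : ℝ) ^ 3 * α ^ 3 ≤ s ^ 6 := by
      calc (48 : ℝ) ^ 3 * α ^ 3 = (48 * α) ^ 3 := by ring
        _ ≤ _ := hα3
        _ = s ^ 6 := by ring
    have h9 : (s ^ 3) ^ 2 = s ^ 6 := by ring
    rw [h9]
    nlinarith
  have hβ1 : β ≤ s ^ 3 / 20 := by
    have := le_of_pow_le_pow_left₀ (by norm_num) (by positivity) hβ2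
    linarith
  -- the two forms
  obtain ⟨f, hf⟩ : ∃ f : K, f = X ^ 4 - 2 * A * X ^ 2 * Z ^ 2 - 8 * B * X * Z ^ 3 +
    A ^ 2 * Z ^ 4 := ⟨_, rfl⟩
  obtain ⟨g, hg⟩ : ∃ g : K, g = 4 * (X ^ 3 * Z + A * X * Z ^ 3 + B * Z ^ 4) := ⟨_, rfl⟩
  rw [← hf, ← hg]
  obtain ⟨M, hM⟩ : ∃ M : ℝ, M = nm v D f g := ⟨_, rfl⟩
  obtain ⟨μ, hμ⟩ : ∃ μ : ℝ, μ = nm v D X Z := ⟨_, rfl⟩
  rw [← hM, ← hμ]
  have hfM : v f ≤ M := by
    rw [hM]
    exact le_max_left _ _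
  have hgM : D * v g ≤ M := by
    rw [hM]
    exact le_max_right _ _
  have hxμ : x ≤ μ := by
    rw [hμ, hx]
    exact le_max_left _ _
  have hζμ : ζ ≤ μ := by
    rw [hμ, hζ, hz]
    exact le_max_right _ _
  have hμ0 : 0 ≤ μ := hx0.trans hxμ
  have hp0 : 0 ≤ v f := v.nonneg _
  have hr0 : 0 ≤ v g := v.nonneg _
  have hM0 : 0 ≤ M := hp0.trans hfM
  -- the monomials
  have mono := arch_mono hα0 hβ0 hx0 hζ0 hs1 hα1 hβ1 hxμ hζμ
  obtain ⟨T, hT⟩ : ∃ T : ℝ, T = s ^ 12 * μ ^ 3 := ⟨_, rfl⟩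
  have hT0 : 0 ≤ T := by rw [hT]; positivity
  rw [← hT] at mono
  have hTM : 0 ≤ T * M := mul_nonneg hT0 hM0
  -- first identity
  have e1 : ζ ^ 7 / 4 ≤ (12 * x ^ 2 * ζ + 16 * α * ζ ^ 3) * v f +
      (3 * x ^ 3 + 5 * α * x * ζ ^ 2 + 27 * β * ζ ^ 3) * (D * v g) := by
    have h1 : 4 * (4 * A ^ 3 + 27 * B ^ 2) * Z ^ 7 = (12 * X ^ 2 * Z + 16 * A * Z ^ 3) * f -
        (3 * X ^ 3 - 5 * A * X * Z ^ 2 - 27 * B * Z ^ 3) * g := by
      rw [hf, hg]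
      ring
    have h2 := congrArg v h1
    rw [map_mul, map_mul, map_pow, v4, hΔ, ← hz] at h2
    have h3 : v ((12 * X ^ 2 * Z + 16 * A * Z ^ 3) * f -
        (3 * X ^ 3 - 5 * A * X * Z ^ 2 - 27 * B * Z ^ 3) * g) ≤
        (12 * x ^ 2 * z + 16 * a * z ^ 3) * v f +
        (3 * x ^ 3 + 5 * a * x * z ^ 2 + 27 * b * z ^ 3) * v g := by
      rw [sub_eq_add_neg]
      refine (v.add_le _ _).trans (add_le_add ?_ ?_)
      · rw [map_mul]
        refine mul_le_mul_of_nonneg_right ?_ hp0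
        refine (v.add_le _ _).trans (le_of_eq ?_)
        simp only [map_mul, map_pow, v12, v16, ← hx, ← hz, ← ha]
      · rw [v.map_neg, map_mul]
        refine mul_le_mul_of_nonneg_right ?_ hr0
        rw [sub_eq_add_neg, sub_eq_add_neg]
        refine (v.add_le _ _).trans (add_le_add ((v.add_le _ _).trans (add_le_add ?_ ?_)) ?_)
        · simp only [map_mul, map_pow, v3, ← hx, le_refl]
        · rw [v.map_neg]
          simp only [map_mul, map_pow, ← hx, ← hz, ← ha]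
          gcongr
        · rw [v.map_neg]
          simp only [map_mul, map_pow, v27, ← hz, ← hb, le_refl]
    rw [← h2] at h3
    have h4 := mul_le_mul_of_nonneg_left h3 hD0.le
    calc ζ ^ 7 / 4 = D * (4 * (D ^ 6 / 16) * z ^ 7) := by rw [hζ]; ring
      _ ≤ _ := h4
      _ = _ := by rw [haα, hbβ, hζ]; ring
  -- second identity
  have e2 : x ^ 7 / 4 ≤ (x ^ 3 / 4 + 4 * α ^ 2 * β * x ^ 2 * ζ +
      4 * α * (3 * α ^ 3 + 22 * β ^ 2) * x * ζ ^ 2 + 12 * β * (α ^ 3 + 8 * β ^ 2) * ζ ^ 3) * v f +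
      (α ^ 2 * β * x ^ 3 + α * (5 * α ^ 3 + 32 * β ^ 2) * x ^ 2 * ζ +
        2 * β * (13 * α ^ 3 + 96 * β ^ 2) * x * ζ ^ 2 +
        3 * α ^ 2 * (α ^ 3 + 8 * β ^ 2) * ζ ^ 3) * (D * v g) := by
    have h1 : 4 * (4 * A ^ 3 + 27 * B ^ 2) * X ^ 7 =
        (4 * (4 * A ^ 3 + 27 * B ^ 2) * X ^ 3 + -(4 * A ^ 2 * B * X ^ 2 * Z) +
          4 * A * (3 * A ^ 3 + 22 * B ^ 2) * X * Z ^ 2 + 12 * B * (A ^ 3 + 8 * B ^ 2) * Z ^ 3) * f +
        (A ^ 2 * B * X ^ 3 + A * (5 * A ^ 3 + 32 * B ^ 2) * X ^ 2 * Z +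
          2 * B * (13 * A ^ 3 + 96 * B ^ 2) * X * Z ^ 2 +
          -(3 * A ^ 2 * (A ^ 3 + 8 * B ^ 2) * Z ^ 3)) * g := by
      rw [hf, hg]
      ring
    have h2 := congrArg v h1
    rw [map_mul, map_mul, map_pow, v4, hΔ, ← hx] at h2
    have q1 : v (3 * A ^ 3 + 22 * B ^ 2) ≤ 3 * a ^ 3 + 22 * b ^ 2 := by
      refine (v.add_le _ _).trans (add_le_add ?_ ?_)
      · simp only [map_mul, map_pow, v3, ← ha, le_refl]
      · simp only [map_mul, map_pow, ← hb]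
        gcongr
    have q2 : v (A ^ 3 + 8 * B ^ 2) ≤ a ^ 3 + 8 * b ^ 2 := by
      refine (v.add_le _ _).trans (le_of_eq ?_)
      simp only [map_mul, map_pow, v8, ← ha, ← hb]
    have q3 : v (5 * A ^ 3 + 32 * B ^ 2) ≤ 5 * a ^ 3 + 32 * b ^ 2 := by
      refine (v.add_le _ _).trans (add_le_add ?_ ?_)
      · simp only [map_mul, map_pow, ← ha]
        gcongr
      · simp only [map_mul, map_pow, v32, ← hb, le_refl]
    have q4 : v (13 * A ^ 3 + 96 * B ^ 2) ≤ 13 * a ^ 3 + 96 * b ^ 2 := by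
      refine (v.add_le _ _).trans (add_le_add ?_ ?_)
      · simp only [map_mul, map_pow, ← ha]
        gcongr
      · simp only [map_mul, map_pow, v96, ← hb, le_refl]
    have h3 := v.add_le
      ((4 * (4 * A ^ 3 + 27 * B ^ 2) * X ^ 3 + -(4 * A ^ 2 * B * X ^ 2 * Z) +
          4 * A * (3 * A ^ 3 + 22 * B ^ 2) * X * Z ^ 2 + 12 * B * (A ^ 3 + 8 * B ^ 2) * Z ^ 3) * f)
        ((A ^ 2 * B * X ^ 3 + A * (5 * A ^ 3 + 32 * B ^ 2) * X ^ 2 * Z +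
          2 * B * (13 * A ^ 3 + 96 * B ^ 2) * X * Z ^ 2 +
          -(3 * A ^ 2 * (A ^ 3 + 8 * B ^ 2) * Z ^ 3)) * g)
    rw [← h2, map_mul, map_mul] at h3
    have h4 : v (4 * (4 * A ^ 3 + 27 * B ^ 2) * X ^ 3 + -(4 * A ^ 2 * B * X ^ 2 * Z) +
          4 * A * (3 * A ^ 3 + 22 * B ^ 2) * X * Z ^ 2 + 12 * B * (A ^ 3 + 8 * B ^ 2) * Z ^ 3) ≤
        4 * (D ^ 6 / 16) * x ^ 3 + 4 * a ^ 2 * b * x ^ 2 * z +
          4 * a * (3 * a ^ 3 + 22 * b ^ 2) * x * z ^ 2 + 12 * b * (a ^ 3 + 8 * b ^ 2) * z ^ 3 := by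
      refine (v.add_le _ _).trans (add_le_add ((v.add_le _ _).trans
        (add_le_add ((v.add_le _ _).trans (add_le_add ?_ ?_)) ?_)) ?_)
      · rw [map_mul, map_mul, map_pow, v4, hΔ, ← hx]
      · rw [v.map_neg]
        simp only [map_mul, map_pow, v4, ← hx, ← hz, ← ha, ← hb, le_refl]
      · rw [map_mul, map_mul, map_mul, map_mul, map_pow, v4, ← hx, ← hz, ← ha]
        gcongr
      · rw [map_mul, map_mul, map_mul, map_pow, v12, ← hz, ← hb]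
        gcongr
    have h5 : v (A ^ 2 * B * X ^ 3 + A * (5 * A ^ 3 + 32 * B ^ 2) * X ^ 2 * Z +
          2 * B * (13 * A ^ 3 + 96 * B ^ 2) * X * Z ^ 2 +
          -(3 * A ^ 2 * (A ^ 3 + 8 * B ^ 2) * Z ^ 3)) ≤
        a ^ 2 * b * x ^ 3 + a * (5 * a ^ 3 + 32 * b ^ 2) * x ^ 2 * z +
          2 * b * (13 * a ^ 3 + 96 * b ^ 2) * x * z ^ 2 +
          3 * a ^ 2 * (a ^ 3 + 8 * b ^ 2) * z ^ 3 := by
      refine (v.add_le _ _).trans (add_le_add ((v.add_le _ _).trans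
        (add_le_add ((v.add_le _ _).trans (add_le_add ?_ ?_)) ?_)) ?_)
      · simp only [map_mul, map_pow, ← hx, ← ha, ← hb, le_refl]
      · rw [map_mul, map_mul, map_mul, map_pow, ← hx, ← hz, ← ha]
        gcongr
      · rw [map_mul, map_mul, map_mul, map_mul, map_pow, v2, ← hx, ← hz, ← hb]
        gcongr
      · rw [v.map_neg, map_mul, map_mul, map_mul, map_pow, map_pow, v3, ← hz, ← ha]
        gcongr
    have h6 := h3.trans (add_le_add (mul_le_mul_of_nonneg_right h4 hp0)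
      (mul_le_mul_of_nonneg_right h5 hr0))
    refine le_of_mul_le_mul_right ?_ hD6
    calc x ^ 7 / 4 * D ^ 6 = 4 * (D ^ 6 / 16) * x ^ 7 := by ring
      _ ≤ _ := h6
      _ = _ := by
        rw [haα, hbβ, hzζ]
        field_simp
        ring
  -- bounds
  have b1 : ζ ^ 7 ≤ 1000 * T * M := by
    have m1 := mono 0 0 2 1 (by norm_num) (by norm_num)
    have m2 := mono 1 0 0 3 (by norm_num) (by norm_num)
    have m3 := mono 0 0 3 0 (by norm_num) (by norm_num)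
    have m4 := mono 1 0 1 2 (by norm_num) (by norm_num)
    have m5 := mono 0 1 0 3 (by norm_num) (by norm_num)
    norm_num at m1 m2 m3 m4 m5
    have c1 : 12 * x ^ 2 * ζ + 16 * α * ζ ^ 3 ≤ 100 * T := by linarith
    have c2 : 3 * x ^ 3 + 5 * α * x * ζ ^ 2 + 27 * β * ζ ^ 3 ≤ 100 * T := by linarith
    have d1 : (12 * x ^ 2 * ζ + 16 * α * ζ ^ 3) * v f ≤ 100 * T * M :=
      mul_le_mul c1 hfM hp0 (by positivity)
    have d2 : (3 * x ^ 3 + 5 * α * x * ζ ^ 2 + 27 * β * ζ ^ 3) * (D * v g) ≤ 100 * T * M :=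
      mul_le_mul c2 hgM (by positivity) (by positivity)
    have d3 := e1.trans (add_le_add d1 d2)
    linarith
  have b2 : x ^ 7 ≤ 1000 * T * M := by
    have m0 := mono 0 0 3 0 (by norm_num) (by norm_num)
    have m1 := mono 2 1 2 1 (by norm_num) (by norm_num)
    have m2 := mono 4 0 1 2 (by norm_num) (by norm_num)
    have m3 := mono 1 2 1 2 (by norm_num) (by norm_num)
    have m4 := mono 3 1 0 3 (by norm_num) (by norm_num)
    have m5 := mono 0 3 0 3 (by norm_num) (by norm_num)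
    have m6 := mono 2 1 3 0 (by norm_num) (by norm_num)
    have m7 := mono 4 0 2 1 (by norm_num) (by norm_num)
    have m8 := mono 1 2 2 1 (by norm_num) (by norm_num)
    have m9 := mono 3 1 1 2 (by norm_num) (by norm_num)
    have m10 := mono 0 3 1 2 (by norm_num) (by norm_num)
    have m11 := mono 5 0 0 3 (by norm_num) (by norm_num)
    have m12 := mono 2 2 0 3 (by norm_num) (by norm_num)
    norm_num at m0 m1 m2 m3 m4 m5 m6 m7 m8 m9 m10 m11 m12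
    have c1 : x ^ 3 / 4 + 4 * α ^ 2 * β * x ^ 2 * ζ +
      4 * α * (3 * α ^ 3 + 22 * β ^ 2) * x * ζ ^ 2 + 12 * β * (α ^ 3 + 8 * β ^ 2) * ζ ^ 3 ≤
        100 * T := by linarith
    have c2 : α ^ 2 * β * x ^ 3 + α * (5 * α ^ 3 + 32 * β ^ 2) * x ^ 2 * ζ +
        2 * β * (13 * α ^ 3 + 96 * β ^ 2) * x * ζ ^ 2 +
        3 * α ^ 2 * (α ^ 3 + 8 * β ^ 2) * ζ ^ 3 ≤ 100 * T := by linarith
    have d1 := mul_le_mul c1 hfM hp0 (by positivity)
    have d2 := mul_le_mul c2 hgM (by positivity) (by positivity)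
    have d3 := e2.trans (add_le_add d1 d2)
    linarith
  rcases eq_or_lt_of_le hμ0 with h0 | hpos
  · rw [← h0]
    have : 0 ≤ 1000 * J ^ 2 * M := by positivity
    simpa using this
  · have h7 : μ ^ 7 ≤ 1000 * T * M := by
      rcases le_total x ζ with h | h
      · have : μ = ζ := by
          rw [hμ, hζ, hz]
          rw [hζ, hx, hz] at h
          exact max_eq_right h
        rw [this]
        exact b1
      · have : μ = x := by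
          rw [hμ, hx]
          rw [hζ, hx, hz] at h
          exact max_eq_left h
        rw [this]
        exact b2
    have h8 : 1000 * T * M = 1000 * J ^ 2 * M * μ ^ 3 := by
      rw [hT, ← hsJ]
      ring
    have h9 : μ ^ 7 = μ ^ 4 * μ ^ 3 := by ring
    rw [h8, h9] at h7
    exact le_of_mul_le_mul_right h7 (by positivity)

end Pool.Agent.Helper86.LH
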