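import Pool.Agent.Helper86.LH.Defs
import Pool.Agent.Helper51.Par

/-!
The canonical height (Tate's limit).

PROOF.  `Pool.Agent.Helper51.Par.hx P = Height.logHeight P.xRep` satisfies the approximate
parallelogram law `Par.parallelogram` and `Par.hx_two`: `|hx (2 • P) - 4 hx P| ≤ C`.  The sequence
`hx (2^k • P) / 4^k` is Cauchy (`cauchySeq_of_le_geometric` or a telescoping sum), `H` is the
limit.  Dividing the parallelogram law for `2^k • P, 2^k • Q` by `4^k`: `H` satisfies the exact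
parallelogram law, so `H (m • P) = m² H P` by induction on `m` (`H 0 = 0`).
-/

open Filter Topology

namespace Pool.Agent.Helper86.LH

private lemma canon_abs {G : Type*} [AddCommGroup G] (h : G → ℝ) (h0 : ∀ P, 0 ≤ h P)
    (C D : ℝ) (hC : ∀ P Q, |h (P + Q) + h (P - Q) - 2 * h P - 2 * h Q| ≤ C)
    (hD : ∀ P, |h (2 • P) - 4 * h P| ≤ D) :
    ∃ H : G → ℝ, (∀ P, Tendsto (fun k : ℕ => h (2 ^ k • P) / 4 ^ k) atTop (𝓝 (H P))) ∧
      (∀ (P : G) (m : ℕ), H (m • P) = m ^ 2 * H P) ∧ (∀ P, 0 ≤ H P) := by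
  have hlim : ∀ P, ∃ x, Tendsto (fun k : ℕ => h (2 ^ k • P) / 4 ^ k) atTop (𝓝 x) := by
    intro P
    apply cauchySeq_tendsto_of_complete
    apply cauchySeq_of_le_geometric (1 / 4) (D / 4) (by norm_num)
    intro k
    rw [Real.dist_eq]
    have e : (2 ^ (k + 1) • P) = 2 • (2 ^ k • P) := by rw [pow_succ', mul_smul]
    rw [e]
    have h1 := hD (2 ^ k • P)
    have h4 : (0 : ℝ) < 4 ^ k := by positivity
    have e2 : h (2 ^ k • P) / 4 ^ k - h (2 • 2 ^ k • P) / 4 ^ (k + 1) =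
        -((h (2 • 2 ^ k • P) - 4 * h (2 ^ k • P)) / (4 * 4 ^ k)) := by
      rw [pow_succ]
      field_simp
      ring
    rw [e2, abs_neg, abs_div, abs_of_pos (by positivity : (0 : ℝ) < 4 * 4 ^ k),
      show D / 4 * (1 / 4) ^ k = D / (4 * 4 ^ k) by rw [div_pow, one_pow]; field_simp]
    gcongr
  choose H hH using hlim
  have hnn : ∀ P, 0 ≤ H P := fun P =>
    ge_of_tendsto' (hH P) fun k => div_nonneg (h0 _) (by positivity)
  have hpar : ∀ P Q, H (P + Q) + H (P - Q) = 2 * H P + 2 * H Q := by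
    intro P Q
    have h1 : Tendsto (fun k : ℕ => h (2 ^ k • (P + Q)) / 4 ^ k + h (2 ^ k • (P - Q)) / 4 ^ k -
        2 * (h (2 ^ k • P) / 4 ^ k) - 2 * (h (2 ^ k • Q) / 4 ^ k)) atTop
        (𝓝 (H (P + Q) + H (P - Q) - 2 * H P - 2 * H Q)) :=
      (((hH _).add (hH _)).sub ((hH _).const_mul 2)).sub ((hH _).const_mul 2)
    have h2 : Tendsto (fun k : ℕ => h (2 ^ k • (P + Q)) / 4 ^ k + h (2 ^ k • (P - Q)) / 4 ^ k -
        2 * (h (2 ^ k • P) / 4 ^ k) - 2 * (h (2 ^ k • Q) / 4 ^ k)) atTop (𝓝 0) := by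
      apply squeeze_zero_norm (a := fun k : ℕ => C * (1 / 4) ^ k)
      · intro k
        have h3 := hC (2 ^ k • P) (2 ^ k • Q)
        rw [← smul_add, ← smul_sub] at h3
        have h4 : (0 : ℝ) < 4 ^ k := by positivity
        rw [Real.norm_eq_abs, show h (2 ^ k • (P + Q)) / 4 ^ k + h (2 ^ k • (P - Q)) / 4 ^ k -
          2 * (h (2 ^ k • P) / 4 ^ k) - 2 * (h (2 ^ k • Q) / 4 ^ k) =
          (h (2 ^ k • (P + Q)) + h (2 ^ k • (P - Q)) - 2 * h (2 ^ k • P) -
            2 * h (2 ^ k • Q)) / 4 ^ k by ring, abs_div, abs_of_pos h4,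
          show C * (1 / 4) ^ k = C / 4 ^ k by rw [div_pow, one_pow]; ring]
        gcongr
      · have := (tendsto_pow_atTop_nhds_zero_of_lt_one (by norm_num : (0 : ℝ) ≤ 1 / 4)
          (by norm_num)).const_mul C
        simpa using this
    have h3 := tendsto_nhds_unique h1 h2
    linarith
  have hz : H 0 = 0 := by
    have := hpar 0 0
    rw [add_zero, sub_zero] at this
    linarith
  refine ⟨H, hH, ?_, hnn⟩
  intro P m
  have key : ∀ m : ℕ, H (m • P) = m ^ 2 * H P ∧ H ((m + 1) • P) = ((m : ℝ) + 1) ^ 2 * H P := by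
    intro m
    induction m with
    | zero => simp [hz]
    | succ n ih =>
      refine ⟨by push_cast; exact ih.2, ?_⟩
      have h1 := hpar ((n + 1) • P) P
      rw [← succ_nsmul, show (n + 1) • P - P = n • P by rw [succ_nsmul, add_sub_cancel_right],
        ih.1, ih.2] at h1
      push_cast
      linarith
  exact (key m).1

theorem canon {K : Type*} [Field K] [Height.AdmissibleAbsValues K] [DecidableEq K]
    (W : WeierstrassCurve.Affine K) [W.IsElliptic] :
    ∃ H : W.Point → ℝ,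
      (∀ P : W.Point, Tendsto (fun k : ℕ => Height.logHeight ((2 ^ k • P).xRep) / 4 ^ k)
        atTop (𝓝 (H P))) ∧
      (∀ (P : W.Point) (m : ℕ), H (m • P) = m ^ 2 * H P) ∧
      (∀ P : W.Point, 0 ≤ H P) := by
  obtain ⟨C, hC⟩ := Pool.Agent.Helper51.Par.parallelogram W
  obtain ⟨D, hD⟩ := Pool.Agent.Helper51.Par.hx_two W
  exact canon_abs (Pool.Agent.Helper51.Par.hx (W := W))
    (fun P => Pool.Agent.Helper51.Par.hx_nonneg P) C D hC hD

end Pool.Agent.Helper86.LH
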