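import Pool.Agent.Helper86.LH.Defs

/-!
Distance to the nearest integer.

PROOF.  `dn_law`: both sides are even and 1-periodic in `x` and in `y` and symmetric, so assume
`0 ≤ y ≤ x ≤ 1/2` (`dn (x - y) = x - y = |dn x - dn y|`, `dn (x + y) = min (x + y) (1 - x - y)`).
`dn_seq`: by induction on `m` (two steps): the error `δ m` satisfies
`δ (m+1) ≤ 2 δ m + δ (m-1) + e` by `dn_law (m θ) θ` and 1-Lipschitz bounds, `δ 0 = δ 1 = 0`.
`dn_B2`: `fract (1 - fract) = dn (1 - dn)`.
-/

namespace Pool.Agent.Helper86.LH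

theorem DN_eq_min (x : ℝ) : dn x = min (Int.fract x) (1 - Int.fract x) := by
  unfold dn
  exact abs_sub_round_eq_min x

theorem DN_int_add (n : ℤ) (x : ℝ) : dn (n + x) = dn x := by
  rw [DN_eq_min, DN_eq_min, Int.fract_intCast_add]

theorem DN_neg (x : ℝ) : dn (-x) = dn x := by
  rw [DN_eq_min, DN_eq_min]
  by_cases h : Int.fract x = 0
  · have h2 : Int.fract (-x) = 0 := by rwa [Int.fract_neg_eq_zero]
    rw [h, h2]
  · rw [Int.fract_neg h, min_comm]
    congr 1
    ring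

theorem DN_unit {x : ℝ} (h0 : 0 ≤ x) (h1 : x ≤ 1) : dn x = min x (1 - x) := by
  rw [DN_eq_min]
  rcases h1.lt_or_eq with h | h
  · rw [Int.fract_eq_self.mpr ⟨h0, h⟩]
  · rw [h, Int.fract_one]
    norm_num

theorem DN_half {x : ℝ} (h : |x| ≤ 1 / 2) : dn x = |x| := by
  have h1 : dn |x| = |x| := by
    rw [DN_unit (abs_nonneg x) (by linarith)]
    exact min_eq_left (by linarith)
  rcases abs_choice x with h2 | h2
  · rw [h2] at h1 ⊢
    exact h1
  · rw [h2] at h1 ⊢
    rw [← h1, DN_neg]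

theorem DN_nonneg (x : ℝ) : 0 ≤ dn x := abs_nonneg _

theorem DN_le_half (x : ℝ) : dn x ≤ 1 / 2 := abs_sub_round x

theorem DN_rep (x : ℝ) : ∃ n : ℤ, x = n + dn x ∨ x = n + -dn x := by
  refine ⟨round x, ?_⟩
  unfold dn
  rcases abs_choice (x - round x) with h | h
  · left; rw [h]; ring
  · right; rw [h]; ring

theorem dn_law (x y : ℝ) :
    dn (x + y) + dn (x - y) = |dn x - dn y| + min (dn x + dn y) (1 - (dn x + dn y)) := by
  have hx0 := DN_nonneg x
  have hx1 := DN_le_half x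
  have hy0 := DN_nonneg y
  have hy1 := DN_le_half y
  obtain ⟨n, hn⟩ := DN_rep x
  obtain ⟨m, hm⟩ := DN_rep y
  generalize dn x = u at hx0 hx1 hn ⊢
  generalize dn y = w at hy0 hy1 hm ⊢
  have hA : dn (u + w) = min (u + w) (1 - (u + w)) := DN_unit (by linarith) (by linarith)
  have hB : dn (u - w) = |u - w| := DN_half (by rw [abs_le]; constructor <;> linarith)
  rw [← hA, ← hB]
  rcases hn with hn | hn <;> rcases hm with hm | hm
  · have h1 : x + y = ((n + m : ℤ) : ℝ) + (u + w) := by rw [hn, hm]; push_cast; ring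
    have h2 : x - y = ((n - m : ℤ) : ℝ) + (u - w) := by rw [hn, hm]; push_cast; ring
    rw [h1, h2, DN_int_add, DN_int_add, add_comm]
  · have h1 : x + y = ((n + m : ℤ) : ℝ) + (u - w) := by rw [hn, hm]; push_cast; ring
    have h2 : x - y = ((n - m : ℤ) : ℝ) + (u + w) := by rw [hn, hm]; push_cast; ring
    rw [h1, h2, DN_int_add, DN_int_add]
  · have h1 : x + y = ((n + m : ℤ) : ℝ) + -(u - w) := by rw [hn, hm]; push_cast; ring
    have h2 : x - y = ((n - m : ℤ) : ℝ) + -(u + w) := by rw [hn, hm]; push_cast; ring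
    rw [h1, h2, DN_int_add, DN_int_add, DN_neg, DN_neg]
  · have h1 : x + y = ((n + m : ℤ) : ℝ) + -(u + w) := by rw [hn, hm]; push_cast; ring
    have h2 : x - y = ((n - m : ℤ) : ℝ) + -(u - w) := by rw [hn, hm]; push_cast; ring
    rw [h1, h2, DN_int_add, DN_int_add, DN_neg, DN_neg, add_comm]

theorem DN_lip (z z' w : ℝ) :
    |(|z - w| + min (z + w) (1 - (z + w))) - (|z' - w| + min (z' + w) (1 - (z' + w)))| ≤
      2 * |z - z'| := by
  have h1 : |(|z - w|) - (|z' - w|)| ≤ |z - z'| := by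
    have := abs_abs_sub_abs_le_abs_sub (z - w) (z' - w)
    have e : z - w - (z' - w) = z - z' := by ring
    rwa [e] at this
  have h2 : |min (z + w) (1 - (z + w)) - min (z' + w) (1 - (z' + w))| ≤ |z - z'| := by
    have := abs_min_sub_min_le_max (z + w) (1 - (z + w)) (z' + w) (1 - (z' + w))
    have e1 : z + w - (z' + w) = z - z' := by ring
    have e2 : 1 - (z + w) - (1 - (z' + w)) = -(z - z') := by ring
    rw [e1, e2, abs_neg, max_self] at this
    exact this
  rw [abs_le] at h1 h2 ⊢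
  constructor <;> linarith [h1.1, h1.2, h2.1, h2.2]

theorem dn_seq (t : ℕ → ℝ) (e : ℝ) (he : 0 ≤ e) (h0 : t 0 = 0) (h1 : 0 ≤ t 1)
    (h1' : t 1 ≤ 1 / 2)
    (h : ∀ m : ℕ, |t (m + 2) + t m - (|t (m + 1) - t 1| +
      min (t (m + 1) + t 1) (1 - (t (m + 1) + t 1)))| ≤ e) (m : ℕ) :
    |t m - dn (m * t 1)| ≤ 4 ^ m * e := by
  have hd1 : dn (t 1) = t 1 := by
    rw [DN_half (by rw [abs_of_nonneg h1]; exact h1'), abs_of_nonneg h1]
  have key : ∀ m : ℕ, |t m - dn (m * t 1)| ≤ 4 ^ m * e ∧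
      |t (m + 1) - dn ((m + 1 : ℕ) * t 1)| ≤ 4 ^ (m + 1) * e := by
    intro m
    induction m with
    | zero =>
      constructor
      · have : dn ((0 : ℕ) * t 1) = 0 := by
          rw [Nat.cast_zero, zero_mul, DN_half (by norm_num), abs_zero]
        rw [h0, this]
        simpa using he
      · have : dn ((0 + 1 : ℕ) * t 1) = t 1 := by
          rw [zero_add, Nat.cast_one, one_mul, hd1]
        rw [this, zero_add, sub_self, abs_zero]
        positivity
    | succ m ih =>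
      obtain ⟨ih1, ih2⟩ := ih
      refine ⟨ih2, ?_⟩
      have h2 := h m
      have h3 := dn_law ((m + 1 : ℕ) * t 1) (t 1)
      have e1 : ((m + 1 : ℕ) : ℝ) * t 1 + t 1 = ((m + 1 + 1 : ℕ) : ℝ) * t 1 := by
        push_cast; ring
      have e2 : ((m + 1 : ℕ) : ℝ) * t 1 - t 1 = (m : ℝ) * t 1 := by
        push_cast; ring
      rw [e1, e2, hd1] at h3
      have h4 := DN_lip (t (m + 1)) (dn ((m + 1 : ℕ) * t 1)) (t 1)
      have h5 : (1 : ℝ) ≤ 4 ^ m := one_le_pow₀ (by norm_num)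
      have h6 : |t (m + 1 + 1) - dn ((m + 1 + 1 : ℕ) * t 1)| ≤
          e + 4 ^ m * e + 2 * (4 ^ (m + 1) * e) := by
        have h7 : t (m + 1 + 1) = t (m + 2) := rfl
        rw [h7]
        rw [abs_le] at h2 ih1 h4 ⊢
        constructor <;> linarith [h2.1, h2.2, ih1.1, ih1.2, h4.1, h4.2]
      refine h6.trans ?_
      have h8 : e ≤ 4 ^ m * e := by nlinarith
      have h9 : 0 ≤ 4 ^ m * e := by positivity
      rw [pow_succ, pow_succ, pow_succ]
      linarith
  exact (key m).1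

theorem dn_B2 (x : ℝ) : B2 x = 1 / 6 - dn x * (1 - dn x) := by
  rw [DN_eq_min]
  unfold B2
  rcases min_choice (Int.fract x) (1 - Int.fract x) with h | h <;> rw [h] <;> ring

end Pool.Agent.Helper86.LH
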