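import Mathlib

/-!
Project LH (MP_f0457e_nt, Lang's lower bound for the canonical height).

THEOREM (explicit, all number fields, all elliptic curves).  `E/K`, `d = [K:ℚ]`,
`h_f = ∑_{v finite} log⁺|j|_v`, `h_∞ = ∑_{v infinite} log⁺|j|_v` (normalised, product formula),
`w` a finite place with `log|j|_w ≥ δ h_f`, `0 < δ ≤ 1`.  Then every nontorsion `P ∈ E(K)` has
canonical height `H(P) = lim 4^{-k} h_K(x(2^k P)) ≥ δ³ h_f / 4000 - δ² (d + h_∞)`.

PROOF.
(1) LOCAL LAW.  `v` nonarchimedean, `|j|_v > 1`, `q = |j|_v⁻¹`, `l = |c₄|^(1/2)`,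
`r = (18 b₆ - b₂ b₄) / c₄` (x-coordinate of the node).  For `z = (X : Z)` (already translated by
`r`) put `nm = max |X| (l |Z|)` and `al = max (|X| / nm) √q ∈ [√q, 1]`, `tt = log al / log q ∈
[0, 1/2]`.  For points `P, Q` with sum and difference `R, S`:
`tt R + tt S = |tt P - tt Q| + min (tt P + tt Q) (1 - tt P - tt Q)`, and
`max |F| (l |G|) = al² nm⁴` for the duplication forms `F, G`.
(2) Hence `tt (m P) = ‖m θ‖`, `θ = tt P`, distance to the nearest integer.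
(3) At the other places `max |f| (D |g|) ≥ κ max (|ξ|, D |Z|)⁴`, `D = |Δ|^(1/6)`, `ξ = X + b₂ Z/12`,
`κ = |6|^24` (nonarchimedean, `|j| ≤ 1`), `κ = 1 / (1000 J²)` (archimedean, `J = max 1 |j|`).
(4) `Φ(Q) = ∑_v log nm_v(Q) + (1/3) ∑ log κ_v - ∑_v n_v tt (1 - tt)` satisfies `Φ(2Q) ≥ 4 Φ(Q)`,
so `H(Q) ≥ Φ(Q) ≥ ∑_{|j|_v > 1} n_v B₂(tt_v Q) - C'`, `n_v = log |j|_v`, `C' ≤ 17 (d + h_∞)`,
by the product formula.
(5) So `m² H(P) ≥ ∑ n_v B₂(m θ_v) - C'` for all `m ≥ 1`; the Fejer-Riesz weights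
`c_m = 2 (1 - m/M) (1 + cos (2 π m θ_w))`, `M = ⌈14/δ⌉`, give the theorem.
-/

namespace Pool.Agent.Helper86.LH

/-- First duplication form. -/
def dF {K : Type*} [CommRing K] (b4 b6 b8 X Z : K) : K :=
  X ^ 4 - b4 * X ^ 2 * Z ^ 2 - 2 * b6 * X * Z ^ 3 - b8 * Z ^ 4

/-- Second duplication form. -/
def dG {K : Type*} [CommRing K] (b2 b4 b6 X Z : K) : K :=
  4 * X ^ 3 * Z + b2 * X ^ 2 * Z ^ 2 + 2 * b4 * X * Z ^ 3 + b6 * Z ^ 4

/-- Local norm of a coordinate vector. -/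
noncomputable def nm {K : Type*} [Field K] (v : AbsoluteValue K ℝ) (l : ℝ) (X Z : K) : ℝ :=
  max (v X) (l * v Z)

/-- Truncated size of the translated `x`-coordinate. -/
noncomputable def al {K : Type*} [Field K] (v : AbsoluteValue K ℝ) (l q : ℝ) (X Z : K) : ℝ :=
  max (v X / nm v l X Z) (Real.sqrt q)

/-- Component coordinate in `[0, 1/2]`. -/
noncomputable def tt {K : Type*} [Field K] (v : AbsoluteValue K ℝ) (l q : ℝ) (X Z : K) : ℝ :=
  Real.log (al v l q X Z) / Real.log q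

/-- Periodic second Bernoulli function. -/
noncomputable def B2 (x : ℝ) : ℝ := Int.fract x ^ 2 - Int.fract x + 1 / 6

/-- Distance to the nearest integer. -/
noncomputable def dn (x : ℝ) : ℝ := |x - round x|

end Pool.Agent.Helper86.LH
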