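import Pool.Agent.Helper86.LH.Defs

/-!
Decomposition of the height of a pair.
-/

open Height AdmissibleAbsValues Function

namespace Pool.Agent.Helper86.LH

variable {K : Type*} [Field K] [AdmissibleAbsValues K]

omit [AdmissibleAbsValues K] in
theorem nm_pos (v : AbsoluteValue K ℝ) {l : ℝ} (hl : 0 < l) {X Z : K} (h : X ≠ 0 ∨ Z ≠ 0) :
    0 < nm v l X Z := by
  rcases h with h | h
  · exact lt_of_lt_of_le (v.pos h) (le_max_left _ _)
  · exact lt_of_lt_of_le (mul_pos hl (v.pos h)) (le_max_right _ _)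

omit [AdmissibleAbsValues K] in
theorem iSup_two (v : AbsoluteValue K ℝ) (X Z : K) : ⨆ i, v (![X, Z] i) = nm v 1 X Z := by
  rw [nm, one_mul]
  apply le_antisymm
  · apply ciSup_le
    intro i
    fin_cases i
    · exact le_max_left _ _
    · exact le_max_right _ _
  · apply max_le
    · exact Finite.le_ciSup_of_le (0 : Fin 2) le_rfl
    · exact Finite.le_ciSup_of_le (1 : Fin 2) le_rfl

theorem fin_val {x : K} (hx : x ≠ 0) :
    {v : (nonarchAbsVal : Set (AbsoluteValue K ℝ)) | v.val x ≠ 1}.Finite :=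
  hasFiniteMulSupport hx

theorem fin_gt (x : K) :
    {v : (nonarchAbsVal : Set (AbsoluteValue K ℝ)) | 1 < v.val x}.Finite := by
  by_cases hx : x = 0
  · convert Set.finite_empty
    ext v
    simp only [Set.mem_ofPred_eq, hx, map_zero, Set.mem_empty_iff_false, iff_false, not_lt]
    norm_num
  · exact (fin_val hx).subset fun v hv => ne_of_gt hv

theorem fin_nm {X Z : K} (h : X ≠ 0 ∨ Z ≠ 0) :
    {v : (nonarchAbsVal : Set (AbsoluteValue K ℝ)) | nm v.val 1 X Z ≠ 1}.Finite := by
  by_cases hX : X = 0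
  · have hZ : Z ≠ 0 := by tauto
    refine (fin_val hZ).subset fun v hv => ?_
    simp only [nm, hX, map_zero, one_mul, Set.mem_ofPred_eq] at hv ⊢
    intro h1
    apply hv
    rw [h1]
    norm_num
  · by_cases hZ : Z = 0
    · refine (fin_val hX).subset fun v hv => ?_
      simp only [nm, hZ, map_zero, one_mul, Set.mem_ofPred_eq] at hv ⊢
      intro h1
      apply hv
      rw [h1]
      norm_num
    · refine ((fin_val hX).union (fin_val hZ)).subset fun v hv => ?_
      simp only [nm, one_mul, Set.mem_ofPred_eq, Set.mem_union] at hv ⊢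
      by_contra hc
      rw [not_or, not_not, not_not] at hc
      apply hv
      rw [hc.1, hc.2]
      norm_num

/-- The height of a pair as a sum of local terms. -/
theorem logHeight_pair {X Z : K} (h : X ≠ 0 ∨ Z ≠ 0) :
    logHeight ![X, Z] = (archAbsVal.map fun v : AbsoluteValue K ℝ => Real.log (nm v 1 X Z)).sum +
      ∑ᶠ v : (nonarchAbsVal : Set (AbsoluteValue K ℝ)), Real.log (nm v.val 1 X Z) := by
  have hx : ![X, Z] ≠ 0 := by
    intro h0
    have h1 := congrFun h0 0
    have h2 := congrFun h0 1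
    simp at h1 h2
    tauto
  have hp : ∀ v : AbsoluteValue K ℝ, 0 < nm v 1 X Z := fun v => nm_pos v one_pos h
  have e := mulHeight_eq hx
  simp only [iSup_two] at e
  have hne : ∀ a ∈ archAbsVal.map (fun v : AbsoluteValue K ℝ => nm v 1 X Z), a ≠ 0 := by
    intro a ha
    obtain ⟨v, _, rfl⟩ := Multiset.mem_map.mp ha
    exact (hp v).ne'
  have h1 : (archAbsVal.map (fun v : AbsoluteValue K ℝ => nm v 1 X Z)).prod ≠ 0 := by
    intro h0
    exact hne 0 (Multiset.prod_eq_zero_iff.mp h0) rfl
  have h2 : (∏ᶠ v : (nonarchAbsVal : Set (AbsoluteValue K ℝ)), nm v.val 1 X Z) ≠ 0 :=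
    (finprod_induction (fun t : ℝ => 0 < t) one_pos (fun _ _ => mul_pos)
      (fun v : (nonarchAbsVal : Set (AbsoluteValue K ℝ)) => hp v.val)).ne'
  rw [logHeight_eq_log_mulHeight, e, Real.log_mul h1 h2, Real.log_multiset_prod hne,
    Multiset.map_map, Real.log_finprod (fun v : (nonarchAbsVal : Set (AbsoluteValue K ℝ)) => hp v.val)]
  rfl

/-- Product formula, additive form. -/
theorem log_prod_formula {x : K} (hx : x ≠ 0)
    (S : Finset (nonarchAbsVal : Set (AbsoluteValue K ℝ))) (hS : ∀ v, v ∉ S → v.val x = 1) :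
    (archAbsVal.map fun v : AbsoluteValue K ℝ => Real.log (v x)).sum +
      ∑ v ∈ S, Real.log (v.val x) = 0 := by
  have e := product_formula hx
  have hp : ∀ v : AbsoluteValue K ℝ, 0 < v x := fun v => v.pos hx
  have hne : ∀ a ∈ archAbsVal.map (fun v : AbsoluteValue K ℝ => v x), a ≠ 0 := by
    intro a ha
    obtain ⟨v, _, rfl⟩ := Multiset.mem_map.mp ha
    exact (hp v).ne'
  have h1 : (archAbsVal.map (fun v : AbsoluteValue K ℝ => v x)).prod ≠ 0 := by
    intro h0
    exact hne 0 (Multiset.prod_eq_zero_iff.mp h0) rfl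
  have h2 : (∏ᶠ v : (nonarchAbsVal : Set (AbsoluteValue K ℝ)), v.val x) ≠ 0 :=
    (finprod_induction (fun t : ℝ => 0 < t) one_pos (fun _ _ => mul_pos)
      (fun v : (nonarchAbsVal : Set (AbsoluteValue K ℝ)) => hp v.val)).ne'
  have e' := congrArg Real.log e
  rw [Real.log_one, Real.log_mul h1 h2, Real.log_multiset_prod hne, Multiset.map_map,
    Real.log_finprod (fun v : (nonarchAbsVal : Set (AbsoluteValue K ℝ)) => hp v.val)] at e'
  rw [← e']
  congr 1
  symm
  apply finsum_eq_sum_of_support_subset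
  intro v hv
  by_contra hc
  apply hv
  have := hS v (fun h => hc (Finset.mem_coe.mpr h))
  simp only [this, Real.log_one]

/-- Comparison of two heights outside a finite set. -/
theorem height_compare {X Z Y0 Y1 : K} (h : X ≠ 0 ∨ Z ≠ 0) (h' : Y0 ≠ 0 ∨ Y1 ≠ 0)
    (S : Finset (nonarchAbsVal : Set (AbsoluteValue K ℝ)))
    (hS : ∀ v, v ∉ S → 4 * Real.log (nm v.val 1 X Z) ≤ Real.log (nm v.val 1 Y0 Y1)) :
    4 * (logHeight ![X, Z] -
        (archAbsVal.map fun v : AbsoluteValue K ℝ => Real.log (nm v 1 X Z)).sum -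
        ∑ v ∈ S, Real.log (nm v.val 1 X Z)) ≤
      logHeight ![Y0, Y1] -
        (archAbsVal.map fun v : AbsoluteValue K ℝ => Real.log (nm v 1 Y0 Y1)).sum -
        ∑ v ∈ S, Real.log (nm v.val 1 Y0 Y1) := by
  classical
  rw [logHeight_pair h, logHeight_pair h']
  set T := S ∪ (fin_nm h).toFinset ∪ (fin_nm h').toFinset with hT
  have e1 : ∑ᶠ v : (nonarchAbsVal : Set (AbsoluteValue K ℝ)), Real.log (nm v.val 1 X Z) =
      ∑ v ∈ T, Real.log (nm v.val 1 X Z) := by
    apply finsum_eq_sum_of_support_subset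
    intro v hv
    simp only [hT, Finset.coe_union, Set.Finite.coe_toFinset, Set.mem_union, Finset.mem_coe,
      Set.mem_ofPred_eq]
    left; right
    intro h1
    apply hv
    simp only [h1, Real.log_one]
  have e2 : ∑ᶠ v : (nonarchAbsVal : Set (AbsoluteValue K ℝ)), Real.log (nm v.val 1 Y0 Y1) =
      ∑ v ∈ T, Real.log (nm v.val 1 Y0 Y1) := by
    apply finsum_eq_sum_of_support_subset
    intro v hv
    simp only [hT, Finset.coe_union, Set.Finite.coe_toFinset, Set.mem_union, Finset.mem_coe,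
      Set.mem_ofPred_eq]
    right
    intro h1
    apply hv
    simp only [h1, Real.log_one]
  have hST : S ⊆ T := by
    intro v hv
    simp only [hT, Finset.mem_union]
    left; left; exact hv
  rw [e1, e2, ← Finset.sum_sdiff hST, ← Finset.sum_sdiff hST]
  have : 4 * ∑ v ∈ T \ S, Real.log (nm v.val 1 X Z) ≤
      ∑ v ∈ T \ S, Real.log (nm v.val 1 Y0 Y1) := by
    rw [Finset.mul_sum]
    exact Finset.sum_le_sum fun v hv => hS v (Finset.mem_sdiff.mp hv).2
  linarith

/-- Lower bound for the height of `(x : 1)`. -/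
theorem height_ge {X : K} (S : Finset (nonarchAbsVal : Set (AbsoluteValue K ℝ))) :
    (archAbsVal.map fun v : AbsoluteValue K ℝ => Real.log (nm v 1 X 1)).sum +
        ∑ v ∈ S, Real.log (nm v.val 1 X 1) ≤ logHeight ![X, 1] := by
  classical
  have h : X ≠ 0 ∨ (1 : K) ≠ 0 := Or.inr one_ne_zero
  rw [logHeight_pair h]
  set T := S ∪ (fin_nm h).toFinset with hT
  have e1 : ∑ᶠ v : (nonarchAbsVal : Set (AbsoluteValue K ℝ)), Real.log (nm v.val 1 X 1) =
      ∑ v ∈ T, Real.log (nm v.val 1 X 1) := by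
    apply finsum_eq_sum_of_support_subset
    intro v hv
    simp only [hT, Finset.coe_union, Set.Finite.coe_toFinset, Set.mem_union, Finset.mem_coe,
      Set.mem_ofPred_eq]
    right
    intro h1
    apply hv
    simp only [h1, Real.log_one]
  have hST : S ⊆ T := by
    intro v hv
    simp only [hT, Finset.mem_union]
    left; exact hv
  rw [e1]
  have := Finset.sum_le_sum_of_subset_of_nonneg (f := fun v : (nonarchAbsVal : Set
    (AbsoluteValue K ℝ)) => Real.log (nm v.val 1 X 1)) hST (fun v _ _ => by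
      apply Real.log_nonneg
      refine le_trans ?_ (le_max_right _ _)
      simp)
  linarith

end Pool.Agent.Helper86.LH
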