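import Pool.Agent.Helper86.LH.Defs

/-!
Nonarchimedean places with `|j| ≤ 1`.

PROOF.  Same identities as in `Arch.lean` with the ultrametric inequality.  Put `s = v 6 ≤ 1`,
`x = v ξ`, `ζ = D * v Z`, `a = v A / D²`, `b = v B / D³`, `μ = max x ζ`.  All integers have
absolute value `≤ 1`, `v 48 ≥ s⁴`, `v 27 ≥ s³`, so `a ≤ s⁻⁴`, `b² ≤ s⁻¹⁵`, `b ≤ s⁻⁸`.
`4 Δ₀ Z⁷ = (12 ξ² Z + 16 A Z³) f - (3 ξ³ - 5 A ξ Z² - 27 B Z³) g` gives
`ζ⁷ ≤ s⁻⁸ μ³ max (v f) (D v g)`, and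
`4 Δ₀ ξ⁷ = (4 Δ₀ ξ³ - 4 A²B ξ²Z + 4A(3A³+22B²) ξZ² + 12B(A³+8B²) Z³) f
  + (A²B ξ³ + A(5A³+32B²) ξ²Z + 2B(13A³+96B²) ξZ² - 3A²(A³+8B²) Z³) g` gives
`x⁷ ≤ s⁻²⁴ μ³ max (v f) (D v g)` (note `v (4 Δ₀) ≥ D⁶`).
-/

namespace Pool.Agent.Helper86.LH

variable {K : Type*} [Field K]

private theorem Good_add {v : AbsoluteValue K ℝ} (hv : IsNonarchimedean v) {x y : K} {C : ℝ}
    (hx : v x ≤ C) (hy : v y ≤ C) : v (x + y) ≤ C :=
  (hv x y).trans (max_le hx hy)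

private theorem Good_sub {v : AbsoluteValue K ℝ} (hv : IsNonarchimedean v) {x y : K} {C : ℝ}
    (hx : v x ≤ C) (hy : v y ≤ C) : v (x - y) ≤ C := by
  rw [sub_eq_add_neg]
  exact Good_add hv hx (by rw [v.map_neg]; exact hy)

private theorem Good_nat {v : AbsoluteValue K ℝ} (hv : IsNonarchimedean v) (n : ℕ) :
    v (n : K) ≤ 1 :=
  IsNonarchimedean.apply_natCast_le_one hv

private theorem Good_mono {v : AbsoluteValue K ℝ} (hv : IsNonarchimedean v) {A B X Z : K}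
    {t D z : ℝ} (ht : 1 ≤ t) (hD : 0 < D) (hz : 0 ≤ z) (hA : v A ≤ t ^ 4 * D ^ 2)
    (hB : v B ≤ t ^ 8 * D ^ 3) (hX : v X ≤ D * z) (hZ : v Z ≤ z) (n i j k l T E : ℕ)
    (h1 : k + l = 3) (h2 : 4 * i + 8 * j ≤ T) (h3 : 2 * i + 3 * j + k = E) :
    v ((n : K) * A ^ i * B ^ j * X ^ k * Z ^ l) ≤ t ^ T * D ^ E * z ^ 3 := by
  have ht0 : 0 ≤ t := by linarith
  rw [map_mul, map_mul, map_mul, map_mul, map_pow, map_pow, map_pow, map_pow]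
  calc v (n : K) * v A ^ i * v B ^ j * v X ^ k * v Z ^ l
      ≤ 1 * (t ^ 4 * D ^ 2) ^ i * (t ^ 8 * D ^ 3) ^ j * (D * z) ^ k * z ^ l := by
        have := v.nonneg A
        have := v.nonneg B
        have := v.nonneg X
        have := v.nonneg Z
        have := v.nonneg (n : K)
        have := Good_nat hv n
        gcongr
    _ = t ^ (4 * i + 8 * j) * D ^ (2 * i + 3 * j + k) * z ^ (k + l) := by
        rw [mul_pow, mul_pow, mul_pow, ← pow_mul, ← pow_mul, ← pow_mul, ← pow_mul, pow_add,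
          pow_add, pow_add, pow_add]
        ring
    _ ≤ t ^ T * D ^ E * z ^ 3 := by
        rw [h1, h3]
        have := pow_le_pow_right₀ ht h2
        gcongr

theorem good_ineq (v : AbsoluteValue K ℝ) (hv : IsNonarchimedean v) (v6 : (6 : K) ≠ 0) {A B : K}
    {D : ℝ} (hD0 : 0 < D) (hD : D ^ 6 = v (16 * (4 * A ^ 3 + 27 * B ^ 2)))
    (hJ : v (48 * A) ^ 3 ≤ D ^ 6) (X Z : K) :
    v 6 ^ 24 * nm v D X Z ^ 4 ≤
      nm v D (X ^ 4 - 2 * A * X ^ 2 * Z ^ 2 - 8 * B * X * Z ^ 3 + A ^ 2 * Z ^ 4)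
        (4 * (X ^ 3 * Z + A * X * Z ^ 3 + B * Z ^ 4)) := by
  have hs0 : 0 < v 6 := v.pos v6
  have n2 : v 2 ≤ 1 := by exact_mod_cast Good_nat hv 2
  have n3 : v 3 ≤ 1 := by exact_mod_cast Good_nat hv 3
  have n4 : v 4 ≤ 1 := by exact_mod_cast Good_nat hv 4
  have e6 : v 6 = v 2 * v 3 := by
    rw [← map_mul]
    norm_num
  have p2 : 0 < v 2 := by
    have := v.nonneg 2
    have := v.nonneg 3
    by_contra h
    have h0 : v 2 = 0 := by linarith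
    rw [e6, h0, zero_mul] at hs0
    exact lt_irrefl _ hs0
  have p3 : 0 < v 3 := by
    have := v.nonneg 3
    by_contra h
    have h0 : v 3 = 0 := by linarith
    rw [e6, h0, mul_zero] at hs0
    exact lt_irrefl _ hs0
  have hs1 : v 6 ≤ 1 := by
    rw [e6]
    exact mul_le_one₀ n2 p3.le n3
  obtain ⟨t, ht, hst⟩ : ∃ t : ℝ, 1 ≤ t ∧ v 6 * t = 1 :=
    ⟨(v 6)⁻¹, (one_le_inv₀ hs0).2 hs1, mul_inv_cancel₀ hs0.ne'⟩
  have ht0 : 0 < t := by linarith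
  -- the bound for `A`
  have e48 : v 48 = v 2 ^ 4 * v 3 := by
    rw [← map_pow, ← map_mul]
    norm_num
  have h48 : v 6 ^ 4 ≤ v 48 := by
    rw [e48, e6, mul_pow]
    have : v 3 ^ 4 ≤ v 3 := by
      calc v 3 ^ 4 ≤ v 3 ^ 1 := pow_le_pow_of_le_one p3.le n3 (by norm_num)
        _ = v 3 := pow_one _
    gcongr
  have hA' : v 6 ^ 4 * v A ≤ D ^ 2 := by
    have h1 : v (48 * A) ≤ D ^ 2 := by
      have : v (48 * A) ^ 3 ≤ (D ^ 2) ^ 3 := by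
        rw [← pow_mul]
        exact hJ
      exact le_of_pow_le_pow_left₀ (by norm_num) (by positivity) this
    rw [map_mul] at h1
    exact (mul_le_mul_of_nonneg_right h48 (v.nonneg A)).trans h1
  have hA : v A ≤ t ^ 4 * D ^ 2 := by
    calc v A = t ^ 4 * (v 6 ^ 4 * v A) := by
          rw [← mul_assoc, ← mul_pow, mul_comm t, hst, one_pow, one_mul]
      _ ≤ t ^ 4 * D ^ 2 := by gcongr
  -- the bound for `B`
  have hB : v B ≤ t ^ 8 * D ^ 3 := by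
    have e1 : v (16 * 27 * B ^ 2) ≤ t ^ 12 * D ^ 6 := by
      have : (16 * 27 * B ^ 2 : K) = 16 * (4 * A ^ 3 + 27 * B ^ 2) - ((64 : ℕ) : K) * A ^ 3 := by
        push_cast
        ring
      rw [this]
      refine Good_sub hv ?_ ?_
      · rw [← hD]
        have : 1 ≤ t ^ 12 := one_le_pow₀ ht
        nlinarith [pow_pos hD0 6]
      · rw [map_mul, map_pow]
        calc v ((64 : ℕ) : K) * v A ^ 3 ≤ 1 * (t ^ 4 * D ^ 2) ^ 3 := by
              have := v.nonneg A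
              have := v.nonneg ((64 : ℕ) : K)
              have := Good_nat hv 64
              gcongr
          _ = t ^ 12 * D ^ 6 := by ring
    have e2 : v (16 * 27) = v 2 ^ 4 * v 3 ^ 3 := by
      rw [← map_pow, ← map_pow, ← map_mul]
      norm_num
    have e3 : v 6 ^ 4 ≤ v (16 * 27) := by
      rw [e2, e6, mul_pow]
      have : v 3 ^ 4 ≤ v 3 ^ 3 := pow_le_pow_of_le_one p3.le n3 (by norm_num)
      gcongr
    have e4 : v B ^ 2 ≤ t ^ 16 * D ^ 6 := by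
      rw [map_mul, map_pow] at e1
      have e5 : v 6 ^ 4 * v B ^ 2 ≤ t ^ 12 * D ^ 6 :=
        (mul_le_mul_of_nonneg_right e3 (by positivity)).trans e1
      calc v B ^ 2 = t ^ 4 * (v 6 ^ 4 * v B ^ 2) := by
            rw [← mul_assoc, ← mul_pow, mul_comm t, hst, one_pow, one_mul]
        _ ≤ t ^ 4 * (t ^ 12 * D ^ 6) := by gcongr
        _ = t ^ 16 * D ^ 6 := by ring
    have e6' : v B ^ 2 ≤ (t ^ 8 * D ^ 3) ^ 2 := by
      calc v B ^ 2 ≤ t ^ 16 * D ^ 6 := e4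
        _ = (t ^ 8 * D ^ 3) ^ 2 := by ring
    exact le_of_pow_le_pow_left₀ (by norm_num) (by positivity) e6'
  -- the norms
  set f : K := X ^ 4 - 2 * A * X ^ 2 * Z ^ 2 - 8 * B * X * Z ^ 3 + A ^ 2 * Z ^ 4 with hf
  set g : K := 4 * (X ^ 3 * Z + A * X * Z ^ 3 + B * Z ^ 4) with hg
  set M : ℝ := nm v D f g with hM
  have hMf : v f ≤ M := le_max_left _ _
  have hMg : D * v g ≤ M := le_max_right _ _
  have hM0 : 0 ≤ M := (v.nonneg f).trans hMf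
  set μ : ℝ := nm v D X Z with hμ
  have hμX : v X ≤ μ := le_max_left _ _
  have hμZ : D * v Z ≤ μ := le_max_right _ _
  have hμ0 : 0 ≤ μ := (v.nonneg X).trans hμX
  obtain ⟨z, hz⟩ : ∃ z : ℝ, μ = D * z := ⟨μ / D, by field_simp⟩
  have hz0 : 0 ≤ z := by
    by_contra h
    have : D * z < 0 := mul_neg_of_pos_of_neg hD0 (not_le.1 h)
    linarith
  have hX : v X ≤ D * z := hz ▸ hμX
  have hZ : v Z ≤ z := by
    rw [hz] at hμZ
    exact le_of_mul_le_mul_left hμZ hD0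
  have hΔ : D ^ 6 ≤ v (4 * (4 * A ^ 3 + 27 * B ^ 2)) := by
    have : (16 * (4 * A ^ 3 + 27 * B ^ 2) : K) = 4 * (4 * (4 * A ^ 3 + 27 * B ^ 2)) := by ring
    rw [hD, this, map_mul]
    exact mul_le_of_le_one_left (v.nonneg _) n4
  have mono := fun (n i j k l T E : ℕ) (h1 : k + l = 3) (h2 : 4 * i + 8 * j ≤ T)
    (h3 : 2 * i + 3 * j + k = E) =>
      Good_mono hv ht hD0 hz0 hA hB hX hZ n i j k l T E h1 h2 h3
  -- the cofactors
  have hf1 : v (12 * X ^ 2 * Z + 16 * A * Z ^ 3) ≤ t ^ 24 * D ^ 2 * z ^ 3 := by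
    have e : (12 * X ^ 2 * Z + 16 * A * Z ^ 3 : K) =
        ((12 : ℕ) : K) * A ^ 0 * B ^ 0 * X ^ 2 * Z ^ 1 +
        ((16 : ℕ) : K) * A ^ 1 * B ^ 0 * X ^ 0 * Z ^ 3 := by
      push_cast
      ring
    rw [e]
    exact Good_add hv (mono _ _ _ _ _ _ _ (by norm_num) (by norm_num) (by norm_num))
      (mono _ _ _ _ _ _ _ (by norm_num) (by norm_num) (by norm_num))
  have hg1 : v (3 * X ^ 3 - 5 * A * X * Z ^ 2 - 27 * B * Z ^ 3) ≤ t ^ 24 * D ^ 3 * z ^ 3 := by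
    have e : (3 * X ^ 3 - 5 * A * X * Z ^ 2 - 27 * B * Z ^ 3 : K) =
        ((3 : ℕ) : K) * A ^ 0 * B ^ 0 * X ^ 3 * Z ^ 0 -
        ((5 : ℕ) : K) * A ^ 1 * B ^ 0 * X ^ 1 * Z ^ 2 -
        ((27 : ℕ) : K) * A ^ 0 * B ^ 1 * X ^ 0 * Z ^ 3 := by
      push_cast
      ring
    rw [e]
    exact Good_sub hv (Good_sub hv
      (mono _ _ _ _ _ _ _ (by norm_num) (by norm_num) (by norm_num))
      (mono _ _ _ _ _ _ _ (by norm_num) (by norm_num) (by norm_num)))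
      (mono _ _ _ _ _ _ _ (by norm_num) (by norm_num) (by norm_num))
  have hf2 : v (4 * (4 * A ^ 3 + 27 * B ^ 2) * X ^ 3 - 4 * A ^ 2 * B * X ^ 2 * Z +
      4 * A * (3 * A ^ 3 + 22 * B ^ 2) * X * Z ^ 2 + 12 * B * (A ^ 3 + 8 * B ^ 2) * Z ^ 3) ≤
      t ^ 24 * D ^ 9 * z ^ 3 := by
    have e : (4 * (4 * A ^ 3 + 27 * B ^ 2) * X ^ 3 - 4 * A ^ 2 * B * X ^ 2 * Z +
      4 * A * (3 * A ^ 3 + 22 * B ^ 2) * X * Z ^ 2 + 12 * B * (A ^ 3 + 8 * B ^ 2) * Z ^ 3 : K) =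
        ((16 : ℕ) : K) * A ^ 3 * B ^ 0 * X ^ 3 * Z ^ 0 +
        ((108 : ℕ) : K) * A ^ 0 * B ^ 2 * X ^ 3 * Z ^ 0 -
        ((4 : ℕ) : K) * A ^ 2 * B ^ 1 * X ^ 2 * Z ^ 1 +
        ((12 : ℕ) : K) * A ^ 4 * B ^ 0 * X ^ 1 * Z ^ 2 +
        ((88 : ℕ) : K) * A ^ 1 * B ^ 2 * X ^ 1 * Z ^ 2 +
        ((12 : ℕ) : K) * A ^ 3 * B ^ 1 * X ^ 0 * Z ^ 3 +
        ((96 : ℕ) : K) * A ^ 0 * B ^ 3 * X ^ 0 * Z ^ 3 := by
      push_cast
      ring
    rw [e]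
    exact Good_add hv (Good_add hv (Good_add hv (Good_add hv (Good_sub hv (Good_add hv
      (mono _ _ _ _ _ _ _ (by norm_num) (by norm_num) (by norm_num))
      (mono _ _ _ _ _ _ _ (by norm_num) (by norm_num) (by norm_num)))
      (mono _ _ _ _ _ _ _ (by norm_num) (by norm_num) (by norm_num)))
      (mono _ _ _ _ _ _ _ (by norm_num) (by norm_num) (by norm_num)))
      (mono _ _ _ _ _ _ _ (by norm_num) (by norm_num) (by norm_num)))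
      (mono _ _ _ _ _ _ _ (by norm_num) (by norm_num) (by norm_num)))
      (mono _ _ _ _ _ _ _ (by norm_num) (by norm_num) (by norm_num))
  have hg2 : v (A ^ 2 * B * X ^ 3 + A * (5 * A ^ 3 + 32 * B ^ 2) * X ^ 2 * Z +
      2 * B * (13 * A ^ 3 + 96 * B ^ 2) * X * Z ^ 2 - 3 * A ^ 2 * (A ^ 3 + 8 * B ^ 2) * Z ^ 3) ≤
      t ^ 24 * D ^ 10 * z ^ 3 := by
    have e : (A ^ 2 * B * X ^ 3 + A * (5 * A ^ 3 + 32 * B ^ 2) * X ^ 2 * Z +
      2 * B * (13 * A ^ 3 + 96 * B ^ 2) * X * Z ^ 2 - 3 * A ^ 2 * (A ^ 3 + 8 * B ^ 2) * Z ^ 3 : K) =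
        ((1 : ℕ) : K) * A ^ 2 * B ^ 1 * X ^ 3 * Z ^ 0 +
        ((5 : ℕ) : K) * A ^ 4 * B ^ 0 * X ^ 2 * Z ^ 1 +
        ((32 : ℕ) : K) * A ^ 1 * B ^ 2 * X ^ 2 * Z ^ 1 +
        ((26 : ℕ) : K) * A ^ 3 * B ^ 1 * X ^ 1 * Z ^ 2 +
        ((192 : ℕ) : K) * A ^ 0 * B ^ 3 * X ^ 1 * Z ^ 2 -
        ((3 : ℕ) : K) * A ^ 5 * B ^ 0 * X ^ 0 * Z ^ 3 -
        ((24 : ℕ) : K) * A ^ 2 * B ^ 2 * X ^ 0 * Z ^ 3 := by
      push_cast
      ring
    rw [e]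
    exact Good_sub hv (Good_sub hv (Good_add hv (Good_add hv (Good_add hv (Good_add hv
      (mono _ _ _ _ _ _ _ (by norm_num) (by norm_num) (by norm_num))
      (mono _ _ _ _ _ _ _ (by norm_num) (by norm_num) (by norm_num)))
      (mono _ _ _ _ _ _ _ (by norm_num) (by norm_num) (by norm_num)))
      (mono _ _ _ _ _ _ _ (by norm_num) (by norm_num) (by norm_num)))
      (mono _ _ _ _ _ _ _ (by norm_num) (by norm_num) (by norm_num)))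
      (mono _ _ _ _ _ _ _ (by norm_num) (by norm_num) (by norm_num)))
      (mono _ _ _ _ _ _ _ (by norm_num) (by norm_num) (by norm_num))
  -- the two resultant identities
  have key : ∀ (p q : K) (E : ℕ), v p ≤ t ^ 24 * D ^ E * z ^ 3 →
      v q ≤ t ^ 24 * D ^ (E + 1) * z ^ 3 → ∀ w : K, w = p * f - q * g →
        v w ≤ t ^ 24 * D ^ E * z ^ 3 * M := by
    rintro p q E hp hq w rfl
    refine Good_sub hv ?_ ?_
    · rw [map_mul]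
      have := v.nonneg f
      gcongr
    · rw [map_mul]
      calc v q * v g ≤ (t ^ 24 * D ^ (E + 1) * z ^ 3) * v g :=
            mul_le_mul_of_nonneg_right hq (v.nonneg g)
        _ = t ^ 24 * D ^ E * z ^ 3 * (D * v g) := by ring
        _ ≤ t ^ 24 * D ^ E * z ^ 3 * M := by gcongr
  have kZ := key _ _ 2 hf1 hg1 (4 * (4 * A ^ 3 + 27 * B ^ 2) * Z ^ 7) (by rw [hf, hg]; ring)
  have kX := key (4 * (4 * A ^ 3 + 27 * B ^ 2) * X ^ 3 - 4 * A ^ 2 * B * X ^ 2 * Z +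
      4 * A * (3 * A ^ 3 + 22 * B ^ 2) * X * Z ^ 2 + 12 * B * (A ^ 3 + 8 * B ^ 2) * Z ^ 3)
    (-(A ^ 2 * B * X ^ 3 + A * (5 * A ^ 3 + 32 * B ^ 2) * X ^ 2 * Z +
      2 * B * (13 * A ^ 3 + 96 * B ^ 2) * X * Z ^ 2 - 3 * A ^ 2 * (A ^ 3 + 8 * B ^ 2) * Z ^ 3))
    9 hf2 (by rw [v.map_neg]; exact hg2) (4 * (4 * A ^ 3 + 27 * B ^ 2) * X ^ 7)
    (by rw [hf, hg]; ring)
  rw [map_mul, map_pow] at kZ kX
  have hfin : μ ^ 7 ≤ t ^ 24 * μ ^ 3 * M := by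
    rcases le_total (v X) (D * v Z) with hle | hle
    · have hμe : μ = D * v Z := max_eq_right hle
      have hze : z = v Z := by
        rw [hz] at hμe
        exact mul_left_cancel₀ hD0.ne' hμe
      have h1 : D ^ 6 * v Z ^ 7 ≤ t ^ 24 * D ^ 2 * z ^ 3 * M :=
        (mul_le_mul_of_nonneg_right hΔ (by positivity)).trans kZ
      calc μ ^ 7 = D * (D ^ 6 * v Z ^ 7) := by rw [hμe]; ring
        _ ≤ D * (t ^ 24 * D ^ 2 * z ^ 3 * M) := by gcongr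
        _ = t ^ 24 * μ ^ 3 * M := by rw [hz]; ring
    · have hμe : μ = v X := max_eq_left hle
      have h1 : D ^ 6 * v X ^ 7 ≤ t ^ 24 * D ^ 9 * z ^ 3 * M :=
        (mul_le_mul_of_nonneg_right hΔ (by positivity)).trans kX
      have h2 : D ^ 6 * μ ^ 7 ≤ D ^ 6 * (t ^ 24 * μ ^ 3 * M) := by
        calc D ^ 6 * μ ^ 7 = D ^ 6 * v X ^ 7 := by rw [hμe]
          _ ≤ t ^ 24 * D ^ 9 * z ^ 3 * M := h1
          _ = D ^ 6 * (t ^ 24 * μ ^ 3 * M) := by rw [hz]; ring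
      exact le_of_mul_le_mul_left h2 (by positivity)
  rcases hμ0.eq_or_lt with h0 | h0
  · rw [← h0]
    simpa using hM0
  · have h1 : μ ^ 3 * (v 6 ^ 24 * μ ^ 4) ≤ μ ^ 3 * M := by
      calc μ ^ 3 * (v 6 ^ 24 * μ ^ 4) = v 6 ^ 24 * μ ^ 7 := by ring
        _ ≤ v 6 ^ 24 * (t ^ 24 * μ ^ 3 * M) := by gcongr
        _ = (v 6 * t) ^ 24 * (μ ^ 3 * M) := by ring
        _ = μ ^ 3 * M := by rw [hst, one_pow, one_mul]
    exact le_of_mul_le_mul_left h1 (by positivity)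

end Pool.Agent.Helper86.LH
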