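import Pool.Agent.Helper86.LH.Defs

/-!
Algebraic identities for the two translations.  `W` a Weierstrass curve over a field, `6 ≠ 0`.

Everything is `field_simp; ring` after unfolding `b₂, b₄, b₆, b₈, c₄, c₆, Δ` (or with
`b_relation : 4 b₈ = b₂ b₆ - b₄²`, `c_relation : 1728 Δ = c₄³ - c₆²`).
-/

namespace Pool.Agent.Helper86.LH

open WeierstrassCurve

variable {K : Type*} [Field K] (W : WeierstrassCurve K)

/-- x-coordinate of the node. -/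
noncomputable def rr : K := (18 * W.b₆ - W.b₂ * W.b₄) / W.c₄

theorem Inv_rr (h4 : W.c₄ ≠ 0) : rr W * W.c₄ = 18 * W.b₆ - W.b₂ * W.b₄ := by
  rw [rr, div_mul_cancel₀ _ h4]

theorem Inv_ne {K : Type*} [Field K] (h6 : (6 : K) ≠ 0) :
    (2 : K) ≠ 0 ∧ (3 : K) ≠ 0 ∧ (12 : K) ≠ 0 := by
  have h : (2 : K) * 3 ≠ 0 := by norm_num; exact h6
  have h2 : (2 : K) ≠ 0 := left_ne_zero_of_mul h
  have h3 : (3 : K) ≠ 0 := right_ne_zero_of_mul h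
  refine ⟨h2, h3, ?_⟩
  have : (12 : K) = 2 * 6 := by norm_num
  rw [this]
  exact mul_ne_zero h2 h6

theorem Inv_nums {K : Type*} [Field K] (h6 : (6 : K) ≠ 0) :
    (4 : K) ≠ 0 ∧ (12 : K) ≠ 0 ∧ (48 : K) ≠ 0 ∧ (864 : K) ≠ 0 := by
  obtain ⟨h2, h3, h12⟩ := Inv_ne h6
  refine ⟨?_, h12, ?_, ?_⟩
  · have : (4 : K) = 2 * 2 := by norm_num
    rw [this]; exact mul_ne_zero h2 h2
  · have : (48 : K) = 2 * (2 * 12) := by norm_num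
    rw [this]; exact mul_ne_zero h2 (mul_ne_zero h2 h12)
  · have : (864 : K) = 6 * (12 * 12) := by norm_num
    rw [this]; exact mul_ne_zero h6 (mul_ne_zero h12 h12)

theorem tr_b2 (h4 : W.c₄ ≠ 0) : W.b₂ + 12 * rr W = -W.c₆ / W.c₄ := by
  rw [eq_div_iff h4]
  have hn := Inv_rr W h4
  have e : (W.b₂ + 12 * rr W) * W.c₄ = W.b₂ * W.c₄ + 12 * (rr W * W.c₄) := by ring
  rw [e, hn]
  simp only [WeierstrassCurve.c₄, WeierstrassCurve.c₆]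
  ring

theorem tr_b4 (h4 : W.c₄ ≠ 0) :
    W.b₄ + rr W * W.b₂ + 6 * rr W ^ 2 = -72 * W.Δ / W.c₄ ^ 2 := by
  rw [eq_div_iff (pow_ne_zero 2 h4)]
  have hn := Inv_rr W h4
  have e : (W.b₄ + rr W * W.b₂ + 6 * rr W ^ 2) * W.c₄ ^ 2 =
      W.b₄ * W.c₄ ^ 2 + (rr W * W.c₄) * W.b₂ * W.c₄ + 6 * (rr W * W.c₄) ^ 2 := by ring
  rw [e, hn]
  simp only [WeierstrassCurve.c₄, WeierstrassCurve.Δ]
  linear_combination (-18 * W.b₂ ^ 2) * W.b_relation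

theorem tr_b6 (h4 : W.c₄ ≠ 0) :
    W.b₆ + 2 * rr W * W.b₄ + rr W ^ 2 * W.b₂ + 4 * rr W ^ 3 = 4 * W.c₆ * W.Δ / W.c₄ ^ 3 := by
  rw [eq_div_iff (pow_ne_zero 3 h4)]
  have hn := Inv_rr W h4
  have e : (W.b₆ + 2 * rr W * W.b₄ + rr W ^ 2 * W.b₂ + 4 * rr W ^ 3) * W.c₄ ^ 3 =
      W.b₆ * W.c₄ ^ 3 + 2 * (rr W * W.c₄) * W.b₄ * W.c₄ ^ 2
        + (rr W * W.c₄) ^ 2 * W.b₂ * W.c₄ + 4 * (rr W * W.c₄) ^ 3 := by ring
  rw [e, hn]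
  simp only [WeierstrassCurve.c₄, WeierstrassCurve.c₆, WeierstrassCurve.Δ]
  linear_combination (-216 * W.b₂ ^ 2 * W.b₆ + 36 * W.b₂ ^ 3 * W.b₄ - W.b₂ ^ 5) * W.b_relation

theorem tr_b8 (h4 : W.c₄ ≠ 0) :
    W.b₈ + 3 * rr W * W.b₆ + 3 * rr W ^ 2 * W.b₄ + rr W ^ 3 * W.b₂ + 3 * rr W ^ 4 =
      -W.Δ * (W.c₄ ^ 3 - 432 * W.Δ) / W.c₄ ^ 4 := by
  rw [eq_div_iff (pow_ne_zero 4 h4)]
  have hn := Inv_rr W h4
  have e : (W.b₈ + 3 * rr W * W.b₆ + 3 * rr W ^ 2 * W.b₄ + rr W ^ 3 * W.b₂ + 3 * rr W ^ 4)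
      * W.c₄ ^ 4 =
      W.b₈ * W.c₄ ^ 4 + 3 * (rr W * W.c₄) * W.b₆ * W.c₄ ^ 3
        + 3 * (rr W * W.c₄) ^ 2 * W.b₄ * W.c₄ ^ 2 + (rr W * W.c₄) ^ 3 * W.b₂ * W.c₄
        + 3 * (rr W * W.c₄) ^ 4 := by ring
  rw [e, hn]
  simp only [WeierstrassCurve.c₄, WeierstrassCurve.Δ]
  linear_combination (82944 * W.b₄ ^ 4 - 5832 * W.b₂ ^ 2 * W.b₆ ^ 2
    - 12096 * W.b₂ ^ 2 * W.b₄ ^ 3 + 1944 * W.b₂ ^ 3 * W.b₄ * W.b₆ - 108 * W.b₂ ^ 4 * W.b₈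
    + 459 * W.b₂ ^ 4 * W.b₄ ^ 2 - 27 * W.b₂ ^ 5 * W.b₆ - 6 * W.b₂ ^ 6 * W.b₄) * W.b_relation

/-- Sizes of the translated invariants, `q = |Δ| / |c₄|³ < 1`, `l = √|c₄|`. -/
theorem tr_sizes (v : AbsoluteValue K ℝ) (hv : IsNonarchimedean v) (hΔ : W.Δ ≠ 0)
    (hj : v W.Δ < v W.c₄ ^ 3) :
    v (W.b₂ + 12 * rr W) = Real.sqrt (v W.c₄) ∧
    v (W.b₄ + rr W * W.b₂ + 6 * rr W ^ 2) ≤
      v W.Δ / v W.c₄ ^ 3 * Real.sqrt (v W.c₄) ^ 2 ∧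
    v (W.b₆ + 2 * rr W * W.b₄ + rr W ^ 2 * W.b₂ + 4 * rr W ^ 3) ≤
      v W.Δ / v W.c₄ ^ 3 * Real.sqrt (v W.c₄) ^ 3 ∧
    v (W.b₈ + 3 * rr W * W.b₆ + 3 * rr W ^ 2 * W.b₄ + rr W ^ 3 * W.b₂ + 3 * rr W ^ 4) =
      v W.Δ / v W.c₄ ^ 3 * Real.sqrt (v W.c₄) ^ 4 := by
  have hcpos : 0 < v W.c₄ := by
    by_contra h
    have h0 : v W.c₄ = 0 := le_antisymm (not_lt.mp h) (v.nonneg _)
    rw [h0] at hj
    have := v.nonneg W.Δ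
    norm_num at hj
    linarith
  have h4 : W.c₄ ≠ 0 := fun h => by
    rw [h, map_zero] at hcpos
    exact lt_irrefl _ hcpos
  obtain ⟨l, hl⟩ : ∃ l, l = Real.sqrt (v W.c₄) := ⟨_, rfl⟩
  have hl2 : l ^ 2 = v W.c₄ := by rw [hl]; exact Real.sq_sqrt hcpos.le
  have hlpos : 0 < l := by rw [hl]; exact Real.sqrt_pos.mpr hcpos
  have hD0 : 0 ≤ v W.Δ := v.nonneg _
  have hint : ∀ (n : ℕ) (x : K), v ((n : K) * x) ≤ v x := fun n x => by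
    rw [map_mul]
    have h1 : v (n : K) ≤ 1 := IsNonarchimedean.apply_natCast_le_one hv
    calc v (n : K) * v x ≤ 1 * v x := mul_le_mul_of_nonneg_right h1 (v.nonneg _)
      _ = v x := one_mul _
  -- the size of `c₆`
  have hc6 : v W.c₆ = l ^ 3 := by
    have h1 : W.c₆ ^ 2 = W.c₄ ^ 3 + -(1728 * W.Δ) := by rw [W.c_relation]; ring
    have h2 : v (-(1728 * W.Δ)) < v (W.c₄ ^ 3) := by
      rw [v.map_neg, map_pow]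
      have h3 := hint 1728 W.Δ
      push_cast at h3
      exact lt_of_le_of_lt h3 hj
    have h3 : v (W.c₆ ^ 2) = v (W.c₄ ^ 3) := by
      rw [h1]; exact IsNonarchimedean.add_eq_left_of_lt hv h2
    rw [map_pow, map_pow, ← hl2] at h3
    have h4 : v W.c₆ ^ 2 = (l ^ 3) ^ 2 := by rw [h3]; ring
    exact (pow_left_inj₀ (v.nonneg _) (by positivity) two_ne_zero).mp h4
  rw [← hl]
  refine ⟨?_, ?_, ?_, ?_⟩
  · rw [tr_b2 W h4, map_div₀, v.map_neg, hc6, ← hl2]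
    field_simp
  · rw [tr_b4 W h4, map_div₀, map_pow, ← hl2]
    have h1 : v (-72 * W.Δ) ≤ v W.Δ := by
      have h3 := hint 72 W.Δ
      push_cast at h3
      rw [neg_mul, v.map_neg]
      exact h3
    have e : v W.Δ / (l ^ 2) ^ 3 * l ^ 2 = v W.Δ / (l ^ 2) ^ 2 := by
      field_simp
    rw [e]
    exact div_le_div_of_nonneg_right h1 (by positivity)
  · rw [tr_b6 W h4, map_div₀, map_pow, ← hl2]
    have h1 : v (4 * W.c₆ * W.Δ) ≤ l ^ 3 * v W.Δ := by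
      have h3 := hint 4 (W.c₆ * W.Δ)
      push_cast at h3
      rw [map_mul v W.c₆, hc6, ← mul_assoc] at h3
      exact h3
    have e : v W.Δ / (l ^ 2) ^ 3 * l ^ 3 = l ^ 3 * v W.Δ / (l ^ 2) ^ 3 := by
      ring
    rw [e]
    exact div_le_div_of_nonneg_right h1 (by positivity)
  · rw [tr_b8 W h4, map_div₀, map_mul, v.map_neg, map_pow, ← hl2]
    have h1 : v (W.c₄ ^ 3 - 432 * W.Δ) = (l ^ 2) ^ 3 := by
      rw [sub_eq_add_neg]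
      have h2 : v (-(432 * W.Δ)) < v (W.c₄ ^ 3) := by
        rw [v.map_neg, map_pow]
        have h3 := hint 432 W.Δ
        push_cast at h3
        exact lt_of_le_of_lt h3 hj
      rw [IsNonarchimedean.add_eq_left_of_lt hv h2, map_pow, hl2]
    rw [h1]
    field_simp

/-- Translation of the duplication forms by any `r`. -/
theorem tr_dF (b2 b4 b6 b8 r X Z : K) :
    dF (b4 + r * b2 + 6 * r ^ 2) (b6 + 2 * r * b4 + r ^ 2 * b2 + 4 * r ^ 3)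
      (b8 + 3 * r * b6 + 3 * r ^ 2 * b4 + r ^ 3 * b2 + 3 * r ^ 4) (X - r * Z) Z =
    dF b4 b6 b8 X Z - r * dG b2 b4 b6 X Z := by
  unfold dF dG
  ring

theorem tr_dG (b2 b4 b6 r X Z : K) :
    dG (b2 + 12 * r) (b4 + r * b2 + 6 * r ^ 2) (b6 + 2 * r * b4 + r ^ 2 * b2 + 4 * r ^ 3)
      (X - r * Z) Z = dG b2 b4 b6 X Z := by
  unfold dG
  ring

/-- Translation of the addition forms (values at `s = X1X2, t = X1Z2 + Z1X2, u = Z1Z2`). -/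
theorem tr_N (b2 b4 b6 b8 r X1 Z1 X2 Z2 : K) :
    ((X1 - r * Z1) * (X2 - r * Z2)) ^ 2
      - (b4 + r * b2 + 6 * r ^ 2) * ((X1 - r * Z1) * (X2 - r * Z2)) * (Z1 * Z2)
      - (b6 + 2 * r * b4 + r ^ 2 * b2 + 4 * r ^ 3)
        * ((X1 - r * Z1) * Z2 + Z1 * (X2 - r * Z2)) * (Z1 * Z2)
      - (b8 + 3 * r * b6 + 3 * r ^ 2 * b4 + r ^ 3 * b2 + 3 * r ^ 4) * (Z1 * Z2) ^ 2 =
    ((X1 * X2) ^ 2 - b4 * (X1 * X2) * (Z1 * Z2) - b6 * (X1 * Z2 + Z1 * X2) * (Z1 * Z2)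
      - b8 * (Z1 * Z2) ^ 2)
    - r * (2 * (X1 * Z2 + Z1 * X2) * (X1 * X2) + b2 * (X1 * X2) * (Z1 * Z2)
      + b4 * (X1 * Z2 + Z1 * X2) * (Z1 * Z2) + b6 * (Z1 * Z2) ^ 2)
    + r ^ 2 * (X1 * Z2 - Z1 * X2) ^ 2 := by
  ring

theorem tr_S (b2 b4 b6 r X1 Z1 X2 Z2 : K) :
    2 * ((X1 - r * Z1) * Z2 + Z1 * (X2 - r * Z2)) * ((X1 - r * Z1) * (X2 - r * Z2))
      + (b2 + 12 * r) * ((X1 - r * Z1) * (X2 - r * Z2)) * (Z1 * Z2)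
      + (b4 + r * b2 + 6 * r ^ 2) * ((X1 - r * Z1) * Z2 + Z1 * (X2 - r * Z2)) * (Z1 * Z2)
      + (b6 + 2 * r * b4 + r ^ 2 * b2 + 4 * r ^ 3) * (Z1 * Z2) ^ 2 =
    (2 * (X1 * Z2 + Z1 * X2) * (X1 * X2) + b2 * (X1 * X2) * (Z1 * Z2)
      + b4 * (X1 * Z2 + Z1 * X2) * (Z1 * Z2) + b6 * (Z1 * Z2) ^ 2)
    - 2 * r * (X1 * Z2 - Z1 * X2) ^ 2 := by
  ring

/-- The duplication forms in the short coordinate `X + b₂ Z / 12`, `A = -c₄/48`, `B = -c₆/864`. -/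
theorem sh_dF (h6 : (6 : K) ≠ 0) (X Z : K) :
    (X + W.b₂ / 12 * Z) ^ 4 - 2 * (-W.c₄ / 48) * (X + W.b₂ / 12 * Z) ^ 2 * Z ^ 2
      - 8 * (-W.c₆ / 864) * (X + W.b₂ / 12 * Z) * Z ^ 3 + (-W.c₄ / 48) ^ 2 * Z ^ 4 =
    dF W.b₄ W.b₆ W.b₈ X Z + W.b₂ / 12 * dG W.b₂ W.b₄ W.b₆ X Z := by
  obtain ⟨h4, h12, h48, h864⟩ := Inv_nums h6
  have hb : W.b₈ = (W.b₂ * W.b₆ - W.b₄ ^ 2) / 4 := by
    rw [eq_div_iff h4, ← W.b_relation]; ring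
  simp only [dF, dG, WeierstrassCurve.c₄, WeierstrassCurve.c₆]
  rw [hb]
  field_simp
  ring

theorem sh_dG (h6 : (6 : K) ≠ 0) (X Z : K) :
    4 * ((X + W.b₂ / 12 * Z) ^ 3 * Z + (-W.c₄ / 48) * (X + W.b₂ / 12 * Z) * Z ^ 3
      + (-W.c₆ / 864) * Z ^ 4) = dG W.b₂ W.b₄ W.b₆ X Z := by
  obtain ⟨h4, h12, h48, h864⟩ := Inv_nums h6
  simp only [dG, WeierstrassCurve.c₄, WeierstrassCurve.c₆]
  field_simp
  ring

theorem sh_disc (h6 : (6 : K) ≠ 0) :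
    16 * (4 * (-W.c₄ / 48) ^ 3 + 27 * (-W.c₆ / 864) ^ 2) = -W.Δ := by
  obtain ⟨h4, h12, h48, h864⟩ := Inv_nums h6
  have h1728 : (1728 : K) ≠ 0 := by
    have : (1728 : K) = 2 * 864 := by norm_num
    rw [this]; exact mul_ne_zero (Inv_ne h6).1 h864
  have hc : W.Δ = (W.c₄ ^ 3 - W.c₆ ^ 2) / 1728 := by
    rw [eq_div_iff h1728, ← W.c_relation]; ring
  rw [hc]
  field_simp
  ring

end Pool.Agent.Helper86.LH
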