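import Pool.Agent.Helper86.LH.AFin

/-!
The final statements, relative heights.
-/

open Height AdmissibleAbsValues Filter Topology

namespace Pool.Agent.Helper86.LH

open WeierstrassCurve WeierstrassCurve.Affine WeierstrassCurve.Affine.Point NumberField

variable {K : Type*} [Field K] [NumberField K] [DecidableEq K]
  (W : WeierstrassCurve.Affine K) [W.IsElliptic]

theorem last_inf {δ : ℝ} (hδ0 : 0 < δ) (hδ1 : δ ≤ 1) (P : W.Point)
    (hP : ∀ n : ℕ, 0 < n → n • P ≠ 0) {H : W.Point → ℝ}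
    (hH : ∀ P : W.Point, Tendsto (fun k : ℕ => logHeight ((2 ^ k • P).xRep) / 4 ^ k)
        atTop (𝓝 (H P))) (hHm : ∀ (P : W.Point) (m : ℕ), H (m • P) = m ^ 2 * H P)
    (hH0 : ∀ P : W.Point, 0 ≤ H P) (w : InfinitePlace K)
    (hw : δ * logHeight₁ W.j ≤ w.mult * Real.posLog (w W.j)) :
    δ ^ 3 * logHeight₁ W.j / 4000 - 5 * (4 : ℝ) ^ (15 / δ) * totalWeight K ≤ H P := by
  classical
  have hΔ : W.Δ ≠ 0 := W.isUnit_Δ.ne_zero
  have h6 : (6 : K) ≠ 0 := by norm_num
  obtain ⟨S, hS⟩ := exists_big (W := W) hΔ h6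
  have hwv : w W.j = w.val W.j := rfl
  by_cases hm : IsAM W w.val
  · refine all_main W hδ0 hδ1 hS P hP hH hHm hH0 (Sum.inl w) ?_ ?_
    · exact Finset.inl_mem_disjSum.mpr (Finset.mem_univ _)
    · unfold TT
      dsimp only
      rw [if_pos hm, nj_eq]
      rw [hwv, Real.posLog_eq_log_max_one (w.val.nonneg _),
        max_eq_right ((isMul_iff W w.val).mp hm.mul).le] at hw
      exact hw
  · have h1 := not_isAM hΔ hm
    have h2 : Real.posLog (w W.j) ≤ 47 := by
      rw [hwv, ← max_j W w.val]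
      have h3 : Real.log (max 1 (w.val W.c₄ ^ 3 / w.val W.Δ)) ≤ 20 * Real.log 10 := by
        have e : 20 * Real.log 10 = Real.log (10 ^ 20) := by
          rw [Real.log_pow]; norm_num
        rw [e]
        apply Real.log_le_log (lt_of_lt_of_le one_pos (le_max_left _ _))
        exact max_le (by norm_num) h1
      have := log_ten_lt
      linarith
    have h3 : (w.mult : ℝ) ≤ 2 := by
      unfold InfinitePlace.mult
      split_ifs <;> norm_num
    have h4 : (w.mult : ℝ) * Real.posLog (w W.j) ≤ 94 := by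
      have h5 : 0 ≤ Real.posLog (w W.j) := Real.posLog_nonneg
      nlinarith
    have h5 : δ * logHeight₁ W.j ≤ 94 := hw.trans h4
    have h6 : δ ^ 3 * logHeight₁ W.j ≤ 94 := by
      have hd : δ ^ 2 ≤ 1 := pow_le_one₀ hδ0.le hδ1
      have e : δ ^ 3 * logHeight₁ W.j = δ ^ 2 * (δ * logHeight₁ W.j) := by ring
      rw [e]
      have h0 : 0 ≤ δ * logHeight₁ W.j := mul_nonneg hδ0.le (zero_le_logHeight₁ _)
      nlinarith
    have a4 : (1 : ℝ) ≤ (4 : ℝ) ^ (15 / δ) := by
      apply Real.one_le_rpow (by norm_num)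
      positivity
    have hd : (1 : ℝ) ≤ totalWeight K := by
      exact_mod_cast NumberField.totalWeight_pos K
    have a5 : (1 : ℝ) ≤ (4 : ℝ) ^ (15 / δ) * totalWeight K := by nlinarith
    have := hH0 P
    linarith

theorem last_fin {δ : ℝ} (hδ0 : 0 < δ) (hδ1 : δ ≤ 1) (P : W.Point)
    (hP : ∀ n : ℕ, 0 < n → n • P ≠ 0) {H : W.Point → ℝ}
    (hH : ∀ P : W.Point, Tendsto (fun k : ℕ => logHeight ((2 ^ k • P).xRep) / 4 ^ k)
        atTop (𝓝 (H P))) (hHm : ∀ (P : W.Point) (m : ℕ), H (m • P) = m ^ 2 * H P)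
    (hH0 : ∀ P : W.Point, 0 ≤ H P) (w : FinitePlace K)
    (hw : δ * logHeight₁ W.j ≤ Real.posLog (w W.j)) :
    δ ^ 3 * logHeight₁ W.j / 4000 - 5 * (4 : ℝ) ^ (15 / δ) * totalWeight K ≤ H P := by
  classical
  have hΔ : W.Δ ≠ 0 := W.isUnit_Δ.ne_zero
  have h6 : (6 : K) ≠ 0 := by norm_num
  obtain ⟨S, hS⟩ := exists_big (W := W) hΔ h6
  have hwv : w W.j = w.val W.j := rfl
  by_cases hm : IsMul W w.val
  · have hwS : (⟨w.val, w.2⟩ : NV K) ∈ S := by
      by_contra hc
      exact hS.not_mul hc hm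
    refine all_main W hδ0 hδ1 hS P hP hH hHm hH0 (Sum.inr ⟨w.val, w.2⟩) ?_ ?_
    · exact Finset.inr_mem_disjSum.mpr hwS
    · unfold TT
      dsimp only
      rw [if_pos hm, nj_eq]
      rw [hwv, Real.posLog_eq_log_max_one (w.val.nonneg _),
        max_eq_right ((isMul_iff W w.val).mp hm).le] at hw
      exact hw
  · have h1 : Real.posLog (w W.j) = 0 := by
      rw [isMul_iff, not_lt] at hm
      rw [hwv, Real.posLog_eq_log_max_one (w.val.nonneg _), max_eq_left hm, Real.log_one]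
    rw [h1] at hw
    have h2 : 0 ≤ logHeight₁ W.j := zero_le_logHeight₁ _
    have h3 : logHeight₁ W.j = 0 := by nlinarith
    rw [h3, mul_zero, zero_div, zero_sub]
    have h4 : 0 ≤ 5 * (4 : ℝ) ^ (15 / δ) * totalWeight K := by positivity
    have := hH0 P
    linarith

end Pool.Agent.Helper86.LH
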