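import Pool.Agent.Helper86.LH.Defs

/-!
The local law, nonarchimedean case.

PROOF (write `u = v X / nm ≤ 1`, `α = al = max u √q`).  All three forms are bihomogeneous, so
normalise `nm = 1` for all four vectors in thought (divide the three equations by `n1² n2²`;
`|c|' = |c| n3 n4 / (n1² n2²)`); put `ζ = l |Z|`, so `max u ζ = 1`.
Sizes (left sides, with weights `1, l, l²` for N, S, D): `|b4| ≤ q l²`, `|b6| ≤ q l³`,
`|b8| = q l⁴`, `|b2| = l`.
Gauss: `max |X3X4|, l|X3Z4 + X4Z3|, l²|Z3Z4| = n3 n4`, so `|c|' = max |N|, l|S|, l²|D|`.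
Always `τ := max (α1α2) (q/(α1α2)) ≤ ρ := min (α1/α2) (α2/α1)`.  WLOG `α1 ≤ α2`.
Case I, `u2 = 1`.  (a) `u1 = 1`: `|N| = 1`, `|c|' ≤ 1`, so `u3 u4 ≥ 1`, all α = 1.
(b) `u1 < 1`: `l²|D| = 1`, `|c|' = 1`, `ζ3 = ζ4 = 1`, `|N| ≤ α1²` (equality if `u1² > q`),
`l|S| ≤ α1`; if `u3 > α1` then `u4 = u3` (ultrametric) and `u3 u4 > α1²`, contradiction; so
`u3, u4 ≤ α1`, and `α3 = α4 = α1`.
Case II, `u1, u2 < 1` (`ζ1 = ζ2 = 1`): `|N| = u1²u2²` if `> q`, `= q` if `u1²u2² < q`, `≤ q` else.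
(a) `α1 < α2`: `u2 > √q`, `l²|D| = u2² = |c|'`, `ζ3 = ζ4 = 1`.
  `u1 > √q`: `l|S| = u1u2`, so `|X3Z4 + X4Z3| l / ... = ρ`, product `|N|/u2² ≤ ρ τ` with equality
  unless `u1²u2² = q`; one of `u3, u4` is `ρ`, the other is `≤ τ` (`= τ` unless `τ = √q`).
  `u1 ≤ √q`: sum `≤ ρ`, product `= q/u2² = ρ²`, so `u3 = u4 = ρ = τ`.
(b) `α1 = α2 = α < 1`: (i) `u1 = u2 = α > √q`: `l|S| = α² = |c|'`, the sum has size 1, so one of
`u3, u4` is 1 and the other is `|N|/α² ≤ max α² (q/α²) = τ` (`=` unless `τ = √q`).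
(ii) `u1, u2 ≤ √q`: `|N| = q`, `|c|' = q`, so `u3 = u4 = 1`.
-/

namespace Pool.Agent.Helper86.LH

variable {K : Type*} [Field K]

private theorem Law_max_one {u z : ℝ} (h : max u z = 1) (hu : u < 1) : z = 1 := by
  rcases max_choice u z with h1 | h1
  · rw [h1] at h; linarith
  · rw [h1] at h; exact h

private theorem Law_prod_one {a b : ℝ} (ha0 : 0 ≤ a) (hb0 : 0 ≤ b) (ha : a ≤ 1) (hb : b ≤ 1)
    (h : 1 ≤ a * b) : a = 1 ∧ b = 1 := by
  have h1 : a * b ≤ a := mul_le_of_le_one_right ha0 hb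
  have h2 : a * b ≤ b := mul_le_of_le_one_left hb0 ha
  exact ⟨by linarith, by linarith⟩

private theorem Law_prod_eq {a b r : ℝ} (hr : 0 < r) (ha0 : 0 ≤ a) (ha : a ≤ r) (hb : b ≤ r)
    (h : a * b = r * r) : a = r ∧ b = r := by
  have h1 : a = r := by
    apply le_antisymm ha
    by_contra hcon
    rw [not_le] at hcon
    have h2 : a * b ≤ a * r := mul_le_mul_of_nonneg_left hb ha0
    have h3 : a * r < r * r := mul_lt_mul_of_pos_right hcon hr
    linarith
  refine ⟨h1, ?_⟩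
  rw [h1] at h
  exact mul_left_cancel₀ hr.ne' h

private theorem Law_sq_le {a b : ℝ} (hb : 0 ≤ b) (h : a * a ≤ b * b) : a ≤ b := by
  by_contra hcon
  rw [not_le] at hcon
  have := mul_self_lt_mul_self hb hcon
  linarith

private theorem Law_ge {a b C : ℝ} (h0 : 0 ≤ a * b) (hC1 : C ≤ 1) (e : a * b * C = 1) : 1 ≤ a * b := by
  have := mul_le_mul_of_nonneg_left hC1 h0
  linarith

/-- facts on `max x (q / x)` -/
private theorem Law_tau {q s x : ℝ} (hs0 : 0 < s) (hss : s * s = q) (hx : 0 < x) :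
    s ≤ max x (q / x) ∧ (x * x < q → max x (q / x) = q / x) ∧ (q < x * x → max x (q / x) = x) ∧
      (x * x = q → x = s ∧ max x (q / x) = s) := by
  refine ⟨?_, ?_, ?_, ?_⟩
  · by_cases h : s ≤ x
    · exact h.trans (le_max_left _ _)
    · rw [not_le] at h
      refine le_trans ?_ (le_max_right _ _)
      rw [le_div_iff₀ hx, ← hss]
      exact mul_le_mul_of_nonneg_left h.le hs0.le
  · intro h
    apply max_eq_right
    rw [le_div_iff₀ hx]
    exact h.le
  · intro h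
    apply max_eq_left
    rw [div_le_iff₀ hx]
    exact h.le
  · intro h
    have h1 : x = s := by
      apply le_antisymm
      · exact Law_sq_le hs0.le (by rw [h, hss])
      · exact Law_sq_le hx.le (by rw [h, hss])
    refine ⟨h1, ?_⟩
    have h2 : q / x = x := by rw [div_eq_iff hx.ne', h]
    rw [h2, max_self, h1]

private theorem Law_gauss {u3 z3 u4 z4 N S D C σ : ℝ} (pu3 : 0 ≤ u3) (pz3 : 0 ≤ z3)
    (pu4 : 0 ≤ u4) (pz4 : 0 ≤ z4) (h3 : max u3 z3 = 1) (h4 : max u4 z4 = 1)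
    (hC : 0 < C) (eN : u3 * u4 * C = N) (eS : σ * C = S) (eD : z3 * z4 * C = D)
    (hσ' : u3 * z4 ≠ z3 * u4 → σ = max (u3 * z4) (z3 * u4)) : C ≤ max N (max S D) := by
  have lu3 : u3 ≤ 1 := h3 ▸ le_max_left u3 z3
  have lz3 : z3 ≤ 1 := h3 ▸ le_max_right u3 z3
  have lu4 : u4 ≤ 1 := h4 ▸ le_max_left u4 z4
  have lz4 : z4 ≤ 1 := h4 ▸ le_max_right u4 z4
  have key : (u3 * z4 = 1 ∧ z3 * u4 < 1) ∨ (u3 * z4 < 1 ∧ z3 * u4 = 1) → C ≤ S := by
    intro h
    have h6 : 1 ≤ σ := by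
      rcases h with ⟨h, h'⟩ | ⟨h, h'⟩
      · rw [hσ' (by rw [h]; exact h'.ne'), h]; exact le_max_left _ _
      · rw [hσ' (by rw [h']; exact h.ne), h']; exact le_max_right _ _
    rw [← eS]
    have := mul_le_mul_of_nonneg_right h6 hC.le
    linarith
  rcases lt_or_eq_of_le lu3 with a3 | a3
  · have b3 := Law_max_one h3 a3
    rcases lt_or_eq_of_le lz4 with a4 | a4
    · have b4 : u4 = 1 := by
        rw [max_comm] at h4
        exact Law_max_one h4 a4
      refine le_trans (key (Or.inr ⟨?_, ?_⟩)) (le_trans (le_max_left _ _) (le_max_right _ _))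
      · have : u3 * z4 ≤ u3 := mul_le_of_le_one_right pu3 lz4
        linarith
      · rw [b3, b4]; norm_num
    · refine le_trans ?_ (le_trans (le_max_right _ _) (le_max_right _ _))
      rw [← eD, b3, a4]
      linarith
  · rcases lt_or_eq_of_le lu4 with a4 | a4
    · have b4 := Law_max_one h4 a4
      rcases lt_or_eq_of_le lz3 with c3 | c3
      · refine le_trans (key (Or.inl ⟨?_, ?_⟩)) (le_trans (le_max_left _ _) (le_max_right _ _))
        · rw [a3, b4]; norm_num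
        · have : z3 * u4 ≤ z3 := mul_le_of_le_one_right pz3 lu4
          linarith
      · refine le_trans ?_ (le_trans (le_max_right _ _) (le_max_right _ _))
        rw [← eD, c3, b4]
        linarith
    · refine le_trans ?_ (le_max_left _ _)
      rw [← eN, a3, a4]
      linarith

private theorem Law_Ia {q s u3 u4 C : ℝ} (hs1 : s < 1) (hq1 : q < 1) (pu3 : 0 ≤ u3) (pu4 : 0 ≤ u4)
    (lu3 : u3 ≤ 1) (lu4 : u4 ≤ 1) (hC1 : C ≤ 1) (e : u3 * u4 * C = 1) :
    max u3 s * max u4 s = min ((1 : ℝ) / 1) (1 / 1) * max (1 * 1) (q / (1 * 1)) := by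
  obtain ⟨h6, h7⟩ := Law_prod_one pu3 pu4 lu3 lu4 (Law_ge (mul_nonneg pu3 pu4) hC1 e)
  rw [h6, h7, max_eq_left hs1.le]
  have e1 : max ((1 : ℝ) * 1) (q / (1 * 1)) = 1 := by
    rw [mul_one, div_one]; exact max_eq_left hq1.le
  rw [e1, min_self]
  norm_num

private theorem Law_Ib {q s u1 α u3 u4 σ : ℝ} (hs0 : 0 < s) (hss : s * s = q)
    (hα : α = max u1 s) (hα1 : α < 1) (pu3 : 0 ≤ u3)
    (hN : u3 * u4 ≤ α * α) (hN2 : s < u1 → u3 * u4 = u1 * u1) (hS : σ ≤ α)
    (hσ' : u3 ≠ u4 → σ = max u3 u4) :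
    max u3 s * max u4 s = min (α / 1) (1 / α) * max (α * 1) (q / (α * 1)) := by
  have hαs : s ≤ α := by rw [hα]; exact le_max_right _ _
  have hα0 : 0 < α := lt_of_lt_of_le hs0 hαs
  have k34 : u3 ≤ α ∧ u4 ≤ α := by
    by_cases hne2 : u3 = u4
    · rw [← hne2] at hN
      have h8 : u3 ≤ α := Law_sq_le hα0.le hN
      exact ⟨h8, hne2 ▸ h8⟩
    · have h9 : max u3 u4 ≤ α := by rw [← hσ' hne2]; exact hS
      exact ⟨(le_max_left _ _).trans h9, (le_max_right _ _).trans h9⟩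
  have e1 : min (α / 1) (1 / α) = α := by
    rw [div_one]
    apply min_eq_left
    rw [le_div_iff₀ hα0]
    have : α * α ≤ α := mul_le_of_le_one_right hα0.le hα1.le
    linarith
  have e2 : max (α * 1) (q / (α * 1)) = α := by
    rw [mul_one]
    apply max_eq_left
    rw [div_le_iff₀ hα0, ← hss]
    exact mul_self_le_mul_self hs0.le hαs
  rw [e1, e2]
  by_cases hus : s < u1
  · have eα : α = u1 := by rw [hα]; exact max_eq_left hus.le
    have e3 := hN2 hus
    rw [eα] at k34 ⊢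
    obtain ⟨e4, e5⟩ := Law_prod_eq (hs0.trans hus) pu3 k34.1 k34.2 e3
    rw [e4, e5, max_eq_left hus.le]
  · have eα : α = s := by rw [hα]; exact max_eq_right (not_lt.mp hus)
    rw [eα] at k34 ⊢
    rw [max_eq_right k34.1, max_eq_right k34.2]

private theorem Law_IIa1 {q s u1 u2 u3 u4 N σ : ℝ} (hs0 : 0 < s) (hss : s * s = q)
    (hu1s : s < u1) (hu12 : u1 < u2) (hu2 : u2 < 1) (pu3 : 0 ≤ u3) (pu4 : 0 ≤ u4)
    (eN : u3 * u4 * (u2 * u2) = N) (eS : σ * (u2 * u2) = u1 * u2)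
    (Neq4 : u1 * u2 * (u1 * u2) < q → N = q) (Neq1 : q < u1 * u2 * (u1 * u2) → N = u1 * u2 * (u1 * u2))
    (Nle : u1 * u2 * (u1 * u2) ≤ q → N ≤ q)
    (hσ : σ ≤ max u3 u4) (hσ' : u3 ≠ u4 → σ = max u3 u4) :
    max u3 s * max u4 s = min (u1 / u2) (u2 / u1) * max (u1 * u2) (q / (u1 * u2)) := by
  have hu10 : 0 < u1 := hs0.trans hu1s
  have hu20 : 0 < u2 := hu10.trans hu12
  have hp : 0 < u1 * u2 := mul_pos hu10 hu20
  have hqu1 : q < u1 * u1 := by rw [← hss]; exact mul_self_lt_mul_self hs0.le hu1s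
  have eρ : σ = u1 / u2 := by
    rw [eq_div_iff hu20.ne']
    have : (σ * u2) * u2 = u1 * u2 := by rw [← eS]; ring
    exact mul_right_cancel₀ hu20.ne' this
  have hmin : min (u1 / u2) (u2 / u1) = u1 / u2 := by
    apply min_eq_left
    rw [div_le_div_iff₀ hu20 hu10]
    exact (mul_self_lt_mul_self hu10.le hu12).le
  rw [hmin]
  obtain ⟨hτs, τ1, τ2, τ3⟩ := Law_tau hs0 hss hp
  set ρ := u1 / u2 with hρ
  set τ := max (u1 * u2) (q / (u1 * u2)) with hτ
  have e6 : ρ * u2 = u1 := div_mul_cancel₀ _ hu20.ne'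
  have hρ0 : 0 < ρ := div_pos hu10 hu20
  have hτρ : τ < ρ := by
    apply max_lt
    · rw [hρ, lt_div_iff₀ hu20, mul_assoc]
      have h1 : u2 * u2 < 1 := by
        have := mul_self_lt_mul_self hu20.le hu2
        linarith
      have := mul_lt_mul_of_pos_left h1 hu10
      linarith
    · rw [hρ, div_lt_div_iff₀ hp hu20]
      have := mul_lt_mul_of_pos_right hqu1 hu20
      linarith
  have hprod : u3 * u4 ≤ ρ * τ ∧ (s < τ → u3 * u4 = ρ * τ) := by
    rcases lt_trichotomy (u1 * u2 * (u1 * u2)) q with h8 | h8 | h8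
    · have h11 : u3 * u4 * (u2 * u2) = q := eN.trans (Neq4 h8)
      have h10 : u3 * u4 = ρ * τ := by
        rw [τ1 h8, hρ, div_mul_div_comm, eq_div_iff (by positivity)]
        linear_combination u1 * h11
      exact ⟨h10.le, fun _ => h10⟩
    · have h9 : N ≤ q := Nle h8.le
      obtain ⟨h10, h11⟩ := τ3 h8
      refine ⟨?_, fun h12 => absurd h12 (by rw [h11]; exact lt_irrefl _)⟩
      rw [h11, hρ, div_mul_eq_mul_div, le_div_iff₀ hu20]
      have h12 : u3 * u4 * (u2 * u2) ≤ q := eN.le.trans h9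
      have h13 : u3 * u4 * u2 * u2 ≤ u1 * s * u2 := by
        calc u3 * u4 * u2 * u2 = u3 * u4 * (u2 * u2) := by ring
          _ ≤ q := h12
          _ = u1 * s * u2 := by rw [← hss]; nth_rewrite 1 [← h10]; ring
      exact le_of_mul_le_mul_right h13 hu20
    · have h11 : u3 * u4 * (u2 * u2) = u1 * u2 * (u1 * u2) := eN.trans (Neq1 h8)
      have h10 : u3 * u4 = ρ * τ := by
        rw [τ2 h8]
        have : (u3 * u4) * (u2 * u2) = (ρ * (u1 * u2)) * (u2 * u2) := by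
          rw [h11]; linear_combination (-(u1 * u2 * u2)) * e6
        exact mul_right_cancel₀ (by positivity) this
      exact ⟨h10.le, fun _ => h10⟩
  have hne2 : u3 ≠ u4 := by
    intro h8
    rw [h8, max_self, eρ] at hσ
    have h9 := hprod.1
    rw [h8] at h9
    have h10 : ρ * ρ ≤ u4 * u4 := mul_self_le_mul_self hρ0.le hσ
    have h11 : ρ * τ < ρ * ρ := mul_lt_mul_of_pos_left hτρ hρ0
    linarith
  have hmax := hσ' hne2
  rw [eρ] at hmax
  have hsρ : s ≤ ρ := hτs.trans hτρ.le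
  have fin : ∀ x y : ℝ, x = ρ → x * y ≤ ρ * τ → (s < τ → x * y = ρ * τ) →
      max x s * max y s = ρ * τ := by
    intro x y hx h8 h9
    rw [hx] at h8 h9 ⊢
    rw [max_eq_left hsρ]
    congr 1
    have h10 : y ≤ τ := le_of_mul_le_mul_left h8 hρ0
    rcases lt_or_eq_of_le hτs with h11 | h11
    · have h12 : y = τ := mul_left_cancel₀ hρ0.ne' (h9 h11)
      rw [h12]; exact max_eq_left hτs
    · rw [← h11] at h10 ⊢
      exact max_eq_right h10
  rcases max_choice u3 u4 with h8 | h8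
  · rw [h8] at hmax
    exact fin u3 u4 hmax.symm hprod.1 hprod.2
  · rw [h8] at hmax
    rw [mul_comm]
    exact fin u4 u3 hmax.symm (by rw [mul_comm]; exact hprod.1) (fun h => by rw [mul_comm]; exact hprod.2 h)

private theorem Law_IIa2 {q s u2 u3 u4 σ : ℝ} (hs0 : 0 < s) (hss : s * s = q)
    (hu2s : s < u2) (hu2 : u2 < 1) (pu3 : 0 ≤ u3)
    (eN : u3 * u4 * (u2 * u2) = q) (eS : σ * (u2 * u2) ≤ s * u2)
    (hσ' : u3 ≠ u4 → σ = max u3 u4) :
    max u3 s * max u4 s = min (s / u2) (u2 / s) * max (s * u2) (q / (s * u2)) := by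
  have hu20 : 0 < u2 := hs0.trans hu2s
  have hρ0 : 0 < s / u2 := div_pos hs0 hu20
  have e1 : min (s / u2) (u2 / s) = s / u2 := by
    apply min_eq_left
    rw [div_le_div_iff₀ hu20 hs0]
    exact (mul_self_lt_mul_self hs0.le hu2s).le
  have e2 : max (s * u2) (q / (s * u2)) = s / u2 := by
    have e3 : q / (s * u2) = s / u2 := by
      rw [← hss, div_eq_div_iff (by positivity) (by positivity)]; ring
    rw [e3]
    apply max_eq_right
    rw [le_div_iff₀ hu20, mul_assoc]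
    have h1 : u2 * u2 ≤ 1 := by
      have := mul_self_le_mul_self hu20.le hu2.le
      linarith
    have := mul_le_mul_of_nonneg_left h1 hs0.le
    linarith
  rw [e1, e2]
  set ρ := s / u2 with hρ
  have e6 : ρ * u2 = s := div_mul_cancel₀ _ hu20.ne'
  have hprod : u3 * u4 = ρ * ρ := by
    have : (u3 * u4) * (u2 * u2) = (ρ * ρ) * (u2 * u2) := by
      rw [eN, ← hss]
      linear_combination (-(ρ * u2 + s)) * e6
    exact mul_right_cancel₀ (by positivity) this
  have hσρ : σ ≤ ρ := by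
    have h9 : σ * (u2 * u2) ≤ ρ * (u2 * u2) := by
      calc σ * (u2 * u2) ≤ s * u2 := eS
        _ = ρ * (u2 * u2) := by rw [← e6]; ring
    exact le_of_mul_le_mul_right h9 (by positivity)
  have h34 : u3 = ρ ∧ u4 = ρ := by
    by_cases hne2 : u3 = u4
    · rw [← hne2] at hprod ⊢
      have h8 : u3 = ρ := le_antisymm (Law_sq_le hρ0.le hprod.le) (Law_sq_le pu3 hprod.ge)
      exact ⟨h8, h8⟩
    · have h9 : max u3 u4 ≤ ρ := by rw [← hσ' hne2]; exact hσρ
      exact Law_prod_eq hρ0 pu3 ((le_max_left u3 u4).trans h9) ((le_max_right u3 u4).trans h9) hprod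
  have hsρ : s ≤ ρ := by
    rw [hρ, le_div_iff₀ hu20]
    exact mul_le_of_le_one_right hs0.le hu2.le
  rw [h34.1, h34.2, max_eq_left hsρ]

private theorem Law_IIb1 {q s u u3 u4 N : ℝ} (hs0 : 0 < s) (hs1 : s < 1) (hss : s * s = q)
    (hus : s < u) (eN : u3 * u4 * (u * u) = N)
    (Neq4 : u * u * (u * u) < q → N = q) (Neq1 : q < u * u * (u * u) → N = u * u * (u * u))
    (Nle : u * u * (u * u) ≤ q → N ≤ q) (h : u3 = 1 ∨ u4 = 1) :
    max u3 s * max u4 s = max (u * u) (q / (u * u)) := by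
  have hu0 : 0 < u := hs0.trans hus
  have hp : 0 < u * u := mul_pos hu0 hu0
  obtain ⟨hτs, τ1, τ2, τ3⟩ := Law_tau hs0 hss hp
  have fin : ∀ y : ℝ, y * (u * u) = N → max y s = max (u * u) (q / (u * u)) := by
    intro y hy
    rcases lt_trichotomy (u * u * (u * u)) q with h8 | h8 | h8
    · have h10 : y = q / (u * u) := by rw [eq_div_iff hp.ne']; exact hy.trans (Neq4 h8)
      rw [← τ1 h8] at h10
      rw [h10]
      exact max_eq_left hτs
    · obtain ⟨h10, h11⟩ := τ3 h8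
      rw [h11]
      apply max_eq_right
      have h12 : y * (u * u) ≤ q := hy.le.trans (Nle h8.le)
      rw [h10, ← hss] at h12
      exact le_of_mul_le_mul_right h12 hs0
    · have h10 : y = u * u := mul_right_cancel₀ hp.ne' (hy.trans (Neq1 h8))
      rw [← τ2 h8] at h10
      rw [h10]
      exact max_eq_left hτs
  rcases h with h | h
  · rw [h, one_mul] at eN
    rw [h, max_eq_left hs1.le, one_mul]
    exact fin u4 eN
  · rw [h, mul_one] at eN
    rw [h, max_eq_left hs1.le, mul_one]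
    exact fin u3 eN

/-- the case analysis, real numbers, `α1 ≤ α2` -/
private theorem Law_real {q u1 z1 u2 z2 u3 z3 u4 z4 N S D C σ : ℝ} (hq0 : 0 < q) (hq1 : q < 1)
    (pu1 : 0 ≤ u1) (pz1 : 0 ≤ z1) (pu2 : 0 ≤ u2) (pz2 : 0 ≤ z2) (pu3 : 0 ≤ u3) (pz3 : 0 ≤ z3)
    (pu4 : 0 ≤ u4) (pz4 : 0 ≤ z4)
    (h1 : max u1 z1 = 1) (h2 : max u2 z2 = 1) (h3 : max u3 z3 = 1) (h4 : max u4 z4 = 1)
    (hC : 0 < C) (eN : u3 * u4 * C = N) (eS : σ * C = S) (eD : z3 * z4 * C = D)
    (hσ : σ ≤ max (u3 * z4) (z3 * u4)) (hσ' : u3 * z4 ≠ z3 * u4 → σ = max (u3 * z4) (z3 * u4))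
    (nU : ∀ B, (u1 * u2) ^ 2 ≤ B → q * (u1 * u2 * (z1 * z2)) ≤ B →
      q * (max (u1 * z2) (z1 * u2) * (z1 * z2)) ≤ B → q * (z1 * z2) ^ 2 ≤ B → N ≤ B)
    (n1 : q * (u1 * u2 * (z1 * z2)) < (u1 * u2) ^ 2 →
      q * (max (u1 * z2) (z1 * u2) * (z1 * z2)) < (u1 * u2) ^ 2 → q * (z1 * z2) ^ 2 < (u1 * u2) ^ 2 →
      N = (u1 * u2) ^ 2)
    (n4 : (u1 * u2) ^ 2 < q * (z1 * z2) ^ 2 → q * (u1 * u2 * (z1 * z2)) < q * (z1 * z2) ^ 2 →
      q * (max (u1 * z2) (z1 * u2) * (z1 * z2)) < q * (z1 * z2) ^ 2 → N = q * (z1 * z2) ^ 2)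
    (sU : ∀ B, max (u1 * z2) (z1 * u2) * (u1 * u2) ≤ B → u1 * u2 * (z1 * z2) ≤ B →
      q * (max (u1 * z2) (z1 * u2) * (z1 * z2)) ≤ B → q * (z1 * z2) ^ 2 ≤ B → S ≤ B)
    (s2 : max (u1 * z2) (z1 * u2) * (u1 * u2) < u1 * u2 * (z1 * z2) →
      q * (max (u1 * z2) (z1 * u2) * (z1 * z2)) < u1 * u2 * (z1 * z2) →
      q * (z1 * z2) ^ 2 < u1 * u2 * (z1 * z2) → S = u1 * u2 * (z1 * z2))
    (dU : D ≤ max (u1 * z2) (z1 * u2) ^ 2)
    (dE : u1 * z2 ≠ z1 * u2 → D = max (u1 * z2) (z1 * u2) ^ 2)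
    (hle : max u1 (Real.sqrt q) ≤ max u2 (Real.sqrt q)) :
    max u3 (Real.sqrt q) * max u4 (Real.sqrt q) =
      min (max u1 (Real.sqrt q) / max u2 (Real.sqrt q)) (max u2 (Real.sqrt q) / max u1 (Real.sqrt q)) *
      max (max u1 (Real.sqrt q) * max u2 (Real.sqrt q)) (q / (max u1 (Real.sqrt q) * max u2 (Real.sqrt q))) := by
  have gauss := Law_gauss pu3 pz3 pu4 pz4 h3 h4 hC eN eS eD hσ'
  set s := Real.sqrt q with hs
  have hss : s * s = q := Real.mul_self_sqrt hq0.le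
  have hs0 : 0 < s := Real.sqrt_pos.mpr hq0
  have hs1 : s < 1 := by
    by_contra hcon
    rw [not_lt] at hcon
    have := mul_self_le_mul_self zero_le_one hcon
    rw [hss] at this
    linarith
  have hqs : q < s := by
    rw [← hss]
    have := mul_lt_mul_of_pos_left hs1 hs0
    linarith
  have lu1 : u1 ≤ 1 := h1 ▸ le_max_left u1 z1
  have lz1 : z1 ≤ 1 := h1 ▸ le_max_right u1 z1
  have lu2 : u2 ≤ 1 := h2 ▸ le_max_left u2 z2
  have lz2 : z2 ≤ 1 := h2 ▸ le_max_right u2 z2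
  have lu3 : u3 ≤ 1 := h3 ▸ le_max_left u3 z3
  have lz3 : z3 ≤ 1 := h3 ▸ le_max_right u3 z3
  have lu4 : u4 ≤ 1 := h4 ▸ le_max_left u4 z4
  have lz4 : z4 ≤ 1 := h4 ▸ le_max_right u4 z4
  have huu0 : 0 ≤ u1 * u2 := mul_nonneg pu1 pu2
  have huu : u1 * u2 ≤ 1 := mul_le_one₀ lu1 pu2 lu2
  have hzz0 : 0 ≤ z1 * z2 := mul_nonneg pz1 pz2
  have hzz : z1 * z2 ≤ 1 := mul_le_one₀ lz1 pz2 lz2
  have hM0 : 0 ≤ max (u1 * z2) (z1 * u2) := le_trans (mul_nonneg pu1 pz2) (le_max_left _ _)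
  have hM1 : max (u1 * z2) (z1 * u2) ≤ 1 :=
    max_le (mul_le_one₀ lu1 pz2 lz2) (mul_le_one₀ lz1 pu2 lu2)
  have g2 : q * (u1 * u2 * (z1 * z2)) ≤ q := mul_le_of_le_one_right hq0.le (mul_le_one₀ huu hzz0 hzz)
  have g3 : q * (max (u1 * z2) (z1 * u2) * (z1 * z2)) ≤ q :=
    mul_le_of_le_one_right hq0.le (mul_le_one₀ hM1 hzz0 hzz)
  have g4 : q * (z1 * z2) ^ 2 ≤ q := mul_le_of_le_one_right hq0.le (pow_le_one₀ hzz0 hzz)
  have NB : ∀ B, u1 * u2 * (u1 * u2) ≤ B → q ≤ B → N ≤ B := fun B e1 e2 =>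
    nU B (by rw [pow_two]; exact e1) (g2.trans e2) (g3.trans e2) (g4.trans e2)
  have N1 : q < u1 * u2 * (u1 * u2) → N = u1 * u2 * (u1 * u2) := fun e1 => by
    rw [← pow_two] at e1 ⊢
    exact n1 (lt_of_le_of_lt g2 e1) (lt_of_le_of_lt g3 e1) (lt_of_le_of_lt g4 e1)
  have SB : ∀ B, u1 * u2 ≤ B → q ≤ B → S ≤ B := fun B e1 e2 =>
    sU B ((mul_le_of_le_one_left huu0 hM1).trans e1) ((mul_le_of_le_one_right huu0 hzz).trans e1)
      (g3.trans e2) (g4.trans e2)
  rcases lt_or_eq_of_le lu2 with a2 | a2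
  swap
  · -- Case I
    have m2 : max u2 s = 1 := by rw [a2]; exact max_eq_left hs1.le
    rw [m2]
    rcases lt_or_eq_of_le lu1 with a1 | a1
    swap
    · -- (a)
      have m1 : max u1 s = 1 := by rw [a1]; exact max_eq_left hs1.le
      rw [m1]
      have e11 : u1 * u2 = 1 := by rw [a1, a2, mul_one]
      rw [e11] at N1 SB
      have hN : N = 1 := by rw [N1 (by rw [mul_one]; exact hq1), mul_one]
      have hD : D ≤ 1 := dU.trans (pow_le_one₀ hM0 hM1)
      have hC1 : C ≤ 1 := gauss.trans (max_le hN.le (max_le (SB 1 le_rfl hq1.le) hD))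
      exact Law_Ia hs1 hq1 pu3 pu4 lu3 lu4 hC1 (eN.trans hN)
    · -- (b)
      have b1 : z1 = 1 := Law_max_one h1 a1
      have hlt1 : u1 * z2 < z1 * u2 := by
        rw [b1, a2, one_mul]
        exact lt_of_le_of_lt (mul_le_of_le_one_right pu1 lz2) a1
      have hD : D = 1 := by
        rw [dE hlt1.ne, max_eq_right hlt1.le, b1, a2, one_mul, one_pow]
      have hαs : s ≤ max u1 s := le_max_right _ _
      have hαu : u1 ≤ max u1 s := le_max_left _ _
      have hα1 : max u1 s < 1 := max_lt a1 hs1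
      have hα0 : 0 < max u1 s := lt_of_lt_of_le hs0 hαs
      have hqα : q ≤ max u1 s * max u1 s := by rw [← hss]; exact mul_self_le_mul_self hs0.le hαs
      have e11 : u1 * u2 = u1 := by rw [a2, mul_one]
      rw [e11] at N1 SB NB
      have hN : N ≤ max u1 s * max u1 s := NB _ (mul_self_le_mul_self pu1 hαu) hqα
      have hS : S ≤ max u1 s := SB _ hαu (hqs.le.trans hαs)
      have hC1 : C ≤ 1 := by
        refine gauss.trans (max_le (hN.trans ?_) (max_le (hS.trans hα1.le) hD.le))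
        exact mul_le_one₀ hα1.le hα0.le hα1.le
      obtain ⟨h6, h7⟩ := Law_prod_one pz3 pz4 lz3 lz4 (Law_ge (mul_nonneg pz3 pz4) hC1 (eD.trans hD))
      have hCe : C = 1 := by rw [h6, h7, hD] at eD; linarith
      rw [hCe, mul_one] at eN eS
      rw [h6, h7, mul_one, one_mul] at hσ'
      refine Law_Ib hs0 hss rfl hα1 pu3 (eN.le.trans hN) (fun h => ?_) (eS.le.trans hS) hσ'
      rw [eN]
      exact N1 (by rw [← hss]; exact mul_self_lt_mul_self hs0.le h)
  · -- Case II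
    have a1 : u1 < 1 := by
      have h5 : max u2 s < 1 := max_lt a2 hs1
      exact lt_of_le_of_lt (le_max_left u1 s) (lt_of_le_of_lt hle h5)
    have b1 : z1 = 1 := Law_max_one h1 a1
    have b2 : z2 = 1 := Law_max_one h2 a2
    have hMe : max (u1 * z2) (z1 * u2) = max u1 u2 := by rw [b1, b2, mul_one, one_mul]
    have hMl : max u1 u2 < 1 := max_lt a1 a2
    have ezz : z1 * z2 = 1 := by rw [b1, b2, mul_one]
    have huul : u1 * u2 < 1 := lt_of_le_of_lt (mul_le_of_le_one_right pu1 lu2) a1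
    have N4 : u1 * u2 * (u1 * u2) < q → N = q := fun e1 => by
      rw [hMe, ezz] at n4
      rw [n4 (by rw [one_pow, mul_one, pow_two]; exact e1)
        (by rw [one_pow]; exact mul_lt_mul_of_pos_left (by rw [mul_one]; exact huul) hq0)
        (by rw [one_pow]; exact mul_lt_mul_of_pos_left (by rw [mul_one]; exact hMl) hq0), one_pow, mul_one]
    have S2 : q < u1 * u2 → S = u1 * u2 := fun e1 => by
      have hpos : 0 < u1 * u2 := hq0.trans e1
      rw [hMe, ezz] at s2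
      have h6 := s2 (by
          rw [mul_one]
          have := mul_lt_mul_of_pos_right hMl hpos
          linarith)
        (by
          rw [mul_one, mul_one]
          have := mul_lt_mul_of_pos_left hMl hq0
          linarith)
        (by rw [one_pow, mul_one, mul_one]; exact e1)
      rw [mul_one] at h6
      exact h6
    rw [hMe] at dU dE
    rw [b2, b1, mul_one, one_mul] at dE
    rcases lt_or_eq_of_le hle with hlt | heq
    · -- (a)
      have hu2s : s < u2 := by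
        by_contra hcon
        rw [max_eq_right (not_lt.mp hcon)] at hlt
        exact absurd (le_max_right u1 s) (not_le.mpr hlt)
      have m2 : max u2 s = u2 := max_eq_left hu2s.le
      rw [m2] at hlt ⊢
      have hu12 : u1 < u2 := lt_of_le_of_lt (le_max_left _ _) hlt
      have hu20 : 0 < u2 := hs0.trans hu2s
      have hqu2 : q < u2 * u2 := by rw [← hss]; exact mul_self_lt_mul_self hs0.le hu2s
      have hD : D = u2 * u2 := by rw [dE hu12.ne, max_eq_right hu12.le, pow_two]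
      have huu2 : u1 * u2 ≤ u2 * u2 := mul_le_mul_of_nonneg_right hu12.le hu20.le
      have huu4 : u1 * u2 * (u1 * u2) ≤ u2 * u2 :=
        (mul_le_of_le_one_right huu0 huu).trans huu2
      have hCe : C = u2 * u2 := by
        apply le_antisymm
        · exact gauss.trans (max_le (NB _ huu4 hqu2.le) (max_le (SB _ huu2 hqu2.le) hD.le))
        · rw [← hD, ← eD]
          exact mul_le_of_le_one_left hC.le (mul_le_one₀ lz3 pz4 lz4)
      have h5 : z3 * z4 = 1 := by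
        rw [hCe, hD] at eD
        exact mul_right_cancel₀ (mul_pos hu20 hu20).ne' (by rw [eD, one_mul])
      obtain ⟨h6, h7⟩ := Law_prod_one pz3 pz4 lz3 lz4 h5.ge
      rw [h6, h7, mul_one, one_mul] at hσ hσ'
      rw [hCe] at eN eS
      by_cases hu1s : s < u1
      · -- (a1)
        rw [max_eq_left hu1s.le]
        have hquu : q < u1 * u2 := by
          rw [← hss]
          exact mul_lt_mul'' hu1s hu2s hs0.le hs0.le
        exact Law_IIa1 hs0 hss hu1s hu12 a2 pu3 pu4 eN (eS.trans (S2 hquu)) N4 N1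
          (fun h => NB _ h le_rfl) hσ hσ'
      · -- (a2)
        have hu1s' := not_lt.mp hu1s
        rw [max_eq_right hu1s']
        have hsu : u1 * u2 ≤ s * u2 := mul_le_mul_of_nonneg_right hu1s' hu20.le
        have hqsu : q ≤ s * u2 := by rw [← hss]; exact mul_le_mul_of_nonneg_left hu2s.le hs0.le
        have hNe : N = q := by
          apply N4
          have h8 : u1 * u2 * (u1 * u2) ≤ s * u2 * (s * u2) := mul_self_le_mul_self huu0 hsu
          have h9 : s * u2 * (s * u2) < s * s := by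
            have h10 : s * u2 < s := by
              have := mul_lt_mul_of_pos_left a2 hs0
              linarith
            exact mul_self_lt_mul_self (mul_nonneg hs0.le hu20.le) h10
          rw [← hss]
          linarith
        exact Law_IIa2 hs0 hss hu2s a2 pu3 (eN.trans hNe) (eS.le.trans (SB _ hsu hqsu)) hσ'
    · -- (b)
      rw [heq]
      have hα0 : 0 < max u2 s := lt_of_lt_of_le hs0 (le_max_right _ _)
      rw [min_self, div_self hα0.ne', one_mul]
      by_cases hu1s : s < u1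
      · -- (b1)
        have m1 : max u1 s = u1 := max_eq_left hu1s.le
        have hu12 : u2 = u1 := by
          rw [m1] at heq
          rcases max_choice u2 s with h8 | h8
          · rw [← h8, ← heq]
          · rw [h8] at heq
            exact absurd heq (ne_of_gt hu1s)
        rw [← heq, m1]
        rw [hu12] at NB N1 N4 SB S2 dU
        rw [max_self, pow_two] at dU
        have hu10 : 0 < u1 := hs0.trans hu1s
        have hqu1 : q < u1 * u1 := by rw [← hss]; exact mul_self_lt_mul_self hs0.le hu1s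
        have hSe := S2 hqu1
        have huu4 : u1 * u1 * (u1 * u1) ≤ u1 * u1 :=
          mul_le_of_le_one_right (mul_nonneg pu1 pu1) (mul_le_one₀ lu1 pu1 lu1)
        have hCe : C ≤ u1 * u1 := gauss.trans (max_le (NB _ huu4 hqu1.le) (max_le hSe.le dU))
        have hσ1 : 1 ≤ σ := by
          rw [hSe] at eS
          by_contra hcon
          rw [not_le] at hcon
          have : σ * C < 1 * C := mul_lt_mul_of_pos_right hcon hC
          linarith
        have hσu : σ ≤ 1 := hσ.trans (max_le (mul_le_one₀ lu3 pz4 lz4) (mul_le_one₀ lz3 pu4 lu4))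
        have hσe : σ = 1 := le_antisymm hσu hσ1
        have hCeq : C = u1 * u1 := by rw [hσe, one_mul, hSe] at eS; exact eS
        rw [hCeq] at eN
        refine Law_IIb1 hs0 hs1 hss hu1s eN N4 N1 (fun h => NB _ h le_rfl) ?_
        rw [hσe] at hσ
        rcases max_choice (u3 * z4) (z3 * u4) with h8 | h8
        · rw [h8] at hσ
          exact Or.inl (Law_prod_one pu3 pz4 lu3 lz4 hσ).1
        · rw [h8] at hσ
          exact Or.inr (Law_prod_one pz3 pu4 lz3 lu4 hσ).2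
      · -- (b2)
        have hu1s' := not_lt.mp hu1s
        have m1 : max u1 s = s := max_eq_right hu1s'
        rw [m1] at heq
        have hu2s : u2 ≤ s := by rw [heq]; exact le_max_left _ _
        rw [← heq]
        have hr : max (s * s) (q / (s * s)) = 1 := by
          rw [hss, div_self hq0.ne']
          exact max_eq_right hq1.le
        rw [hr]
        have huq : u1 * u2 ≤ q := by
          rw [← hss]
          exact mul_le_mul hu1s' hu2s pu2 hs0.le
        have hNe : N = q := by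
          apply N4
          have h8 : u1 * u2 * (u1 * u2) ≤ q * q := mul_self_le_mul_self huu0 huq
          have h9 : q * q < q := by
            have := mul_lt_mul_of_pos_left hq1 hq0
            linarith
          linarith
        have hDq : D ≤ q := by
          refine dU.trans ?_
          rw [← hss, ← pow_two]
          exact pow_le_pow_left₀ (le_trans pu1 (le_max_left _ _)) (max_le hu1s' hu2s) 2
        have hCq : C ≤ q := gauss.trans (max_le hNe.le (max_le (SB _ huq le_rfl) hDq))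
        have h5 : 1 ≤ u3 * u4 := by
          rw [hNe] at eN
          by_contra hcon
          rw [not_le] at hcon
          have : u3 * u4 * C < 1 * C := mul_lt_mul_of_pos_right hcon hC
          linarith
        obtain ⟨h6, h7⟩ := Law_prod_one pu3 pu4 lu3 lu4 h5
        rw [h6, h7, max_eq_left hs1.le, mul_one]

/-! ### ultrametric facts -/

private theorem Law_add_le (v : AbsoluteValue K ℝ) (hv : IsNonarchimedean v) {a b : K} {B : ℝ}
    (ha : v a ≤ B) (hb : v b ≤ B) : v (a + b) ≤ B := (hv a b).trans (max_le ha hb)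

private theorem Law_add_eq (v : AbsoluteValue K ℝ) (hv : IsNonarchimedean v) {a b : K}
    (h : v b < v a) : v (a + b) = v a := by
  apply le_antisymm ((hv a b).trans (max_le le_rfl h.le))
  by_contra hcon
  rw [not_le] at hcon
  have h1 : v a ≤ max (v (a + b)) (v (-b)) := by
    have := hv (a + b) (-b)
    rwa [add_neg_cancel_right] at this
  rw [AbsoluteValue.map_neg] at h1
  exact absurd h1 (not_le.mpr (max_lt hcon h))

private theorem Law_four_le (v : AbsoluteValue K ℝ) (hv : IsNonarchimedean v) {a b c d : K} {B : ℝ}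
    (ha : v a ≤ B) (hb : v b ≤ B) (hc : v c ≤ B) (hd : v d ≤ B) : v (a + b + c + d) ≤ B :=
  Law_add_le v hv (Law_add_le v hv (Law_add_le v hv ha hb) hc) hd

private theorem Law_four_eq (v : AbsoluteValue K ℝ) (hv : IsNonarchimedean v) {a b c d : K}
    (hb : v b < v a) (hc : v c < v a) (hd : v d < v a) : v (a + b + c + d) = v a := by
  have h1 := Law_add_eq v hv hb
  have h2 : v (a + b + c) = v a := by rw [Law_add_eq v hv (by rw [h1]; exact hc), h1]
  rw [Law_add_eq v hv (by rw [h2]; exact hd), h2]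

private theorem Law_two (v : AbsoluteValue K ℝ) (hv : IsNonarchimedean v) : v 2 ≤ 1 := by
  have : (2 : K) = 1 + 1 := by norm_num
  rw [this]
  exact Law_add_le v hv (by rw [map_one]) (by rw [map_one])

private theorem Law_nm_pos (v : AbsoluteValue K ℝ) {l : ℝ} (hl : 0 < l) {X Z : K} (n : X ≠ 0 ∨ Z ≠ 0) :
    0 < nm v l X Z := by
  unfold nm
  rcases n with h | h
  · exact lt_of_lt_of_le (v.pos h) (le_max_left _ _)
  · exact lt_of_lt_of_le (mul_pos hl (v.pos h)) (le_max_right _ _)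

private theorem Law_max (v : AbsoluteValue K ℝ) {l : ℝ} (hl : 0 < l) {X Z : K} (n : X ≠ 0 ∨ Z ≠ 0) :
    max (v X / nm v l X Z) (l * v Z / nm v l X Z) = 1 := by
  have h := Law_nm_pos v hl n
  rw [max_div_div_right h.le]
  exact div_self h.ne'

theorem al_bounds (v : AbsoluteValue K ℝ) {q l : ℝ} (hq0 : 0 < q) (hq1 : q < 1) (hl : 0 < l)
    {X Z : K} (n : X ≠ 0 ∨ Z ≠ 0) : Real.sqrt q ≤ al v l q X Z ∧ al v l q X Z ≤ 1 := by
  have h := Law_max v hl n
  unfold al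
  refine ⟨le_max_right _ _, max_le ?_ ?_⟩
  · rw [← h]; exact le_max_left _ _
  · rw [Real.sqrt_le_left zero_le_one]
    linarith

/-- the law for `α1 ≤ α2` -/
private theorem Law_aux (v : AbsoluteValue K ℝ) (hv : IsNonarchimedean v) {b2 b4 b6 b8 : K} {q l : ℝ}
    (hq0 : 0 < q) (hq1 : q < 1) (hl : 0 < l) (h2 : v b2 = l) (h4 : v b4 ≤ q * l ^ 2)
    (h6 : v b6 ≤ q * l ^ 3) (h8 : v b8 = q * l ^ 4)
    {X1 Z1 X2 Z2 X3 Z3 X4 Z4 c : K} (n1 : X1 ≠ 0 ∨ Z1 ≠ 0) (n2 : X2 ≠ 0 ∨ Z2 ≠ 0)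
    (n3 : X3 ≠ 0 ∨ Z3 ≠ 0) (n4 : X4 ≠ 0 ∨ Z4 ≠ 0) (hc : c ≠ 0)
    (hN : (X1 * X2) ^ 2 - b4 * (X1 * X2) * (Z1 * Z2) - b6 * (X1 * Z2 + Z1 * X2) * (Z1 * Z2)
      - b8 * (Z1 * Z2) ^ 2 = c * (X3 * X4))
    (hS : 2 * (X1 * Z2 + Z1 * X2) * (X1 * X2) + b2 * (X1 * X2) * (Z1 * Z2)
      + b4 * (X1 * Z2 + Z1 * X2) * (Z1 * Z2) + b6 * (Z1 * Z2) ^ 2 = c * (X3 * Z4 + Z3 * X4))
    (hD : (X1 * Z2 - Z1 * X2) ^ 2 = c * (Z3 * Z4))
    (hle : al v l q X1 Z1 ≤ al v l q X2 Z2) :
    al v l q X3 Z3 * al v l q X4 Z4 =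
      min (al v l q X1 Z1 / al v l q X2 Z2) (al v l q X2 Z2 / al v l q X1 Z1) *
      max (al v l q X1 Z1 * al v l q X2 Z2) (q / (al v l q X1 Z1 * al v l q X2 Z2)) := by
  have m1 := Law_nm_pos v hl n1
  have m2 := Law_nm_pos v hl n2
  have m3 := Law_nm_pos v hl n3
  have m4 := Law_nm_pos v hl n4
  have e1 := Law_max v hl n1
  have e2 := Law_max v hl n2
  have e3 := Law_max v hl n3
  have e4 := Law_max v hl n4
  unfold al at hle ⊢
  set k1 := nm v l X1 Z1
  set k2 := nm v l X2 Z2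
  set k3 := nm v l X3 Z3
  set k4 := nm v l X4 Z4
  set u1 := v X1 / k1 with hu1
  set u2 := v X2 / k2 with hu2
  set u3 := v X3 / k3 with hu3
  set u4 := v X4 / k4 with hu4
  set z1 := l * v Z1 / k1 with hz1
  set z2 := l * v Z2 / k2 with hz2
  set z3 := l * v Z3 / k3 with hz3
  set z4 := l * v Z4 / k4 with hz4
  have x1 : v X1 = u1 * k1 := by rw [hu1, div_mul_cancel₀ _ m1.ne']
  have x2 : v X2 = u2 * k2 := by rw [hu2, div_mul_cancel₀ _ m2.ne']
  have x3 : v X3 = u3 * k3 := by rw [hu3, div_mul_cancel₀ _ m3.ne']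
  have x4 : v X4 = u4 * k4 := by rw [hu4, div_mul_cancel₀ _ m4.ne']
  have y1 : l * v Z1 = z1 * k1 := by rw [hz1, div_mul_cancel₀ _ m1.ne']
  have y2 : l * v Z2 = z2 * k2 := by rw [hz2, div_mul_cancel₀ _ m2.ne']
  have y3 : l * v Z3 = z3 * k3 := by rw [hz3, div_mul_cancel₀ _ m3.ne']
  have y4 : l * v Z4 = z4 * k4 := by rw [hz4, div_mul_cancel₀ _ m4.ne']
  have pu1 : 0 ≤ u1 := div_nonneg (v.nonneg _) m1.le
  have pu2 : 0 ≤ u2 := div_nonneg (v.nonneg _) m2.le
  have pu3 : 0 ≤ u3 := div_nonneg (v.nonneg _) m3.le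
  have pu4 : 0 ≤ u4 := div_nonneg (v.nonneg _) m4.le
  have pz1 : 0 ≤ z1 := div_nonneg (mul_nonneg hl.le (v.nonneg _)) m1.le
  have pz2 : 0 ≤ z2 := div_nonneg (mul_nonneg hl.le (v.nonneg _)) m2.le
  have pz3 : 0 ≤ z3 := div_nonneg (mul_nonneg hl.le (v.nonneg _)) m3.le
  have pz4 : 0 ≤ z4 := div_nonneg (mul_nonneg hl.le (v.nonneg _)) m4.le
  set w := (k1 * k2) ^ 2 with hw
  have hw0 : 0 < w := by positivity
  set M := max (u1 * z2) (z1 * u2) with hM
  have hM0 : 0 ≤ M := le_trans (mul_nonneg pu1 pz2) (le_max_left _ _)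
  -- the mixed forms
  have mix : l * v (X1 * Z2 + Z1 * X2) ≤ M * (k1 * k2) := by
    have h9 := hv (X1 * Z2) (Z1 * X2)
    rw [map_mul, map_mul] at h9
    have h10 : l * max (v X1 * v Z2) (v Z1 * v X2) = M * (k1 * k2) := by
      rw [mul_max_of_nonneg _ _ hl.le, hM, max_mul_of_nonneg _ _ (by positivity)]
      congr 1
      · calc l * (v X1 * v Z2) = v X1 * (l * v Z2) := by ring
          _ = _ := by rw [x1, y2]; ring
      · calc l * (v Z1 * v X2) = (l * v Z1) * v X2 := by ring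
          _ = _ := by rw [x2, y1]; ring
    rw [← h10]
    exact mul_le_mul_of_nonneg_left h9 hl.le
  have mixD : l * v (X1 * Z2 - Z1 * X2) ≤ M * (k1 * k2) ∧ (u1 * z2 ≠ z1 * u2 →
      l * v (X1 * Z2 - Z1 * X2) = M * (k1 * k2)) := by
    have g1 : l * v (X1 * Z2) = u1 * z2 * (k1 * k2) := by
      rw [map_mul]
      calc l * (v X1 * v Z2) = v X1 * (l * v Z2) := by ring
          _ = _ := by rw [x1, y2]; ring
    have g2 : l * v (Z1 * X2) = z1 * u2 * (k1 * k2) := by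
      rw [map_mul]
      calc l * (v Z1 * v X2) = (l * v Z1) * v X2 := by ring
          _ = _ := by rw [x2, y1]; ring
    have kk : 0 < k1 * k2 := mul_pos m1 m2
    constructor
    · rw [sub_eq_add_neg]
      have h9 := hv (X1 * Z2) (-(Z1 * X2))
      rw [AbsoluteValue.map_neg] at h9
      refine (mul_le_mul_of_nonneg_left h9 hl.le).trans ?_
      rw [mul_max_of_nonneg _ _ hl.le, g1, g2, hM, max_mul_of_nonneg _ _ kk.le]
    · intro hne
      rcases lt_or_gt_of_ne hne with h9 | h9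
      · have h10 : v (X1 * Z2) < v (-(Z1 * X2)) := by
          rw [AbsoluteValue.map_neg]
          apply lt_of_mul_lt_mul_left _ hl.le
          rw [g1, g2]
          exact mul_lt_mul_of_pos_right h9 kk
        have h11 := Law_add_eq v hv h10
        have h12 : X1 * Z2 - Z1 * X2 = -(Z1 * X2) + X1 * Z2 := by ring
        rw [h12, h11, AbsoluteValue.map_neg, g2, hM, max_eq_right h9.le]
      · have h10 : v (-(Z1 * X2)) < v (X1 * Z2) := by
          rw [AbsoluteValue.map_neg]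
          apply lt_of_mul_lt_mul_left _ hl.le
          rw [g1, g2]
          exact mul_lt_mul_of_pos_right h9 kk
        have h11 := Law_add_eq v hv h10
        rw [sub_eq_add_neg, h11, g1, hM, max_eq_left (le_of_lt h9)]
  -- terms of N
  have t1 : v ((X1 * X2) ^ 2) = (u1 * u2) ^ 2 * w := by
    rw [map_pow, map_mul, x1, x2, hw]; ring
  have t2 : v (-(b4 * (X1 * X2) * (Z1 * Z2))) ≤ q * (u1 * u2 * (z1 * z2)) * w := by
    rw [AbsoluteValue.map_neg, map_mul, map_mul, map_mul, map_mul]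
    have h9 : v b4 * (v X1 * v X2 * (v Z1 * v Z2)) ≤ q * l ^ 2 * (v X1 * v X2 * (v Z1 * v Z2)) := by
      apply mul_le_mul_of_nonneg_right h4
      positivity
    calc v b4 * (v X1 * v X2) * (v Z1 * v Z2) = v b4 * (v X1 * v X2 * (v Z1 * v Z2)) := by ring
      _ ≤ _ := h9
      _ = q * (v X1 * v X2 * ((l * v Z1) * (l * v Z2))) := by ring
      _ = _ := by rw [x1, x2, y1, y2, hw]; ring
  have t3 : v (-(b6 * (X1 * Z2 + Z1 * X2) * (Z1 * Z2))) ≤ q * (M * (z1 * z2)) * w := by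
    rw [AbsoluteValue.map_neg, map_mul, map_mul, map_mul]
    have h9 : v b6 * (v (X1 * Z2 + Z1 * X2) * (v Z1 * v Z2)) ≤
        q * l ^ 3 * (v (X1 * Z2 + Z1 * X2) * (v Z1 * v Z2)) := by
      apply mul_le_mul_of_nonneg_right h6
      exact mul_nonneg (v.nonneg _) (mul_nonneg (v.nonneg _) (v.nonneg _))
    calc v b6 * v (X1 * Z2 + Z1 * X2) * (v Z1 * v Z2) =
        v b6 * (v (X1 * Z2 + Z1 * X2) * (v Z1 * v Z2)) := by ring
      _ ≤ _ := h9
      _ = q * ((l * v (X1 * Z2 + Z1 * X2)) * ((l * v Z1) * (l * v Z2))) := by ring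
      _ = q * ((l * v (X1 * Z2 + Z1 * X2)) * (z1 * z2 * (k1 * k2))) := by rw [y1, y2]; ring
      _ ≤ q * (M * (k1 * k2) * (z1 * z2 * (k1 * k2))) := by
          apply mul_le_mul_of_nonneg_left _ hq0.le
          apply mul_le_mul_of_nonneg_right mix
          positivity
      _ = _ := by rw [hw]; ring
  have t4 : v (-(b8 * (Z1 * Z2) ^ 2)) = q * (z1 * z2) ^ 2 * w := by
    rw [AbsoluteValue.map_neg, map_mul, map_pow, map_mul, h8]
    calc q * l ^ 4 * (v Z1 * v Z2) ^ 2 = q * ((l * v Z1) * (l * v Z2)) ^ 2 := by ring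
      _ = _ := by rw [y1, y2, hw]; ring
  -- terms of S
  have r1 : l * v (2 * (X1 * Z2 + Z1 * X2) * (X1 * X2)) ≤ M * (u1 * u2) * w := by
    rw [map_mul, map_mul, map_mul]
    have h9 := Law_two v hv
    calc l * (v 2 * v (X1 * Z2 + Z1 * X2) * (v X1 * v X2)) =
        v 2 * ((l * v (X1 * Z2 + Z1 * X2)) * (v X1 * v X2)) := by ring
      _ ≤ 1 * ((l * v (X1 * Z2 + Z1 * X2)) * (v X1 * v X2)) := by
          apply mul_le_mul_of_nonneg_right h9
          exact mul_nonneg (mul_nonneg hl.le (v.nonneg _)) (mul_nonneg (v.nonneg _) (v.nonneg _))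
      _ = (l * v (X1 * Z2 + Z1 * X2)) * (u1 * u2 * (k1 * k2)) := by rw [x1, x2]; ring
      _ ≤ M * (k1 * k2) * (u1 * u2 * (k1 * k2)) := by
          apply mul_le_mul_of_nonneg_right mix
          positivity
      _ = _ := by rw [hw]; ring
  have r2 : l * v (b2 * (X1 * X2) * (Z1 * Z2)) = u1 * u2 * (z1 * z2) * w := by
    rw [map_mul, map_mul, map_mul, map_mul, h2]
    calc l * (l * (v X1 * v X2) * (v Z1 * v Z2)) = v X1 * v X2 * ((l * v Z1) * (l * v Z2)) := by ring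
      _ = _ := by rw [x1, x2, y1, y2, hw]; ring
  have r3 : l * v (b4 * (X1 * Z2 + Z1 * X2) * (Z1 * Z2)) ≤ q * (M * (z1 * z2)) * w := by
    rw [map_mul, map_mul, map_mul]
    have h9 : v b4 * (v (X1 * Z2 + Z1 * X2) * (v Z1 * v Z2)) ≤
        q * l ^ 2 * (v (X1 * Z2 + Z1 * X2) * (v Z1 * v Z2)) := by
      apply mul_le_mul_of_nonneg_right h4
      exact mul_nonneg (v.nonneg _) (mul_nonneg (v.nonneg _) (v.nonneg _))
    calc l * (v b4 * v (X1 * Z2 + Z1 * X2) * (v Z1 * v Z2)) =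
        l * (v b4 * (v (X1 * Z2 + Z1 * X2) * (v Z1 * v Z2))) := by ring
      _ ≤ l * (q * l ^ 2 * (v (X1 * Z2 + Z1 * X2) * (v Z1 * v Z2))) := mul_le_mul_of_nonneg_left h9 hl.le
      _ = q * ((l * v (X1 * Z2 + Z1 * X2)) * ((l * v Z1) * (l * v Z2))) := by ring
      _ = q * ((l * v (X1 * Z2 + Z1 * X2)) * (z1 * z2 * (k1 * k2))) := by rw [y1, y2]; ring
      _ ≤ q * (M * (k1 * k2) * (z1 * z2 * (k1 * k2))) := by
          apply mul_le_mul_of_nonneg_left _ hq0.le
          apply mul_le_mul_of_nonneg_right mix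
          positivity
      _ = _ := by rw [hw]; ring
  have r4 : l * v (b6 * (Z1 * Z2) ^ 2) ≤ q * (z1 * z2) ^ 2 * w := by
    rw [map_mul, map_pow, map_mul]
    have h9 : v b6 * (v Z1 * v Z2) ^ 2 ≤ q * l ^ 3 * (v Z1 * v Z2) ^ 2 :=
      mul_le_mul_of_nonneg_right h6 (by positivity)
    calc l * (v b6 * (v Z1 * v Z2) ^ 2) ≤ l * (q * l ^ 3 * (v Z1 * v Z2) ^ 2) :=
          mul_le_mul_of_nonneg_left h9 hl.le
      _ = q * ((l * v Z1) * (l * v Z2)) ^ 2 := by ring
      _ = _ := by rw [y1, y2, hw]; ring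
  have eqN : c * (X3 * X4) = (X1 * X2) ^ 2 + -(b4 * (X1 * X2) * (Z1 * Z2)) +
      -(b6 * (X1 * Z2 + Z1 * X2) * (Z1 * Z2)) + -(b8 * (Z1 * Z2) ^ 2) := by rw [← hN]; ring
  have eqN4 : c * (X3 * X4) = -(b8 * (Z1 * Z2) ^ 2) + (X1 * X2) ^ 2 + -(b4 * (X1 * X2) * (Z1 * Z2)) +
      -(b6 * (X1 * Z2 + Z1 * X2) * (Z1 * Z2)) := by rw [← hN]; ring
  have eqS2 : c * (X3 * Z4 + Z3 * X4) = b2 * (X1 * X2) * (Z1 * Z2) + 2 * (X1 * Z2 + Z1 * X2) * (X1 * X2)
      + b4 * (X1 * Z2 + Z1 * X2) * (Z1 * Z2) + b6 * (Z1 * Z2) ^ 2 := by rw [← hS]; ring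
  have k34 : 0 < k3 * k4 := mul_pos m3 m4
  refine Law_real (N := v (c * (X3 * X4)) / w) (S := l * v (c * (X3 * Z4 + Z3 * X4)) / w)
    (D := l ^ 2 * v (c * (Z3 * Z4)) / w) (C := v c * (k3 * k4) / w)
    (σ := l * v (X3 * Z4 + Z3 * X4) / (k3 * k4)) hq0 hq1 pu1 pz1 pu2 pz2 pu3 pz3 pu4 pz4 e1 e2 e3 e4
    ?_ ?_ ?_ ?_ ?_ ?_ ?_ ?_ ?_ ?_ ?_ ?_ ?_ hle
  · have := v.pos hc
    positivity
  · rw [map_mul, map_mul, x3, x4]; ring
  · rw [map_mul]
    field_simp
  · rw [map_mul, map_mul]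
    calc z3 * z4 * (v c * (k3 * k4) / w) = v c * ((z3 * k3) * (z4 * k4)) / w := by ring
      _ = _ := by rw [← y3, ← y4]; ring
  · rw [div_le_iff₀ k34]
    have h9 := hv (X3 * Z4) (Z3 * X4)
    rw [map_mul, map_mul] at h9
    refine (mul_le_mul_of_nonneg_left h9 hl.le).trans (le_of_eq ?_)
    rw [mul_max_of_nonneg _ _ hl.le, max_mul_of_nonneg _ _ k34.le]
    congr 1
    · calc l * (v X3 * v Z4) = v X3 * (l * v Z4) := by ring
        _ = _ := by rw [x3, y4]; ring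
    · calc l * (v Z3 * v X4) = (l * v Z3) * v X4 := by ring
        _ = _ := by rw [x4, y3]; ring
  · intro hne
    have g1 : l * v (X3 * Z4) = u3 * z4 * (k3 * k4) := by
      rw [map_mul]
      calc l * (v X3 * v Z4) = v X3 * (l * v Z4) := by ring
          _ = _ := by rw [x3, y4]; ring
    have g2 : l * v (Z3 * X4) = z3 * u4 * (k3 * k4) := by
      rw [map_mul]
      calc l * (v Z3 * v X4) = (l * v Z3) * v X4 := by ring
          _ = _ := by rw [x4, y3]; ring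
    rw [div_eq_iff k34.ne']
    rcases lt_or_gt_of_ne hne with h9 | h9
    · have h10 : v (X3 * Z4) < v (Z3 * X4) := by
        apply lt_of_mul_lt_mul_left _ hl.le
        rw [g1, g2]
        exact mul_lt_mul_of_pos_right h9 k34
      rw [add_comm, Law_add_eq v hv h10, g2, max_eq_right h9.le]
    · have h10 : v (Z3 * X4) < v (X3 * Z4) := by
        apply lt_of_mul_lt_mul_left _ hl.le
        rw [g1, g2]
        exact mul_lt_mul_of_pos_right h9 k34
      rw [Law_add_eq v hv h10, g1, max_eq_left (le_of_lt h9)]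
  · intro B g1 g2 g3 g4
    rw [div_le_iff₀ hw0, eqN]
    apply Law_four_le v hv
    · rw [t1]; exact mul_le_mul_of_nonneg_right g1 hw0.le
    · exact t2.trans (mul_le_mul_of_nonneg_right g2 hw0.le)
    · exact t3.trans (mul_le_mul_of_nonneg_right g3 hw0.le)
    · rw [t4]; exact mul_le_mul_of_nonneg_right g4 hw0.le
  · intro g2 g3 g4
    rw [div_eq_iff hw0.ne', eqN, Law_four_eq v hv, t1]
    · rw [t1]; exact lt_of_le_of_lt t2 (mul_lt_mul_of_pos_right g2 hw0)
    · rw [t1]; exact lt_of_le_of_lt t3 (mul_lt_mul_of_pos_right g3 hw0)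
    · rw [t1, t4]; exact mul_lt_mul_of_pos_right g4 hw0
  · intro g1 g2 g3
    rw [div_eq_iff hw0.ne', eqN4, Law_four_eq v hv, t4]
    · rw [t1, t4]; exact mul_lt_mul_of_pos_right g1 hw0
    · rw [t4]; exact lt_of_le_of_lt t2 (mul_lt_mul_of_pos_right g2 hw0)
    · rw [t4]; exact lt_of_le_of_lt t3 (mul_lt_mul_of_pos_right g3 hw0)
  · intro B g1 g2 g3 g4
    have div_le : ∀ x y : ℝ, l * x ≤ y * w → y ≤ B → x ≤ B * w / l := by
      intro x y g5 g6
      rw [le_div_iff₀ hl, mul_comm]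
      exact g5.trans (mul_le_mul_of_nonneg_right g6 hw0.le)
    rw [div_le_iff₀ hw0, mul_comm l, ← le_div_iff₀ hl, eqS2]
    apply Law_four_le v hv
    · exact div_le _ _ r2.le g2
    · exact div_le _ _ r1 g1
    · exact div_le _ _ r3 g3
    · exact div_le _ _ r4 g4
  · intro g1 g2 g3
    have lt1 : ∀ x y : ℝ, l * x ≤ y * w → y < u1 * u2 * (z1 * z2) →
        x < v (b2 * (X1 * X2) * (Z1 * Z2)) := by
      intro x y g5 g6
      apply lt_of_mul_lt_mul_left _ hl.le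
      rw [r2]
      exact lt_of_le_of_lt g5 (mul_lt_mul_of_pos_right g6 hw0)
    rw [div_eq_iff hw0.ne', eqS2, Law_four_eq v hv, r2]
    · exact lt1 _ _ r1 g1
    · exact lt1 _ _ r3 g2
    · exact lt1 _ _ r4 g3
  · rw [div_le_iff₀ hw0, ← hD, map_pow]
    calc l ^ 2 * v (X1 * Z2 - Z1 * X2) ^ 2 = (l * v (X1 * Z2 - Z1 * X2)) ^ 2 := by ring
      _ ≤ (M * (k1 * k2)) ^ 2 :=
          pow_le_pow_left₀ (mul_nonneg hl.le (v.nonneg _)) mixD.1 2
      _ = _ := by rw [hw]; ring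
  · intro hne
    rw [div_eq_iff hw0.ne', ← hD, map_pow]
    calc l ^ 2 * v (X1 * Z2 - Z1 * X2) ^ 2 = (l * v (X1 * Z2 - Z1 * X2)) ^ 2 := by ring
      _ = (M * (k1 * k2)) ^ 2 := by rw [mixD.2 hne]
      _ = _ := by rw [hw]; ring

theorem law (v : AbsoluteValue K ℝ) (hv : IsNonarchimedean v) {b2 b4 b6 b8 : K} {q l : ℝ}
    (hq0 : 0 < q) (hq1 : q < 1) (hl : 0 < l) (h2 : v b2 = l) (h4 : v b4 ≤ q * l ^ 2)
    (h6 : v b6 ≤ q * l ^ 3) (h8 : v b8 = q * l ^ 4)
    {X1 Z1 X2 Z2 X3 Z3 X4 Z4 c : K} (n1 : X1 ≠ 0 ∨ Z1 ≠ 0) (n2 : X2 ≠ 0 ∨ Z2 ≠ 0)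
    (n3 : X3 ≠ 0 ∨ Z3 ≠ 0) (n4 : X4 ≠ 0 ∨ Z4 ≠ 0) (hc : c ≠ 0)
    (hN : (X1 * X2) ^ 2 - b4 * (X1 * X2) * (Z1 * Z2) - b6 * (X1 * Z2 + Z1 * X2) * (Z1 * Z2)
      - b8 * (Z1 * Z2) ^ 2 = c * (X3 * X4))
    (hS : 2 * (X1 * Z2 + Z1 * X2) * (X1 * X2) + b2 * (X1 * X2) * (Z1 * Z2)
      + b4 * (X1 * Z2 + Z1 * X2) * (Z1 * Z2) + b6 * (Z1 * Z2) ^ 2 = c * (X3 * Z4 + Z3 * X4))
    (hD : (X1 * Z2 - Z1 * X2) ^ 2 = c * (Z3 * Z4)) :
    al v l q X3 Z3 * al v l q X4 Z4 =
      min (al v l q X1 Z1 / al v l q X2 Z2) (al v l q X2 Z2 / al v l q X1 Z1) *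
      max (al v l q X1 Z1 * al v l q X2 Z2) (q / (al v l q X1 Z1 * al v l q X2 Z2)) := by
  rcases le_total (al v l q X1 Z1) (al v l q X2 Z2) with h | h
  · exact Law_aux v hv hq0 hq1 hl h2 h4 h6 h8 n1 n2 n3 n4 hc hN hS hD h
  · have h9 := Law_aux v hv hq0 hq1 hl h2 h4 h6 h8 n2 n1 n3 n4 hc
      (by rw [← hN]; ring) (by rw [← hS]; ring) (by rw [← hD]; ring) h
    rw [h9, min_comm, mul_comm (al v l q X2 Z2) (al v l q X1 Z1)]

end Pool.Agent.Helper86.LH
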