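import Pool.Agent.Helper86.LH.Law

/-!
The local law in terms of `tt = log al / log q` (take logarithms in `law`, `log q < 0`), and the
size of the duplication forms.

PROOF of `dbl_size`: normalise `nm = 1`, `u = v X`.  `u = 1`: `|F| = 1` (other terms `≤ q`), and
`l |G| ≤ 1`.  `√q < u < 1`: `l |Z| = 1`, `l |G| = u²` (`|4 X³ Z| l ≤ u³`, `|b4|, |b6| ≤ q...`),
`|F| ≤ max u⁴ q < u²`.  `u ≤ √q`: `|F| = q` (`u⁴ ≤ q² < q`, the others `≤ q u`), `l |G| ≤ q`.
-/

namespace Pool.Agent.Helper86.LH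

variable {K : Type*} [Field K]

theorem tt_bounds (v : AbsoluteValue K ℝ) {q l : ℝ} (hq0 : 0 < q) (hq1 : q < 1) (hl : 0 < l)
    {X Z : K} (n : X ≠ 0 ∨ Z ≠ 0) : 0 ≤ tt v l q X Z ∧ tt v l q X Z ≤ 1 / 2 := by
  obtain ⟨h1, h2⟩ := al_bounds v hq0 hq1 hl n
  have hs : 0 < Real.sqrt q := Real.sqrt_pos.2 hq0
  have ha : 0 < al v l q X Z := hs.trans_le h1
  have hlq : Real.log q < 0 := Real.log_neg hq0 hq1
  have h3 : Real.log (al v l q X Z) ≤ 0 := Real.log_nonpos ha.le h2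
  have h4 : 1 / 2 * Real.log q ≤ Real.log (al v l q X Z) := by
    have h5 := Real.log_le_log hs h1
    rw [Real.log_sqrt hq0.le] at h5
    linarith
  unfold tt
  constructor
  · exact div_nonneg_of_nonpos h3 hlq.le
  · rw [div_le_iff_of_neg hlq]
    exact h4

theorem tt_inf (v : AbsoluteValue K ℝ) {q l : ℝ} (hq0 : 0 < q) (hq1 : q < 1)
    {X : K} (n : X ≠ 0) : tt v l q X 0 = 0 := by
  have hx : 0 < v X := v.pos n
  have h1 : al v l q X 0 = 1 := by
    unfold al nm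
    rw [map_zero, mul_zero, max_eq_left hx.le, div_self hx.ne']
    apply max_eq_left
    exact (Real.sqrt_le_sqrt hq1.le).trans_eq Real.sqrt_one
  unfold tt
  rw [h1, Real.log_one, zero_div]

theorem law_t (v : AbsoluteValue K ℝ) (hv : IsNonarchimedean v) {b2 b4 b6 b8 : K} {q l : ℝ}
    (hq0 : 0 < q) (hq1 : q < 1) (hl : 0 < l) (h2 : v b2 = l) (h4 : v b4 ≤ q * l ^ 2)
    (h6 : v b6 ≤ q * l ^ 3) (h8 : v b8 = q * l ^ 4)
    {X1 Z1 X2 Z2 X3 Z3 X4 Z4 c : K} (n1 : X1 ≠ 0 ∨ Z1 ≠ 0) (n2 : X2 ≠ 0 ∨ Z2 ≠ 0)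
    (n3 : X3 ≠ 0 ∨ Z3 ≠ 0) (n4 : X4 ≠ 0 ∨ Z4 ≠ 0) (hc : c ≠ 0)
    (hN : (X1 * X2) ^ 2 - b4 * (X1 * X2) * (Z1 * Z2) - b6 * (X1 * Z2 + Z1 * X2) * (Z1 * Z2)
      - b8 * (Z1 * Z2) ^ 2 = c * (X3 * X4))
    (hS : 2 * (X1 * Z2 + Z1 * X2) * (X1 * X2) + b2 * (X1 * X2) * (Z1 * Z2)
      + b4 * (X1 * Z2 + Z1 * X2) * (Z1 * Z2) + b6 * (Z1 * Z2) ^ 2 = c * (X3 * Z4 + Z3 * X4))
    (hD : (X1 * Z2 - Z1 * X2) ^ 2 = c * (Z3 * Z4)) :
    tt v l q X3 Z3 + tt v l q X4 Z4 = |tt v l q X1 Z1 - tt v l q X2 Z2| +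
      min (tt v l q X1 Z1 + tt v l q X2 Z2) (1 - (tt v l q X1 Z1 + tt v l q X2 Z2)) := by
  have key := law v hv hq0 hq1 hl h2 h4 h6 h8 n1 n2 n3 n4 hc hN hS hD
  have hs : 0 < Real.sqrt q := Real.sqrt_pos.2 hq0
  have a1 := hs.trans_le (al_bounds v hq0 hq1 hl n1).1
  have a2 := hs.trans_le (al_bounds v hq0 hq1 hl n2).1
  have a3 := hs.trans_le (al_bounds v hq0 hq1 hl n3).1
  have a4 := hs.trans_le (al_bounds v hq0 hq1 hl n4).1
  have hlq : Real.log q < 0 := Real.log_neg hq0 hq1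
  unfold tt
  generalize al v l q X1 Z1 = A1 at *
  generalize al v l q X2 Z2 = A2 at *
  generalize al v l q X3 Z3 = A3 at *
  generalize al v l q X4 Z4 = A4 at *
  have hlog := congrArg Real.log key
  have hmin : 0 < min (A1 / A2) (A2 / A1) := lt_min (div_pos a1 a2) (div_pos a2 a1)
  have hmax : 0 < max (A1 * A2) (q / (A1 * A2)) := lt_max_of_lt_left (mul_pos a1 a2)
  rw [Real.log_mul a3.ne' a4.ne', Real.log_mul hmin.ne' hmax.ne'] at hlog
  have e1 : Real.log (min (A1 / A2) (A2 / A1)) = -|Real.log A1 - Real.log A2| := by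
    rcases le_total A1 A2 with h | h
    · have hle : A1 / A2 ≤ A2 / A1 := by
        rw [div_le_div_iff₀ a2 a1]
        nlinarith
      rw [min_eq_left hle, Real.log_div a1.ne' a2.ne']
      have := Real.log_le_log a1 h
      rw [abs_of_nonpos (by linarith)]
      ring
    · have hle : A2 / A1 ≤ A1 / A2 := by
        rw [div_le_div_iff₀ a1 a2]
        nlinarith
      rw [min_eq_right hle, Real.log_div a2.ne' a1.ne']
      have := Real.log_le_log a2 h
      rw [abs_of_nonneg (by linarith)]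
      ring
  have e2 : Real.log (max (A1 * A2) (q / (A1 * A2))) =
      max (Real.log A1 + Real.log A2) (Real.log q - (Real.log A1 + Real.log A2)) := by
    have hp := mul_pos a1 a2
    have hq2 : 0 < q / (A1 * A2) := div_pos hq0 hp
    rw [← Real.log_mul a1.ne' a2.ne', ← Real.log_div hq0.ne' hp.ne']
    rcases le_total (A1 * A2) (q / (A1 * A2)) with h | h
    · rw [max_eq_right h, max_eq_right (Real.log_le_log hp h)]
    · rw [max_eq_left h, max_eq_left (Real.log_le_log hq2 h)]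
  rw [e1, e2] at hlog
  have e3 : Real.log A3 / Real.log q + Real.log A4 / Real.log q =
      (Real.log A3 + Real.log A4) / Real.log q := by ring
  have e4 : |Real.log A1 / Real.log q - Real.log A2 / Real.log q| =
      -|Real.log A1 - Real.log A2| / Real.log q := by
    rw [← sub_div, abs_div, abs_of_neg hlq, div_neg, neg_div]
  have e5 : min (Real.log A1 / Real.log q + Real.log A2 / Real.log q)
      (1 - (Real.log A1 / Real.log q + Real.log A2 / Real.log q)) =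
      max (Real.log A1 + Real.log A2) (Real.log q - (Real.log A1 + Real.log A2)) / Real.log q := by
    have f1 : Real.log A1 / Real.log q + Real.log A2 / Real.log q =
        (Real.log A1 + Real.log A2) / Real.log q := by ring
    have f2 : 1 - (Real.log A1 + Real.log A2) / Real.log q =
        (Real.log q - (Real.log A1 + Real.log A2)) / Real.log q := by
      rw [sub_div, div_self hlq.ne]
    rw [f1, f2]
    rcases le_total (Real.log A1 + Real.log A2)
      (Real.log q - (Real.log A1 + Real.log A2)) with h | h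
    · rw [max_eq_right h, min_eq_right]
      exact div_le_div_of_nonpos_of_le hlq.le h
    · rw [max_eq_left h, min_eq_left]
      exact div_le_div_of_nonpos_of_le hlq.le h
  rw [e3, e4, e5, hlog]
  ring

/-- A dominating term decides the size. -/
theorem dom_eq (v : AbsoluteValue K ℝ) (hv : IsNonarchimedean v) {x y : K} (h : v y < v x) :
    v (x + y) = v x := by
  apply le_antisymm
  · exact (hv x y).trans (max_le le_rfl h.le)
  · have h1 : v x ≤ max (v (x + y)) (v (-y)) := by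
      have := hv (x + y) (-y)
      rwa [add_neg_cancel_right] at this
    rw [v.map_neg] at h1
    rcases le_max_iff.1 h1 with h2 | h2
    · exact h2
    · exact absurd h2 (not_le.2 h)

/-- Size of the duplication forms. -/
theorem dbl_size (v : AbsoluteValue K ℝ) (hv : IsNonarchimedean v) {b2 b4 b6 b8 : K} {q l : ℝ}
    (hq0 : 0 < q) (hq1 : q < 1) (hl : 0 < l) (h2 : v b2 = l) (h4 : v b4 ≤ q * l ^ 2)
    (h6 : v b6 ≤ q * l ^ 3) (h8 : v b8 = q * l ^ 4) {X Z : K} (n : X ≠ 0 ∨ Z ≠ 0) :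
    nm v l (dF b4 b6 b8 X Z) (dG b2 b4 b6 X Z) = al v l q X Z ^ 2 * nm v l X Z ^ 4 := by
  have hx0 : 0 ≤ v X := v.nonneg X
  have hz0 : 0 ≤ v Z := v.nonneg Z
  have v2 : v 2 ≤ 1 := by
    have := hv 1 1
    rw [map_one, max_self] at this
    norm_num at this
    exact this
  have v20 : 0 ≤ v 2 := v.nonneg _
  have v4 : v 4 ≤ 1 := by
    have : (4 : K) = 2 * 2 := by norm_num
    rw [this, map_mul]
    nlinarith
  have v40 : 0 ≤ v 4 := v.nonneg _
  have g4 : 0 ≤ v b4 := v.nonneg _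
  have g6 : 0 ≤ v b6 := v.nonneg _
  -- sizes of the terms, `z = l * v Z`
  obtain ⟨x, hx⟩ : ∃ x, x = v X := ⟨_, rfl⟩
  obtain ⟨z, hz⟩ : ∃ z, z = l * v Z := ⟨_, rfl⟩
  have hx1 : 0 ≤ x := hx ▸ hx0
  have hz1 : 0 ≤ z := by rw [hz]; positivity
  have t1 : v (X ^ 4) = x ^ 4 := by rw [map_pow, hx]
  have t2 : v (b4 * X ^ 2 * Z ^ 2) ≤ q * x ^ 2 * z ^ 2 := by
    rw [map_mul, map_mul, map_pow, map_pow, ← hx, hz]
    calc v b4 * x ^ 2 * v Z ^ 2 ≤ (q * l ^ 2) * x ^ 2 * v Z ^ 2 := by gcongr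
      _ = q * x ^ 2 * (l * v Z) ^ 2 := by ring
  have t3 : v (2 * b6 * X * Z ^ 3) ≤ q * x * z ^ 3 := by
    rw [map_mul, map_mul, map_mul, map_pow, ← hx, hz]
    calc v 2 * v b6 * x * v Z ^ 3 ≤ 1 * (q * l ^ 3) * x * v Z ^ 3 := by gcongr
      _ = q * x * (l * v Z) ^ 3 := by ring
  have t4 : v (b8 * Z ^ 4) = q * z ^ 4 := by
    rw [map_mul, map_pow, h8, hz]
    ring
  have s1 : l * v (4 * X ^ 3 * Z) ≤ x ^ 3 * z := by
    rw [map_mul, map_mul, map_pow, ← hx, hz]
    calc l * (v 4 * x ^ 3 * v Z) ≤ l * (1 * x ^ 3 * v Z) := by gcongr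
      _ = x ^ 3 * (l * v Z) := by ring
  have s2 : l * v (b2 * X ^ 2 * Z ^ 2) = x ^ 2 * z ^ 2 := by
    rw [map_mul, map_mul, map_pow, map_pow, ← hx, hz, h2]
    ring
  have s3 : l * v (2 * b4 * X * Z ^ 3) ≤ q * x * z ^ 3 := by
    rw [map_mul, map_mul, map_mul, map_pow, ← hx, hz]
    calc l * (v 2 * v b4 * x * v Z ^ 3) ≤ l * (1 * (q * l ^ 2) * x * v Z ^ 3) := by gcongr
      _ = q * x * (l * v Z) ^ 3 := by ring
  have s4 : l * v (b6 * Z ^ 4) ≤ q * z ^ 4 := by
    rw [map_mul, map_pow, hz]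
    calc l * (v b6 * v Z ^ 4) ≤ l * ((q * l ^ 3) * v Z ^ 4) := by gcongr
      _ = q * (l * v Z) ^ 4 := by ring
  have hpos : 0 < max x z := by
    rcases n with n | n
    · exact lt_max_of_lt_left (by rw [hx]; exact v.pos n)
    · exact lt_max_of_lt_right (by rw [hz]; exact mul_pos hl (v.pos n))
  have hN : nm v l X Z = max x z := by unfold nm; rw [hx, hz]
  -- bounds for sums
  have bF : ∀ m : ℝ, x ^ 4 ≤ m → q * x ^ 2 * z ^ 2 ≤ m → q * x * z ^ 3 ≤ m → q * z ^ 4 ≤ m →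
      v (dF b4 b6 b8 X Z) ≤ m := by
    intro m m1 m2 m3 m4
    unfold dF
    have r1 := hv (X ^ 4) (-(b4 * X ^ 2 * Z ^ 2))
    have r2 := hv (X ^ 4 - b4 * X ^ 2 * Z ^ 2) (-(2 * b6 * X * Z ^ 3))
    have r3 := hv (X ^ 4 - b4 * X ^ 2 * Z ^ 2 - 2 * b6 * X * Z ^ 3) (-(b8 * Z ^ 4))
    rw [v.map_neg, ← sub_eq_add_neg] at r1 r2 r3
    refine r3.trans (max_le (r2.trans (max_le (r1.trans (max_le ?_ ?_)) ?_)) ?_)
    · rw [t1]; exact m1
    · exact t2.trans m2
    · exact t3.trans m3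
    · rw [t4]; exact m4
  have bG : ∀ m : ℝ, x ^ 3 * z ≤ m → x ^ 2 * z ^ 2 ≤ m → q * x * z ^ 3 ≤ m → q * z ^ 4 ≤ m →
      l * v (dG b2 b4 b6 X Z) ≤ m := by
    intro m m1 m2 m3 m4
    unfold dG
    have r1 := hv (4 * X ^ 3 * Z) (b2 * X ^ 2 * Z ^ 2)
    have r2 := hv (4 * X ^ 3 * Z + b2 * X ^ 2 * Z ^ 2) (2 * b4 * X * Z ^ 3)
    have r3 := hv (4 * X ^ 3 * Z + b2 * X ^ 2 * Z ^ 2 + 2 * b4 * X * Z ^ 3) (b6 * Z ^ 4)
    have r4 : v (4 * X ^ 3 * Z + b2 * X ^ 2 * Z ^ 2 + 2 * b4 * X * Z ^ 3 + b6 * Z ^ 4) ≤ m / l := by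
      refine r3.trans (max_le (r2.trans (max_le (r1.trans (max_le ?_ ?_)) ?_)) ?_) <;>
        rw [le_div_iff₀ hl, mul_comm]
      · exact s1.trans m1
      · rw [s2]; exact m2
      · exact s3.trans m3
      · exact s4.trans m4
    rw [le_div_iff₀ hl, mul_comm] at r4
    exact r4
  have hal : al v l q X Z ^ 2 * nm v l X Z ^ 4 =
      max (x ^ 2 * (max x z) ^ 2) (q * (max x z) ^ 4) := by
    unfold al
    rw [hN, ← hx]
    have hs : 0 ≤ Real.sqrt q := Real.sqrt_nonneg q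
    have hd : 0 ≤ x / max x z := div_nonneg hx1 hpos.le
    have e1 : (max (x / max x z) (Real.sqrt q)) ^ 2 = max ((x / max x z) ^ 2) q := by
      rcases le_total (x / max x z) (Real.sqrt q) with h | h
      · rw [max_eq_right h, Real.sq_sqrt hq0.le, max_eq_right]
        calc (x / max x z) ^ 2 ≤ (Real.sqrt q) ^ 2 := by gcongr
          _ = q := Real.sq_sqrt hq0.le
      · have h7 : q ≤ (x / max x z) ^ 2 := by
          calc q = (Real.sqrt q) ^ 2 := (Real.sq_sqrt hq0.le).symm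
            _ ≤ (x / max x z) ^ 2 := by gcongr
        rw [max_eq_left h, max_eq_left h7]
    rw [e1, max_mul_of_nonneg _ _ (by positivity)]
    congr 1
    field_simp
  rw [hal]
  unfold nm
  rcases le_or_gt z x with hzx | hxz
  · -- `N = x`
    rw [max_eq_left hzx] at hpos
    rw [max_eq_left hzx]
    have hx4 : 0 < x ^ 4 := by positivity
    have hr : max (x ^ 2 * x ^ 2) (q * x ^ 4) = x ^ 4 := by
      rw [max_eq_left (by nlinarith)]
      ring
    rw [hr]
    have hF : v (dF b4 b6 b8 X Z) = x ^ 4 := by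
      have e : dF b4 b6 b8 X Z =
          X ^ 4 + (-(b4 * X ^ 2 * Z ^ 2) + (-(2 * b6 * X * Z ^ 3)) + (-(b8 * Z ^ 4))) := by
        unfold dF; ring
      rw [e, dom_eq v hv, t1]
      rw [t1]
      refine lt_of_le_of_lt (hv _ _) (max_lt (lt_of_le_of_lt (hv _ _) (max_lt ?_ ?_)) ?_)
      · rw [v.map_neg]
        refine lt_of_le_of_lt t2 ?_
        calc q * x ^ 2 * z ^ 2 ≤ q * x ^ 2 * x ^ 2 := by gcongr
          _ < x ^ 4 := by nlinarith
      · rw [v.map_neg]
        refine lt_of_le_of_lt t3 ?_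
        calc q * x * z ^ 3 ≤ q * x * x ^ 3 := by gcongr
          _ < x ^ 4 := by nlinarith
      · rw [v.map_neg, t4]
        calc q * z ^ 4 ≤ q * x ^ 4 := by gcongr
          _ < x ^ 4 := by nlinarith
    rw [hF]
    apply max_eq_left
    apply bG
    · calc x ^ 3 * z ≤ x ^ 3 * x := by gcongr
        _ = x ^ 4 := by ring
    · calc x ^ 2 * z ^ 2 ≤ x ^ 2 * x ^ 2 := by gcongr
        _ = x ^ 4 := by ring
    · calc q * x * z ^ 3 ≤ 1 * x * x ^ 3 := by gcongr
        _ = x ^ 4 := by ring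
    · calc q * z ^ 4 ≤ 1 * x ^ 4 := by gcongr
        _ = x ^ 4 := by ring
  · rw [max_eq_right hxz.le] at hpos
    rw [max_eq_right hxz.le]
    rcases lt_or_ge (q * z ^ 2) (x ^ 2) with hb | hb
    · -- `√q z < x < z`
      have hxpos : 0 < x := by
        have : 0 < x ^ 2 := lt_of_le_of_lt (by positivity) hb
        exact lt_of_le_of_ne hx1 (fun h => by rw [← h] at this; simp at this)
      have hqz : q * z < x := by
        by_contra hcon
        push Not at hcon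
        have : x ^ 2 ≤ q * z ^ 2 := by
          calc x ^ 2 = x * x := by ring
            _ ≤ (q * z) * z := by gcongr
            _ = q * z ^ 2 := by ring
        linarith
      have hr : max (x ^ 2 * z ^ 2) (q * z ^ 4) = x ^ 2 * z ^ 2 := by
        apply max_eq_left
        calc q * z ^ 4 = (q * z ^ 2) * z ^ 2 := by ring
          _ ≤ x ^ 2 * z ^ 2 := by gcongr
      rw [hr]
      have c1 : x ^ 3 * z < x ^ 2 * z ^ 2 := by
        have : x ^ 2 * z * x < x ^ 2 * z * z := by gcongr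
        nlinarith
      have c3 : q * x * z ^ 3 < x ^ 2 * z ^ 2 := by
        have : x * z ^ 2 * (q * z) < x * z ^ 2 * x := by gcongr
        nlinarith
      have c4 : q * z ^ 4 < x ^ 2 * z ^ 2 := by
        have : z ^ 2 * (q * z ^ 2) < z ^ 2 * x ^ 2 := by gcongr
        nlinarith
      have hG : l * v (dG b2 b4 b6 X Z) = x ^ 2 * z ^ 2 := by
        have e : dG b2 b4 b6 X Z =
            b2 * X ^ 2 * Z ^ 2 + (4 * X ^ 3 * Z + 2 * b4 * X * Z ^ 3 + b6 * Z ^ 4) := by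
          unfold dG; ring
        rw [e, dom_eq v hv, s2]
        have hlt : ∀ w : K, l * v w < x ^ 2 * z ^ 2 → v w < v (b2 * X ^ 2 * Z ^ 2) := by
          intro w hw
          rw [← s2] at hw
          exact lt_of_mul_lt_mul_left hw hl.le
        refine lt_of_le_of_lt (hv _ _) (max_lt (lt_of_le_of_lt (hv _ _) (max_lt ?_ ?_)) ?_)
        · exact hlt _ (lt_of_le_of_lt s1 c1)
        · exact hlt _ (lt_of_le_of_lt s3 c3)
        · exact hlt _ (lt_of_le_of_lt s4 c4)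
      rw [hG]
      apply max_eq_right
      apply bF
      · calc x ^ 4 = x ^ 2 * x ^ 2 := by ring
          _ ≤ x ^ 2 * z ^ 2 := by gcongr
      · calc q * x ^ 2 * z ^ 2 ≤ 1 * x ^ 2 * z ^ 2 := by gcongr
          _ = x ^ 2 * z ^ 2 := by ring
      · exact c3.le
      · exact c4.le
    · have hr : max (x ^ 2 * z ^ 2) (q * z ^ 4) = q * z ^ 4 := by
        apply max_eq_right
        calc x ^ 2 * z ^ 2 ≤ (q * z ^ 2) * z ^ 2 := by gcongr
          _ = q * z ^ 4 := by ring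
      rw [hr]
      have hz4 : 0 < q * z ^ 4 := by positivity
      have d1 : x ^ 4 < q * z ^ 4 := by
        calc x ^ 4 = x ^ 2 * x ^ 2 := by ring
          _ ≤ (q * z ^ 2) * (q * z ^ 2) := by gcongr
          _ = q * (q * z ^ 4) := by ring
          _ < q * z ^ 4 := by nlinarith
      have d2 : q * x ^ 2 * z ^ 2 < q * z ^ 4 := by
        calc q * x ^ 2 * z ^ 2 ≤ q * (q * z ^ 2) * z ^ 2 := by gcongr
          _ = q * (q * z ^ 4) := by ring
          _ < q * z ^ 4 := by nlinarith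
      have d3 : q * x * z ^ 3 < q * z ^ 4 := by
        calc q * x * z ^ 3 < q * z * z ^ 3 := by gcongr
          _ = q * z ^ 4 := by ring
      have hF : v (dF b4 b6 b8 X Z) = q * z ^ 4 := by
        have e : dF b4 b6 b8 X Z =
            -(b8 * Z ^ 4) + (X ^ 4 + (-(b4 * X ^ 2 * Z ^ 2)) + (-(2 * b6 * X * Z ^ 3))) := by
          unfold dF; ring
        rw [e, dom_eq v hv, v.map_neg, t4]
        rw [v.map_neg, t4]
        refine lt_of_le_of_lt (hv _ _) (max_lt (lt_of_le_of_lt (hv _ _) (max_lt ?_ ?_)) ?_)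
        · rw [t1]; exact d1
        · rw [v.map_neg]
          exact lt_of_le_of_lt t2 d2
        · rw [v.map_neg]
          exact lt_of_le_of_lt t3 d3
      rw [hF]
      apply max_eq_left
      apply bG
      · calc x ^ 3 * z = x ^ 2 * (x * z) := by ring
          _ ≤ (q * z ^ 2) * (z * z) := by gcongr
          _ = q * z ^ 4 := by ring
      · calc x ^ 2 * z ^ 2 ≤ (q * z ^ 2) * z ^ 2 := by gcongr
          _ = q * z ^ 4 := by ring
      · exact d3.le
      · exact le_rfl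

end Pool.Agent.Helper86.LH
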