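import Pool.Agent.Helper86.LH.Pts
import Pool.Agent.Helper86.LH.Glob
import Pool.Agent.Helper86.LH.Arch
import Pool.Agent.Helper86.LH.Good

/-!
Local doubling inequalities for the two kinds of local norms.
-/

namespace Pool.Agent.Helper86.LH

open WeierstrassCurve WeierstrassCurve.Affine WeierstrassCurve.Affine.Point
open Pool.Agent.Helper51.Par

section ineq

variable {K : Type*} [Field K] (W : WeierstrassCurve.Affine K)

/-- `|Δ|^(1/6)`. -/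
noncomputable def Dv (v : AbsoluteValue K ℝ) : ℝ := (v W.Δ) ^ ((1 : ℝ) / 6)

/-- Logarithmic local norm, short coordinate. -/
noncomputable def locA (v : AbsoluteValue K ℝ) (X Z : K) : ℝ :=
  Real.log (nm v (Dv W v) (X + W.b₂ / 12 * Z) Z)

/-- Logarithmic local norm, coordinate centred at the node. -/
noncomputable def locM (v : AbsoluteValue K ℝ) (X Z : K) : ℝ :=
  Real.log (nm v (lv W v) (X - rr W * Z) Z)

variable {W}

theorem Dv_pos (hΔ : W.Δ ≠ 0) (v : AbsoluteValue K ℝ) : 0 < Dv W v :=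
  Real.rpow_pos_of_pos (v.pos hΔ) _

theorem Dv_pow (v : AbsoluteValue K ℝ) : Dv W v ^ 6 = v W.Δ := by
  rw [Dv, ← Real.rpow_natCast, ← Real.rpow_mul (v.nonneg _)]
  norm_num

theorem log_Dv (v : AbsoluteValue K ℝ) (hΔ : W.Δ ≠ 0) :
    Real.log (Dv W v) = 1 / 6 * Real.log (v W.Δ) := by
  rw [Dv, Real.log_rpow (v.pos hΔ)]

theorem or_add {X Z : K} (h : X ≠ 0 ∨ Z ≠ 0) (r : K) : X + r * Z ≠ 0 ∨ Z ≠ 0 := by
  by_cases h1 : Z = 0
  · left
    rw [h1, mul_zero, add_zero]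
    exact h.resolve_right (not_not.mpr h1)
  · exact Or.inr h1

theorem or_sub {X Z : K} (h : X ≠ 0 ∨ Z ≠ 0) (r : K) : X - r * Z ≠ 0 ∨ Z ≠ 0 := by
  by_cases h1 : Z = 0
  · left
    rw [h1, mul_zero, sub_zero]
    exact h.resolve_right (not_not.mpr h1)
  · exact Or.inr h1

theorem nm_scale (v : AbsoluteValue K ℝ) (l : ℝ) (c X Z : K) :
    nm v l (c * X) (c * Z) = v c * nm v l X Z := by
  rw [nm, nm, map_mul, map_mul, mul_max_of_nonneg _ _ (v.nonneg c)]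
  congr 1
  ring

theorem locA_scale (hΔ : W.Δ ≠ 0) (v : AbsoluteValue K ℝ) {c X Z : K} (hc : c ≠ 0)
    (h : X ≠ 0 ∨ Z ≠ 0) : locA W v (c * X) (c * Z) = Real.log (v c) + locA W v X Z := by
  rw [locA, show c * X + W.b₂ / 12 * (c * Z) = c * (X + W.b₂ / 12 * Z) by ring, nm_scale,
    Real.log_mul (v.pos hc).ne' (nm_pos v (Dv_pos hΔ v) (or_add h _)).ne', locA]

theorem locM_scale {v : AbsoluteValue K ℝ} (hm : IsMul W v) {c X Z : K} (hc : c ≠ 0)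
    (h : X ≠ 0 ∨ Z ≠ 0) : locM W v (c * X) (c * Z) = Real.log (v c) + locM W v X Z := by
  rw [locM, show c * X - rr W * (c * Z) = c * (X - rr W * Z) by ring, nm_scale,
    Real.log_mul (v.pos hc).ne' (nm_pos v hm.lv_pos (or_sub h _)).ne', locM]

theorem lognm_scale (v : AbsoluteValue K ℝ) {c X Z : K} (hc : c ≠ 0) (h : X ≠ 0 ∨ Z ≠ 0) :
    Real.log (nm v 1 (c * X) (c * Z)) = Real.log (v c) + Real.log (nm v 1 X Z) := by
  rw [nm_scale, Real.log_mul (v.pos hc).ne' (nm_pos v one_pos h).ne']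

/-- Doubling at a place with `|j| > 1`. -/
theorem locM_dbl (hΔ : W.Δ ≠ 0) {v : AbsoluteValue K ℝ} (hv : IsNonarchimedean v)
    (hm : IsMul W v) {X Z : K} (h : X ≠ 0 ∨ Z ≠ 0) :
    locM W v (dF W.b₄ W.b₆ W.b₈ X Z) (dG W.b₂ W.b₄ W.b₆ X Z) =
      4 * locM W v X Z + 2 * (tt v (lv W v) (qv W v) (X - rr W * Z) Z * Real.log (qv W v)) := by
  obtain ⟨s2, s4, s6, s8⟩ := tr_sizes W v hv hΔ hm
  have h' := or_sub h (rr W)
  have key := dbl_size v hv (hm.qv_pos hΔ) hm.qv_lt hm.lv_pos s2 s4 s6 s8 h'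
  rw [tr_dF, tr_dG] at key
  have hal : 0 < al v (lv W v) (qv W v) (X - rr W * Z) Z :=
    lt_of_lt_of_le (Real.sqrt_pos.mpr (hm.qv_pos hΔ)) (le_max_right _ _)
  have hn := nm_pos v hm.lv_pos h'
  have hlq : Real.log (qv W v) ≠ 0 := (Real.log_neg (hm.qv_pos hΔ) hm.qv_lt).ne
  rw [locM, key, Real.log_mul (pow_pos hal 2).ne' (pow_pos hn 4).ne', Real.log_pow, Real.log_pow,
    tt, div_mul_cancel₀ _ hlq, locM]
  push_cast
  ring

/-- Doubling at a nonarchimedean place with `|j| ≤ 1`. -/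
theorem locA_dbl_good (hΔ : W.Δ ≠ 0) (h6 : (6 : K) ≠ 0) {v : AbsoluteValue K ℝ}
    (hv : IsNonarchimedean v) (hm : ¬ IsMul W v) {X Z : K} (h : X ≠ 0 ∨ Z ≠ 0)
    (h' : dF W.b₄ W.b₆ W.b₈ X Z ≠ 0 ∨ dG W.b₂ W.b₄ W.b₆ X Z ≠ 0) :
    24 * Real.log (v 6) + 4 * locA W v X Z ≤
      locA W v (dF W.b₄ W.b₆ W.b₈ X Z) (dG W.b₂ W.b₄ W.b₆ X Z) := by
  have hD := Dv_pos hΔ v
  have e : Dv W v ^ 6 = v (16 * (4 * (-W.c₄ / 48) ^ 3 + 27 * (-W.c₆ / 864) ^ 2)) := by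
    rw [sh_disc W h6, map_neg_eq_map, Dv_pow]
  have h48 : (48 : K) ≠ 0 := by
    intro h0
    apply h6
    have h2 : (6 : K) * 6 * 6 * 6 = 48 * 27 := by norm_num
    rw [h0, zero_mul] at h2
    have h3 : ((6 : K)) ^ 4 = 0 := by linear_combination h2
    exact pow_eq_zero_iff (by norm_num) |>.mp h3
  have hJ : v (48 * (-W.c₄ / 48)) ^ 3 ≤ Dv W v ^ 6 := by
    rw [mul_div_cancel₀ _ h48, map_neg_eq_map, Dv_pow]
    exact not_lt.mp hm
  have key := good_ineq v hv h6 hD e hJ (X + W.b₂ / 12 * Z) Z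
  rw [sh_dF W h6, sh_dG W h6] at key
  have hn := nm_pos v hD (or_add h (W.b₂ / 12))
  have h6' : 0 < v 6 := v.pos h6
  have := Real.log_le_log (mul_pos (pow_pos h6' 24) (pow_pos hn 4)) key
  rw [Real.log_mul (pow_pos h6' 24).ne' (pow_pos hn 4).ne', Real.log_pow, Real.log_pow] at this
  rw [locA, locA]
  push_cast at this
  exact this

/-- Doubling at an archimedean place. -/
theorem locA_dbl_arch (hΔ : W.Δ ≠ 0) (h6 : (6 : K) ≠ 0) {v : AbsoluteValue K ℝ}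
    (v2 : v 2 = 2) (v3 : v 3 = 3) {X Z : K} (h : X ≠ 0 ∨ Z ≠ 0)
    (h' : dF W.b₄ W.b₆ W.b₈ X Z ≠ 0 ∨ dG W.b₂ W.b₄ W.b₆ X Z ≠ 0) :
    4 * locA W v X Z - (Real.log 1000 + 2 * Real.log (max 1 (v W.c₄ ^ 3 / v W.Δ))) ≤
      locA W v (dF W.b₄ W.b₆ W.b₈ X Z) (dG W.b₂ W.b₄ W.b₆ X Z) := by
  have hD := Dv_pos hΔ v
  have e : Dv W v ^ 6 = v (16 * (4 * (-W.c₄ / 48) ^ 3 + 27 * (-W.c₆ / 864) ^ 2)) := by
    rw [sh_disc W h6, map_neg_eq_map, Dv_pow]
  have h48 : (48 : K) ≠ 0 := by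
    intro h0
    apply h6
    have h2 : (6 : K) * 6 * 6 * 6 = 48 * 27 := by norm_num
    rw [h0, zero_mul] at h2
    have h3 : ((6 : K)) ^ 4 = 0 := by linear_combination h2
    exact pow_eq_zero_iff (by norm_num) |>.mp h3
  set J := max 1 (v W.c₄ ^ 3 / v W.Δ) with hJdef
  have hJ1 : 1 ≤ J := le_max_left _ _
  have hJ0 : 0 < J := by linarith
  have hJ : v (48 * (-W.c₄ / 48)) ^ 3 ≤ J * Dv W v ^ 6 := by
    rw [mul_div_cancel₀ _ h48, map_neg_eq_map, Dv_pow]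
    have h1 : v W.c₄ ^ 3 / v W.Δ ≤ J := le_max_right _ _
    exact (div_le_iff₀ (v.pos hΔ)).mp h1
  have key := arch_ineq v v2 v3 hD e hJ1 hJ (X + W.b₂ / 12 * Z) Z
  rw [sh_dF W h6, sh_dG W h6] at key
  have hn := nm_pos v hD (or_add h (W.b₂ / 12))
  have hn' := nm_pos v hD (or_add h' (W.b₂ / 12))
  have := Real.log_le_log (pow_pos hn 4) key
  rw [Real.log_mul (by positivity) hn'.ne', Real.log_mul (by norm_num) (by positivity),
    Real.log_pow, Real.log_pow] at this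
  rw [locA, locA]
  push_cast at this
  linarith

/-- Places of good reduction of the model. -/
theorem out_dbl (hΔ : W.Δ ≠ 0) (h6 : (6 : K) ≠ 0) {v : AbsoluteValue K ℝ}
    (hv : IsNonarchimedean v) (v6 : v 6 = 1) (vΔ : v W.Δ = 1) (vb : v (W.b₂ / 12) ≤ 1)
    (vc : v W.c₄ ≤ 1) {X Z : K} (h : X ≠ 0 ∨ Z ≠ 0)
    (h' : dF W.b₄ W.b₆ W.b₈ X Z ≠ 0 ∨ dG W.b₂ W.b₄ W.b₆ X Z ≠ 0) :
    4 * Real.log (nm v 1 X Z) ≤
      Real.log (nm v 1 (dF W.b₄ W.b₆ W.b₈ X Z) (dG W.b₂ W.b₄ W.b₆ X Z)) := by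
  have hm : ¬ IsMul W v := by
    rw [IsMul, vΔ, not_lt]
    exact pow_le_one₀ (v.nonneg _) vc
  have hD1 : Dv W v = 1 := by rw [Dv, vΔ, Real.one_rpow]
  have key := locA_dbl_good hΔ h6 hv hm h h'
  rw [v6, Real.log_one, mul_zero, zero_add, locA, locA, hD1] at key
  have h1 : nm v 1 X Z ≤ nm v 1 (X + W.b₂ / 12 * Z) Z := by
    apply max_le
    · have e : X = (X + W.b₂ / 12 * Z) + -(W.b₂ / 12 * Z) := by ring
      calc v X = v ((X + W.b₂ / 12 * Z) + -(W.b₂ / 12 * Z)) := by rw [← e]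
        _ ≤ max (v (X + W.b₂ / 12 * Z)) (v (-(W.b₂ / 12 * Z))) := hv _ _
        _ ≤ nm v 1 (X + W.b₂ / 12 * Z) Z := by
          apply max_le_max le_rfl
          rw [map_neg_eq_map, map_mul]
          exact mul_le_mul_of_nonneg_right vb (v.nonneg _)
    · exact le_max_right _ _
  have h2 : ∀ Y0 Y1 : K, nm v 1 (Y0 + W.b₂ / 12 * Y1) Y1 ≤ nm v 1 Y0 Y1 := by
    intro Y0 Y1
    apply max_le
    · refine (hv _ _).trans (max_le_max le_rfl ?_)
      rw [map_mul]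
      exact mul_le_mul_of_nonneg_right vb (v.nonneg _)
    · exact le_max_right _ _
  have e1 := Real.log_le_log (nm_pos v one_pos h) h1
  have e2 := Real.log_le_log (nm_pos v one_pos (or_add h' (W.b₂ / 12)))
    (h2 (dF W.b₄ W.b₆ W.b₈ X Z) (dG W.b₂ W.b₄ W.b₆ X Z))
  linarith

end ineq

section dbl

variable {K : Type*} [Field K] [DecidableEq K] (W : WeierstrassCurve.Affine K) [W.IsElliptic]

/-- The duplication forms at a point. -/
theorem dbl_point (P : W.Point) : ∃ c : K, c ≠ 0 ∧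
    dF W.b₄ W.b₆ W.b₈ (P.xRep 0) (P.xRep 1) = c * (2 • P).xRep 0 ∧
    dG W.b₂ W.b₄ W.b₆ (P.xRep 0) (P.xRep 1) = c * (2 • P).xRep 1 := by
  obtain ⟨c, hc, he⟩ := addSubMap_sym2x W P P
  rw [addSubMap_eval, sub_self, ← two_nsmul] at he
  have e0 := congrFun he 0
  have e1 := congrFun he 1
  simp only [sym2x, Matrix.cons_val_zero, Matrix.cons_val_one, Matrix.cons_val, Pi.smul_apply,
    smul_eq_mul, xRep_zero, mul_one, mul_zero, zero_add] at e0 e1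
  refine ⟨c, hc, ?_, ?_⟩
  · rw [← e0, dF]
    ring
  · rw [← e1, dG]
    ring

end dbl

end Pool.Agent.Helper86.LH
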