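import Pool.Agent.Helper86.LH.Phi
import Pool.Agent.Helper86.LH.Canon
import Pool.Agent.Helper86.LH.DN

/-!
The main inequality: `m² H(P) ≥ ∑_{|j|_v > 1} log |j|_v B₂(m θ_v) - 17 d - h_∞`.
-/

open Height AdmissibleAbsValues Filter Topology

namespace Pool.Agent.Helper86.LH

open WeierstrassCurve WeierstrassCurve.Affine WeierstrassCurve.Affine.Point

variable {K : Type*} [Field K] [AdmissibleAbsValues K] [DecidableEq K]
  (W : WeierstrassCurve.Affine K) [W.IsElliptic]

/-- `log |j|_v`. -/
noncomputable def nj (v : AbsoluteValue K ℝ) : ℝ := -Real.log (qv W v)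

/-- Archimedean constant. -/
noncomputable def ca : ℝ :=
  asum K (fun v => Real.log 1000 + 2 * Real.log (max 1 (v W.c₄ ^ 3 / v W.Δ)))

open Classical in
/-- Constant of the bad set. -/
noncomputable def cb (S : Finset (NV K)) : ℝ :=
  ∑ v ∈ S, (if IsMul W v.val then 0 else -(24 * Real.log (v.val 6)))

open Classical in
/-- Modified height of a point. -/
noncomputable def Wt (S : Finset (NV K)) (P : W.Point) : ℝ :=
  Ph W S (P.xRep 0) (P.xRep 1) - (ca W + cb W S) / 3 -
    ∑ v ∈ S, (if IsMul W v.val then nj W v.val * (tv W v.val P * (1 - tv W v.val P)) else 0)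

variable {W}

omit [AdmissibleAbsValues K] [DecidableEq K] [W.IsElliptic] in
theorem xRep_or' (P : W.Point) : P.xRep 0 ≠ 0 ∨ P.xRep 1 ≠ 0 := by
  by_contra hc
  rw [not_or, not_not, not_not] at hc
  apply xRep_ne_zero P
  ext i
  fin_cases i
  · exact hc.1
  · exact hc.2

omit [AdmissibleAbsValues K] in
theorem tv_two {v : AbsoluteValue K ℝ} (hv : IsNonarchimedean v) (h : IsMul W v) (P : W.Point) :
    tv W v (2 • P) = min (2 * tv W v P) (1 - 2 * tv W v P) := by
  have hΔ : W.Δ ≠ 0 := W.isUnit_Δ.ne_zero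
  have := tv_law hv h P P
  rw [sub_self, tv_zero h hΔ, ← two_nsmul, sub_self, abs_zero] at this
  rw [add_zero, zero_add, ← two_mul] at this
  exact this

omit [AdmissibleAbsValues K] in
theorem quad_two {v : AbsoluteValue K ℝ} (hv : IsNonarchimedean v) (h : IsMul W v)
    (P : W.Point) :
    2 * tv W v P + tv W v (2 • P) * (1 - tv W v (2 • P)) =
      4 * (tv W v P * (1 - tv W v P)) := by
  rw [tv_two hv h P]
  rcases le_total (2 * tv W v P) (1 - 2 * tv W v P) with h1 | h1
  · rw [min_eq_left h1]; ring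
  · rw [min_eq_right h1]; ring

theorem Wt_two (h6 : (6 : K) ≠ 0)
    (harch : ∀ v ∈ (archAbsVal : Multiset (AbsoluteValue K ℝ)), v 2 = 2 ∧ v 3 = 3)
    {S : Finset (NV K)} (hS : Big W S) (P : W.Point) :
    4 * Wt W S P ≤ Wt W S (2 • P) := by
  classical
  have hΔ : W.Δ ≠ 0 := W.isUnit_Δ.ne_zero
  obtain ⟨c, hc, e0, e1⟩ := dbl_point W P
  have h := xRep_or' P
  have h2 := xRep_or' (2 • P)
  have h' : dF W.b₄ W.b₆ W.b₈ (P.xRep 0) (P.xRep 1) ≠ 0 ∨
      dG W.b₂ W.b₄ W.b₆ (P.xRep 0) (P.xRep 1) ≠ 0 := by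
    rw [e0, e1]
    rcases h2 with h2 | h2
    · exact Or.inl (mul_ne_zero hc h2)
    · exact Or.inr (mul_ne_zero hc h2)
  have key := Ph_dbl hΔ h6 harch hS h h'
  rw [e0, e1, Ph_scale hΔ S hc h2] at key
  have hsum : ∑ v ∈ S, (4 * (if IsMul W v.val then
        nj W v.val * (tv W v.val P * (1 - tv W v.val P)) else 0) +
      er W v.val (P.xRep 0) (P.xRep 1)) =
      ∑ v ∈ S, ((if IsMul W v.val then
        nj W v.val * (tv W v.val (2 • P) * (1 - tv W v.val (2 • P))) else 0) -
      (if IsMul W v.val then 0 else -(24 * Real.log (v.val 6)))) := by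
    apply Finset.sum_congr rfl
    intro v _
    unfold er
    split_ifs with hm
    · have hq := quad_two (isNonarchimedean v.val v.2) hm P
      have e : tt v.val (lv W v.val) (qv W v.val) (P.xRep 0 - rr W * P.xRep 1) (P.xRep 1) =
        tv W v.val P := rfl
      rw [e, nj]
      linear_combination Real.log (qv W v.val) * hq
    · ring
  rw [Finset.sum_add_distrib, ← Finset.mul_sum, Finset.sum_sub_distrib] at hsum
  unfold Wt cb ca
  linarith

theorem Wt_iter (h6 : (6 : K) ≠ 0)
    (harch : ∀ v ∈ (archAbsVal : Multiset (AbsoluteValue K ℝ)), v 2 = 2 ∧ v 3 = 3)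
    {S : Finset (NV K)} (hS : Big W S) (P : W.Point) (k : ℕ) :
    4 ^ k * Wt W S P ≤ Wt W S (2 ^ k • P) := by
  induction k with
  | zero => simp
  | succ k ih =>
    have h1 := Wt_two h6 harch hS (2 ^ k • P)
    have e : (2 : ℕ) • (2 ^ k • P) = 2 ^ (k + 1) • P := by
      rw [← mul_nsmul, pow_succ]
    rw [e] at h1
    have e2 : (4 : ℝ) ^ (k + 1) * Wt W S P = 4 * (4 ^ k * Wt W S P) := by ring
    rw [e2]
    linarith

theorem Wt_le_height (h6 : (6 : K) ≠ 0)
    (harch : ∀ v ∈ (archAbsVal : Multiset (AbsoluteValue K ℝ)), v 2 = 2 ∧ v 3 = 3)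
    {S : Finset (NV K)} (hS : Big W S) (P : W.Point) {H : ℝ}
    (hH : Tendsto (fun k : ℕ => logHeight ((2 ^ k • P).xRep) / 4 ^ k) atTop (𝓝 H)) :
    Wt W S P ≤ H := by
  classical
  have hΔ : W.Δ ≠ 0 := W.isUnit_Δ.ne_zero
  obtain ⟨B, hB⟩ := Ph_le hΔ S
  set C := B + |(ca W + cb W S) / 3| with hC
  have hup : ∀ Q : W.Point, Wt W S Q ≤ logHeight Q.xRep + C := by
    intro Q
    have h1 := hB (Q.xRep 0) (Q.xRep 1) (xRep_or' Q)
    have e : ![Q.xRep 0, Q.xRep 1] = Q.xRep := by
      ext i; fin_cases i <;> rfl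
    rw [e] at h1
    have h2 : 0 ≤ ∑ v ∈ S, (if IsMul W v.val then
        nj W v.val * (tv W v.val Q * (1 - tv W v.val Q)) else 0) := by
      apply Finset.sum_nonneg
      intro v _
      split_ifs with hm
      · have hb := tv_bounds hm hΔ Q
        have hn : 0 ≤ nj W v.val := by
          rw [nj, neg_nonneg]
          exact (Real.log_neg (hm.qv_pos hΔ) hm.qv_lt).le
        exact mul_nonneg hn (mul_nonneg hb.1 (by linarith [hb.2]))
      · exact le_rfl
    have h3 := neg_abs_le ((ca W + cb W S) / 3)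
    unfold Wt
    linarith
  have hk : ∀ k : ℕ, Wt W S P - C / 4 ^ k ≤ logHeight ((2 ^ k • P).xRep) / 4 ^ k := by
    intro k
    have h1 := Wt_iter h6 harch hS P k
    have h2 := hup (2 ^ k • P)
    have h4 : (0 : ℝ) < 4 ^ k := by positivity
    rw [le_div_iff₀ h4, sub_mul, div_mul_cancel₀ _ h4.ne']
    linarith
  have hlim : Tendsto (fun k : ℕ => Wt W S P - C / 4 ^ k) atTop (𝓝 (Wt W S P - 0)) := by
    apply Tendsto.sub tendsto_const_nhds
    exact tendsto_const_nhds.div_atTop (tendsto_pow_atTop_atTop_of_one_lt (by norm_num))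
  rw [sub_zero] at hlim
  exact le_of_tendsto_of_tendsto' hlim hH hk

/-- Bound for the constants. -/
theorem const_le (h6 : (6 : K) ≠ 0)
    (harch : ∀ v ∈ (archAbsVal : Multiset (AbsoluteValue K ℝ)), v 2 = 2 ∧ v 3 = 3)
    {S : Finset (NV K)} (hS : Big W S) :
    (ca W + cb W S) / 3 ≤ 17 * totalWeight K +
      asum K (fun v => Real.log (max 1 (v W.c₄ ^ 3 / v W.Δ))) := by
  classical
  have hp := log_prod_formula h6 S (fun v hv => hS.six v hv)
  have hA : asum K (fun v => Real.log (v 6)) = totalWeight K * Real.log 6 := by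
    rw [← asum_const]
    apply asum_congr
    intro v hv
    have h1 := harch v hv
    rw [show (6 : K) = 2 * 3 by norm_num, map_mul, h1.1, h1.2]
    norm_num
  have hcb : cb W S ≤ 24 * (totalWeight K * Real.log 6) := by
    have h1 : cb W S ≤ ∑ v ∈ S, -(24 * Real.log (v.val 6)) := by
      unfold cb
      apply Finset.sum_le_sum
      intro v _
      split_ifs with hm
      · have hle : v.val 6 ≤ 1 := by
          have h6' : v.val ((6 : ℕ) : K) ≤ 1 :=
            IsNonarchimedean.apply_natCast_le_one (isNonarchimedean v.val v.2)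
          simpa using h6'
        have := Real.log_nonpos (v.val.nonneg 6) hle
        linarith
      · exact le_rfl
    have h2 : ∑ v ∈ S, -(24 * Real.log (v.val 6)) = -(24 * ∑ v ∈ S, Real.log (v.val 6)) := by
      rw [Finset.sum_neg_distrib, ← Finset.mul_sum]
    rw [h2] at h1
    unfold asum at hA
    linarith
  have hca : ca W = totalWeight K * Real.log 1000 +
      2 * asum K (fun v => Real.log (max 1 (v W.c₄ ^ 3 / v W.Δ))) := by
    unfold ca
    rw [asum_add, asum_const, asum_mul]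
  have hpos : 0 ≤ asum K (fun v => Real.log (max 1 (v W.c₄ ^ 3 / v W.Δ))) := by
    have := asum_le (K := K) (f := fun _ => (0 : ℝ))
      (g := fun v => Real.log (max 1 (v W.c₄ ^ 3 / v W.Δ)))
      (fun v _ => Real.log_nonneg (le_max_left _ _))
    rw [asum_const, mul_zero] at this
    exact this
  have hlog : Real.log 1000 + 24 * Real.log 6 ≤ 51 := by
    have h1 : Real.log 1000 + 24 * Real.log 6 = Real.log (1000 * 6 ^ 24) := by
      rw [Real.log_mul (by norm_num) (by norm_num), Real.log_pow]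
      push_cast
      ring
    rw [h1, Real.log_le_iff_le_exp (by norm_num)]
    have h2 : (1000 : ℝ) * 6 ^ 24 ≤ 2.7182818283 ^ 51 := by norm_num
    refine h2.trans ?_
    have h3 : (2.7182818283 : ℝ) ≤ Real.exp 1 := Real.exp_one_gt_d9.le
    calc (2.7182818283 : ℝ) ^ 51 ≤ Real.exp 1 ^ 51 := pow_le_pow_left₀ (by norm_num) h3 51
      _ = Real.exp 51 := by rw [← Real.exp_nat_mul]; norm_num
  have hd : (0 : ℝ) ≤ totalWeight K := Nat.cast_nonneg _
  rw [hca]
  nlinarith [mul_le_mul_of_nonneg_left hlog hd]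

open Classical in
/-- Lower bound for the canonical height of a nonzero point. -/
theorem height_lower (h6 : (6 : K) ≠ 0)
    (harch : ∀ v ∈ (archAbsVal : Multiset (AbsoluteValue K ℝ)), v 2 = 2 ∧ v 3 = 3)
    {S : Finset (NV K)} (hS : Big W S) (P : W.Point) (hP : P ≠ 0) {H : ℝ}
    (hH : Tendsto (fun k : ℕ => logHeight ((2 ^ k • P).xRep) / 4 ^ k) atTop (𝓝 H)) :
    ∑ v ∈ S, (if IsMul W v.val then
        nj W v.val * (1 / 6 - tv W v.val P * (1 - tv W v.val P)) else 0) -
      (17 * totalWeight K + asum K (fun v => Real.log (max 1 (v W.c₄ ^ 3 / v W.Δ)))) ≤ H := by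
  have hΔ : W.Δ ≠ 0 := W.isUnit_Δ.ne_zero
  have h1 := Wt_le_height h6 harch hS P hH
  have h2 := const_le h6 harch hS (W := W)
  have h3 : 1 / 6 * ∑ v ∈ S, (if IsMul W v.val then -Real.log (qv W v.val) else 0) ≤
      Ph W S (P.xRep 0) (P.xRep 1) := by
    match P, hP with
    | Point.some x y hxy, _ =>
      exact Ph_ge hΔ hS x
    | 0, hP => exact absurd rfl hP
  have h4 : ∑ v ∈ S, (if IsMul W v.val then
        nj W v.val * (1 / 6 - tv W v.val P * (1 - tv W v.val P)) else 0) =
      1 / 6 * ∑ v ∈ S, (if IsMul W v.val then -Real.log (qv W v.val) else 0) -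
      ∑ v ∈ S, (if IsMul W v.val then
        nj W v.val * (tv W v.val P * (1 - tv W v.val P)) else 0) := by
    rw [Finset.mul_sum, ← Finset.sum_sub_distrib]
    apply Finset.sum_congr rfl
    intro v _
    split_ifs with hm
    · rw [nj]; ring
    · ring
  rw [h4]
  unfold Wt at h1
  linarith

omit [AdmissibleAbsValues K] in
/-- Component coordinates of the multiples. -/
theorem tv_mul {v : AbsoluteValue K ℝ} (hv : IsNonarchimedean v) (h : IsMul W v) (P : W.Point)
    (m : ℕ) : tv W v (m • P) = dn (m * tv W v P) := by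
  have hΔ : W.Δ ≠ 0 := W.isUnit_Δ.ne_zero
  have hb := tv_bounds h hΔ P
  have key := dn_seq (fun m : ℕ => tv W v (m • P)) 0 le_rfl
    (by simp only [zero_nsmul]; exact tv_zero h hΔ)
    (by simpa only [one_nsmul] using hb.1) (by simpa only [one_nsmul] using hb.2)
    (fun m => by
      have e1 : (m + 1) • P + P = (m + 2) • P := by rw [← succ_nsmul]
      have e2 : (m + 1) • P - P = m • P := by rw [succ_nsmul, add_sub_cancel_right]
      have := tv_law hv h ((m + 1) • P) P
      rw [e1, e2] at this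
      simp only [one_nsmul]
      rw [this, sub_self, abs_zero]) m
  rw [mul_zero] at key
  have := abs_nonpos_iff.mp key
  simp only [one_nsmul] at this
  linarith

end Pool.Agent.Helper86.LH
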