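import Pool.Agent.Helper86.LH.Loc

/-!
The modified height `Φ` and its behaviour under doubling.
-/

open Height AdmissibleAbsValues

namespace Pool.Agent.Helper86.LH

open WeierstrassCurve WeierstrassCurve.Affine WeierstrassCurve.Affine.Point

section asum

variable (K : Type*) [Field K] [AdmissibleAbsValues K]

/-- Sum over the archimedean places. -/
noncomputable def asum (f : AbsoluteValue K ℝ → ℝ) : ℝ := (archAbsVal.map f).sum

variable {K}

theorem asum_add (f g : AbsoluteValue K ℝ → ℝ) :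
    asum K (fun v => f v + g v) = asum K f + asum K g := Multiset.sum_map_add

theorem asum_mul (c : ℝ) (f : AbsoluteValue K ℝ → ℝ) :
    asum K (fun v => c * f v) = c * asum K f := Multiset.sum_map_mul_left

theorem asum_sub (f g : AbsoluteValue K ℝ → ℝ) :
    asum K (fun v => f v - g v) = asum K f - asum K g := by
  have h := asum_add (fun v => f v - g v) g
  simp only [sub_add_cancel] at h
  linarith

theorem asum_le {f g : AbsoluteValue K ℝ → ℝ} (h : ∀ v ∈ archAbsVal, f v ≤ g v) :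
    asum K f ≤ asum K g := Multiset.sum_map_le_sum_map f g h

theorem asum_congr {f g : AbsoluteValue K ℝ → ℝ} (h : ∀ v ∈ archAbsVal, f v = g v) :
    asum K f = asum K g := by
  rw [asum, asum, Multiset.map_congr rfl h]

theorem asum_const (c : ℝ) : asum K (fun _ => c) = totalWeight K * c := by
  rw [asum, Multiset.map_const', Multiset.sum_replicate, nsmul_eq_mul]
  rfl

end asum

variable {K : Type*} [Field K] [AdmissibleAbsValues K] (W : WeierstrassCurve.Affine K)

/-- Nonarchimedean places. -/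
abbrev NV (K : Type*) [Field K] [AdmissibleAbsValues K] : Type _ :=
  (nonarchAbsVal : Set (AbsoluteValue K ℝ))

open Classical in
/-- Local norm at a place of `S`. -/
noncomputable def loc (v : AbsoluteValue K ℝ) (X Z : K) : ℝ :=
  if IsMul W v then locM W v X Z else locA W v X Z

/-- The modified height of a pair. -/
noncomputable def Ph (S : Finset (NV K)) (X Z : K) : ℝ :=
  logHeight ![X, Z] + asum K (fun v => locA W v X Z - Real.log (nm v 1 X Z)) +
    ∑ v ∈ S, (loc W v.val X Z - Real.log (nm v.val 1 X Z))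

variable {W}

/-- The set `S` is large enough. -/
structure Big (W : WeierstrassCurve.Affine K) (S : Finset (NV K)) : Prop where
  six : ∀ v, v ∉ S → v.val 6 = 1
  disc : ∀ v, v ∉ S → v.val W.Δ = 1
  b2 : ∀ v, v ∉ S → v.val (W.b₂ / 12) ≤ 1
  c4 : ∀ v, v ∉ S → v.val W.c₄ ≤ 1

theorem exists_big (hΔ : W.Δ ≠ 0) (h6 : (6 : K) ≠ 0) : ∃ S : Finset (NV K), Big W S := by
  classical
  refine ⟨(fin_val h6).toFinset ∪ (fin_val hΔ).toFinset ∪ (fin_gt (W.b₂ / 12)).toFinset ∪
    (fin_gt W.c₄).toFinset, ?_, ?_, ?_, ?_⟩ <;> intro v hv <;>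
    simp only [Finset.mem_union, Set.Finite.mem_toFinset, Set.mem_ofPred_eq, not_or, not_not,
      not_lt] at hv
  · exact hv.1.1.1
  · exact hv.1.1.2
  · exact hv.1.2
  · exact hv.2

theorem Big.not_mul {S : Finset (NV K)} (hS : Big W S) {v : NV K} (hv : v ∉ S) :
    ¬ IsMul W v.val := by
  rw [IsMul, hS.disc v hv, not_lt]
  exact pow_le_one₀ (v.val.nonneg _) (hS.c4 v hv)

omit [AdmissibleAbsValues K] in
theorem loc_scale (hΔ : W.Δ ≠ 0) (v : AbsoluteValue K ℝ) {c X Z : K} (hc : c ≠ 0)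
    (h : X ≠ 0 ∨ Z ≠ 0) : loc W v (c * X) (c * Z) = Real.log (v c) + loc W v X Z := by
  unfold loc
  split_ifs with hm
  · exact locM_scale hm hc h
  · exact locA_scale hΔ v hc h

theorem Ph_scale (hΔ : W.Δ ≠ 0) (S : Finset (NV K)) {c X Z : K} (hc : c ≠ 0)
    (h : X ≠ 0 ∨ Z ≠ 0) : Ph W S (c * X) (c * Z) = Ph W S X Z := by
  have e : ![c * X, c * Z] = c • ![X, Z] := by
    ext i
    fin_cases i <;> simp
  unfold Ph
  rw [e, logHeight_smul_eq_logHeight _ hc]
  congr 1
  · congr 1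
    apply asum_congr
    intro v _
    rw [locA_scale hΔ v hc h, lognm_scale v hc h]
    ring
  · apply Finset.sum_congr rfl
    intro v _
    rw [loc_scale hΔ v.val hc h, lognm_scale v.val hc h]
    ring

open Classical in
/-- The error term at a nonarchimedean place. -/
noncomputable def er (W : WeierstrassCurve.Affine K) (v : AbsoluteValue K ℝ) (X Z : K) : ℝ :=
  if IsMul W v then
    2 * (tt v (lv W v) (qv W v) (X - rr W * Z) Z * Real.log (qv W v))
  else 24 * Real.log (v 6)

/-- Doubling. -/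
theorem Ph_dbl (hΔ : W.Δ ≠ 0) (h6 : (6 : K) ≠ 0)
    (harch : ∀ v ∈ (archAbsVal : Multiset (AbsoluteValue K ℝ)), v 2 = 2 ∧ v 3 = 3)
    {S : Finset (NV K)} (hS : Big W S) {X Z : K} (h : X ≠ 0 ∨ Z ≠ 0)
    (h' : dF W.b₄ W.b₆ W.b₈ X Z ≠ 0 ∨ dG W.b₂ W.b₄ W.b₆ X Z ≠ 0) :
    4 * Ph W S X Z -
      asum K (fun v => Real.log 1000 + 2 * Real.log (max 1 (v W.c₄ ^ 3 / v W.Δ))) +
      ∑ v ∈ S, er W v.val X Z ≤
    Ph W S (dF W.b₄ W.b₆ W.b₈ X Z) (dG W.b₂ W.b₄ W.b₆ X Z) := by
  have key := height_compare h h' S (fun v hv => out_dbl hΔ h6 (isNonarchimedean v.val v.2)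
    (hS.six v hv) (hS.disc v hv) (hS.b2 v hv) (hS.c4 v hv) h h')
  have hA : asum K (fun v => 4 * locA W v X Z -
      (Real.log 1000 + 2 * Real.log (max 1 (v W.c₄ ^ 3 / v W.Δ)))) ≤
      asum K (fun v => locA W v (dF W.b₄ W.b₆ W.b₈ X Z) (dG W.b₂ W.b₄ W.b₆ X Z)) :=
    asum_le fun v hv => locA_dbl_arch hΔ h6 (harch v hv).1 (harch v hv).2 h h'
  have hB : ∑ v ∈ S, (4 * loc W v.val X Z + er W v.val X Z) ≤
      ∑ v ∈ S, loc W v.val (dF W.b₄ W.b₆ W.b₈ X Z) (dG W.b₂ W.b₄ W.b₆ X Z) := by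
    apply Finset.sum_le_sum
    intro v _
    unfold loc er
    split_ifs with hm
    · exact (locM_dbl hΔ (isNonarchimedean v.val v.2) hm h).ge
    · have := locA_dbl_good hΔ h6 (isNonarchimedean v.val v.2) hm h h'
      linarith
  rw [asum_sub, asum_mul] at hA
  rw [Finset.sum_add_distrib, ← Finset.mul_sum] at hB
  unfold Ph
  rw [asum_sub, asum_sub, Finset.sum_sub_distrib, Finset.sum_sub_distrib]
  unfold asum at *
  linarith

omit [AdmissibleAbsValues K] in
theorem locA_le (hΔ : W.Δ ≠ 0) (v : AbsoluteValue K ℝ) {X Z : K} (h : X ≠ 0 ∨ Z ≠ 0) :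
    locA W v X Z - Real.log (nm v 1 X Z) ≤ Real.log (1 + v (W.b₂ / 12) + Dv W v) := by
  have hD := Dv_pos hΔ v
  have hb := v.nonneg (W.b₂ / 12)
  have hn := nm_pos v one_pos h
  have hX : v X ≤ nm v 1 X Z := le_max_left _ _
  have hZ : v Z ≤ nm v 1 X Z := by
    refine le_trans ?_ (le_max_right _ _)
    rw [one_mul]
  rw [sub_le_iff_le_add, ← Real.log_mul (by positivity) hn.ne', locA]
  apply Real.log_le_log (nm_pos v hD (or_add h _))
  apply max_le
  · refine (v.add_le _ _).trans ?_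
    rw [map_mul]
    have h1 : v (W.b₂ / 12) * v Z ≤ v (W.b₂ / 12) * nm v 1 X Z :=
      mul_le_mul_of_nonneg_left hZ hb
    have h2 : 0 ≤ Dv W v * nm v 1 X Z := by positivity
    nlinarith
  · have h1 : Dv W v * v Z ≤ Dv W v * nm v 1 X Z := mul_le_mul_of_nonneg_left hZ hD.le
    have h2 : 0 ≤ v (W.b₂ / 12) * nm v 1 X Z := by positivity
    nlinarith

omit [AdmissibleAbsValues K] in
theorem locM_le {v : AbsoluteValue K ℝ} (hm : IsMul W v) {X Z : K} (h : X ≠ 0 ∨ Z ≠ 0) :
    locM W v X Z - Real.log (nm v 1 X Z) ≤ Real.log (1 + v (rr W) + lv W v) := by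
  have hD := hm.lv_pos
  have hb := v.nonneg (rr W)
  have hn := nm_pos v one_pos h
  have hX : v X ≤ nm v 1 X Z := le_max_left _ _
  have hZ : v Z ≤ nm v 1 X Z := by
    refine le_trans ?_ (le_max_right _ _)
    rw [one_mul]
  rw [sub_le_iff_le_add, ← Real.log_mul (by positivity) hn.ne', locM]
  apply Real.log_le_log (nm_pos v hD (or_sub h _))
  apply max_le
  · rw [sub_eq_add_neg]
    refine (v.add_le _ _).trans ?_
    rw [map_neg_eq_map, map_mul]
    have h1 : v (rr W) * v Z ≤ v (rr W) * nm v 1 X Z :=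
      mul_le_mul_of_nonneg_left hZ hb
    have h2 : 0 ≤ lv W v * nm v 1 X Z := by positivity
    nlinarith
  · have h1 : lv W v * v Z ≤ lv W v * nm v 1 X Z := mul_le_mul_of_nonneg_left hZ hD.le
    have h2 : 0 ≤ v (rr W) * nm v 1 X Z := by positivity
    nlinarith

/-- `Φ` is bounded above by the height. -/
theorem Ph_le (hΔ : W.Δ ≠ 0) (S : Finset (NV K)) : ∃ B : ℝ, ∀ X Z : K, (X ≠ 0 ∨ Z ≠ 0) →
    Ph W S X Z ≤ logHeight ![X, Z] + B := by
  refine ⟨asum K (fun v => Real.log (1 + v (W.b₂ / 12) + Dv W v)) +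
    ∑ v ∈ S, (|Real.log (1 + v.val (W.b₂ / 12) + Dv W v.val)| +
      |Real.log (1 + v.val (rr W) + lv W v.val)|), fun X Z h => ?_⟩
  have h1 : asum K (fun v => locA W v X Z - Real.log (nm v 1 X Z)) ≤
      asum K (fun v => Real.log (1 + v (W.b₂ / 12) + Dv W v)) :=
    asum_le fun v _ => locA_le hΔ v h
  have h2 : ∑ v ∈ S, (loc W v.val X Z - Real.log (nm v.val 1 X Z)) ≤
      ∑ v ∈ S, (|Real.log (1 + v.val (W.b₂ / 12) + Dv W v.val)| +
      |Real.log (1 + v.val (rr W) + lv W v.val)|) := by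
    apply Finset.sum_le_sum
    intro v _
    unfold loc
    split_ifs with hm
    · have := locM_le hm h
      have a := le_abs_self (Real.log (1 + v.val (rr W) + lv W v.val))
      have b := abs_nonneg (Real.log (1 + v.val (W.b₂ / 12) + Dv W v.val))
      linarith
    · have := locA_le hΔ v.val h
      have a := abs_nonneg (Real.log (1 + v.val (rr W) + lv W v.val))
      have b := le_abs_self (Real.log (1 + v.val (W.b₂ / 12) + Dv W v.val))
      linarith
  unfold Ph
  linarith

open Classical in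
/-- `Φ` of an affine point. -/
theorem Ph_ge (hΔ : W.Δ ≠ 0) {S : Finset (NV K)} (hS : Big W S) (X : K) :
    1 / 6 * ∑ v ∈ S, (if IsMul W v.val then -Real.log (qv W v.val) else 0) ≤ Ph W S X 1 := by
  have h : X ≠ 0 ∨ (1 : K) ≠ 0 := Or.inr one_ne_zero
  have h0 := height_ge (X := X) S
  have hp := log_prod_formula hΔ S (fun v hv => hS.disc v hv)
  have hA : asum K (fun v => 1 / 6 * Real.log (v W.Δ)) ≤ asum K (fun v => locA W v X 1) := by
    apply asum_le
    intro v _
    rw [← log_Dv v hΔ, locA]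
    apply Real.log_le_log (Dv_pos hΔ v)
    refine le_trans ?_ (le_max_right _ _)
    rw [map_one, mul_one]
  have hB : ∑ v ∈ S, (1 / 6 * Real.log (v.val W.Δ) +
      1 / 6 * (if IsMul W v.val then -Real.log (qv W v.val) else 0)) ≤
      ∑ v ∈ S, loc W v.val X 1 := by
    apply Finset.sum_le_sum
    intro v _
    unfold loc
    split_ifs with hm
    · have hc := hm.c4
      have e : 1 / 6 * Real.log (v.val W.Δ) + 1 / 6 * -Real.log (qv W v.val) =
          Real.log (lv W v.val) := by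
        rw [qv, Real.log_div (v.val.pos hΔ).ne' (pow_pos hc 3).ne', Real.log_pow, lv,
          Real.log_sqrt hc.le]
        push_cast
        ring
      rw [e, locM]
      apply Real.log_le_log hm.lv_pos
      refine le_trans ?_ (le_max_right _ _)
      rw [map_one, mul_one]
    · rw [mul_zero, add_zero, ← log_Dv v.val hΔ, locA]
      apply Real.log_le_log (Dv_pos hΔ v.val)
      refine le_trans ?_ (le_max_right _ _)
      rw [map_one, mul_one]
  rw [asum_mul] at hA
  rw [Finset.sum_add_distrib, ← Finset.mul_sum, ← Finset.mul_sum] at hB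
  unfold Ph
  rw [asum_sub, Finset.sum_sub_distrib]
  unfold asum at *
  linarith

end Pool.Agent.Helper86.LH
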