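import Pool.Agent.Helper86.LH.LawT
import Pool.Agent.Helper86.LH.Inv
import Pool.Agent.Helper51.Par

/-!
The local law for the points of an elliptic curve at a place with `|j| > 1`.
-/

namespace Pool.Agent.Helper86.LH

open WeierstrassCurve WeierstrassCurve.Affine WeierstrassCurve.Affine.Point
open Pool.Agent.Helper51.Par

variable {K : Type*} [Field K] (W : WeierstrassCurve.Affine K)

/-- `|j| > 1`. -/
def IsMul (v : AbsoluteValue K ℝ) : Prop := v W.Δ < v W.c₄ ^ 3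

/-- `|j|⁻¹`. -/
noncomputable def qv (v : AbsoluteValue K ℝ) : ℝ := v W.Δ / v W.c₄ ^ 3

/-- `|c₄|^(1/2)`. -/
noncomputable def lv (v : AbsoluteValue K ℝ) : ℝ := Real.sqrt (v W.c₄)

/-- Component coordinate of a point. -/
noncomputable def tv (v : AbsoluteValue K ℝ) (P : W.Point) : ℝ :=
  tt v (lv W v) (qv W v) (P.xRep 0 - rr W * P.xRep 1) (P.xRep 1)

variable {W}

theorem IsMul.c4 {v : AbsoluteValue K ℝ} (h : IsMul W v) : 0 < v W.c₄ := by
  rcases (v.nonneg W.c₄).eq_or_lt with h0 | h0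
  · rw [IsMul, ← h0] at h
    have := v.nonneg W.Δ
    norm_num at h
    linarith
  · exact h0

theorem IsMul.lv_pos {v : AbsoluteValue K ℝ} (h : IsMul W v) : 0 < lv W v :=
  Real.sqrt_pos.mpr h.c4

theorem IsMul.qv_lt {v : AbsoluteValue K ℝ} (h : IsMul W v) : qv W v < 1 := by
  rw [qv, div_lt_one (pow_pos h.c4 3)]
  exact h

theorem IsMul.qv_pos {v : AbsoluteValue K ℝ} (h : IsMul W v) (hΔ : W.Δ ≠ 0) : 0 < qv W v :=
  div_pos (v.pos hΔ) (pow_pos h.c4 3)

theorem xRep_or (P : W.Point) : P.xRep 0 - rr W * P.xRep 1 ≠ 0 ∨ P.xRep 1 ≠ 0 := by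
  by_cases h1 : P.xRep 1 = 0
  · left
    rw [h1, mul_zero, sub_zero]
    intro h0
    apply xRep_ne_zero P
    ext i
    fin_cases i
    · exact h0
    · exact h1
  · exact Or.inr h1

theorem tv_bounds {v : AbsoluteValue K ℝ} (h : IsMul W v) (hΔ : W.Δ ≠ 0) (P : W.Point) :
    0 ≤ tv W v P ∧ tv W v P ≤ 1 / 2 :=
  tt_bounds v (h.qv_pos hΔ) h.qv_lt h.lv_pos (xRep_or P)

theorem tv_zero {v : AbsoluteValue K ℝ} (h : IsMul W v) (hΔ : W.Δ ≠ 0) :
    tv W v (0 : W.Point) = 0 := by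
  rw [tv, xRep_zero]
  simp only [Matrix.cons_val_zero, Matrix.cons_val_one, mul_zero, sub_zero]
  exact tt_inf v (h.qv_pos hΔ) h.qv_lt one_ne_zero

theorem tv_law [DecidableEq K] [W.IsElliptic] {v : AbsoluteValue K ℝ} (hv : IsNonarchimedean v)
    (h : IsMul W v) (P Q : W.Point) :
    tv W v (P + Q) + tv W v (P - Q) = |tv W v P - tv W v Q| +
      min (tv W v P + tv W v Q) (1 - (tv W v P + tv W v Q)) := by
  have hΔ : W.Δ ≠ 0 := by
    have := W.isUnit_Δ
    exact this.ne_zero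
  obtain ⟨c, hc, he⟩ := addSubMap_sym2x W P Q
  rw [addSubMap_eval] at he
  have e0 := congrFun he 0
  have e1 := congrFun he 1
  have e2 := congrFun he 2
  simp only [sym2x, Matrix.cons_val_zero, Matrix.cons_val_one, Matrix.cons_val, Pi.smul_apply,
    smul_eq_mul] at e0 e1 e2
  obtain ⟨s2, s4, s6, s8⟩ := tr_sizes W v hv hΔ h
  refine law_t v hv (h.qv_pos hΔ) h.qv_lt h.lv_pos s2 s4 s6 s8 (xRep_or P) (xRep_or Q)
    (xRep_or (P + Q)) (xRep_or (P - Q)) hc ?_ ?_ ?_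
  · rw [tr_N]
    linear_combination e0 - rr W * e1 + rr W ^ 2 * e2
  · rw [tr_S]
    linear_combination e1 - 2 * rr W * e2
  · linear_combination e2

end Pool.Agent.Helper86.LH
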